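import Pool.Agent.MP42.TQ.LayG
import Pool.Agent.MP42.O3.Rank

/-!
# Edge unfoldings from layouts, all regions and rings (owner helper18)

`LayoutThm K`: on every planar connected big map there is, for every root ring which has an edge
with a real unit to another ring, a layout with a token system.  `unfold_of_layout`: this gives
the edge unfoldings.  The regions with one ring have a pole, the regions without vertices of
valence at least three have at most two rings; in both cases the strands cross one unit.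
-/

set_option autoImplicit false
set_option linter.unusedSectionVars false

namespace Pool.Agent.MP42.EO

open Pool.Agent.Helper55.UNF Pool.Agent.Helper55.UNF.GridSolid Pool.Agent.MP42.NE
open Pool.Agent.MP42.Geo Pool.Agent.MP42NG Pool.Agent.MP42 Pool.Agent.MP42.O3
open Pool.Agent.MP42.PL

variable {Q : GridSolid} {a b : Fin 3}

/-- an invariant subset of a planar map -/
lemma Plan.sub {D : Type*} [Fintype D] {M : BM D} (h : Plan M.E M.τ) (W : D → Prop)
    [Fintype {x // W x}] (hE : ∀ x, W (M.E x) ↔ W x) (hτ : ∀ x, W (M.τ x) ↔ W x) :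
    Plan (M.sub W hE hτ).E (M.sub W hE hτ).τ := by
  classical
  intro c h1 h2 h3
  set c' : D → ZMod 2 := fun x => if hx : W x then c ⟨x, hx⟩ else 0 with hc'
  have e0 : ∀ x : {x // W x}, c' x.1 = c x := fun x => by
    rw [hc']; simp only; rw [dif_pos x.2]
  have e1 : ∀ x, ¬ W x → c' x = 0 := fun x hx => by
    rw [hc']; simp only; rw [dif_neg hx]
  have hcyc : ∀ x y : {x // W x}, M.E.SameCycle x.1 y.1 ↔ (M.sub W hE hτ).E.SameCycle x y := by
    intro x y
    have key : ∀ n : ℕ, (((M.sub W hE hτ).E ^ n) x).1 = (M.E ^ n) x.1 := by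
      intro n
      induction n with
      | zero => rfl
      | succ n ih =>
        rw [pow_succ', Equiv.Perm.mul_apply, BM.sub_E, ih, pow_succ', Equiv.Perm.mul_apply]
    constructor
    · intro h
      obtain ⟨n, hn⟩ := h.exists_nat_pow_eq
      refine ⟨(n : ℤ), ?_⟩
      rw [zpow_natCast]
      exact Subtype.ext ((key n).trans hn)
    · intro h
      obtain ⟨n, hn⟩ := h.exists_nat_pow_eq
      refine ⟨(n : ℤ), ?_⟩
      rw [zpow_natCast, ← key, hn]
  obtain ⟨χ, hχ, hχ'⟩ := h c' (fun x => by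
    by_cases hx : W x
    · have := h1 ⟨x, hx⟩
      rw [← e0, ← e0] at this
      exact this
    · rw [e1 x hx, e1 _ (fun h' => hx ((hτ x).1 h'))]) (fun x hx => by
    by_cases hx' : W x
    · rw [show c' x = c ⟨x, hx'⟩ from e0 ⟨x, hx'⟩]
      exact h2 ⟨x, hx'⟩ (Subtype.ext hx)
    · exact e1 x hx') (fun x => by
    by_cases hx : W x
    · have h4 := h3 ⟨x, hx⟩
      unfold cs at h4 ⊢
      rw [← h4]
      symm
      apply Finset.sum_bij_ne_zero (fun (y : {x // W x}) _ _ => y.1)
      · intro y hy _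
        simp only [Finset.mem_filter, Finset.mem_univ, true_and] at hy ⊢
        exact (hcyc ⟨x, hx⟩ y).2 hy
      · intro y _ _ z _ _ h
        exact Subtype.ext h
      · intro y hy hne
        have hy' : W y := by
          by_contra hc
          exact hne (e1 y hc)
        simp only [Finset.mem_filter, Finset.mem_univ, true_and] at hy
        refine ⟨⟨y, hy'⟩, ?_, ?_, rfl⟩
        · simp only [Finset.mem_filter, Finset.mem_univ, true_and]
          exact (hcyc ⟨x, hx⟩ ⟨y, hy'⟩).1 hy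
        · rw [← e0]; exact hne
      · intro y _ _
        exact (e0 y).symm
    · refine cs_zero x (fun y hy => e1 y (fun h' => hx ?_))
      exact (cyc_iff (g := W) hE hy).1 h')
  refine ⟨fun x => χ x.1, fun x => ?_, fun x => ?_⟩
  · have := hχ x.1
    rw [← BM.sub_E (hE := hE) (hτ := hτ) x, e0] at this
    exact this
  · have := hχ' x.1
    rw [e0] at this
    exact this

/-- the rank on an invariant subset -/
lemma rank_sub {D : Type*} {M : BM D} {W : D → Prop} {hE : ∀ x, W (M.E x) ↔ W x}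
    {hτ : ∀ x, W (M.τ x) ↔ W x} (h : ∃ ru rd : D → ℕ, M.Rank ru rd) :
    ∃ ru rd : {x // W x} → ℕ, (M.sub W hE hτ).Rank ru rd := by
  obtain ⟨ru, rd, h⟩ := h
  have hA : ∀ x z : {x // W x}, (M.sub W hE hτ).Aft x z → M.Aft x.1 z.1 := by
    intro x z h1
    rcases h1 with h1 | h1 | h1
    · exact Or.inl (congrArg Subtype.val h1)
    · exact Or.inr (Or.inl (congrArg Subtype.val h1))
    · exact Or.inr (Or.inr (congrArg Subtype.val h1))
  exact ⟨fun x => ru x.1, fun x => rd x.1, fun x z h1 h2 h3 => h.up x.1 z.1 h1 h2 (hA x z h3),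
    fun x z h1 h2 h3 => h.dn x.1 z.1 h1 h2 (hA x z h3)⟩

/-- **What has to be shown about planar connected big maps** in which all vertices have at least
three corners: for every corner `r` before an edge with a real unit to another circle and both signs
there is a layout with a token system whose root circle is the circle of `r`. -/
def LayoutThm (K : ℕ) : Prop :=
  ∀ (D : Type) [Fintype D] (M : BM D) (r : D) (s : ℤ), Plan M.E M.τ →
    (∃ ru rd : D → ℕ, M.Rank ru rd) → (∀ x, M.ν x ≠ x) → (∀ x, M.ν (M.ν x) ≠ x) →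
    (∀ x y, Reg M.E M.τ x y) → M.ek (M.ν r) = .R → ¬ M.E.SameCycle r (M.ν r) →
    (s = 1 ∨ s = -1) →
    ∃ (L : Layt M) (sg : L.Tok → ℤ) (cls sw : L.Tok → Prop) (Pos : L.Tok → Bool → Prop)
      (a0 : L.Tok → Bool), L.OK ∧ L.Mono Pos ∧
      TkE L.F L.lam L.wt K (L.idt r) s sg cls sw L.okt Pos a0

/-- paths inside a region -/
lemma reg_sub {D : Type*} {M : BM D} {x₀ : D} {x y : D} (h : Reg M.E M.τ x y) :
    ∀ (hx : Reg M.E M.τ x₀ x) (hy : Reg M.E M.τ x₀ y),
      Reg (M.sub (Reg M.E M.τ x₀) (fun _ => Reg.E_iff) (fun _ => Reg.τ_iff)).E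
        (M.sub (Reg M.E M.τ x₀) (fun _ => Reg.E_iff) (fun _ => Reg.τ_iff)).τ ⟨x, hx⟩ ⟨y, hy⟩ := by
  induction h with
  | rel x y h =>
    intro hx hy
    rcases h with rfl | rfl
    · exact reg_E (⟨x, hx⟩ : {x // Reg M.E M.τ x₀ x})
    · exact reg_τ (⟨x, hx⟩ : {x // Reg M.E M.τ x₀ x})
  | refl x => intro _ _; exact Reg.refl _
  | symm x y _ ih => intro hx hy; exact (ih hy hx).symm
  | trans x y z h1 _ ih1 ih2 =>
    intro hx hz
    have hy : Reg M.E M.τ x₀ y := hx.trans h1
    exact (ih1 hx hy).trans (ih2 hy hz)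

section

variable (hab : a ≠ b)

/-- an edge with a real unit -/
lemma ek_of_HR {P : Type*} [Finite P] {U : UM P} {c : U.D} (h : U.HR c) :
    U.toBM.ek (U.toBM.ν c) = .R := by
  have h1 : U.toBM.ek (U.toBM.ν c) = U.ek' (U.τ' (U.E' c)) := rfl
  rw [h1, UM.ek'_τ']
  unfold UM.ek'
  have e : U.E'.symm (U.E' c) = c := Equiv.symm_apply_apply _ _
  rw [e, if_pos h]

/-- the ring behind an edge -/
lemma cyc_unit {P : Type*} [Finite P] {U : UM P} {c : U.D} : ∀ {j : ℕ}, j ≤ U.len c →
    U.E.SameCycle (U.τ ((U.E ^ (j + 1)) c.1)) (U.n c.1) := by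
  intro j
  induction j with
  | zero => intro _; exact sR _
  | succ j ih =>
    intro hj
    have h1 : ¬ U.Bg ((U.E ^ (j + 1)) c.1) := retN_not (by unfold UM.len at hj; omega)
    have h2 := UM.back h1
    rw [pow_succ', Equiv.Perm.mul_apply]
    refine Equiv.Perm.SameCycle.trans ?_ (ih (by omega))
    rw [← h2, sE]

/-- the requirement at every root dart -/
theorem goal_all (hP : Q.IsOrthogonalPolyhedron) (h0 : Pool.BW.eul Q = 2) {K : ℕ} (hK : 2 ≤ K)
    (h : LayoutThm K) (r : (TAl hP.1 hab).TR hab) {s : ℤ} (hs : s = 1 ∨ s = -1)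
    (t0 t1 : Bool) : GoalM hP.1 hab (K + 1) r s t0 t1 := by
  classical
  obtain ⟨u0, hu0⟩ := exists_bs hP.1 hab r
  have hGE : ∀ y, Reg ((TAl hP.1 hab).EE hab) ((TAl hP.1 hab).tau hab) r
      ((TAl hP.1 hab).EE hab y) ↔ Reg ((TAl hP.1 hab).EE hab) ((TAl hP.1 hab).tau hab) r y :=
    fun _ => Reg.E_iff
  have hGτ : ∀ y, Reg ((TAl hP.1 hab).EE hab) ((TAl hP.1 hab).tau hab) r
      ((TAl hP.1 hab).tau hab y) ↔ Reg ((TAl hP.1 hab).EE hab) ((TAl hP.1 hab).tau hab) r y :=
    fun _ => Reg.τ_iff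
  have hin : ∀ {w : RD Q a b}, Reg (EH hab) (tH hab) u0 w →
      Reg ((TAl hP.1 hab).EE hab) ((TAl hP.1 hab).tau hab) r (d0' hP.1 hab w) := fun h =>
    (Reg.cyc (bs_cyc hP.1 hab hu0)).trans (reg_of_RD hP.1 hab h)
  by_cases hone : ∀ z, Reg (EH hab) (tH hab) u0 z → (EH hab).SameCycle u0 z
  · -- one ring
    obtain ⟨d, hd, hd'⟩ := pole_sysH hab hP h0 (fun x hx => rib_ta hab x hx) u0 hone
    have hd : Reg (EH hab) (tH hab) u0 d := hd
    have hd' : (UMH hP.1 hab).n d = d := hd'
    obtain ⟨u, hu, hok⟩ : ∃ u, Reg (EH hab) (tH hab) u0 u ∧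
        (Thin.okT (d0' hP.1 hab u).1 (decide (s = 1)) t0 t1 ∨
          Thin.okT (d0' hP.1 hab u).1 (decide (s = 1)) t1 t0) := by
      by_cases ht : t0 = t1
      · obtain ⟨k, hk⟩ := UM.real_of_pole hd'
        refine ⟨(EH hab ^ k) d, hd.trans (Reg.cyc (s_pow _ _)), Or.inl ?_⟩
        rw [okT_d0']
        have hk' : psH ((EH hab ^ k) d) = .r := hk
        rw [hk']
        exact ht
      · refine ⟨d, hd, ?_⟩
        have hk : psH d = .h := (UMH hP.1 hab).v1 d hd'
        rw [okT_d0', okT_d0', hk]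
        cases t0 <;> cases t1
        · exact absurd rfl ht
        · exact Or.inl ⟨rfl, rfl⟩
        · exact Or.inr ⟨rfl, rfl⟩
        · exact absurd rfl ht
    refine goal_unit hP.1 hab (u := u) (exists_solA (okT_oks hP.1 hab) (okT_f hP.1 hab)
      (okT_g hP.1 hab) (tau_tau hP.1 hab) hGE hGτ (hin hu) (Reg.refl _) ?_ ?_ hs hK t0 t1 hok)
    · intro h1
      rw [tau_d0] at h1
      exact tH_ne hab u (d0'_inj hP.1 hab h1)
    · intro y hy
      obtain ⟨z, hz⟩ := exists_bs hP.1 hab y
      rw [bs_same hP.1 hab (Or.inl rfl) hz]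
      exact (hone u hu).symm.trans (hone z (bs_reg hP.1 hab hu0 hz hy))
  push Not at hone
  obtain ⟨z, hz, hne⟩ := hone
  obtain ⟨u, hu1, hu2, hu3⟩ := UM.exists_real_sep (U := UMH hP.1 hab) hz hne
  have hu1 : (EH hab).SameCycle u0 u := hu1
  have hu2 : ¬ (EH hab).SameCycle u0 (tH hab u) := hu2
  have hu3 : psH u = .r := hu3
  by_cases hB : (UMH hP.1 hab).BgR u0
  · -- corners
    obtain ⟨y, hy, hb⟩ := hB
    have hy : (EH hab).SameCycle u0 y := hy
    obtain ⟨x, j, hj, hux⟩ := exists_seg hP.1 hab ⟨y, hy.symm.trans hu1, hb⟩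
    have hx : (EH hab).SameCycle u0 x.1 := by
      have h1 : (EH hab).SameCycle x.1 u := by rw [hux]; exact s_pow _ _
      exact hu1.trans h1.symm
    have hHR : (UMH hP.1 hab).HR x := ⟨j, hj, by
      have : psH ((EH hab ^ (j + 1)) x.1) = .r := by rw [← hux]; exact hu3
      exact this⟩
    have hν : ∀ y, (((BMr hP.1 hab x).ν y).1).1 = (UMH hP.1 hab).n y.1.1 := by
      intro y
      have e3 : ((BMr hP.1 hab x).ν y).1 = (UMH hP.1 hab).toBM.ν y.1 := rfl
      rw [e3, UM.ν_toBM]; rfl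
    have hM := h {y // Reg (UMH hP.1 hab).toBM.E (UMH hP.1 hab).toBM.τ x y}
      (BMr hP.1 hab x) ⟨x, Reg.refl _⟩ s (Plan.sub (plan_BM hP h0 hP.1 hab) _ _ _)
      (rank_sub (UM.rank (UMH hP.1 hab)))
      (fun y h1 => by
        have h2 := congrArg (fun z => z.1.1) h1
        simp only [hν] at h2
        exact y.1.2.1 h2)
      (fun y h1 => by
        have h2 := congrArg (fun z => z.1.1) h1
        simp only [hν] at h2
        exact y.1.2.2 h2)
      (fun y z => reg_sub (y.2.symm.trans z.2) y.2 z.2) ?_ ?_ hs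
    · obtain ⟨L, sg, cls, sw, Pos, a0, hOK, hmono, H⟩ := hM
      exact goal_big hP.1 hab (x₀ := x)
        ((bs_same hP.1 hab hu0 (Or.inl rfl)).2 hx) hOK hmono H t0 t1
    · exact ek_of_HR hHR
    · intro h1
      apply hu2
      obtain ⟨n, hn⟩ := h1.exists_nat_pow_eq
      have key : ∀ n : ℕ, (EH hab).SameCycle x.1 ((((BMr hP.1 hab x).E ^ n)
          ⟨x, Reg.refl _⟩).1).1 := by
        intro n
        induction n with
        | zero => exact sR _
        | succ n ih =>
          rw [pow_succ', Equiv.Perm.mul_apply]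
          refine ih.trans ?_
          have e : ((BMr hP.1 hab x).E (((BMr hP.1 hab x).E ^ n) ⟨x, Reg.refl _⟩)).1.1 =
            (EH hab ^ ((UMH hP.1 hab).len (((BMr hP.1 hab x).E ^ n) ⟨x, Reg.refl _⟩).1 + 1))
              ((((BMr hP.1 hab x).E ^ n) ⟨x, Reg.refl _⟩).1).1 :=
            UM.E'_val (U := UMH hP.1 hab) _
          rw [e]
          exact s_pow _ _
      have h2 := key n
      rw [hn] at h2
      rw [hν] at h2
      have h3 := cyc_unit (U := UMH hP.1 hab) hj
      have h4 : (EH hab).SameCycle (tH hab ((EH hab ^ (j + 1)) x.1)) ((UMH hP.1 hab).n x.1) := h3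
      rw [← hux] at h4
      exact hx.trans (h2.trans h4.symm)
  · -- two rings
    have hBu : ¬ (UMH hP.1 hab).BgR u := fun h1 =>
      hB ((UM.bgR_reg (Reg.cyc (E := (UMH hP.1 hab).E) (τ := (UMH hP.1 hab).τ) hu1)).2 h1)
    have hBt : ¬ (UMH hP.1 hab).BgR (tH hab u) := fun h1 => hBu (UM.bgR_τ.1 h1)
    have hne' : ¬ (EH hab).SameCycle u (tH hab u) := fun h1 => hu2 (hu1.trans h1)
    have hall : ∀ z, Reg (EH hab) (tH hab) u0 z →
        ((EH hab).SameCycle u z ∨ (EH hab).SameCycle (tH hab u) z) := by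
      intro z hz
      have h1 := Reg.inv hz (ψ := fun z => (EH hab).SameCycle u z ∨
        (EH hab).SameCycle (tH hab u) z) (fun x => by simp only [sE]) (fun x => by
          have h2 : ∀ x, ((EH hab).SameCycle u x ∨ (EH hab).SameCycle (tH hab u) x) →
              ((EH hab).SameCycle u (tH hab x) ∨ (EH hab).SameCycle (tH hab u) (tH hab x)) := by
            intro x hx
            rcases hx with hx | hx
            · exact Or.inr (UM.τ_ring (U := UMH hP.1 hab) hBu hx)
            · left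
              have h3 := UM.τ_ring (U := UMH hP.1 hab) hBt hx
              have h4 : (EH hab).SameCycle (tH hab (tH hab u)) (tH hab x) := h3
              rwa [tH_tH] at h4
          constructor
          · intro h3
            have h4 := h2 _ h3
            rwa [tH_tH] at h4
          · exact h2 x)
      exact h1.1 (Or.inl hu1.symm)
    refine goal_unit hP.1 hab (u := u) (exists_solB (okT_oks hP.1 hab) (okT_f hP.1 hab)
      (okT_g hP.1 hab) (tau_tau hP.1 hab) hGE hGτ (hin (Reg.cyc hu1)) ?_ ?_ ?_ hs hK t0 t1 ?_)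
    · rw [bs_same hP.1 hab (Or.inl rfl) hu0]
      exact hu1.symm
    · rw [tau_d0, bs_same hP.1 hab (Or.inl rfl) (Or.inl rfl)]
      exact hne'
    · intro y hy
      obtain ⟨z, hz⟩ := exists_bs hP.1 hab y
      rw [tau_d0, bs_same hP.1 hab (Or.inl rfl) hz, bs_same hP.1 hab (Or.inl rfl) hz]
      exact hall z (bs_reg hP.1 hab hu0 hz hy)
    · intro s' t
      rw [okT_d0', hu3]
      exact rfl

/-- **Edge unfoldings from layouts**: `LayoutThm K` suffices. -/
theorem unfold_of_layout {K : ℕ} (hK : 2 ≤ K) (h : LayoutThm K) {Q : GridSolid}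
    (hP : Q.IsOrthogonalPolyhedron) (h0 : Pool.BW.eul Q = 2) {N : ℕ}
    (hN : 5 * (6 * (24 * (K + 1) + 24) + 1) + 1 ≤ N) (hn : 0 < 2 * N + 1) :
    (Q.refine (2 * N + 1) hn).HasEdgeUnfolding := by
  have hab : (0 : Fin 3) ≠ 1 := by decide
  refine unfold_of_piecesT (TAl hP.1 hab) hab hP ((TAl hP.1 hab).piecesM_of_sols hab ?_)
    (sep_sysH hab hP h0) hN hn
  intro r s hs t0 t1
  exact goal_all hab hP h0 hK h r hs t0 t1

end

end Pool.Agent.MP42.EO
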