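import Pool.Agent.MP42.U.Wd

/-!
# Hiding (owner helper28)

A lettered word is a list of pairs (letter, token), `true` = pop, `false` = push.
`Red w w' L`: `w'` is `w` after finitely many removals of an adjacent pair (push `p`, pop `q`);
`L` = the removed pairs `(p, q)`.  A walk along `w` is a walk along `w'` together with the
equalities of the removed pairs.  `redB ok w` computes such a reduction (pairs with `ok p q`).
`Tok`: token systems; closed walks along the cycles, and the words over the corners.
-/

set_option autoImplicit false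

namespace Pool.Agent.MP42.U

variable {T : Type*}

/-- removals of adjacent pairs (push, pop) -/
inductive Red : List (Bool × T) → List (Bool × T) → List (T × T) → Prop
  | refl (w : List (Bool × T)) : Red w w []
  | step {w₁ w₂ w' : List (Bool × T)} {p q : T} {L : List (T × T)} (h : Red (w₁ ++ w₂) w' L) :
      Red (w₁ ++ (false, p) :: (true, q) :: w₂) w' ((p, q) :: L)

/-- all pairs have equal values -/
def Eqs (V : T → B) (L : List (T × T)) : Prop := ∀ p ∈ L, V p.1 = V p.2

@[simp] lemma eqs_nil (V : T → B) : Eqs V [] := by simp [Eqs]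

@[simp] lemma eqs_cons {V : T → B} {p : T × T} {L : List (T × T)} :
    Eqs V (p :: L) ↔ V p.1 = V p.2 ∧ Eqs V L := by simp [Eqs]

@[simp] lemma eqs_append {V : T → B} {L L' : List (T × T)} :
    Eqs V (L ++ L') ↔ Eqs V L ∧ Eqs V L' := by
  simp only [Eqs, List.mem_append]
  constructor
  · exact fun h => ⟨fun p hp => h p (Or.inl hp), fun p hp => h p (Or.inr hp)⟩
  · rintro ⟨h, h'⟩ p (hp | hp)
    · exact h p hp
    · exact h' p hp

/-- one pair -/
lemma run_pair {V : T → B} {w₁ w₂ : List (Bool × T)} {p q : T} {S S' : ℕ → B} :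
    Run (lv V (w₁ ++ (false, p) :: (true, q) :: w₂)) S S' ↔
      V p = V q ∧ Run (lv V (w₁ ++ w₂)) S S' := by
  rw [lv_append, run_append, lv_append, run_append]
  simp only [lv_cons, run_push, run_pop, push_zero, tl_push]
  constructor
  · rintro ⟨S₁, h1, h2, h3⟩
    exact ⟨h2.symm, S₁, h1, h3⟩
  · rintro ⟨h2, S₁, h1, h3⟩
    exact ⟨S₁, h1, h2.symm, h3⟩

namespace Red

/-- **a walk = a walk along the reduced word, and equal values on the removed pairs** -/
theorem run_iff {w w' : List (Bool × T)} {L : List (T × T)} (h : Red w w' L) {V : T → B}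
    {S S' : ℕ → B} : Run (lv V w) S S' ↔ Run (lv V w') S S' ∧ Eqs V L := by
  induction h with
  | refl w => simp
  | step h ih =>
    rw [run_pair, ih, eqs_cons]
    tauto

theorem run {w w' : List (Bool × T)} {L : List (T × T)} (h : Red w w' L) {V : T → B}
    {S S' : ℕ → B} (hr : Run (lv V w) S S') : Run (lv V w') S S' := (h.run_iff.1 hr).1

theorem eqs {w w' : List (Bool × T)} {L : List (T × T)} (h : Red w w' L) {V : T → B}
    {S S' : ℕ → B} (hr : Run (lv V w) S S') : Eqs V L := (h.run_iff.1 hr).2

theorem run_of {w w' : List (Bool × T)} {L : List (T × T)} (h : Red w w' L) {V : T → B}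
    {S S' : ℕ → B} (hr : Run (lv V w') S S') (hL : Eqs V L) : Run (lv V w) S S' :=
  h.run_iff.2 ⟨hr, hL⟩

theorem le {w w' : List (Bool × T)} {L : List (T × T)} (h : Red w w' L) (V : T → B) :
    Le V w w' := fun _ _ hr => h.run hr

theorem le_of {w w' : List (Bool × T)} {L : List (T × T)} (h : Red w w' L) {V : T → B}
    (hL : Eqs V L) : Le V w' w := fun _ _ hr => h.run_of hr hL

/-- closed walks -/
theorem cl_iff {w w' : List (Bool × T)} {L : List (T × T)} (h : Red w w' L) {V : T → B} :
    Cl V w ↔ Cl V w' ∧ Eqs V L := by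
  constructor
  · rintro ⟨S, h1, h2⟩
    exact ⟨⟨S, h.run h1, h2⟩, h.eqs h1⟩
  · rintro ⟨⟨S, h1, h2⟩, h3⟩
    exact ⟨S, h.run_of h1 h3, h2⟩

theorem append_left {w w' : List (Bool × T)} {L : List (T × T)} (h : Red w w' L)
    (u : List (Bool × T)) : Red (u ++ w) (u ++ w') L := by
  induction h with
  | refl w => exact Red.refl _
  | @step w₁ w₂ w' p q L h ih =>
    rw [← List.append_assoc] at ih ⊢
    exact Red.step ih

theorem append_right {w w' : List (Bool × T)} {L : List (T × T)} (h : Red w w' L)
    (u : List (Bool × T)) : Red (w ++ u) (w' ++ u) L := by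
  induction h with
  | refl w => exact Red.refl _
  | @step w₁ w₂ w' p q L h ih =>
    rw [List.append_assoc] at ih ⊢
    exact Red.step ih

theorem trans {w w' w'' : List (Bool × T)} {L L' : List (T × T)} (h : Red w w' L)
    (h' : Red w' w'' L') : Red w w'' (L ++ L') := by
  induction h with
  | refl w => exact h'
  | step h ih => exact Red.step (ih h')

theorem append {w w' u u' : List (Bool × T)} {L M : List (T × T)} (h : Red w w' L)
    (h' : Red u u' M) : Red (w ++ u) (w' ++ u') (L ++ M) :=
  (h.append_right u).trans (h'.append_left w')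

theorem cons {w w' : List (Bool × T)} {L : List (T × T)} (q : Bool × T) (h : Red w w' L) :
    Red (q :: w) (q :: w') L := h.append_left [q]

/-- a pair in front -/
theorem pair {w w' : List (Bool × T)} {L : List (T × T)} {p q : T} (h : Red w ((true, q) :: w') L) :
    Red ((false, p) :: w) w' (L ++ [(p, q)]) :=
  (h.cons (false, p)).trans (Red.step (w₁ := []) (Red.refl w'))

/-- **concatenation over the corners** -/
theorem flatMap {X : Type*} {xs : List X} {cw vw : X → List (Bool × T)} {L : X → List (T × T)}
    (h : ∀ x ∈ xs, Red (cw x) (vw x) (L x)) :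
    Red (xs.flatMap cw) (xs.flatMap vw) (xs.flatMap L) := by
  induction xs with
  | nil => exact Red.refl _
  | cons x xs ih =>
    simp only [List.flatMap_cons]
    exact (h x List.mem_cons_self).append (ih fun y hy => h y (List.mem_cons_of_mem _ hy))

/-- the height does not change -/
theorem hl_eq {w w' : List (Bool × T)} {L : List (T × T)} (h : Red w w' L) : hl w = hl w' := by
  induction h with
  | refl w => rfl
  | step h ih =>
    rw [← ih]
    simp

theorem sublist {w w' : List (Bool × T)} {L : List (T × T)} (h : Red w w' L) : w'.Sublist w := by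
  induction h with
  | refl w => exact List.Sublist.refl w
  | @step w₁ w₂ w' p q L h ih =>
    refine ih.trans ?_
    refine List.Sublist.append (List.Sublist.refl _) ?_
    exact (List.sublist_cons_self _ _).trans (List.sublist_cons_self _ _)

/-- the tokens of `w` = the tokens of `w'` and the removed ones -/
theorem perm {w w' : List (Bool × T)} {L : List (T × T)} (h : Red w w' L) :
    (w.map Prod.snd).Perm (w'.map Prod.snd ++ L.flatMap fun p => [p.1, p.2]) := by
  induction h with
  | refl w => simp
  | @step w₁ w₂ w' p q L h ih =>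
    simp only [List.map_append, List.map_cons, List.flatMap_cons] at ih ⊢
    have h1 : (w₁.map Prod.snd ++ p :: q :: w₂.map Prod.snd).Perm
        ([p, q] ++ (w₁.map Prod.snd ++ w₂.map Prod.snd)) := by
      have h2 : (w₁.map Prod.snd ++ [p, q]).Perm ([p, q] ++ w₁.map Prod.snd) :=
        List.perm_append_comm
      have h3 := h2.append_right (w₂.map Prod.snd)
      simpa [List.append_assoc] using h3
    refine h1.trans ((ih.append_left [p, q]).trans ?_)
    rw [← List.append_assoc, ← List.append_assoc]
    exact List.perm_append_comm.append_right _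

/-- the letters of the removed pairs -/
theorem mem_of {w w' : List (Bool × T)} {L : List (T × T)} (h : Red w w' L) {p : T × T}
    (hp : p ∈ L) : (false, p.1) ∈ w ∧ (true, p.2) ∈ w := by
  induction h with
  | refl w => simp at hp
  | @step w₁ w₂ w' a b L h ih =>
    rcases List.mem_cons.1 hp with h1 | h1
    · subst h1
      simp
    · have h2 := ih h1
      simp only [List.mem_append, List.mem_cons] at h2 ⊢
      tauto

/-- if exactly the hidden tokens are removed, then the reduced word is the visible part -/
theorem eq_filter {w w' : List (Bool × T)} {L : List (T × T)} (h : Red w w' L) {vis : T → Bool}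
    (hL : ∀ p ∈ L, vis p.1 = false ∧ vis p.2 = false) (hw : ∀ q ∈ w', vis q.2 = true) :
    w' = w.filter fun q => vis q.2 := by
  induction h with
  | refl w =>
    exact (List.filter_eq_self.2 hw).symm
  | @step w₁ w₂ w' p q L h ih =>
    rw [ih (fun x hx => hL x (List.mem_cons_of_mem _ hx)) hw]
    have h1 := hL (p, q) List.mem_cons_self
    simp only [List.filter_append, List.filter_cons]
    simp [h1.1, h1.2]

end Red

/-! ## The reverse word -/

/-- the reverse lettered word: pushes and pops are exchanged -/
def lrev (w : List (Bool × T)) : List (Bool × T) := (w.map fun q => (!q.1, q.2)).reverse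

@[simp] lemma lrev_nil : lrev ([] : List (Bool × T)) = [] := rfl

@[simp] lemma lrev_cons (q : Bool × T) (w : List (Bool × T)) :
    lrev (q :: w) = lrev w ++ [(!q.1, q.2)] := by simp [lrev]

@[simp] lemma lrev_append (w w' : List (Bool × T)) : lrev (w ++ w') = lrev w' ++ lrev w := by
  simp [lrev]

@[simp] lemma lrev_lrev (w : List (Bool × T)) : lrev (lrev w) = w := by
  induction w with
  | nil => rfl
  | cons q w ih => rw [lrev_cons, lrev_append, ih]; simp

lemma lv_lrev (V : T → B) (w : List (Bool × T)) : lv V (lrev w) = rev (lv V w) := by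
  induction w with
  | nil => rfl
  | cons q w ih => rw [lrev_cons, lv_append, ih]; simp

lemma hl_lrev (w : List (Bool × T)) : hl (lrev w) = - hl w := by
  induction w with
  | nil => rfl
  | cons q w ih =>
    obtain ⟨b, t⟩ := q
    rw [lrev_cons, hl_append, ih]
    cases b <;> simp

lemma lrev_flatMap {X : Type*} (xs : List X) (f : X → List (Bool × T)) :
    lrev (xs.flatMap f) = xs.reverse.flatMap fun x => lrev (f x) := by
  induction xs with
  | nil => rfl
  | cons x xs ih =>
    rw [List.flatMap_cons, lrev_append, ih, List.reverse_cons, List.flatMap_append]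
    simp

lemma run_lrev {V : T → B} {w : List (Bool × T)} {S S' : ℕ → B} (h : Run (lv V w) S S') :
    Run (lv V (lrev w)) S' S := by
  rw [lv_lrev]
  exact h.rev

lemma Cl.lrev {V : T → B} {w : List (Bool × T)} (h : Cl V w) : Cl V (lrev w) := by
  obtain ⟨S, h1, h2⟩ := h
  exact ⟨S, run_lrev h1, h2⟩

theorem Red.rev {w w' : List (Bool × T)} {L : List (T × T)} (h : Red w w' L) :
    Red (lrev w) (lrev w') (L.map Prod.swap) := by
  induction h with
  | refl w => exact Red.refl _
  | @step w₁ w₂ w' p q L h ih =>
    have h1 : lrev (w₁ ++ (false, p) :: (true, q) :: w₂) =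
        lrev w₂ ++ (false, q) :: (true, p) :: lrev w₁ := by simp
    rw [h1]
    rw [lrev_append] at ih
    exact Red.step ih

lemma eqs_swap {V : T → B} {L : List (T × T)} : Eqs V (L.map Prod.swap) ↔ Eqs V L := by
  induction L with
  | nil => simp
  | cons p L ih =>
    rw [List.map_cons, eqs_cons, eqs_cons, ih]
    exact and_congr_left fun _ => eq_comm

/-! ## A computation -/

/-- removal of the adjacent pairs (push `p`, pop `q`) with `ok p q`, and the removed pairs -/
def redB (ok : T → T → Bool) : List (Bool × T) → List (Bool × T) × List (T × T)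
  | [] => ([], [])
  | (true, t) :: w => ((true, t) :: (redB ok w).1, (redB ok w).2)
  | (false, p) :: w =>
    match (redB ok w).1 with
    | (true, q) :: w' => if ok p q then (w', (redB ok w).2 ++ [(p, q)])
        else ((false, p) :: (true, q) :: w', (redB ok w).2)
    | w' => ((false, p) :: w', (redB ok w).2)

theorem red_redB (ok : T → T → Bool) (w : List (Bool × T)) :
    Red w (redB ok w).1 (redB ok w).2 := by
  induction w with
  | nil => exact Red.refl _
  | cons q w ih =>
    obtain ⟨b, p⟩ := q
    cases b
    · rcases hw : (redB ok w).1 with _ | ⟨⟨b', q⟩, w'⟩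
      · rw [hw] at ih
        have e : redB ok ((false, p) :: w) = ([(false, p)], (redB ok w).2) := by
          rw [redB, hw]
        rw [e]
        exact ih.cons _
      · rw [hw] at ih
        cases b'
        · have e : redB ok ((false, p) :: w) = ((false, p) :: (false, q) :: w', (redB ok w).2) := by
            rw [redB, hw]
          rw [e]
          exact ih.cons _
        · by_cases ho : ok p q = true
          · have e : redB ok ((false, p) :: w) = (w', (redB ok w).2 ++ [(p, q)]) := by
              rw [redB, hw]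
              simp only [ho, if_true]
            rw [e]
            exact ih.pair
          · have e : redB ok ((false, p) :: w) =
                ((false, p) :: (true, q) :: w', (redB ok w).2) := by
              rw [redB, hw]
              simp only [ho]
              rfl
            rw [e]
            exact ih.cons _
    · exact ih.cons _

/-- with a decidable check -/
theorem red_of_redB (ok : T → T → Bool) {w w' : List (Bool × T)} {L : List (T × T)}
    (h : redB ok w = (w', L)) : Red w w' L := by
  have := red_redB ok w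
  rwa [h] at this

/-- the removed pairs satisfy `ok` -/
lemma redB_ok (ok : T → T → Bool) (w : List (Bool × T)) :
    ∀ p ∈ (redB ok w).2, ok p.1 p.2 = true := by
  induction w with
  | nil => simp [redB]
  | cons q w ih =>
    obtain ⟨b, p⟩ := q
    cases b
    · rcases hw : (redB ok w).1 with _ | ⟨⟨b', q⟩, w'⟩
      · have e : redB ok ((false, p) :: w) = ([(false, p)], (redB ok w).2) := by
          rw [redB, hw]
        rw [e]
        exact ih
      · cases b'
        · have e : redB ok ((false, p) :: w) = ((false, p) :: (false, q) :: w', (redB ok w).2) := by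
            rw [redB, hw]
          rw [e]
          exact ih
        · by_cases ho : ok p q = true
          · have e : redB ok ((false, p) :: w) = (w', (redB ok w).2 ++ [(p, q)]) := by
              rw [redB, hw]
              simp only [ho, if_true]
            rw [e]
            intro x hx
            rcases List.mem_append.1 hx with h | h
            · exact ih x h
            · rw [List.mem_singleton] at h
              rw [h]
              exact ho
          · have e : redB ok ((false, p) :: w) =
                ((false, p) :: (true, q) :: w', (redB ok w).2) := by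
              rw [redB, hw]
              simp only [ho]
              rfl
            rw [e]
            exact ih
    · exact ih

/-! ## Walks over the corners of a circle -/

section corners

variable {X : Type*} {V : T → B}

/-- the corners `x, ρ x, .., ρ ^ (n - 1) x` -/
def orb (ρ : X → X) (x : X) (n : ℕ) : List X := (List.range n).map fun m => ρ^[m] x

@[simp] lemma orb_zero (ρ : X → X) (x : X) : orb ρ x 0 = [] := rfl

lemma orb_succ (ρ : X → X) (x : X) (n : ℕ) : orb ρ x (n + 1) = orb ρ x n ++ [ρ^[n] x] := by
  unfold orb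
  rw [List.range_succ, List.map_append]
  rfl

lemma orb_cons (ρ : X → X) (x : X) (n : ℕ) : orb ρ x (n + 1) = x :: orb ρ (ρ x) n := by
  unfold orb
  rw [List.range_succ_eq_map, List.map_cons, List.map_map]
  rfl

/-- the walk over corners -/
theorem run_orb {ρ : X → X} {cw : X → List (Bool × T)} {Sx : X → ℕ → B}
    (h : ∀ x, Run (lv V (cw x)) (Sx x) (Sx (ρ x))) (x : X) (n : ℕ) :
    Run (lv V ((orb ρ x n).flatMap cw)) (Sx x) (Sx (ρ^[n] x)) := by
  induction n with
  | zero => rfl
  | succ n ih =>
    rw [orb_succ, List.flatMap_append, lv_append, run_append]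
    refine ⟨_, ih, ?_⟩
    rw [Function.iterate_succ_apply']
    simpa using h (ρ^[n] x)

/-- the same along a list of corners -/
theorem run_list {ρ : X → X} {cw : X → List (Bool × T)} {Sx : X → ℕ → B} :
    ∀ (xs : List X) (x : X), (∀ y ∈ x :: xs, Run (lv V (cw y)) (Sx y) (Sx (ρ y))) →
    List.IsChain (fun a b => ρ a = b) (x :: xs) →
    Run (lv V ((x :: xs).flatMap cw)) (Sx x)
      (Sx (ρ ((x :: xs).getLast (List.cons_ne_nil _ _)))) := by
  intro xs
  induction xs with
  | nil =>
    intro x h _
    simpa using h x List.mem_cons_self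
  | cons y xs ih =>
    intro x h hc
    rw [List.isChain_cons_cons] at hc
    rw [List.flatMap_cons, lv_append, run_append, List.getLast_cons (List.cons_ne_nil _ _)]
    refine ⟨Sx (ρ x), h x List.mem_cons_self, ?_⟩
    rw [hc.1]
    exact ih y (fun z hz => h z (List.mem_cons_of_mem _ hz)) hc.2

/-- **the closed walk of the visible words, and the equalities of the hidden pairs** -/
theorem closed_visible {ρ : X → X} {cw vw : X → List (Bool × T)} {L : X → List (T × T)}
    {Sx : X → ℕ → B} (h : ∀ x, Run (lv V (cw x)) (Sx x) (Sx (ρ x)))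
    (hr : ∀ x, Red (cw x) (vw x) (L x)) {x : X} {n : ℕ} (hx : ρ^[n] x = x) :
    Run (lv V ((orb ρ x n).flatMap vw)) (Sx x) (Sx x) ∧ Eqs V ((orb ρ x n).flatMap L) := by
  have h1 := run_orb h x n
  rw [hx] at h1
  exact (Red.flatMap fun y _ => hr y).run_iff.1 h1

/-- the same along a list of corners -/
theorem closed_list {ρ : X → X} {cw vw : X → List (Bool × T)} {L : X → List (T × T)}
    {Sx : X → ℕ → B} {xs : List X} {x : X}
    (h : ∀ y ∈ x :: xs, Run (lv V (cw y)) (Sx y) (Sx (ρ y)))
    (hr : ∀ y ∈ x :: xs, Red (cw y) (vw y) (L y))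
    (hc : List.IsChain (fun a b => ρ a = b) (x :: xs))
    (hx : ρ ((x :: xs).getLast (List.cons_ne_nil _ _)) = x) :
    Run (lv V ((x :: xs).flatMap vw)) (Sx x) (Sx x) ∧ Eqs V ((x :: xs).flatMap L) := by
  have h1 := run_list (ρ := ρ) xs x h hc
  rw [hx] at h1
  exact (Red.flatMap hr).run_iff.1 h1

/-- the converse: a closed walk of the visible words is a closed walk of all words -/
theorem closed_of_visible {cw vw : X → List (Bool × T)} {L : X → List (T × T)}
    {xs : List X} (hr : ∀ y ∈ xs, Red (cw y) (vw y) (L y)) (hV : Cl V (xs.flatMap vw))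
    (hL : ∀ y ∈ xs, Eqs V (L y)) : Cl V (xs.flatMap cw) := by
  refine (Red.flatMap hr).cl_iff.2 ⟨hV, ?_⟩
  intro p hp
  obtain ⟨y, hy, h1⟩ := List.mem_flatMap.1 hp
  exact hL y hy p h1

end corners

/-! ## Token systems -/

section tokens

variable {A : Type*}

/-- the letter of a token: `v t = 1` pop, `v t = -1` push, `v t = 0` nothing -/
def tw (v : T → ℤ) (t : T) : List (Bool × T) :=
  if v t = 1 then [(true, t)] else if v t = -1 then [(false, t)] else []

@[simp] lemma tw_one {v : T → ℤ} {t : T} (h : v t = 1) : tw v t = [(true, t)] := by simp [tw, h]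

@[simp] lemma tw_neg {v : T → ℤ} {t : T} (h : v t = -1) : tw v t = [(false, t)] := by simp [tw, h]

@[simp] lemma tw_zero {v : T → ℤ} {t : T} (h : v t = 0) : tw v t = [] := by simp [tw, h]

/-- stacks of a token system: `F t` = the next token, `Tc t` = the stack after the token `t` -/
structure TkS (F : Equiv.Perm T) (v : T → ℤ) (Tc : T → ℕ → A) : Prop where
  v3 : ∀ t, v t = 1 ∨ v t = -1 ∨ v t = 0
  st : ∀ (t : T) (j k : ℕ), (k : ℤ) = v (F t) + j → Tc (F t) j = Tc t k

/-- the value of a token: the top before a pop, the top after a push -/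
def tv (F : Equiv.Perm T) (v : T → ℤ) (Tc : T → ℕ → A) (t : T) : A :=
  if v t = 1 then Tc (F.symm t) 0 else Tc t 0

lemma tv_pop {F : Equiv.Perm T} {v : T → ℤ} {Tc : T → ℕ → A} {t : T} (h : v t = 1) :
    tv F v Tc t = Tc (F.symm t) 0 := by simp [tv, h]

lemma tv_push {F : Equiv.Perm T} {v : T → ℤ} {Tc : T → ℕ → A} {t : T} (h : v t = -1) :
    tv F v Tc t = Tc t 0 := by simp [tv, h]

lemma TkS.of_ts {F : Equiv.Perm T} {τ : T → T} {v : T → ℤ} {Tc : T → ℕ → Prop}
    (h3 : ∀ t, v t = 1 ∨ v t = -1 ∨ v t = 0) (h : NE.TS F τ v Tc) : TkS F v Tc :=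
  ⟨h3, fun t j k hk => propext (h.st t j k hk)⟩

/-- one token; `f` = values of the entries of the stacks -/
theorem TkS.run1 {F : Equiv.Perm T} {v : T → ℤ} {Tc : T → ℕ → A} (h : TkS F v Tc) (f : A → B)
    {V : T → B} {t : T} (hV : v (F t) ≠ 0 → V (F t) = f (tv F v Tc (F t))) :
    Run (lv V (tw v (F t))) (fun j => f (Tc t j)) (fun j => f (Tc (F t) j)) := by
  rcases h.v3 (F t) with h1 | h1 | h1
  · rw [tw_one h1, lv_cons, run_pop, lv_nil, run_nil, hV (by rw [h1]; norm_num), tv_pop h1,
      Equiv.symm_apply_apply]
    refine ⟨rfl, ?_⟩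
    funext j
    rw [tl_apply, h.st t j (j + 1) (by rw [h1]; push_cast; ring)]
  · rw [tw_neg h1, lv_cons, run_push, lv_nil, run_nil, hV (by rw [h1]; norm_num), tv_push h1]
    funext j
    cases j with
    | zero => rfl
    | succ j => rw [push_succ, h.st t (j + 1) j (by rw [h1]; push_cast; ring)]
  · rw [tw_zero h1, lv_nil, run_nil]
    funext j
    rw [h.st t j j (by rw [h1]; ring)]

/-- **the walk along consecutive tokens**: `l` = tokens after `t₀` -/
theorem TkS.run {F : Equiv.Perm T} {v : T → ℤ} {Tc : T → ℕ → A} (h : TkS F v Tc) (f : A → B)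
    {V : T → B} (hV : ∀ t, v t ≠ 0 → V t = f (tv F v Tc t)) :
    ∀ (l : List T) (t₀ : T), List.IsChain (fun a b => F a = b) (t₀ :: l) →
      Run (lv V (l.flatMap (tw v))) (fun j => f (Tc t₀ j))
        (fun j => f (Tc ((t₀ :: l).getLast (List.cons_ne_nil _ _)) j)) := by
  intro l
  induction l with
  | nil => intro t₀ _; rfl
  | cons t l ih =>
    intro t₀ hc
    rw [List.isChain_cons_cons] at hc
    rw [List.flatMap_cons, lv_append, run_append, List.getLast_cons (List.cons_ne_nil _ _)]
    refine ⟨_, ?_, ih t hc.2⟩
    have h1 := h.run1 f (V := V) (t := t₀) (hV _)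
    rwa [hc.1] at h1

/-- the walk over the tokens of one corner: `l` = the tokens (not empty) at the corner, `t₁` = the
first token of the next corner -/
theorem TkS.run_corner {F : Equiv.Perm T} {v : T → ℤ} {Tc : T → ℕ → A} (h : TkS F v Tc)
    (f : A → B) {V : T → B} (hV : ∀ t, v t ≠ 0 → V t = f (tv F v Tc t)) {l : List T} {t₀ t₁ : T}
    (h0 : l.head? = some t₀) (hc : List.IsChain (fun a b => F a = b) (l ++ [t₁])) :
    Run (lv V (l.flatMap (tw v))) (fun j => f (Tc (F.symm t₀) j))
      (fun j => f (Tc (F.symm t₁) j)) := by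
  obtain ⟨t, l, rfl⟩ : ∃ t l', l = t :: l' := by
    cases l with
    | nil => simp at h0
    | cons t l => exact ⟨t, l, rfl⟩
  have e0 : t = t₀ := by simpa using h0
  subst e0
  have h1 : List.IsChain (fun a b => F a = b) (F.symm t :: (t :: l)) := by
    rw [List.isChain_cons_cons]
    refine ⟨Equiv.apply_symm_apply _ _, ?_⟩
    exact hc.left_of_append
  have h2 := h.run f hV (t :: l) (F.symm t) h1
  have h3 : (F.symm t :: (t :: l)).getLast (List.cons_ne_nil _ _) = F.symm t₁ := by
    rw [List.getLast_cons (List.cons_ne_nil _ _)]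
    have h4 := List.isChain_append.1 hc
    have h5 := h4.2.2 ((t :: l).getLast (List.cons_ne_nil _ _))
      (List.getLast?_eq_some_getLast (List.cons_ne_nil _ _)) t₁ (by simp)
    rw [← h5, Equiv.symm_apply_apply]
  rw [h3] at h2
  exact h2

/-- **the closed walk of a circle**: `ρ` = next corner, `tk x` = the tokens (not empty) at the
corner `x`, `F` = next token; the visible words `vw x` and the hidden pairs `L x` -/
theorem TkS.closed {X : Type*} {F : Equiv.Perm T} {v : T → ℤ} {Tc : T → ℕ → A} (h : TkS F v Tc)
    (f : A → B) {V : T → B} (hV : ∀ t, v t ≠ 0 → V t = f (tv F v Tc t)) {ρ : X → X}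
    {tk : X → List T} {t₀ : X → T} (h0 : ∀ x, (tk x).head? = some (t₀ x))
    (hc : ∀ x, List.IsChain (fun a b => F a = b) (tk x ++ [t₀ (ρ x)]))
    {vw : X → List (Bool × T)} {L : X → List (T × T)}
    (hr : ∀ x, Red ((tk x).flatMap (tw v)) (vw x) (L x)) {x : X} {n : ℕ} (hx : ρ^[n] x = x) :
    Run (lv V ((orb ρ x n).flatMap vw)) (fun j => f (Tc (F.symm (t₀ x)) j))
        (fun j => f (Tc (F.symm (t₀ x)) j)) ∧
      Eqs V ((orb ρ x n).flatMap L) :=
  closed_visible (Sx := fun x j => f (Tc (F.symm (t₀ x)) j))
    (fun y => h.run_corner f hV (h0 y) (hc y)) hr hx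

/-- the same read backwards -/
theorem TkS.closed_rev {X : Type*} {F : Equiv.Perm T} {v : T → ℤ} {Tc : T → ℕ → A}
    (h : TkS F v Tc) (f : A → B) {V : T → B} (hV : ∀ t, v t ≠ 0 → V t = f (tv F v Tc t))
    {ρ : X → X} {tk : X → List T} {t₀ : X → T} (h0 : ∀ x, (tk x).head? = some (t₀ x))
    (hc : ∀ x, List.IsChain (fun a b => F a = b) (tk x ++ [t₀ (ρ x)]))
    {vw : X → List (Bool × T)} {L : X → List (T × T)}
    (hr : ∀ x, Red ((tk x).flatMap (tw v)) (vw x) (L x)) {x : X} {n : ℕ} (hx : ρ^[n] x = x) :
    Run (lv V ((orb ρ x n).reverse.flatMap fun y => lrev (vw y)))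
        (fun j => f (Tc (F.symm (t₀ x)) j)) (fun j => f (Tc (F.symm (t₀ x)) j)) ∧
      Eqs V ((orb ρ x n).flatMap L) := by
  obtain ⟨h1, h2⟩ := h.closed f hV h0 hc hr hx
  refine ⟨?_, h2⟩
  rw [← lrev_flatMap]
  exact run_lrev h1

end tokens

end Pool.Agent.MP42.U
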