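import Pool.Agent.MP42.TQ.LayO

/-!
# Sums, bounds and stacks of a layout from the words at the corners (owner helper18)

`Layt.wd L x`: the crossings at the corner `x` in the order of the circle.
`Layt.sum_circle`: sums over the circles; `Layt.pb_of`: bounds of partial sums from the prefixes of
the word of a circle which is read from a base corner; `Layt.runW`: stacks at the corners.
-/

set_option autoImplicit false
set_option linter.unusedSectionVars false

namespace Pool.Agent.MP42.EO

open Pool.Agent.MP42.NE Pool.Agent.MP42.O3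

open Lay

lemma prefix_cases {A : Type*} {u a c : List A} (h : u <+: a ++ c) :
    u <+: a ∨ ∃ u', u = a ++ u' ∧ u' <+: c := by
  obtain ⟨t, ht⟩ := h
  rcases List.append_eq_append_iff.1 ht with ⟨a', h1, h2⟩ | ⟨c', h1, h2⟩
  · exact Or.inl ⟨a', h1.symm⟩
  · exact Or.inr ⟨c', h1, ⟨t, h2.symm⟩⟩

/-! ## Partial sums from a base -/

/-- **bounds of the partial sums** from bounds of the partial sums from one base on every circle -/
lemma pb_of_base {T : Type*} [Finite T] {F : Equiv.Perm T} {w : T → ℤ} {m : ℕ}
    (h : ∀ t, ∃ r, F.SameCycle r t ∧ ∀ n : ℕ, (∀ i, 0 < i → i < n → (F ^ i) r ≠ r) →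
      |∑ i ∈ Finset.range n, w ((F ^ i) r)| ≤ m) : PB F w (3 * m) := by
  intro x n hn
  obtain ⟨r, hr, hb⟩ := h x
  -- the period
  have hex : ∃ N, 0 < N ∧ (F ^ N) r = r := ⟨orderOf F, orderOf_pos F, by
    rw [pow_orderOf_eq_one]; rfl⟩
  classical
  obtain ⟨hN0, hN⟩ := Nat.find_spec hex
  set N := Nat.find hex with hNd
  have hfst : ∀ i, 0 < i → i < N → (F ^ i) r ≠ r := by
    intro i h1 h2 h3
    exact Nat.find_min hex h2 ⟨h1, h3⟩
  -- `x = F ^ i r`
  obtain ⟨i, hi, hx⟩ : ∃ i < N, (F ^ i) r = x := by
    obtain ⟨k, hk⟩ := hr.exists_nat_pow_eq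
    refine ⟨k % N, Nat.mod_lt _ hN0, ?_⟩
    have h4 : ∀ q : ℕ, (F ^ (N * q)) r = r := by
      intro q
      induction q with
      | zero => rfl
      | succ q ih => rw [Nat.mul_succ, pow_add, Equiv.Perm.mul_apply, hN, ih]
    rw [← hk]
    conv_rhs => rw [← Nat.mod_add_div k N, pow_add, Equiv.Perm.mul_apply, h4]
  set P : ℕ → ℤ := fun n => ∑ j ∈ Finset.range n, w ((F ^ j) r) with hP
  have hPb : ∀ n ≤ N, |P n| ≤ m := fun n hn => hb n (fun j h1 h2 => hfst j h1 (by omega))
  have hsh : ∀ k l : ℕ, ∑ j ∈ Finset.range l, w ((F ^ j) ((F ^ k) r)) = P (k + l) - P k := by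
    intro k l
    have h1 : P (k + l) = P k + ∑ j ∈ Finset.range l, w ((F ^ (k + j)) r) := by
      simp only [hP]; exact Finset.sum_range_add _ _ _
    rw [h1, add_sub_cancel_left]
    refine Finset.sum_congr rfl (fun j _ => ?_)
    rw [← Equiv.Perm.mul_apply, ← pow_add, add_comm]
  have hnN : n ≤ N := by
    by_contra hc
    refine hn N hN0 (by omega) ?_
    rw [← hx, ← Equiv.Perm.mul_apply, ← pow_add, add_comm, pow_add, Equiv.Perm.mul_apply, hN]
  rw [← hx, hsh]
  have a1 := abs_le.1 (hPb i hi.le)
  by_cases hc : i + n ≤ N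
  · have a2 := abs_le.1 (hPb _ hc)
    rw [abs_le]; push_cast; constructor <;> linarith [a1.1, a1.2, a2.1, a2.2]
  · have h1 : P (i + n) = P N + P (i + n - N) := by
      have h2 := hsh N (i + n - N)
      rw [hN] at h2
      rw [show N + (i + n - N) = i + n by omega] at h2
      linarith
    have a2 := abs_le.1 (hPb N le_rfl)
    have a3 := abs_le.1 (hPb (i + n - N) (by omega))
    rw [h1, abs_le]; push_cast
    constructor <;> linarith [a1.1, a1.2, a2.1, a2.2, a3.1, a3.2]

/-! ## Stacks of a circle from the values of its tokens -/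

section

variable {T A : Type*} {F : Equiv.Perm T} {w : T → ℤ} {S : T → ℕ → A}

/-- a strand has the value of its right end -/
lemma re_val (hS : StA F w S) {t u : T} {j : ℕ} (h : RE F w t j u) : S t j = tv' F w S u := by
  induction h with
  | pop x h =>
    unfold tv'
    rw [if_pos h, Equiv.symm_apply_apply]
  | step x j k q h _ ih => rw [← ih]; exact (hS x k j (by omega)).symm

/-- a strand has the value of its left end -/
lemma le_val (hS : StA F w S) {t u : T} {j : ℕ} (h : LE F w t j u) : S t j = tv' F w S u := by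
  induction h with
  | push x h =>
    unfold tv'
    rw [if_neg (by omega)]
  | step x j k p h _ ih =>
    rw [← ih]
    have h1 := hS (F.symm x) j k (by rw [Equiv.apply_symm_apply]; omega)
    rwa [Equiv.apply_symm_apply] at h1

lemma same_re {t u : T} {j : ℕ} (h : RE F w t j u) : F.SameCycle t u := by
  obtain ⟨n, h1, -, -⟩ := h.place
  exact ⟨((n + 1 : ℕ) : ℤ), by rw [zpow_natCast, h1]⟩

lemma same_le {t u : T} {j : ℕ} (h : LE F w t j u) : F.SameCycle t u := by
  obtain ⟨n, h1, -, -⟩ := h.place
  exact Equiv.Perm.SameCycle.symm ⟨(n : ℤ), by rw [zpow_natCast, h1]⟩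

/-- **a strand has an end** -/
theorem exists_end (w1 : ∀ t, w t = -1 ∨ w t = 0 ∨ w t = 1) {t : T} {N K : ℕ} {s : ℤ}
    (hc : Cir F w t N s K) (hs : s = 1 ∨ s = -1) (j : ℕ) :
    ∃ u, (RE F w t j u ∨ LE F w t j u) ∧ w u ≠ 0 := by
  rcases hs with h | h
  · subst h
    obtain ⟨q, hq⟩ := exists_re w1 (N * (j + 1)) t j (by rw [(hc.mul _).2]; push_cast; omega)
    refine ⟨q, Or.inl hq, ?_⟩
    clear hc
    have : w q = 1 := by
      induction hq with
      | pop x h => exact h
      | step x j k q h _ ih => exact ih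
    omega
  · subst h
    obtain ⟨q, hq⟩ := exists_le w1 (N * (j + 1)) t j (by
      rw [back_sum t (hc.mul _).1, (hc.mul _).2]; push_cast; omega)
    refine ⟨q, Or.inr hq, ?_⟩
    clear hc
    have : w q = -1 := by
      induction hq with
      | push x h => exact h
      | step x j k q h _ ih => exact ih
    omega

/-- **the stacks are constant if the values of the tokens are constant** -/
theorem const_of_val (w1 : ∀ t, w t = -1 ∨ w t = 0 ∨ w t = 1) (hS : StA F w S) {t : T} {N K : ℕ}
    {s : ℤ} (hc : Cir F w t N s K) (hs : s = 1 ∨ s = -1) {c : A}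
    (hv : ∀ u, F.SameCycle t u → w u ≠ 0 → tv' F w S u = c) (j : ℕ) : S t j = c := by
  obtain ⟨u, h1, h2⟩ := exists_end w1 hc hs j
  rcases h1 with h1 | h1
  · rw [re_val hS h1]; exact hv u (same_re h1) h2
  · rw [le_val hS h1]; exact hv u (same_le h1) h2

end

namespace Layt

variable {X : Type*} {M : BM X} (L : Layt M)

/-- the crossings at the corner `x` in the order of the circle -/
def wd (x : X) : List (Bool × ℕ) := (L.w (M.μ x)).reverse ++ (L.th x ++ L.w x)

variable {L}

lemma map_wt_crs (x : X) : (L.crs x).map L.wt = (L.w x).map sgq := by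
  unfold crs
  rw [List.map_ofFn]
  apply List.ext_getElem
  · simp
  · intro i h1 h2
    rw [List.length_ofFn] at h1
    rw [List.getElem_ofFn, List.getElem_map]
    show sgq ((L.w x).getD i (true, 0)) = _
    rw [List.getD_eq_getElem _ _ h1]

lemma map_wt_cls (x : X) : (L.cls x).map L.wt = (L.w x).map sgq := by
  unfold cls
  rw [List.map_ofFn]
  apply List.ext_getElem
  · simp
  · intro i h1 h2
    rw [List.length_ofFn] at h1
    rw [List.getElem_ofFn, List.getElem_map]
    show sgq ((L.w x).getD i (true, 0)) = _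
    rw [List.getD_eq_getElem _ _ h1]

lemma map_wt_tns (x : X) : (L.tns x).map L.wt = (L.th x).map sgq := by
  unfold tns
  rw [List.map_ofFn]
  apply List.ext_getElem
  · simp
  · intro i h1 h2
    rw [List.length_ofFn] at h1
    rw [List.getElem_ofFn, List.getElem_map]
    show sgq ((L.th x).getD i (true, 0)) = _
    rw [List.getD_eq_getElem _ _ h1]

/-- the signs of the tokens at a corner -/
lemma map_wt_W (x : X) : (L.W x).map L.wt = ((L.w (M.μ x)).reverse).map sgq ++
    0 :: ((L.th x).map sgq ++ (L.w x).map sgq) := by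
  unfold W
  rw [List.map_append, List.map_reverse, map_wt_cls, List.map_cons, List.map_append, map_wt_tns,
    map_wt_crs, List.map_reverse]
  rfl

lemma sum_W (x : X) : ((L.W x).map L.wt).sum = ((L.wd x).map sgq).sum := by
  rw [map_wt_W]
  unfold wd
  simp only [List.map_append, List.sum_append, List.sum_cons]
  ring

/-- the prefixes of the signs of the tokens at a corner -/
lemma pre_W {x : X} {u : List ℤ} (h : u <+: (L.W x).map L.wt) :
    ∃ v, v <+: L.wd x ∧ u.sum = (v.map sgq).sum := by
  rw [map_wt_W] at h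
  rcases prefix_cases h with h | ⟨u', hu, h0⟩
  · rw [List.prefix_iff_eq_take] at h
    refine ⟨((L.w (M.μ x)).reverse).take u.length, ?_, ?_⟩
    · unfold wd
      exact (List.take_prefix _ _).trans (List.prefix_append _ _)
    · rw [List.map_take, ← h]
  · subst hu
    rcases u' with _ | ⟨c, u'⟩
    · refine ⟨(L.w (M.μ x)).reverse, ?_, by simp⟩
      unfold wd
      exact List.prefix_append _ _
    · obtain ⟨rfl, h1⟩ := List.cons_prefix_cons.1 h0
      rw [← List.map_append, List.prefix_iff_eq_take] at h1
      refine ⟨(L.w (M.μ x)).reverse ++ (L.th x ++ L.w x).take u'.length, ?_, ?_⟩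
      · unfold wd
        exact (List.prefix_append_right_inj _).2 (List.take_prefix _ _)
      · rw [List.map_append, List.map_take, ← h1]
        simp

/-- the tokens of `n` corners -/
def Wn (L : Layt M) (r : X) (n : ℕ) : List L.Tok :=
  (List.range n).flatMap fun j => L.W ((M.E ^ j) r)

/-- the crossings at `n` corners -/
def wn (L : Layt M) (r : X) (n : ℕ) : List (Bool × ℕ) :=
  (List.range n).flatMap fun j => L.wd ((M.E ^ j) r)

lemma Wn_succ (r : X) (n : ℕ) : L.Wn r (n + 1) = L.Wn r n ++ L.W ((M.E ^ n) r) := by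
  unfold Wn
  rw [List.range_succ, List.flatMap_append]
  simp

lemma wn_succ (r : X) (n : ℕ) : L.wn r (n + 1) = L.wn r n ++ L.wd ((M.E ^ n) r) := by
  unfold wn
  rw [List.range_succ, List.flatMap_append]
  simp

lemma sum_Wn (r : X) (n : ℕ) : ((L.Wn r n).map L.wt).sum = ((L.wn r n).map sgq).sum := by
  induction n with
  | zero => rfl
  | succ n ih =>
    rw [Wn_succ, wn_succ, List.map_append, List.map_append, List.sum_append, List.sum_append, ih,
      sum_W]

lemma pre_Wn {r : X} {n : ℕ} : ∀ {u : List ℤ}, u <+: (L.Wn r n).map L.wt →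
    ∃ v, v <+: L.wn r n ∧ u.sum = (v.map sgq).sum := by
  induction n with
  | zero =>
    intro u h
    have h' : u <+: [] := h
    rw [List.prefix_nil] at h'
    exact ⟨[], List.nil_prefix, by rw [h']; rfl⟩
  | succ n ih =>
    intro u h
    rw [Wn_succ, List.map_append] at h
    rcases prefix_cases h with h | ⟨u', hu, h⟩
    · obtain ⟨v, h1, h2⟩ := ih h
      refine ⟨v, ?_, h2⟩
      rw [wn_succ]
      exact h1.trans (List.prefix_append _ _)
    · obtain ⟨v, h1, h2⟩ := pre_W h
      refine ⟨L.wn r n ++ v, ?_, ?_⟩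
      · rw [wn_succ]
        exact (List.prefix_append_right_inj _).2 h1
      · rw [hu, List.sum_append, sum_Wn, h2, List.map_append, List.sum_append]

/-- the tokens of consecutive corners are a chain -/
lemma chain_Wn [Finite X] (r : X) (n : ℕ) : List.IsChain (fun a b => L.F a = b)
    (L.Wn r n ++ [(L.W ((M.E ^ n) r)).head (W_ne _)]) := by
  induction n with
  | zero => exact List.isChain_singleton _
  | succ n ih =>
    rw [Wn_succ, List.append_assoc]
    have h1 := (fol (L := L)) ((M.E ^ n) r)
    have e : M.E ((M.E ^ n) r) = (M.E ^ (n + 1)) r := by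
      rw [pow_succ', Equiv.Perm.mul_apply]
    simp only [e] at h1
    rw [List.isChain_append]
    refine ⟨ih.left_of_append, h1, ?_⟩
    intro a ha b hb
    refine (List.isChain_append.1 ih).2.2 a ha b ?_
    rw [List.head?_append, Option.mem_def] at hb
    rw [List.head?_singleton, Option.mem_def, Option.some_inj]
    have h2 : (L.W ((M.E ^ n) r)).head? = some ((L.W ((M.E ^ n) r)).head (W_ne _)) :=
      List.head?_eq_some_head _
    rw [h2] at hb
    simpa using hb

/-- **the bounds of the partial sums** from the words of the circles, read from a base corner -/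
theorem pb_of [Finite X] {m : ℕ} (h : ∀ x, ∃ r, M.E.SameCycle r x ∧ ∀ n : ℕ,
    (∀ i, 0 < i → i < n → (M.E ^ i) r ≠ r) → ∀ v, v <+: L.wn r n → |(v.map sgq).sum| ≤ m) :
    PB L.F L.wt (3 * m) := by
  apply pb_of_base
  intro t
  obtain ⟨x, hx⟩ := (W_blk (L := L)).ex t
  obtain ⟨r, hr, hb⟩ := h x
  refine ⟨(L.W r).head (W_ne _), (fol (L := L)).same hr (List.head_mem _) hx, ?_⟩
  intro n hn
  -- the period of the circle
  have hex : ∃ N, 0 < N ∧ (M.E ^ N) r = r := ⟨orderOf M.E, orderOf_pos _, by
    rw [pow_orderOf_eq_one]; rfl⟩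
  classical
  obtain ⟨hN0, hN⟩ := Nat.find_spec hex
  set N := Nat.find hex with hNd
  have hfst : ∀ i, 0 < i → i < N → (M.E ^ i) r ≠ r := by
    intro i h1 h2 h3
    exact Nat.find_min hex h2 ⟨h1, h3⟩
  have hc := chain_Wn (L := L) r N
  simp only [hN] at hc
  set q := (L.W r).head (W_ne _) with hq
  obtain ⟨N', hN'⟩ : ∃ N', N = N' + 1 := ⟨N - 1, by omega⟩
  have hne : L.Wn r N ≠ [] := by
    rw [hN', Wn_succ]
    simp [W_ne]
  have hhead : (L.Wn r N).head? = some q := by
    have : ∀ k, (L.Wn r (k + 1)).head? = some q := by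
      intro k
      induction k with
      | zero =>
        rw [Wn_succ]
        have : L.Wn r 0 = [] := rfl
        rw [this, List.nil_append, pow_zero, Equiv.Perm.one_apply]
        exact List.head?_eq_some_head _
      | succ k ih => rw [Wn_succ, List.head?_append, ih]; rfl
    rw [hN']; exact this N'
  -- the tokens of the circle
  have hc' : List.IsChain (fun a b => L.F a = b) (L.F.symm q :: (L.Wn r N ++ [q])) := by
    cases hl : L.Wn r N with
    | nil => exact absurd hl hne
    | cons a l =>
      rw [hl] at hc hhead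
      rw [List.cons_append, List.isChain_cons_cons]
      refine ⟨?_, hc⟩
      have : a = q := by simpa using hhead
      rw [this, Equiv.apply_symm_apply]
  have h3 := chain_eq _ _ hc'
  rw [Equiv.apply_symm_apply] at h3
  have hlen : (L.Wn r N ++ [q]).length = (L.Wn r N).length + 1 := by simp
  have hper : (L.F ^ (L.Wn r N).length) q = q := by
    have h4 := List.getElem_of_eq h3 (i := (L.Wn r N).length) (by rw [hlen]; omega)
    rw [List.getElem_append_right le_rfl] at h4
    simp only [List.getElem_map, List.getElem_range, Nat.sub_self, List.getElem_singleton] at h4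
    exact h4.symm
  have hle : n ≤ (L.Wn r N).length := by
    by_contra hc
    exact hn _ (List.length_pos_iff.2 hne) (by omega) hper
  have h5 : ((L.Wn r N).map L.wt).take n =
      (List.range n).map (fun i => L.wt ((L.F ^ i) q)) := by
    apply List.ext_getElem
    · simp [hle]
    · intro i h6 h7
      simp only [List.length_map, List.length_range] at h7
      rw [List.getElem_take, List.getElem_map, List.getElem_map, List.getElem_range]
      have h8 := List.getElem_of_eq h3 (i := i) (by rw [hlen]; omega)
      rw [List.getElem_append_left (by omega)] at h8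
      rw [h8]
      simp
  have h6 : ∑ i ∈ Finset.range n, L.wt ((L.F ^ i) q) = (((L.Wn r N).map L.wt).take n).sum := by
    rw [h5, list_range_sum]
  obtain ⟨v, h7, h8⟩ := pre_Wn (List.take_prefix n ((L.Wn r N).map L.wt))
  rw [h6, h8]
  exact hb N hfst v h7

/-- the sum over a circle from the word of the circle -/
theorem sum_circle [Fintype X] {r : X} {t : L.Tok} (ht : M.E.SameCycle r (L.home t))
    (inst : DecidablePred fun u => L.F.SameCycle t u) {N : ℕ} (hN : (M.E ^ N) r = r) (h0 : 0 < N)
    (hf : ∀ i, 0 < i → i < N → (M.E ^ i) r ≠ r) :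
    ∑ u ∈ Finset.univ.filter (fun u => L.F.SameCycle t u), L.wt u =
      ((L.wn r N).map sgq).sum := by
  classical
  have e0 : ∑ u ∈ Finset.univ.filter (fun u => L.F.SameCycle t u), L.wt u =
      ∑ y ∈ Finset.univ.filter (fun y => M.E.SameCycle r y), ((L.wd y).map sgq).sum := by
    have h1 := (fol (L := L)).sum W_blk L.wt (mem_W.2 rfl : t ∈ L.W (L.home t))
    refine Eq.trans (Finset.sum_congr (by ext; simp) (fun _ _ => rfl)) (h1.trans ?_)
    refine Finset.sum_congr ?_ (fun y _ => sum_W y)
    ext y
    simp only [Finset.mem_filter, Finset.mem_univ, true_and]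
    exact ⟨fun h => ht.trans h, fun h => ht.symm.trans h⟩
  rw [e0]
  have e : Finset.univ.filter (fun y => M.E.SameCycle r y) =
      (Finset.range N).image (fun j => (M.E ^ j) r) := by
    ext y
    simp only [Finset.mem_filter, Finset.mem_univ, true_and, Finset.mem_image, Finset.mem_range]
    constructor
    · intro h
      obtain ⟨k, hk⟩ := h.exists_nat_pow_eq
      refine ⟨k % N, Nat.mod_lt _ h0, ?_⟩
      have h4 : ∀ q : ℕ, (M.E ^ (N * q)) r = r := by
        intro q
        induction q with
        | zero => rfl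
        | succ q ih => rw [Nat.mul_succ, pow_add, Equiv.Perm.mul_apply, hN, ih]
      rw [← hk]
      conv_rhs => rw [← Nat.mod_add_div k N, pow_add, Equiv.Perm.mul_apply, h4]
    · rintro ⟨j, _, rfl⟩
      exact ⟨(j : ℤ), by rw [zpow_natCast]⟩
  rw [e, Finset.sum_image]
  · clear hN h0 hf e
    induction N with
    | zero => rfl
    | succ N ih => rw [Finset.sum_range_succ, ih, wn_succ, List.map_append, List.sum_append]
  · intro i hi j hj hij
    simp only [Finset.coe_range, Set.mem_Iio] at hi hj
    by_contra hne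
    rcases lt_or_gt_of_ne hne with h1 | h1
    · refine hf (j - i) (by omega) (by omega) ?_
      have h5 : (M.E ^ i) ((M.E ^ (j - i)) r) = (M.E ^ i) r := by
        rw [← Equiv.Perm.mul_apply, ← pow_add, show i + (j - i) = j by omega]
        exact hij.symm
      exact (M.E ^ i).injective h5
    · refine hf (i - j) (by omega) (by omega) ?_
      have h5 : (M.E ^ j) ((M.E ^ (i - j)) r) = (M.E ^ j) r := by
        rw [← Equiv.Perm.mul_apply, ← pow_add, show j + (i - j) = i by omega]
        exact hij
      exact (M.E ^ j).injective h5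

/-- the corner of a token and the next one -/
lemma home_F [Finite X] (t : L.Tok) : M.E.SameCycle (L.home t) (L.home (L.F t)) :=
  ((fol (L := L)).same_iff W_blk (mem_W.2 rfl : t ∈ L.W (L.home t))
    (mem_W.2 rfl : L.F t ∈ L.W (L.home (L.F t)))).1 ⟨1, by simp⟩

/-- functions of the circles -/
lemma cst_F [Finite X] {A : Type*} {g : X → A} (hg : ∀ x, g (M.E x) = g x) (t : L.Tok) :
    g (L.home (L.F t)) = g (L.home t) := cyc_eq hg (home_F t)

/-- the value of a token: top of the stack before a pop, after a push -/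
noncomputable def val [Finite X] {A : Type*} (S : L.Tok → ℕ → A) (t : L.Tok) : A :=
  tv' L.F L.wt S t

/-- both sides of a token have the same value -/
lemma val_lam [Finite X] {S : L.Tok → ℕ → Prop} (hS : TS L.F L.lam L.wt S) {t : L.Tok}
    (h : L.wt t ≠ 0) : val S (L.lam t) = val S t := by
  unfold val tv'
  rw [wt_lam]
  rcases wt_or t with h1 | h1 | h1
  · rw [if_neg (by omega), if_neg (by omega)]
    exact propext (hS.push t 0 0 (by rw [h1]; simp)).symm
  · exact absurd h1 h
  · rw [if_pos h1, if_pos h1]
    exact propext (hS.pop t 0 0 (by rw [h1]; simp)).symm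

/-- the stack after the tokens of a corner -/
noncomputable def stk {A : Type*} (S : L.Tok → ℕ → A) (x : X) : ℕ → A :=
  S ((L.W x).getLast (W_ne x))

/-- **the tokens of a corner change the stack** -/
theorem runW [Finite X] {A : Type*} {S : L.Tok → ℕ → A} (hS : StA L.F L.wt S) (x : X) :
    SR (wvt L.wt (val S) (L.W (M.E x))) (stk S x) (stk S (M.E x)) := by
  have h1 := (fol (L := L)) x
  have h2 := (fol (L := L)).chain (M.E x)
  have h3 := (fol (L := L)).last x
  have h4 : List.IsChain (fun a b => L.F a = b)
      ((L.W x).getLast (W_ne x) :: L.W (M.E x)) := by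
    cases hl : L.W (M.E x) with
    | nil => exact absurd hl (W_ne _)
    | cons a l =>
      rw [hl] at h2
      rw [List.isChain_cons_cons]
      refine ⟨?_, h2⟩
      rw [h3]
      simp [hl]
  have h5 := hS.run wt_or _ _ h4
  have e : ((L.W x).getLast (W_ne x) :: L.W (M.E x)).getLast (List.cons_ne_nil _ _) =
      (L.W (M.E x)).getLast (W_ne _) := List.getLast_cons (W_ne _)
  rw [e] at h5
  exact h5

lemma stA_of_TS [Finite X] {S : L.Tok → ℕ → Prop} (hS : TS L.F L.lam L.wt S) :
    StA L.F L.wt S := fun p j k hk => propext (hS.st p j k hk)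

/-- the word with values at a corner -/
lemma wvt_W {A : Type*} (V : L.Tok → A) (x : X) : wvt L.wt V (L.W x) =
    (List.ofFn fun i : Fin (L.w (M.μ x)).length =>
      (((L.w (M.μ x))[i]).1, V (L.tok .cl (M.μ x) i i.2))).reverse ++
    ((List.ofFn fun i : Fin (L.th x).length => (((L.th x)[i]).1, V (L.tok .tn x i i.2))) ++
      List.ofFn fun i : Fin (L.w x).length => (((L.w x)[i]).1, V (L.tok .cr x i i.2))) := by
  have hnz : ∀ l : List L.Tok, (∀ t ∈ l, t.1.1 ≠ .id) → nz L.wt l = l := by
    intro l hl
    unfold nz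
    rw [List.filter_eq_self]
    intro t ht
    simpa using wt_ne.2 (hl t ht)
  have hsn : ∀ q : Bool × ℕ, decide (sgq q = 1) = q.1 := by
    rintro ⟨b, n⟩
    cases b <;> simp [sgq]
  have h1 : nz L.wt (L.W x) = (L.cls (M.μ x)).reverse ++ (L.tns x ++ L.crs x) := by
    unfold W
    rw [nz_append, nz_cons_eq (show L.wt (L.idt x) = 0 from rfl), hnz, hnz]
    · intro t ht
      rcases List.mem_append.1 ht with h | h
      · rw [(mem_tns.1 h).1]; simp
      · rw [(mem_crs.1 h).1]; simp
    · intro t ht
      rw [(mem_cls.1 (List.mem_reverse.1 ht)).1]; simp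
  unfold wvt
  rw [h1, List.map_append, List.map_reverse, List.map_append]
  congr 1
  · congr 1
    unfold cls
    rw [List.map_ofFn]
    congr 1
    funext i
    simp only [Function.comp, sn]
    congr 1
    show decide (sgq ((L.w (M.μ x)).getD i (true, 0)) = 1) = _
    rw [List.getD_eq_getElem _ _ i.2, hsn]
    rfl
  · congr 1
    · unfold tns
      rw [List.map_ofFn]
      congr 1
      funext i
      simp only [Function.comp, sn]
      congr 1
      show decide (sgq ((L.th x).getD i (true, 0)) = 1) = _
      rw [List.getD_eq_getElem _ _ i.2, hsn]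
      rfl
    · unfold crs
      rw [List.map_ofFn]
      congr 1
      funext i
      simp only [Function.comp, sn]
      congr 1
      show decide (sgq ((L.w x).getD i (true, 0)) = 1) = _
      rw [List.getD_eq_getElem _ _ i.2, hsn]
      rfl

end Layt

end Pool.Agent.MP42.EO
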