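import Pool.Agent.MP42.EO.Flow55

/-!
# Heights and types of all strands, with the types over the ribbons
-/

set_option autoImplicit false

namespace Pool.Agent.MP42.EO

open Pool.Agent.MP42.NE Pool.Agent.MP42.NE.Sys

variable {D : Type*} {S : Sys D} {e : D → ℕ} {v : D → ℤ} {K : ℕ}

/-- **Numbers of strands and types of all strands.** -/
theorem exists_flow_typesL [Fintype D] [DecidableEq D] (S : Sys D) {v : D → ℤ} {K : ℕ}
    (hr : ∀ x, S.r x ≠ x) (ho : ∀ x, S.r (S.E x) ≠ x) (hta : ∀ x, v (S.ta x) = v x)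
    (hPB : PB S.E v K)
    (hsum : ∀ x, ∑ y ∈ Finset.univ.filter (fun y => S.E.SameCycle x y), v y =
      ∑ y ∈ Finset.univ.filter (fun y => S.E.SameCycle (S.om x) y), v y)
    {ok : D → Bool → Bool → Bool → Prop} {κ : D → ℕ → Bool} (hκ : TTS S.E S.ta v ok κ)
    (hper : ∀ x j, K ≤ j → κ x (j + 2) = κ x j)
    (hm : ∀ x, ∃ y, (S.E.SameCycle x y ∨ S.E.SameCycle (S.om x) y) ∧ ∃ ε : ℕ, ∀ i j, K ≤ i →
      K ≤ j → (i + j + 1 + ε) % 2 = 0 → κ y i = κ (S.om y) j) (B : ℕ) :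
    ∃ (e : D → ℕ) (g : D → ℕ → Bool), S.Fl e v ∧ (∀ x, B ≤ e x) ∧ (∀ x, 4 * K + 4 ≤ e x) ∧
      (∀ x, e x ≤ B + 20 * K + 20) ∧
      (∀ (d : D) (j : ℕ), j < e d →
        g d ((v d).toNat + j) = g (S.E d) ((-v (S.E d)).toNat + j)) ∧
      (∀ (d : D) (t : ℕ), t < S.cnt e v d → g (S.r d) t = g d (S.cnt e v d - 1 - t)) ∧
      (∀ (d : D) (j : ℕ), (j : ℤ) < v d → ok d true (g d j)
        (g (S.N d) ((-v (S.N d)).toNat + e (S.r (S.N d)) + j))) ∧
      (∀ (d : D) (j : ℕ), (j : ℤ) < -v d → ok d false (g d j)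
        (g (S.N d) ((v (S.N d)).toNat + e (S.N d) + j))) ∧
      (∀ (d : D) (j : ℕ), (j : ℤ) < v d → g d j = κ (S.E.symm d) j) ∧
      (∀ (d : D) (j : ℕ), (j : ℤ) < -v d → g d j = κ d j) := by
  classical
  obtain ⟨e, hF, he1, he2⟩ := exists_eS hr ho hta hPB hsum B
  have hvb : ∀ x, |v x| ≤ K := fun x => by
    have := hPB x 1 (fun i h1 h2 => by omega)
    simpa using this
  -- one additional strand on the rings with the wrong parity
  set t : D → ℕ := fun x => if Mt S K κ (e x) x then 0 else 1 with ht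
  have htE : ∀ x, t (S.E x) = t x := fun x => by
    simp only [ht]
    have h := mt_E hκ hper hF 0 x
    rw [Nat.add_zero, Nat.add_zero] at h
    rw [h]
  have hto : ∀ x, t (S.om x) = t x := fun x => by
    simp only [ht]
    rw [hF.e_om, mt_om]
  have htr : ∀ x, t (S.r x) = t x := fun x => by
    rw [← E_om, htE, hto]
  have ht1 : ∀ x, t x ≤ 1 := fun x => by
    simp only [ht]
    split_ifs <;> omega
  have hF' : S.Fl (fun x => e x + t x) v := by
    refine ⟨fun x => ?_, hF.vr, fun x => ?_⟩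
    · show e _ + t _ = e x + t x
      rw [hF.er, htr, htE]
    · show ((e (S.r x) + t (S.r x) : ℕ) : ℤ) + v (S.r x) = ((e x + t x : ℕ) : ℤ) + v x
      have h1 := hF.bal x
      rw [htr]
      push_cast
      omega
  have hinv : ∀ (c : ℕ) (x y : D), (S.E.SameCycle x y ∨ S.E.SameCycle (S.om x) y) →
      (Mt S K κ (e x + c) x ↔ Mt S K κ (e y + c) y) := by
    intro c x y hxy
    rcases hxy with h | h
    · exact cyc_const (S := S) (Q := fun z => Mt S K κ (e z + c) z)
        (fun z => mt_E hκ hper hF c z) h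
    · have h1 := cyc_const (S := S) (Q := fun z => Mt S K κ (e z + c) z)
        (fun z => mt_E hκ hper hF c z) h
      simp only [hF.e_om, mt_om] at h1
      exact h1
  have hmt : ∀ x, Mt S K κ (e x + t x) x := by
    intro x
    by_cases h : Mt S K κ (e x) x
    · have : t x = 0 := by simp only [ht]; rw [if_pos h]
      rw [this]
      exact h
    · have h1 : t x = 1 := by simp only [ht]; rw [if_neg h]
      rw [h1]
      obtain ⟨y, hy, ε, hε⟩ := hm x
      rw [hinv 1 x y hy]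
      have h2 : ¬ Mt S K κ (e y + 0) y := fun h3 => h ((hinv 0 x y hy).2 h3)
      refine mt_mod (ε := ε) ?_ hε
      by_contra hc
      exact h2 (mt_mod (ε := ε) (by omega) hε)
  have hb := bstk_glue hκ hF' hvb (fun x => by
    have := he1 x
    show 4 * K + 4 ≤ e x + t x
    omega) hmt
  have hv : ∀ x, v x ≤ ((fun x => e x + t x) (S.E.symm x) : ℕ) := fun x => by
    have h1 := abs_le.1 (hvb x)
    have h2 := he1 (S.E.symm x)
    show v x ≤ ((e (S.E.symm x) + t (S.E.symm x) : ℕ) : ℤ)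
    omega
  have hv' : ∀ x, -v x ≤ ((fun x => e x + t x) x : ℕ) := fun x => by
    have h1 := abs_le.1 (hvb x)
    have h2 := he1 x
    show -v x ≤ ((e x + t x : ℕ) : ℤ)
    omega
  refine ⟨fun x => e x + t x, ofB S (fun x => e x + t x) v (glueB S (fun x => e x + t x) κ), hF',
    ?_, ?_, ?_, ?_, ?_, ?_, ?_, ?_, ?_⟩
  · intro x
    have := he1 x
    show B ≤ e x + t x
    omega
  · intro x
    have := he1 x
    show 4 * K + 4 ≤ e x + t x
    omega
  · intro x
    have h1 := he2 x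
    have h2 := ht1 x
    show e x + t x ≤ B + 20 * K + 20
    omega
  · exact fun d j hj => hb.cE hF' hv' d j hj
  · exact fun d j hj => hb.cr hF' hv hv' d j hj
  · exact fun d j hj => hb.cNp hF' hv d j hj
  · exact fun d j hj => hb.cNm hF' hv' d j hj
  · intro d j hj
    have b2 := (abs_le.1 (hvb d)).2
    have h3 := he1 (S.E.symm d)
    rw [ofB_n (by omega), glueB_top (by omega)]
  · intro d j hj
    have b1 := (abs_le.1 (hvb d)).1
    have h3 := he1 d
    have h4 := ofB_e (S := S) (v := v) (e := fun x => e x + t x)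
      (T := glueB S (fun x => e x + t x) κ) (x := d) (t := j) (by
        show j < e d + t d
        omega)
    rw [show (v d).toNat + j = j by omega] at h4
    rw [h4, glueB_top (by omega)]

/-- the same with the sums `2 * sg` over the cycles -/
theorem exists_flow_types_sgL [Fintype D] [DecidableEq D] (S : Sys D) {v sg : D → ℤ} {K : ℕ}
    (hr : ∀ x, S.r x ≠ x) (ho : ∀ x, S.r (S.E x) ≠ x) (hta : ∀ x, v (S.ta x) = v x)
    (hPB : PB S.E v K) (hsgo : ∀ x, sg (S.om x) = sg x)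
    (hsum : ∀ d, ∑ x ∈ Finset.univ.filter (fun x => S.E.SameCycle d x), v x = 2 * sg d)
    {ok : D → Bool → Bool → Bool → Prop} {κ : D → ℕ → Bool} (hκ : TTS S.E S.ta v ok κ)
    (hper : ∀ x j, K ≤ j → κ x (j + 2) = κ x j)
    (hm : ∀ x, ∃ y, (S.E.SameCycle x y ∨ S.E.SameCycle (S.om x) y) ∧ ∃ ε : ℕ, ∀ i j, K ≤ i →
      K ≤ j → (i + j + 1 + ε) % 2 = 0 → κ y i = κ (S.om y) j) (B : ℕ) :
    ∃ (e : D → ℕ) (g : D → ℕ → Bool), S.Fl e v ∧ (∀ x, B ≤ e x) ∧ (∀ x, 4 * K + 4 ≤ e x) ∧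
      (∀ x, e x ≤ B + 20 * K + 20) ∧
      (∀ (d : D) (j : ℕ), j < e d →
        g d ((v d).toNat + j) = g (S.E d) ((-v (S.E d)).toNat + j)) ∧
      (∀ (d : D) (t : ℕ), t < S.cnt e v d → g (S.r d) t = g d (S.cnt e v d - 1 - t)) ∧
      (∀ (d : D) (j : ℕ), (j : ℤ) < v d → ok d true (g d j)
        (g (S.N d) ((-v (S.N d)).toNat + e (S.r (S.N d)) + j))) ∧
      (∀ (d : D) (j : ℕ), (j : ℤ) < -v d → ok d false (g d j)
        (g (S.N d) ((v (S.N d)).toNat + e (S.N d) + j))) ∧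
      (∀ (d : D) (j : ℕ), (j : ℤ) < v d → g d j = κ (S.E.symm d) j) ∧
      (∀ (d : D) (j : ℕ), (j : ℤ) < -v d → g d j = κ d j) :=
  exists_flow_typesL S hr ho hta hPB (fun x => by rw [hsum, hsum, hsgo]) hκ hper hm B

end Pool.Agent.MP42.EO
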