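import Pool.Agent.MP42.EO.Rec

/-!
# From the solutions on the regions to a solution on the whole system, with a local condition
-/

set_option autoImplicit false

namespace Pool.Agent.MP42.EO

open Pool.Agent.MP42.NE Pool.Agent.MP42.NE.Sys

/-- **from the solutions on the regions to a solution on the whole system** -/
theorem exists_wholeL {D : Type*} [Fintype D] (S : Sys D) {ok : D → Bool → Bool → Bool → Prop}
    {L : D → ℤ → (ℕ → Bool) → (ℕ → Bool) → Prop} {Q : D → D → ℤ → ℤ → Prop} {K : ℕ}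
    {Rg : D → D → Prop} (hRg : Equivalence Rg) (hRE : ∀ x, Rg x (S.E x))
    (hRt : ∀ x, Rg x (S.ta x)) {R : D → Prop} (hR : ∀ x, R (S.E x) ↔ R x)
    (hRa : ∀ x, ∃ y, Rg x y ∧ R y) (hRb : ∀ x y, R x → R y → Rg x y → S.E.SameCycle x y)
    {rk : D → ℕ} (hrk : ∀ x y, Rg x y → rk x = rk y)
    (hup : ∀ x, ¬ R x → R (S.om x) ∧ rk x < rk (S.om x))
    (hLP : ∀ r, R r → ∀ s : ℤ, (s = 1 ∨ s = -1) → ∀ t0 t1 : Bool,
      ∃ v κ sg, Piece S ok K (Rg r) r s t0 t1 v κ sg ∧
        (∀ x, Rg r x → L x (v x) (κ (S.E.symm x)) (κ x)) ∧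
        ∀ x y, Rg r x → Rg r y → Q x y (v x) (v y)) :
    ∃ v κ sg, Whole S ok K Rg R v κ sg ∧ (∀ x, L x (v x) (κ (S.E.symm x)) (κ x)) ∧
      ∀ x y, Rg x y → Q x y (v x) (v y) := by
  classical
  -- the solutions on the regions
  have hLP' : ∀ r (p : Bool × Bool × Bool), ∃ q : (D → ℤ) × (D → ℕ → Bool) × (D → ℤ),
      R r → Piece S ok K (Rg r) r (letr p.1) p.2.1 p.2.2 q.1 q.2.1 q.2.2 ∧
        (∀ x, Rg r x → L x (q.1 x) (q.2.1 (S.E.symm x)) (q.2.1 x)) ∧
        ∀ x y, Rg r x → Rg r y → Q x y (q.1 x) (q.1 y) := by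
    intro r p
    by_cases hr : R r
    · obtain ⟨v, κ, sg, h⟩ := hLP r hr (letr p.1) (letr_or _) p.2.1 p.2.2
      exact ⟨(v, κ, sg), fun _ => h⟩
    · exact ⟨(fun _ => 0, fun _ _ => false, fun _ => 1), fun h => (hr h).elim⟩
  choose q hq using hLP'
  -- the root darts of the regions
  obtain ⟨rr, hrr, hrrR, hrrE⟩ : ∃ rr : D → D, (∀ x, Rg x (rr x)) ∧ (∀ x, R (rr x)) ∧
      (∀ x y, Rg x y → rr x = rr y) := by
    let st : Setoid D := ⟨Rg, hRg⟩
    choose f hf using hRa
    refine ⟨fun x => f (Quotient.out (Quotient.mk st x)), ?_, ?_, ?_⟩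
    · intro x
      have h1 : Rg (Quotient.out (Quotient.mk st x)) x :=
        Quotient.exact (s := st) (Quotient.out_eq _)
      exact hRg.trans (hRg.symm h1) (hf _).1
    · intro x
      exact (hf _).2
    · intro x y hxy
      have h1 : Quotient.mk st x = Quotient.mk st y := Quotient.sound (s := st) hxy
      show f (Quotient.out (Quotient.mk st x)) = f (Quotient.out (Quotient.mk st y))
      rw [h1]
  have hrrrk : ∀ x, rk (rr x) = rk x := fun x => (hrk _ _ (hrr x)).symm
  -- the parameters of the regions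
  obtain ⟨a, ha⟩ : ∃ a : D → Bool × Bool × Bool, ∀ r, a r =
      if R (S.om r) ∨ ¬ R r then (true, false, false) else
      (decide ((q (rr (S.om r)) (a (rr (S.om r)))).2.2 (S.om r) = 1),
        (q (rr (S.om r)) (a (rr (S.om r)))).2.1 (S.om r) K,
        (q (rr (S.om r)) (a (rr (S.om r)))).2.1 (S.om r) (K + 1)) := by
    let F : (r : D) → ((y : D) → rk y < rk r → Bool × Bool × Bool) → Bool × Bool × Bool :=
      fun r ih => if h : R (S.om r) ∨ ¬ R r then (true, false, false) else
        have hlt : rk (rr (S.om r)) < rk r := by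
          have h1 := (hup (S.om r) (fun h' => h (Or.inl h'))).2
          rw [om_om] at h1
          rw [hrrrk]
          exact h1
        (decide ((q (rr (S.om r)) (ih (rr (S.om r)) hlt)).2.2 (S.om r) = 1),
        (q (rr (S.om r)) (ih (rr (S.om r)) hlt)).2.1 (S.om r) K,
        (q (rr (S.om r)) (ih (rr (S.om r)) hlt)).2.1 (S.om r) (K + 1))
    refine ⟨(measure rk).wf.fix F, ?_⟩
    intro r
    rw [WellFounded.fix_eq]
    by_cases h : R (S.om r) ∨ ¬ R r
    · rw [if_pos h]
      exact dif_pos h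
    · rw [if_neg h]
      exact dif_neg h
  -- the data
  let v : D → ℤ := fun x => (q (rr x) (a (rr x))).1 x
  let κ : D → ℕ → Bool := fun x => (q (rr x) (a (rr x))).2.1 x
  let sg : D → ℤ := fun x => (q (rr x) (a (rr x))).2.2 x
  have hP : ∀ x, Piece S ok K (Rg (rr x)) (rr x) (letr (a (rr x)).1) (a (rr x)).2.1 (a (rr x)).2.2
      (q (rr x) (a (rr x))).1 (q (rr x) (a (rr x))).2.1 (q (rr x) (a (rr x))).2.2 :=
    fun x => (hq _ _ (hrrR x)).1
  have hLL : ∀ x, ∀ y, Rg (rr x) y → L y ((q (rr x) (a (rr x))).1 y)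
      ((q (rr x) (a (rr x))).2.1 (S.E.symm y)) ((q (rr x) (a (rr x))).2.1 y) :=
    fun x => (hq _ _ (hrrR x)).2.1
  have hin : ∀ x, Rg (rr x) x := fun x => hRg.symm (hrr x)
  have hv : ∀ x y, Rg x y → v y = (q (rr x) (a (rr x))).1 y := by
    intro x y h
    show (q (rr y) (a (rr y))).1 y = _
    rw [hrrE x y h]
  have hκ : ∀ x y, Rg x y → κ y = (q (rr x) (a (rr x))).2.1 y := by
    intro x y h
    show (q (rr y) (a (rr y))).2.1 y = _
    rw [hrrE x y h]
  have hsg : ∀ x y, Rg x y → sg y = (q (rr x) (a (rr x))).2.2 y := by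
    intro x y h
    show (q (rr y) (a (rr y))).2.2 y = _
    rw [hrrE x y h]
  have hRsymm : ∀ x, Rg x (S.E.symm x) := by
    intro x
    have h1 := hRE (S.E.symm x)
    rw [Equiv.apply_symm_apply] at h1
    exact hRg.symm h1
  have hRpow : ∀ x (n : ℕ), Rg x ((S.E ^ n) x) := by
    intro x n
    induction n with
    | zero => exact hRg.refl x
    | succ n ih =>
      rw [pow_succ', Equiv.Perm.mul_apply]
      exact hRg.trans ih (hRE _)
  have hRcyc : ∀ x y, S.E.SameCycle x y → Rg x y := by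
    intro x y h
    obtain ⟨n, rfl⟩ := h.exists_nat_pow_eq
    exact hRpow x n
  have hRR : ∀ x y, S.E.SameCycle x y → (R x ↔ R y) := fun x y h => cyc_const hR h
  have hroot : ∀ x, R x → S.E.SameCycle x (rr x) := fun x hx =>
    hRb x (rr x) hx (hrrR x) (hrr x)
  have hsgE : ∀ x, sg (S.E x) = sg x := by
    intro x
    rw [hsg x _ (hRE x), hsg x x (hRg.refl x)]
    exact (hP x).sgE x
  have hsgcyc : ∀ x y, S.E.SameCycle x y → sg x = sg y := by
    intro x y h
    exact (cyc_const (S := S) (Q := fun z => sg x = sg z) (fun z => by rw [hsgE]) h).1 rfl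
  have hsgr : ∀ x, sg (rr x) = letr (a (rr x)).1 := by
    intro x
    rw [hsg x _ (hrr x)]
    exact (hP x).sgr
  have hsg1 : ∀ x, sg x = 1 ∨ sg x = -1 := fun x => (hP x).sg1 x
  have hper : ∀ x j, K ≤ j → κ x (j + 2) = κ x j := fun x => (hP x).per x
  have htts : TTS S.E S.ta v ok κ := by
    constructor
    · intro p j k hk
      rw [hκ p _ (hRE p)]
      apply (hP p).tts.st
      rw [hk, hv p _ (hRE p)]
    · intro p i j hij
      rw [hκ p _ (hRsymm p), hκ p _ (hRg.trans (hRt p) (hRsymm _))]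
      exact (hP p).tts.pop p i j hij
    · intro p i j hij
      rw [hκ p _ (hRt p)]
      exact (hP p).tts.push p i j hij
  have hpb : PB S.E v K := by
    intro x n hn
    have h1 : ∑ i ∈ Finset.range n, v ((S.E ^ i) x) =
        ∑ i ∈ Finset.range n, (q (rr x) (a (rr x))).1 ((S.E ^ i) x) :=
      Finset.sum_congr rfl (fun i _ => hv x _ (hRpow x i))
    rw [h1]
    exact (hP x).pb x n hn
  -- the root sides
  have hcase : ∀ x, R x → sg (S.om x) = sg x := by
    intro x hx
    have hs := hroot x hx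
    have hs' := same_om hs
    rw [hsgcyc _ _ hs', hsgcyc _ _ hs]
    by_cases ho : R (S.om (rr x))
    · have h1 := hroot _ ho
      have h2 := same_om h1
      rw [om_om] at h2
      have h3 : R (S.om (rr (S.om (rr x)))) := (hRR _ _ h2).1 (hrrR x)
      rw [hsgcyc _ _ h1, hsgr, hsgr, ha, if_pos (Or.inl h3), ha (rr x), if_pos (Or.inl ho)]
    · rw [hsgr, ha (rr x), if_neg (by
        rintro (h | h)
        · exact ho h
        · exact h (hrrR x))]
      show sg (S.om (rr x)) = letr (decide (sg (S.om (rr x)) = 1))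
      rcases hsg1 (S.om (rr x)) with h | h
      · rw [h]; simp [letr]
      · rw [h]; simp [letr]
  -- deep types of the ring of two root sides
  have hfalse : ∀ x, R x → R (S.om x) → ∀ j, K ≤ j → κ x j = false := by
    intro x hx hox j hj
    have hs := hroot x hx
    have ho : R (S.om (rr x)) := (hRR _ _ (same_om hs)).1 hox
    obtain ⟨ε, hε⟩ := (hP x).deep
    have hd : ∀ j, K ≤ j → κ (rr x) j = false := by
      intro j hj
      rw [hκ x _ (hrr x), hε j hj, ha (rr x), if_pos (Or.inl ho)]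
      simp
    obtain ⟨c, hc, hc'⟩ := htts.shift hpb hs.symm
    have hc1 := (abs_le.1 hc).1
    rw [per_mod (hper x) hj (j := j + 2 * K) (by omega) (by omega),
      hc' (j + 2 * K) ((j : ℤ) + 2 * K + c).toNat (by omega) (by
        rw [Int.toNat_of_nonneg (by omega)]; push_cast; ring)]
    apply hd
    omega
  have hmat : ∀ x, R x → ∃ ε : ℕ, ∀ i j, K ≤ i → K ≤ j → (i + j + 1 + ε) % 2 = 0 →
      κ (rr x) i = κ (S.om (rr x)) j := by
    intro x hx
    by_cases ho : R (S.om (rr x))
    · refine ⟨0, fun i j hi hj _ => ?_⟩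
      rw [hfalse (rr x) (hrrR x) ho i hi, hfalse (S.om (rr x)) ho (by rw [om_om]; exact hrrR x) j hj]
    · obtain ⟨ε, hε⟩ := (hP x).deep
      refine ⟨K + ε + 1, fun i j hi hj hij => ?_⟩
      have hA := ha (rr x)
      rw [if_neg (by
        rintro (h | h)
        · exact ho h
        · exact h (hrrR x))] at hA
      rw [hκ x _ (hrr x), hε i hi, hA]
      show (if (i + ε) % 2 = 0 then κ (S.om (rr x)) K else κ (S.om (rr x)) (K + 1)) = _
      split_ifs with h1
      · exact per_mod (hper _) le_rfl hj (by omega)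
      · exact per_mod (hper _) (by omega) hj (by omega)
  refine ⟨v, κ, sg, ?_, fun x => ?_, fun x y hxy => ?_⟩
  rotate_left
  · have h1 := hLL x x (hin x)
    rw [hκ x _ (hRsymm x), hv x x (hRg.refl x), hκ x x (hRg.refl x)]
    exact h1
  · have h1 := (hq (rr x) (a (rr x)) (hrrR x)).2.2 x y (hin x) (hRg.trans (hin x) hxy)
    rw [hv x x (hRg.refl x), hv x y hxy]
    exact h1
  constructor
  · intro x
    rw [hv x _ (hRt x)]
    exact (hP x).vτ x
  · exact fun x => (hP x).v0 x
  · exact hsg1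
  · exact hsgE
  · intro x
    by_cases hx : R x
    · exact hcase x hx
    · have h1 := hcase (S.om x) (hup x hx).1
      rw [om_om] at h1
      exact h1.symm
  · intro d inst
    have h1 := (hP d).sum d (hin d)
    show _ = 2 * (q (rr d) (a (rr d))).2.2 d
    rw [← h1]
    refine Finset.sum_congr ?_ ?_
    · ext x
      simp
    · intro x hx
      have hx' : S.E.SameCycle d x := by simpa using hx
      exact hv d x (hRcyc d x hx')
  · exact hpb
  · exact htts
  · exact hper
  · intro x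
    by_cases hx : R x
    · exact ⟨rr x, Or.inl (hroot x hx), hmat x hx⟩
    · exact ⟨rr (S.om x), Or.inr (hroot _ (hup x hx).1), hmat _ (hup x hx).1⟩
  · intro u T ρ hT hρ hdeep
    obtain ⟨c, hc⟩ := (hP u).conn v T ρ (fun x hx => hv u x (hRg.trans (hrr u) hx)) hT hρ (by
      intro x hx hxr j hj
      apply hdeep x (hRg.trans (hrr u) hx) _ j hj
      intro hRx
      exact hxr (hRb x (rr u) hRx (hrrR u) (hRg.symm hx)))
    exact ⟨c, fun x hx => hc x (hRg.trans (hin u) hx)⟩

end Pool.Agent.MP42.EO
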