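import Pool.Agent.MP42.TQ.Main
import Pool.Agent.MP42.TQ.Rec
import Pool.Agent.MP42.TQ.Flow
import Pool.Agent.MP42.EO.Main

/-!
# Assembly for the system with the thin ribbons (owner helper18)

`PiecesM T K`: for every region of the system with the thin ribbons, every root letter and all deep
types of the root side there is a solution (`Piece`, types legal for `Thin.okT`), such that the
types of the strands over every thin ribbon are `false, .., false, true, .., true` (`MonoL`).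
-/

set_option autoImplicit false

namespace Pool.Agent.MP42.EO

open Pool.Agent.Helper55.UNF Pool.Agent.Helper55.UNF.GridSolid Pool.Agent.MP42.NE Pool.Agent.MP42
open Pool.Agent.MP42.NE.Sys

variable {P : GridSolid} {a b : Fin 3}

/-! ## The two sides of a thin ribbon are in one region -/

lemma reg_ta {D : Type*} (S : Sys D) (x : D) : Reg S.E S.ta x (S.ta x) :=
  Relation.EqvGen.rel _ _ (Or.inr rfl)

lemma reg_E' {D : Type*} (S : Sys D) (x : D) : Reg S.E S.ta x (S.E x) :=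
  Relation.EqvGen.rel _ _ (Or.inl rfl)

/-- the other side of a real ribbon -/
lemma ta_Y (hab : a ≠ b) {s : P.FSt} (h : KY a b s) (h1 : IsD a s) (h2 : IsD a s.r2) :
    (sysH P a b hab).ta ⟨s, h1⟩ = ⟨s.r2, h2⟩ := by
  apply Subtype.ext
  show hr a b (hN a s) = s.r2
  rw [hN_cap h.1, hr_non (t := s.rL) h.1 ((rL_b hab h.1).2 h.2), FSt.rL_rL]

/-- the two real ribbons at a bad tripod are in one region -/
lemma reg_bad (hab : a ≠ b) {s : P.FSt} (h : BadC a b s) (h1 : IsD a s)
    (h2 : IsD a (opq s).r2) :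
    Reg (sysH P a b hab).E (sysH P a b hab).ta ⟨s, h1⟩ ⟨(opq s).r2, h2⟩ := by
  have hE := (h.east hab).1
  have hs1 : IsD a s.stE := (isD_stE h1)
  have hs2 : s.stE.1.e.1 = a := hs1.resolve_left hE
  have e1 : (sysH P a b hab).E ⟨s, h1⟩ = ⟨s.stE, hs1⟩ := Subtype.ext (hfx_wall hE)
  have hn : ¬ s.stE.stN.1.d.1 = a := wall_stN hs2
  have hd2 : IsD a s.stE.stN.r2 := Or.inr (by
    show s.stE.stN.1.e.1 = a
    rw [stN_ax]; exact hs2)
  have e2 : (sysH P a b hab).ta ⟨s.stE, hs1⟩ = ⟨s.stE.stN.r2, hd2⟩ := by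
    apply Subtype.ext
    show hr a b (hN a s.stE) = s.stE.stN.r2
    rw [hN_wall hE, hr_wall hn]
  have e3 : s.stE.stN.r2.stE = (opq s).rL := by
    have e4 : opq s = (s.stE.stN.rL).stN := by
      show (s.stE.rL.stE).stN = _
      rw [stE_rL]
    rw [e4, ← stE_rL, FSt.rL_rL]
  have hd3 : IsD a (opq s) := h.ky'.isD
  have e5 : (sysH P a b hab).E ⟨s.stE.stN.r2, hd2⟩ = ⟨opq s, hd3⟩ := by
    apply Subtype.ext
    show hfx a b s.stE.stN.r2.stE = opq s
    rw [e3, hfx_non (t := (opq s).rL) h.ky'.1 ((rL_b hab h.ky'.1).2 h.ky'.2), FSt.rL_rR]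
  have e6 : (sysH P a b hab).ta ⟨opq s, hd3⟩ = ⟨(opq s).r2, h2⟩ := ta_Y hab h.ky' hd3 h2
  have k1 := reg_E' (sysH P a b hab) ⟨s, h1⟩
  rw [e1] at k1
  have k2 := reg_ta (sysH P a b hab) ⟨s.stE, hs1⟩
  rw [e2] at k2
  have k3 := reg_E' (sysH P a b hab) ⟨s.stE.stN.r2, hd2⟩
  rw [e5] at k3
  have k4 := reg_ta (sysH P a b hab) ⟨opq s, hd3⟩
  rw [e6] at k4
  exact ((k1.trans k2).trans k3).trans k4

variable (T : Thin P a b) (hab : a ≠ b)

namespace Thin

/-- the two sides of a thin ribbon are in one region of the spine system -/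
lemma reg_cpd (x : HD P a) : Reg (sysH P a b hab).E (sysH P a b hab).ta x (T.cpd hab x) := by
  by_cases hX : T.X x.1
  · rw [cpd_X hab hX]
    exact reg_bad hab (T.bX _ hX) x.2 _
  by_cases hZ : T.Z (hE a b x.1).r2
  · have hb := T.bZ _ hZ
    have hb' := T.bZ _ (T.oZ _ hZ)
    have k1 := reg_bad hab hb hb.ky.isD hb.ky'.isD
    have e1 : (sysH P a b hab).ta ⟨(hE a b x.1).r2, hb.ky.isD⟩ = (sysH P a b hab).E x := by
      rw [ta_Y hab hb.ky hb.ky.isD (by rw [FSt.r2_r2]; exact ((sysH P a b hab).E x).2)]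
      exact Subtype.ext (FSt.r2_r2 _)
    have e2 : (sysH P a b hab).E (T.cpd hab x) = ⟨opq (hE a b x.1).r2, hb.ky'.isD⟩ :=
      Subtype.ext (cpd_Z_E hab hZ)
    have e3 : (sysH P a b hab).ta ⟨(opq (hE a b x.1).r2).r2, hb'.ky.isD⟩ =
        ⟨opq (hE a b x.1).r2, hb.ky'.isD⟩ := by
      rw [ta_Y hab hb'.ky hb'.ky.isD (by rw [FSt.r2_r2]; exact hb.ky'.isD)]
      exact Subtype.ext (FSt.r2_r2 _)
    have k2 := reg_E' (sysH P a b hab) x
    have k3 := (reg_ta (sysH P a b hab) ⟨(hE a b x.1).r2, hb.ky.isD⟩)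
    rw [e1] at k3
    have k4 := (reg_ta (sysH P a b hab) ⟨(opq (hE a b x.1).r2).r2, hb'.ky.isD⟩)
    rw [e3] at k4
    have k5 := reg_E' (sysH P a b hab) (T.cpd hab x)
    rw [e2] at k5
    exact (((k2.trans (Reg.symm k3)).trans k1).trans k4).trans (Reg.symm k5)
  · have h1 : T.cpd hab x = x := by
      unfold cpd
      rw [dif_neg hX, dif_neg hZ]
    rw [h1]
    exact Reg.refl x

/-! ## Global facts about the system with the thin ribbons -/

lemma tsys_r_ne (p : T.TD hab) : (T.tsys hab).r p ≠ p :=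
  (T.cuts hab).hr (fun x => sysH_rE_ne hab x) (sysH_r_ne hab) p

lemma tsys_rE_ne (p : T.TD hab) : (T.tsys hab).r ((T.tsys hab).E p) ≠ p :=
  (T.cuts hab).ho (fun x => sysH_rE_ne hab x) p

/-- every dart is on the ring of a dart of the spine system -/
lemma cyc_d0 (p : T.TD hab) : (T.tsys hab).E.SameCycle (d0 T hab p.1.1) p := by
  have key : ∀ (x : HD P a) (i : ℕ) (hi : i ≤ (T.cuts hab).n x),
      (T.tsys hab).E.SameCycle ((T.cuts hab).dd x 0 (Nat.zero_le _)) ((T.cuts hab).dd x i hi) := by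
    intro x i
    induction i with
    | zero => exact fun hi => Equiv.Perm.SameCycle.refl _ _
    | succ i ih =>
      intro hi
      have h1 := ih (by omega)
      have h2 := (T.cuts hab).EE_lt (d := x) (i := i) (by omega)
      rw [← h2]
      exact Equiv.Perm.sameCycle_apply_right.2 h1
  exact key p.1.1 p.1.2 p.2

lemma cyc_E (x : HD P a) :
    (T.tsys hab).E.SameCycle (d0 T hab x) (d0 T hab ((sysH P a b hab).E x)) := by
  have h1 := T.cyc_d0 hab ((T.cuts hab).dd x ((T.cuts hab).n x) le_rfl)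
  have h2 := (T.cuts hab).EE_last x
  show (T.tsys hab).E.SameCycle (d0 T hab x) ((T.cuts hab).dd ((sysH P a b hab).E x) 0
    (Nat.zero_le _))
  rw [← h2]
  exact Equiv.Perm.sameCycle_apply_right.2 h1

instance : Finite (T.TD hab) := by
  have h : ∃ N : ℕ, ∀ x : HD P a, (T.cuts hab).n x ≤ N := by
    refine ⟨1, fun x => n_le hab x⟩
  obtain ⟨N, hN⟩ := h
  refine Finite.of_injective (β := HD P a × Fin (N + 1))
    (fun p => (p.1.1, ⟨p.1.2, Nat.lt_succ_of_le (p.2.trans (hN _))⟩)) ?_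
  intro p q hpq
  have h1 := congrArg Prod.fst hpq
  have h2 := congrArg Prod.snd hpq
  exact (T.cuts hab).ext_iff'.2 ⟨h1, congrArg Fin.val h2⟩

noncomputable instance : Fintype (T.TD hab) := Fintype.ofFinite _

lemma cyc_of {x y : HD P a} (h : (sysH P a b hab).E.SameCycle x y) :
    (T.tsys hab).E.SameCycle (d0 T hab x) (d0 T hab y) := by
  obtain ⟨n, rfl⟩ := h.exists_nat_pow_eq
  clear h
  induction n with
  | zero => exact Equiv.Perm.SameCycle.refl _ _
  | succ n ih =>
    rw [pow_succ', Equiv.Perm.mul_apply]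
    exact ih.trans (T.cyc_E hab _)

/-- darts over one ring -/
lemma cyc_of' {p q : T.TD hab} (h : (sysH P a b hab).E.SameCycle p.1.1 q.1.1) :
    (T.tsys hab).E.SameCycle p q :=
  ((T.cyc_d0 hab p).symm.trans (T.cyc_of hab h)).trans (T.cyc_d0 hab q)

/-- **the system with the thin ribbons is connected** -/
theorem trans_tsys (hM : P.IsManifold) (hc : P.surfaceGraph.Connected) :
    (T.tsys hab).Trans := by
  intro ψ h1 h2 h3 p q hp
  have hcyc : ∀ p q : T.TD hab, (T.tsys hab).E.SameCycle p q → (ψ p ↔ ψ q) := by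
    intro p q h
    obtain ⟨n, rfl⟩ := h.exists_nat_pow_eq
    clear h
    induction n with
    | zero => exact Iff.rfl
    | succ n ih =>
      rw [pow_succ', Equiv.Perm.mul_apply, h1]
      exact ih
  have h0 : ∀ x y : HD P a, ψ (d0 T hab x) → ψ (d0 T hab y) := by
    refine trans_sysH hab hM hc (fun x => ψ (d0 T hab x)) ?_ ?_ ?_
    · intro x
      exact (hcyc _ _ (T.cyc_E hab x)).symm
    · intro x
      show ψ (d0 T hab ((sysH P a b hab).N x)) ↔ ψ (d0 T hab x)
      rw [← N_d0, h2]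
    · intro x
      show ψ (d0 T hab ((sysH P a b hab).r x)) ↔ ψ (d0 T hab x)
      rw [← r_d0, h3]
  have h4 := (hcyc _ _ (T.cyc_d0 hab p)).2 hp
  exact (hcyc _ _ (T.cyc_d0 hab q)).1 (h0 _ _ h4)

lemma om_fst (p : T.TD hab) : ((T.tsys hab).om p).1.1 = (sysH P a b hab).om p.1.1 := by
  have h1 := (T.cuts hab).sys_om p
  rw [h1]; rfl

lemma reg_fst_E (p : T.TD hab) :
    Reg (sysH P a b hab).E (sysH P a b hab).ta p.1.1 ((T.tsys hab).E p).1.1 := by
  obtain ⟨⟨x, i⟩, hi⟩ := p
  have hi' : i ≤ (T.cuts hab).n x := hi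
  change Reg (sysH P a b hab).E (sysH P a b hab).ta x
    ((T.cuts hab).EE ((T.cuts hab).dd x i hi')).1.1
  by_cases h : i < (T.cuts hab).n x
  · rw [(T.cuts hab).EE_lt h]
    exact Reg.refl x
  · have : i = (T.cuts hab).n x := by omega
    subst this
    rw [(T.cuts hab).EE_last]
    exact reg_E' _ x

lemma reg_fst_ta (p : T.TD hab) :
    Reg (sysH P a b hab).E (sysH P a b hab).ta p.1.1 ((T.tsys hab).ta p).1.1 := by
  have h0 := (T.cuts hab).sys_ta p
  rw [h0]
  by_cases h1 : p.1.2 = 0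
  · have h2 : (T.cuts hab).tt p = (T.cuts hab).dd ((sysH P a b hab).ta p.1.1) 0
        (Nat.zero_le _) := if_pos h1
    rw [h2]
    exact reg_ta _ _
  by_cases h2 : p.1.2 ≤ (T.cuts hab).la p.1.1
  · have h3 := (T.cuts hab).tt_thin p (by omega) h2
    rw [h3]
    exact T.reg_cpd hab p.1.1
  · rw [(T.cuts hab).tt_dummy p (by omega)]
    exact Reg.refl _

/-- **the rings of the system with the thin ribbons separate** -/
theorem sep_tsys (hsep : SepRing (sysH P a b hab)) : SepRing (T.tsys hab) := by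
  intro p h
  apply hsep p.1.1
  have key : ∀ q q' : T.TD hab, Relation.EqvGen (fun a' b' => b' = (T.tsys hab).E a' ∨
      b' = (T.tsys hab).ta a' ∨ (b' = (T.tsys hab).om a' ∧
        ¬ ((T.tsys hab).E.SameCycle p a' ∨ (T.tsys hab).E.SameCycle ((T.tsys hab).om p) a'))) q q' →
      Cn (sysH P a b hab) (fun y => (sysH P a b hab).E.SameCycle p.1.1 y ∨
        (sysH P a b hab).E.SameCycle ((sysH P a b hab).om p.1.1) y) q.1.1 q'.1.1 := by
    intro q q' h
    induction h with
    | rel x y h =>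
      rcases h with rfl | rfl | ⟨rfl, h⟩
      · exact Cn.of_reg _ (T.reg_fst_E hab x)
      · exact Cn.of_reg _ (T.reg_fst_ta hab x)
      · rw [T.om_fst hab]
        refine Cn.som (fun h' => h ?_)
        rcases h' with h' | h'
        · exact Or.inl (T.cyc_of' hab h')
        · right
          apply T.cyc_of' hab
          rw [T.om_fst hab]
          exact h'
    | refl x => exact Cn.refl _ _
    | symm x y _ ih => exact ih.symm
    | trans x y z _ _ ih1 ih2 => exact ih1.trans ih2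
  have h2 := key _ _ h
  rw [T.om_fst hab] at h2
  exact h2

/-- the types of the strands over a thin ribbon are monotone: `κ'` = stack before the dart, `κ` =
stack after the dart -/
def MonoL (p : T.TD hab) (v : ℤ) (κ' κ : ℕ → Bool) : Prop :=
  p.1.2 ≠ 0 → (∀ i j : ℕ, i < j → (j : ℤ) < v → κ' i = true → κ' j = true) ∧
    ∀ i j : ℕ, i < j → (j : ℤ) < -v → κ j = true → κ i = true

/-- solutions on all regions of the system with the thin ribbons; at every corner only one kind of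
thin ribbon is used -/
def PiecesM (K : ℕ) : Prop :=
  ∀ (r : T.TD hab) (s : ℤ), (s = 1 ∨ s = -1) → ∀ t0 t1 : Bool, ∃ v κ sg,
    Piece (T.tsys hab) okT K (Reg (T.tsys hab).E (T.tsys hab).ta r) r s t0 t1 v κ sg ∧
      (∀ x, Reg (T.tsys hab).E (T.tsys hab).ta r x →
        T.MonoL hab x (v x) (κ ((T.tsys hab).E.symm x)) (κ x)) ∧
      ∀ x y, Reg (T.tsys hab).E (T.tsys hab).ta r x → Reg (T.tsys hab).E (T.tsys hab).ta r y →
        M.XZr x y → v x = 0 ∨ v y = 0

variable {T hab} in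
/-- the two thin ribbons at one corner are in one region -/
lemma reg_XZr {p q : T.TD hab} (h : M.XZr p q) :
    Reg (T.tsys hab).E (T.tsys hab).ta p q := by
  obtain ⟨-, -, hX, -, h2⟩ := h
  have hk := (T.bX _ hX).ky
  have hd2 : IsD a p.1.1.1.r2 := by
    have h3 : hE a b q.1.1.1 = p.1.1.1.r2 := by rw [← h2, FSt.r2_r2]
    rw [← h3]
    exact ((sysH P a b hab).E q.1.1).2
  have e1 : (sysH P a b hab).ta p.1.1 = ⟨p.1.1.1.r2, hd2⟩ := ta_Y hab hk p.1.1.2 hd2
  have e2 : (sysH P a b hab).E q.1.1 = ⟨p.1.1.1.r2, hd2⟩ := by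
    apply Subtype.ext
    show hE a b q.1.1.1 = p.1.1.1.r2
    rw [← h2, FSt.r2_r2]
  have k1 : (T.tsys hab).E.SameCycle p (d0 T hab p.1.1) := (T.cyc_d0 hab p).symm
  have e3 : (T.tsys hab).ta (d0 T hab p.1.1) = d0 T hab ((sysH P a b hab).ta p.1.1) := by
    have h0 := (T.cuts hab).sys_ta (d0 T hab p.1.1)
    rw [h0]
    exact if_pos rfl
  have k2 := reg_ta (T.tsys hab) (d0 T hab p.1.1)
  rw [e3, e1, ← e2] at k2
  have k3 : (T.tsys hab).E.SameCycle (d0 T hab ((sysH P a b hab).E q.1.1)) q :=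
    (T.cyc_E hab q.1.1).symm.trans (T.cyc_d0 hab q)
  exact ((Reg.cyc k1).trans k2).trans (Reg.cyc k3)

/-- darts which are no ribbons are fixed by `ta` -/
lemma ta_not {p : T.TD hab} (h : ¬ RibT p) : (T.tsys hab).ta p = p := by
  have h0 := (T.cuts hab).sys_ta p
  rw [h0]
  unfold RibT at h
  by_cases h1 : p.1.2 = 0
  · rw [if_pos h1] at h
    have h2 : (T.cuts hab).tt p = (T.cuts hab).dd ((sysH P a b hab).ta p.1.1) 0
        (Nat.zero_le _) := if_pos h1
    have h3 : (sysH P a b hab).ta p.1.1 = p.1.1 := by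
      by_contra hc
      exact h ((ta_ne_iff hab _).1 hc)
    rw [h2, (T.cuts hab).ext_iff']
    exact ⟨h3, h1.symm⟩
  · rw [if_neg h1] at h
    exact (T.cuts hab).tt_dummy p (by
      show T.la p.1.1 < p.1.2
      omega)

end Thin

/-- **from the regions of the system with the thin ribbons to an edge unfolding** -/
theorem unfold_of_piecesT (hP : P.IsOrthogonalPolyhedron) {K : ℕ} (hpc : T.PiecesM hab K)
    (hsep : SepRing (sysH P a b hab)) {Q : ℕ} (hQ : 5 * (6 * (24 * K + 24) + 1) + 1 ≤ Q)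
    (hn : 0 < 2 * Q + 1) : (P.refine (2 * Q + 1) hn).HasEdgeUnfolding := by
  classical
  obtain ⟨F⟩ := hP.2.nonempty
  have hne := nonempty_HD a hP.2
  have : Nonempty (T.TD hab) := hne.map (Thin.d0 T hab)
  set S := T.tsys hab with hS
  have htr := T.trans_tsys hab hP.1 hP.2
  obtain ⟨R, rk, h1, h2, h3, h4, h5, h6⟩ := ring_tree htr (T.sep_tsys hab hsep)
  have hRg : Equivalence (Reg S.E S.ta) :=
    ⟨fun x => Reg.refl x, fun h => Reg.symm h, fun h h' => Reg.trans h h'⟩
  obtain ⟨v, κ, sg, W, hL, hQ'⟩ := exists_wholeL S (ok := Thin.okT) (L := T.MonoL hab)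
    (Q := fun x y m n => Thin.M.XZr x y → m = 0 ∨ n = 0) (K := K) hRg
    (fun x => reg_E x) (fun x => reg_τ x) h1 h3 (fun x y hx hy hxy => h4 x y hxy hx hy) h2
    (fun x hx => ⟨h5 x hx, h6 x hx⟩) (fun r _ s hs t0 t1 => hpc r s hs t0 t1)
  have hsum : ∀ d, ∑ x ∈ Finset.univ.filter (fun x => S.E.SameCycle d x), v x = 2 * sg d :=
    fun d => W.sum d _
  obtain ⟨e, g, hF, f1, f2, f3, f4, f5, f6, f7, f8, f9⟩ := exists_flow_types_sgL S
    (T.tsys_r_ne hab) (T.tsys_rE_ne hab) W.vτ W.pb W.sgo hsum W.tts W.per W.mat (4 * K + 4)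
  refine hasEdgeUnfolding_of_thinM hF ?_ (fun p q h => hQ' p q (Thin.reg_XZr h) h) ?_ ?_ g f4 f5
    f6 f7 ?_ ?_ F (N := 24 * K + 24) ?_ ?_ hQ hn
  · exact RTree.fconn S hF f2 W.pb W.sg1 hsum htr hRg (fun x => reg_E x) (fun x => reg_τ x) h1
      h2 h6 W.conn
  · intro p hp
    exact W.v0 p (T.ta_not hab hp)
  · intro x
    have := f1 (Thin.d0 T hab x)
    omega
  · intro d hd i j hij hj hi
    rw [f8 d j hj]
    rw [f8 d i (by omega)] at hi
    exact (hL d hd).1 i j hij hj hi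
  · intro d hd i j hij hj hi
    rw [f9 d i (by omega)]
    rw [f9 d j hj] at hi
    exact (hL d hd).2 i j hij hj hi
  · intro x
    have := f3 x
    omega
  · intro x
    have := W.pb x 1 (fun i h1 h2 => by omega)
    simp only [Finset.sum_range_one, pow_zero, Equiv.Perm.one_apply] at this
    push_cast
    linarith

end Pool.Agent.MP42.EO
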