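import Pool.Agent.MP42.EO.Rec

/-!
# The ends of the strands of a ring (owner helper18)

A ring of positions with `v x = 1` (pop), `-1` (push) or `0`.  The strand `(x, j)` is the strand at
depth `j` after the position `x`.  `RE x j q`: it is popped at `q`.  `LE x j p`: it was pushed at
`p`.
-/

set_option autoImplicit false

namespace Pool.Agent.MP42.EO

open Pool.Agent.MP42.NE

variable {D : Type*}

/-- the strand `(x, j)` is popped at `q` -/
inductive RE (E : Equiv.Perm D) (v : D → ℤ) : D → ℕ → D → Prop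
  | pop (x : D) : v (E x) = 1 → RE E v x 0 (E x)
  | step (x : D) (j k : ℕ) (q : D) : (k : ℤ) + v (E x) = j → RE E v (E x) k q → RE E v x j q

/-- the strand `(x, j)` was pushed at `p` -/
inductive LE (E : Equiv.Perm D) (v : D → ℤ) : D → ℕ → D → Prop
  | push (x : D) : v x = -1 → LE E v x 0 x
  | step (x : D) (j k : ℕ) (p : D) : (j : ℤ) + v x = k → LE E v (E.symm x) k p → LE E v x j p

variable {E : Equiv.Perm D} {v : D → ℤ} {x y p q p' q' : D} {i j k : ℕ}

lemma re_step (h : (k : ℤ) + v (E x) = j) : RE E v x j q ↔ RE E v (E x) k q := by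
  constructor
  · intro h1
    cases h1 with
    | pop _ h2 => omega
    | step _ _ k' _ h2 h3 =>
      obtain rfl : k = k' := by omega
      exact h3
  · exact RE.step x j k q h

lemma le_step (h : (j : ℤ) + v x = k) : LE E v x j p ↔ LE E v (E.symm x) k p := by
  constructor
  · intro h1
    cases h1 with
    | push _ h2 => omega
    | step _ _ k' _ h2 h3 =>
      obtain rfl : k = k' := by omega
      exact h3
  · exact LE.step x j k p h

lemma le_step' (h : (k : ℤ) + v (E x) = j) : LE E v x j p ↔ LE E v (E x) k p := by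
  rw [le_step (x := E x) (j := k) (k := j) h, Equiv.symm_apply_apply]

lemma re_step' (h : (j : ℤ) + v x = k) : RE E v x j q ↔ RE E v (E.symm x) k q := by
  rw [re_step (x := E.symm x) (j := k) (k := j) (by rw [Equiv.apply_symm_apply]; exact h),
    Equiv.apply_symm_apply]

lemma re_pop (h : v (E x) = 1) : RE E v x 0 q ↔ q = E x := by
  constructor
  · intro h1
    cases h1 with
    | pop _ h2 => rfl
    | step _ _ k' _ h2 h3 => omega
  · rintro rfl
    exact RE.pop x h

lemma re_pop' (h : v x = 1) : RE E v (E.symm x) 0 q ↔ q = x := by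
  rw [re_pop (x := E.symm x) (by rw [Equiv.apply_symm_apply]; exact h), Equiv.apply_symm_apply]

lemma le_push (h : v x = -1) : LE E v x 0 p ↔ p = x := by
  constructor
  · intro h1
    cases h1 with
    | push _ h2 => rfl
    | step _ _ k' _ h2 h3 => omega
  · rintro rfl
    exact LE.push _ h

lemma RE.vq (h : RE E v x j q) : v q = 1 := by
  induction h with
  | pop _ h => exact h
  | step _ _ _ _ _ _ ih => exact ih

lemma LE.vp (h : LE E v x j p) : v p = -1 := by
  induction h with
  | push _ h => exact h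
  | step _ _ _ _ _ _ ih => exact ih

lemma RE.det (h : RE E v x j q) : RE E v x j q' → q' = q := by
  induction h with
  | pop _ h => exact (re_pop h).1
  | step _ _ _ _ h _ ih => exact fun h' => ih ((re_step h).1 h')

lemma LE.det (h : LE E v x j p) : LE E v x j p' → p' = p := by
  induction h with
  | push _ h => exact (le_push h).1
  | step _ _ _ _ h _ ih => exact fun h' => ih ((le_step h).1 h')

/-- the other end -/
lemma RE.le_iff (h : RE E v x j q) : LE E v x j p ↔ LE E v (E.symm q) 0 p := by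
  induction h with
  | pop x h => rw [Equiv.symm_apply_apply]
  | step x j k q h _ ih => rw [← ih, le_step' h]

lemma LE.re_iff (h : LE E v x j p) : RE E v x j q ↔ RE E v p 0 q := by
  induction h with
  | push x h => exact Iff.rfl
  | step x j k p h _ ih => rw [← ih, re_step' h]

/-- the push `p` and the pop `q` are matched -/
def Mt2 (E : Equiv.Perm D) (v : D → ℤ) (p q : D) : Prop := v p = -1 ∧ RE E v p 0 q

lemma mt2_iff : Mt2 E v p q ↔ v q = 1 ∧ LE E v (E.symm q) 0 p := by
  constructor
  · rintro ⟨h1, h2⟩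
    exact ⟨h2.vq, h2.le_iff.1 (LE.push p h1)⟩
  · rintro ⟨h1, h2⟩
    exact ⟨h2.vp, h2.re_iff.1 ((re_pop' h1).2 rfl)⟩

lemma Mt2.of (h : RE E v x j q) (h' : LE E v x j p) : Mt2 E v p q :=
  ⟨h'.vp, h'.re_iff.1 h⟩

lemma Mt2.le (h : Mt2 E v p q) (h' : RE E v x j q) : LE E v x j p :=
  h'.le_iff.2 (mt2_iff.1 h).2

lemma Mt2.re (h : Mt2 E v p q) (h' : LE E v x j p) : RE E v x j q :=
  h'.re_iff.2 h.2

lemma Mt2.right (h : Mt2 E v p q) (h' : Mt2 E v p q') : q' = q := h.2.det h'.2

lemma Mt2.left (h : Mt2 E v p q) (h' : Mt2 E v p' q) : p' = p :=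
  (mt2_iff.1 h).2.det (mt2_iff.1 h').2

/-- the sum of `v` over the next `n` positions -/
def hs (E : Equiv.Perm D) (v : D → ℤ) (x : D) (n : ℕ) : ℤ :=
  ∑ i ∈ Finset.range n, v ((E ^ (i + 1)) x)

lemma hs_zero (x : D) : hs E v x 0 = 0 := rfl

lemma hs_succ (x : D) (n : ℕ) : hs E v x (n + 1) = v (E x) + hs E v (E x) n := by
  unfold hs
  rw [Finset.sum_range_succ']
  rw [add_comm]
  congr 1

lemma hs_succ' (x : D) (n : ℕ) : hs E v x (n + 1) = hs E v x n + v ((E ^ (n + 1)) x) :=
  Finset.sum_range_succ _ _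

/-- the strand `(x, j)` after `n` steps without its end -/
lemma re_walk : ∀ (n : ℕ) (x : D) (j k : ℕ), (∀ m ≤ n, hs E v x m ≤ j) → (k : ℤ) = j - hs E v x n →
    (RE E v x j q ↔ RE E v ((E ^ n) x) k q) := by
  intro n
  induction n with
  | zero =>
    intro x j k _ hk
    rw [hs_zero, sub_zero] at hk
    obtain rfl : k = j := by exact_mod_cast hk
    rfl
  | succ n ih =>
    intro x j k hm hk
    have h1 := hm 1 (by omega)
    rw [hs_succ, hs_zero] at h1
    obtain ⟨l, hl⟩ : ∃ l : ℕ, (l : ℤ) = j - v (E x) := ⟨(j - v (E x)).toNat, by omega⟩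
    rw [re_step (x := x) (k := l) (j := j) (by omega), ih (E x) l k ?_ ?_]
    · rw [pow_succ, Equiv.Perm.mul_apply]
    · intro m hm'
      have := hm (m + 1) (by omega)
      rw [hs_succ] at this
      omega
    · rw [hs_succ] at hk
      omega

lemma le_walk : ∀ (n : ℕ) (x : D) (j k : ℕ), (∀ m ≤ n, hs E v x m ≤ j) → (k : ℤ) = j - hs E v x n →
    (LE E v x j q ↔ LE E v ((E ^ n) x) k q) := by
  intro n
  induction n with
  | zero =>
    intro x j k _ hk
    rw [hs_zero, sub_zero] at hk
    obtain rfl : k = j := by exact_mod_cast hk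
    rfl
  | succ n ih =>
    intro x j k hm hk
    have h1 := hm 1 (by omega)
    rw [hs_succ, hs_zero] at h1
    obtain ⟨l, hl⟩ : ∃ l : ℕ, (l : ℤ) = j - v (E x) := ⟨(j - v (E x)).toNat, by omega⟩
    rw [le_step' (x := x) (k := l) (j := j) (by omega), ih (E x) l k ?_ ?_]
    · rw [pow_succ, Equiv.Perm.mul_apply]
    · intro m hm'
      have := hm (m + 1) (by omega)
      rw [hs_succ] at this
      omega
    · rw [hs_succ] at hk
      omega

section

variable (hv : ∀ x, v x = -1 ∨ v x = 0 ∨ v x = 1)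

include hv

/-- a strand is popped as soon as the sum exceeds its depth -/
lemma exists_re : ∀ (n : ℕ) (x : D) (j : ℕ), (j : ℤ) < hs E v x n → ∃ q, RE E v x j q := by
  intro n
  induction n with
  | zero => intro x j h; rw [hs_zero] at h; omega
  | succ n ih =>
    intro x j h
    rw [hs_succ] at h
    by_cases h1 : v (E x) = 1 ∧ j = 0
    · obtain ⟨h1, rfl⟩ := h1
      exact ⟨_, RE.pop x h1⟩
    · obtain ⟨l, hl⟩ : ∃ l : ℕ, (l : ℤ) = j - v (E x) := by
        refine ⟨(j - v (E x)).toNat, ?_⟩
        have := hv (E x)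
        omega
      obtain ⟨q, hq⟩ := ih (E x) l (by omega)
      exact ⟨q, (re_step (by omega)).2 hq⟩

/-- a strand was pushed if the sum backwards is large -/
lemma exists_le : ∀ (n : ℕ) (x : D) (j : ℕ),
    (j : ℤ) + ∑ i ∈ Finset.range n, v ((E.symm ^ i) x) < 0 → ∃ p, LE E v x j p := by
  intro n
  induction n with
  | zero => intro x j h; simp at h; omega
  | succ n ih =>
    intro x j h
    rw [Finset.sum_range_succ', pow_zero, Equiv.Perm.one_apply] at h
    by_cases h1 : v x = -1 ∧ j = 0
    · obtain ⟨h1, rfl⟩ := h1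
      exact ⟨_, LE.push x h1⟩
    · obtain ⟨l, hl⟩ : ∃ l : ℕ, (l : ℤ) = j + v x := by
        refine ⟨(j + v x).toNat, ?_⟩
        have := hv x
        omega
      obtain ⟨q, hq⟩ := ih (E.symm x) l (by
        have e1 : ∑ i ∈ Finset.range n, v ((E.symm ^ (i + 1)) x) =
          ∑ i ∈ Finset.range n, v ((E.symm ^ i) (E.symm x)) :=
          Finset.sum_congr rfl (fun i _ => by rw [pow_succ, Equiv.Perm.mul_apply])
        rw [e1] at h
        omega)
      exact ⟨q, (le_step (by omega)).2 hq⟩

end

/-- the place of the right end -/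
lemma RE.place (h : RE E v x j q) : ∃ n, q = (E ^ (n + 1)) x ∧ hs E v x n = j ∧
    ∀ m ≤ n, hs E v x m ≤ j := by
  induction h with
  | pop x h =>
    refine ⟨0, rfl, rfl, fun m hm => ?_⟩
    obtain rfl : m = 0 := by omega
    exact le_rfl
  | step x j k q h _ ih =>
    obtain ⟨n, h1, h2, h3⟩ := ih
    refine ⟨n + 1, by rw [h1, pow_succ E (n + 1), Equiv.Perm.mul_apply], ?_, ?_⟩
    · rw [hs_succ, h2]; omega
    · intro m hm
      rcases m with _ | m
      · rw [hs_zero]; omega
      · rw [hs_succ]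
        have := h3 m (by omega)
        omega

/-- the place of the left end -/
lemma LE.place (h : LE E v x j p) : ∃ n, x = (E ^ n) p ∧ hs E v p n = -(j : ℤ) ∧
    ∀ m ≤ n, hs E v p m ≤ 0 := by
  induction h with
  | push x h =>
    refine ⟨0, rfl, rfl, fun m hm => ?_⟩
    obtain rfl : m = 0 := by omega
    exact le_rfl
  | step x j k p h _ ih =>
    obtain ⟨n, h1, h2, h3⟩ := ih
    have h4 : x = (E ^ (n + 1)) p := by
      rw [pow_succ', Equiv.Perm.mul_apply, ← h1, Equiv.apply_symm_apply]
    refine ⟨n + 1, h4, ?_, ?_⟩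
    · rw [hs_succ', h2, ← h4]; omega
    · intro m hm
      rcases Nat.lt_or_ge m (n + 1) with h5 | h5
      · exact h3 m (by omega)
      · obtain rfl : m = n + 1 := by omega
        rw [hs_succ', h2, ← h4]; omega

end Pool.Agent.MP42.EO
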