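import Pool.Agent.MP42.TQ.Types2

/-!
# Several lanes over one ribbon (owner helper18)

Every position `x` is replaced by the idle position `(x, 0)` and `|v x|` lanes `(x, 1), ..`.
-/

set_option autoImplicit false
set_option linter.unusedSectionVars false

namespace Pool.Agent.MP42.EO

open Pool.Agent.MP42.NE

variable {D : Type*}

/-- the positions with the lanes -/
def LD (v : D → ℤ) : Type _ := {p : D × ℕ // p.2 ≤ (v p.1).natAbs}

namespace LD

variable {v : D → ℤ}

/-- a lane -/
def ln (v : D → ℤ) (x : D) (i : ℕ) (h : i ≤ (v x).natAbs) : LD v := ⟨(x, i), h⟩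

lemma ext {p q : LD v} (h1 : p.1.1 = q.1.1) (h2 : p.1.2 = q.1.2) : p = q :=
  Subtype.ext (Prod.ext h1 h2)

/-- the last lane -/
def last (v : D → ℤ) (x : D) : LD v := ⟨(x, (v x).natAbs), le_rfl⟩

instance [Finite D] : Finite (LD v) := by
  have : Finite (Σ x : D, Fin ((v x).natAbs + 1)) := inferInstance
  refine Finite.of_injective (β := Σ x : D, Fin ((v x).natAbs + 1))
    (fun p => ⟨p.1.1, ⟨p.1.2, Nat.lt_succ_of_le p.2⟩⟩) ?_
  rintro ⟨⟨x, i⟩, hi⟩ ⟨⟨y, j⟩, hj⟩ h
  simp only [Sigma.mk.injEq] at h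
  obtain ⟨rfl, h2⟩ := h
  have h3 := congrArg Fin.val (eq_of_heq h2)
  exact ext rfl h3

variable (E : Equiv.Perm D)

/-- the permutation of the rings -/
def EL (v : D → ℤ) : Equiv.Perm (LD v) where
  toFun p := if h : p.1.2 < (v p.1.1).natAbs then ⟨(p.1.1, p.1.2 + 1), h⟩
    else ⟨(E p.1.1, 0), Nat.zero_le _⟩
  invFun p := if 0 < p.1.2 then ⟨(p.1.1, p.1.2 - 1), (Nat.sub_le _ _).trans p.2⟩
    else ⟨(E.symm p.1.1, (v (E.symm p.1.1)).natAbs), le_rfl⟩
  left_inv p := by
    obtain ⟨⟨d, i⟩, hi⟩ := p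
    by_cases h : i < (v d).natAbs
    · simp [h]
    · have hi' : i ≤ (v d).natAbs := hi
      have : i = (v d).natAbs := by omega
      subst this
      simp
  right_inv p := by
    obtain ⟨⟨d, i⟩, hi⟩ := p
    have hi' : i ≤ (v d).natAbs := hi
    by_cases h : 0 < i
    · have h1 : i - 1 < (v d).natAbs := by omega
      have h2 : i - 1 + 1 = i := by omega
      simp [h, h1, h2]
    · have h0 : i = 0 := by omega
      subst h0
      simp

variable {E}

lemma EL_lt {x : D} {i : ℕ} (h : i < (v x).natAbs) : EL E v (ln v x i h.le) = ln v x (i + 1) h := by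
  show (if h : i < (v x).natAbs then _ else _) = _
  rw [dif_pos h]; rfl

lemma EL_last (x : D) : EL E v (last v x) = ln v (E x) 0 (Nat.zero_le _) := by
  show (if h : (v x).natAbs < (v x).natAbs then _ else _) = _
  rw [dif_neg (lt_irrefl _)]; rfl

lemma EL_symm {x : D} {i : ℕ} (h : i + 1 ≤ (v x).natAbs) :
    (EL E v).symm (ln v x (i + 1) h) = ln v x i (by omega) := by
  rw [Equiv.symm_apply_eq, EL_lt (by omega)]

lemma EL_symm_zero (x : D) :
    (EL E v).symm (ln v x 0 (Nat.zero_le _)) = last v (E.symm x) := by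
  rw [Equiv.symm_apply_eq, EL_last, Equiv.apply_symm_apply]

/-- the other side of a lane -/
def tauL (τ : D → D) (hvτ : ∀ x, v (τ x) = v x) (p : LD v) : LD v :=
  ⟨(τ p.1.1, if p.1.2 = 0 then 0 else (v p.1.1).natAbs + 1 - p.1.2), by
    show (if p.1.2 = 0 then 0 else (v p.1.1).natAbs + 1 - p.1.2) ≤ (v (τ p.1.1)).natAbs
    rw [hvτ]
    split_ifs <;> omega⟩

/-- the sign of a lane -/
def vL (v : D → ℤ) (p : LD v) : ℤ := if p.1.2 = 0 then 0 else (v p.1.1).sign

lemma vL_zero (x : D) : vL v (ln v x 0 (Nat.zero_le _)) = 0 := if_pos rfl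

lemma vL_succ {x : D} {i : ℕ} (h : i + 1 ≤ (v x).natAbs) :
    vL v (ln v x (i + 1) h) = (v x).sign := if_neg (by show ¬ i + 1 = 0; omega)

lemma natAbs_pos' {x : D} (h : 0 < v x) : ((v x).natAbs : ℤ) = v x := by omega

/-! ## Stacks with values in any type -/

/-- infinite stacks with values in `A` -/
structure GS {P A : Type*} (E : Equiv.Perm P) (τ : P → P) (v : P → ℤ)
    (R : P → Bool → A → A → Prop) (κ : P → ℕ → A) : Prop where
  st : ∀ (p : P) (j k : ℕ), (k : ℤ) = v (E p) + j → κ (E p) j = κ p k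
  pop : ∀ (p : P) (i j : ℕ), (i : ℤ) + j + 1 = v p →
    R p true (κ (E.symm p) i) (κ (E.symm (τ p)) j)
  push : ∀ (p : P) (i j : ℕ), (i : ℤ) + j + 1 = - v p → R p false (κ p i) (κ (τ p) j)

section

variable {A : Type*} {τ : D → D} {hvτ : ∀ x, v (τ x) = v x} {R : D → Bool → A → A → Prop}
  {κ : LD v → ℕ → A}

/-- the stacks at the lanes of a pop -/
lemma GS.lanes_pop {R' : LD v → Bool → A → A → Prop} {τ' : LD v → LD v}
    (h : GS (EL E v) τ' (vL v) R' κ) {x : D} (hx : 0 ≤ v x) :
    ∀ (i : ℕ) (hi : i ≤ (v x).natAbs) (j : ℕ), κ (ln v x i hi) j = κ (last v (E.symm x)) (i + j) := by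
  intro i
  induction i with
  | zero =>
    intro hi j
    have h1 := h.st (last v (E.symm x)) j j (by
      rw [EL_last, Equiv.apply_symm_apply, vL_zero]; ring)
    rw [EL_last, Equiv.apply_symm_apply] at h1
    rw [Nat.zero_add]
    exact h1
  | succ i ih =>
    intro hi j
    have h1 := h.st (ln v x i (by omega)) j (j + 1) (by
      rw [EL_lt (by omega), vL_succ, Int.sign_eq_one_of_pos (by omega)]
      push_cast; ring)
    rw [EL_lt (by omega)] at h1
    rw [h1, ih (by omega)]
    congr 1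
    omega

/-- the stacks at the lanes of a push -/
lemma GS.lanes_push {R' : LD v → Bool → A → A → Prop} {τ' : LD v → LD v}
    (h : GS (EL E v) τ' (vL v) R' κ) {x : D} (hx : v x ≤ 0) :
    ∀ (i : ℕ) (_ : i ≤ (v x).natAbs) (j : ℕ),
      κ (ln v x ((v x).natAbs - i) (Nat.sub_le _ _)) j = κ (last v x) (i + j) := by
  intro i
  induction i with
  | zero =>
    intro hi j
    rw [Nat.zero_add]
    rfl
  | succ i ih =>
    intro hi j
    have h0 : (v x).natAbs - (i + 1) < (v x).natAbs := by omega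
    have e1 : ∀ (m : ℕ) (hm : m ≤ (v x).natAbs), m = (v x).natAbs - i →
        ln v x m hm = ln v x ((v x).natAbs - i) (Nat.sub_le _ _) := by
      rintro m hm rfl; rfl
    have h1 := h.st (ln v x ((v x).natAbs - (i + 1)) h0.le) (j + 1) j (by
      rw [EL_lt h0, vL_succ, Int.sign_eq_neg_one_of_neg (by omega)]
      push_cast; ring)
    rw [EL_lt h0, e1 _ _ (by omega), ih (by omega)] at h1
    rw [← h1]
    congr 1
    omega

/-- the stack before the lanes of a push -/
lemma GS.lanes_push_zero {R' : LD v → Bool → A → A → Prop} {τ' : LD v → LD v}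
    (h : GS (EL E v) τ' (vL v) R' κ) {x : D} (hx : v x ≤ 0) (j : ℕ) :
    κ (last v (E.symm x)) j = κ (last v x) ((v x).natAbs + j) := by
  have h1 := h.st (last v (E.symm x)) j j (by
    rw [EL_last, Equiv.apply_symm_apply, vL_zero]; ring)
  rw [EL_last, Equiv.apply_symm_apply] at h1
  have h2 := h.lanes_push hx (v x).natAbs le_rfl j
  have e1 : ln v x ((v x).natAbs - (v x).natAbs) (Nat.sub_le _ _) = ln v x 0 (Nat.zero_le _) :=
    ext rfl (Nat.sub_self _)
  rw [e1] at h2
  rw [← h1, h2]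

/-- **from the lanes to the ribbons** -/
theorem GS.unlane (h : GS (EL E v) (tauL τ hvτ) (vL v) (fun p => R p.1.1) κ) :
    GS E τ v R (fun x => κ (last v x)) := by
  constructor
  · intro p j k hk
    show κ (last v (E p)) j = κ (last v p) k
    rcases le_total 0 (v (E p)) with h1 | h1
    · have h2 := h.lanes_pop h1 (v (E p)).natAbs le_rfl j
      rw [Equiv.symm_apply_apply] at h2
      have h3 : (v (E p)).natAbs + j = k := by omega
      rw [h3] at h2
      exact h2
    · have h2 := h.lanes_push_zero h1 k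
      rw [Equiv.symm_apply_apply] at h2
      rw [h2]
      congr 1
      omega
  · intro p i j hij
    show R p true (κ (last v (E.symm p)) i) (κ (last v (E.symm (τ p))) j)
    have hp : 0 < v p := by omega
    have hi : i + 1 ≤ (v p).natAbs := by omega
    have hj : j + 1 ≤ (v (τ p)).natAbs := by rw [hvτ]; omega
    have h1 := h.pop (ln v p (i + 1) hi) 0 0 (by
      rw [vL_succ, Int.sign_eq_one_of_pos hp]; rfl)
    have e1 : tauL τ hvτ (ln v p (i + 1) hi) = ln v (τ p) (j + 1) hj := by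
      refine ext rfl ?_
      show (if i + 1 = 0 then 0 else (v p).natAbs + 1 - (i + 1)) = j + 1
      rw [if_neg (by omega)]
      omega
    rw [e1, EL_symm, EL_symm, h.lanes_pop (by omega), h.lanes_pop (by rw [hvτ]; omega)] at h1
    exact h1
  · intro p i j hij
    show R p false (κ (last v p) i) (κ (last v (τ p)) j)
    have hp : v p < 0 := by omega
    have hi : (v p).natAbs - i - 1 + 1 ≤ (v p).natAbs := by omega
    have hj : (v (τ p)).natAbs - j - 1 + 1 ≤ (v (τ p)).natAbs := by
      rw [hvτ]; omega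
    have h1 := h.push (ln v p ((v p).natAbs - i - 1 + 1) hi) 0 0 (by
      rw [vL_succ, Int.sign_eq_neg_one_of_neg hp]; rfl)
    have e1 : tauL τ hvτ (ln v p ((v p).natAbs - i - 1 + 1) hi) =
        ln v (τ p) ((v (τ p)).natAbs - j - 1 + 1) hj := by
      refine ext rfl ?_
      show (if (v p).natAbs - i - 1 + 1 = 0 then 0 else
        (v p).natAbs + 1 - ((v p).natAbs - i - 1 + 1)) = (v (τ p)).natAbs - j - 1 + 1
      rw [if_neg (by omega), hvτ]
      omega
    have e2 : ln v p ((v p).natAbs - i - 1 + 1) hi = ln v p ((v p).natAbs - i)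
      (Nat.sub_le _ _) := ext rfl (by show (v p).natAbs - i - 1 + 1 = (v p).natAbs - i; omega)
    have e3 : ln v (τ p) ((v (τ p)).natAbs - j - 1 + 1) hj = ln v (τ p) ((v (τ p)).natAbs - j)
      (Nat.sub_le _ _) := ext rfl (by
        show (v (τ p)).natAbs - j - 1 + 1 = (v (τ p)).natAbs - j
        rw [hvτ]; omega)
    rw [e1, e2, e3, h.lanes_push (by omega) i (by omega),
      h.lanes_push (by rw [hvτ]; omega) j (by rw [hvτ]; omega)] at h1
    exact h1

end

/-! ## Rings -/

/-- **the walk over the lanes** -/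
lemma walkL (x : D) (i : ℕ) (hi : i ≤ (v x).natAbs) (n : ℕ) :
    ∃ (m k : ℕ) (hk : k ≤ (v ((E ^ m) x)).natAbs),
      n + i = ∑ l ∈ Finset.range m, ((v ((E ^ l) x)).natAbs + 1) + k ∧
      ((EL E v) ^ n) (ln v x i hi) = ln v ((E ^ m) x) k hk ∧
      hs (EL E v) (vL v) (ln v x i hi) n = hs E v x m + (v x - (v x).sign * i) -
        (v ((E ^ m) x) - (v ((E ^ m) x)).sign * k) := by
  induction n with
  | zero =>
    refine ⟨0, i, hi, by simp, rfl, ?_⟩
    rw [hs_zero, hs_zero]
    show (0 : ℤ) = 0 + (v x - (v x).sign * i) - (v x - (v x).sign * i)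
    ring
  | succ n ih =>
    obtain ⟨m, k, hk, h1, h2, h3⟩ := ih
    by_cases hlt : k < (v ((E ^ m) x)).natAbs
    · have h4 : ((EL E v) ^ (n + 1)) (ln v x i hi) = ln v ((E ^ m) x) (k + 1) hlt := by
        rw [pow_succ', Equiv.Perm.mul_apply, h2, EL_lt hlt]
      refine ⟨m, k + 1, hlt, by omega, h4, ?_⟩
      rw [hs_succ', h3, h4, vL_succ]
      push_cast; ring
    · have hk' : k = (v ((E ^ m) x)).natAbs := by omega
      have h4 : ((EL E v) ^ (n + 1)) (ln v x i hi) =
          ln v ((E ^ (m + 1)) x) 0 (Nat.zero_le _) := by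
        rw [pow_succ', Equiv.Perm.mul_apply, h2]
        have e1 : ln v ((E ^ m) x) k hk = last v ((E ^ m) x) := ext rfl hk'
        rw [e1, EL_last]
        refine ext ?_ rfl
        show E ((E ^ m) x) = (E ^ (m + 1)) x
        rw [pow_succ', Equiv.Perm.mul_apply]
      refine ⟨m + 1, 0, Nat.zero_le _, ?_, h4, ?_⟩
      · rw [Finset.sum_range_succ, ← hk']; omega
      · have e2 : (v ((E ^ m) x)).sign * (k : ℤ) = v ((E ^ m) x) := by
          rw [hk']
          exact Int.sign_mul_natAbs _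
        rw [hs_succ', h3, h4, vL_zero, hs_succ', e2]
        push_cast
        ring

lemma uniqL (x : D) {m m' k k' : ℕ} (hk : k ≤ (v ((E ^ m) x)).natAbs)
    (hk' : k' ≤ (v ((E ^ m') x)).natAbs)
    (h : ∑ l ∈ Finset.range m, ((v ((E ^ l) x)).natAbs + 1) + k =
      ∑ l ∈ Finset.range m', ((v ((E ^ l) x)).natAbs + 1) + k') : m = m' ∧ k = k' := by
  have key : ∀ m m' k : ℕ, k ≤ (v ((E ^ m) x)).natAbs → m < m' →
      ∑ l ∈ Finset.range m, ((v ((E ^ l) x)).natAbs + 1) + k <
        ∑ l ∈ Finset.range m', ((v ((E ^ l) x)).natAbs + 1) := by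
    intro m m' k hk hm
    have h1 : ∑ l ∈ Finset.range (m + 1), ((v ((E ^ l) x)).natAbs + 1) ≤
        ∑ l ∈ Finset.range m', ((v ((E ^ l) x)).natAbs + 1) :=
      Finset.sum_le_sum_of_subset (Finset.range_mono (by omega))
    rw [Finset.sum_range_succ] at h1
    omega
  rcases lt_trichotomy m m' with h1 | h1 | h1
  · have := key m m' k hk h1
    omega
  · subst h1
    exact ⟨rfl, by omega⟩
  · have := key m' m k' hk' h1
    omega

/-- the ring of a lane -/
theorem cirL {x : D} {N K : ℕ} {s : ℤ} (h : Cir E v x N s K) (hvb : ∀ y, |v y| ≤ K) (i : ℕ)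
    (hi : i ≤ (v x).natAbs) : ∃ N', Cir (EL E v) (vL v) (ln v x i hi) N' s (3 * K) := by
  set c : ℕ := ∑ l ∈ Finset.range N, ((v ((E ^ l) x)).natAbs + 1) with hc
  refine ⟨c, ?_, ?_, ?_, ?_, ?_⟩
  · obtain ⟨m, k, hk, h1, h2, h3⟩ := walkL (E := E) x i hi c
    obtain ⟨rfl, rfl⟩ := uniqL (E := E) (v := v) x (m := N) (m' := m) (k := i) (k' := k)
      (by rw [h.ret]; exact hi) hk (by omega)
    rw [h2]
    exact ext h.ret rfl
  · have h1 : ∑ l ∈ Finset.range 1, ((v ((E ^ l) x)).natAbs + 1) ≤ c :=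
      Finset.sum_le_sum_of_subset (Finset.range_mono h.pos)
    rw [Finset.sum_range_one] at h1
    omega
  · intro n hn hn' hret
    obtain ⟨m, k, hk, h1, h2, h3⟩ := walkL (E := E) x i hi n
    rw [h2] at hret
    have h4 : (E ^ m) x = x := congrArg (fun p : LD v => p.1.1) hret
    have h5 : k = i := congrArg (fun p : LD v => p.1.2) hret
    subst h5
    have h6 : m < N := by
      by_contra hcon
      have h7 : c ≤ ∑ l ∈ Finset.range m, ((v ((E ^ l) x)).natAbs + 1) :=
        Finset.sum_le_sum_of_subset (Finset.range_mono (by omega))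
      omega
    rcases Nat.eq_zero_or_pos m with h0 | h0
    · subst h0
      simp at h1
      omega
    · exact h.fst m h0 h6 h4
  · obtain ⟨m, k, hk, h1, h2, h3⟩ := walkL (E := E) x i hi c
    obtain ⟨rfl, rfl⟩ := uniqL (E := E) (v := v) x (m := N) (m' := m) (k := i) (k' := k)
      (by rw [h.ret]; exact hi) hk (by omega)
    rw [h3, h.ret, h.sum]
    ring
  · intro n hn
    obtain ⟨m, k, hk, h1, h2, h3⟩ := walkL (E := E) x i hi n
    have h6 : m ≤ N := by
      by_contra hcon
      have h7 : ∑ l ∈ Finset.range (N + 1), ((v ((E ^ l) x)).natAbs + 1) ≤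
          ∑ l ∈ Finset.range m, ((v ((E ^ l) x)).natAbs + 1) :=
        Finset.sum_le_sum_of_subset (Finset.range_mono (by omega))
      rw [Finset.sum_range_succ, h.ret] at h7
      omega
    have b1 := abs_le.1 (h.bd m h6)
    have key : ∀ (z : ℤ) (k : ℕ), k ≤ z.natAbs → |z - z.sign * k| ≤ |z| := by
      intro z k hk
      rcases lt_trichotomy z 0 with hz | hz | hz
      · rw [Int.sign_eq_neg_one_of_neg hz, abs_of_neg hz, abs_le]
        constructor <;> omega
      · subst hz
        simp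
      · rw [Int.sign_eq_one_of_pos hz, abs_of_pos hz, abs_le]
        constructor <;> omega
    have b4 := abs_le.1 ((key _ k hk).trans (hvb _))
    have b5 := abs_le.1 ((key (v x) i hi).trans (hvb _))
    have e3 : ((3 * K : ℕ) : ℤ) = 3 * (K : ℤ) := by push_cast; ring
    rw [h3, abs_le, e3]
    constructor <;> linarith [b1.1, b1.2, b4.1, b4.2, b5.1, b5.2]

end LD

end Pool.Agent.MP42.EO
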