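import Pool.Agent.MP42.TQ.LayR

/-!
# Tokens in blocks (owner helper18)

`Blk E B`: every token is in exactly one block `B x`, the blocks are not empty.  `exists_perm`: the
permutation `F` of the tokens which follows the blocks in the order `E`.
-/

set_option autoImplicit false
set_option linter.unusedSectionVars false

namespace Pool.Agent.MP42.EO

open Pool.Agent.MP42.NE

/-- tokens in blocks -/
structure Blk {X T : Type*} (B : X → List T) : Prop where
  ne : ∀ x, B x ≠ []
  nd : ∀ x, (B x).Nodup
  uq : ∀ t x y, t ∈ B x → t ∈ B y → x = y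
  ex : ∀ t, ∃ x, t ∈ B x

/-- `F` follows the blocks -/
def Fol {X T : Type*} (E : Equiv.Perm X) (B : X → List T) (hne : ∀ x, B x ≠ [])
    (F : Equiv.Perm T) : Prop :=
  ∀ x, List.IsChain (fun a b => F a = b) (B x ++ [(B (E x)).head (hne _)])

namespace Blk

variable {X T : Type*} {B : X → List T} (H : Blk B) (E : Equiv.Perm X)

/-- positions -/
abbrev S (B : X → List T) : Type _ := {p : X × ℕ // p.2 < (B p.1).length}

/-- the token at a position -/
def at' (B : X → List T) (p : S B) : T := (B p.1.1)[p.1.2]'p.2

include H

lemma at_bij : Function.Bijective (at' B) := by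
  constructor
  · rintro ⟨⟨x, i⟩, hi⟩ ⟨⟨y, j⟩, hj⟩ h
    have h0 : (B x)[i]'hi = (B y)[j]'hj := h
    have hx : x = y := H.uq _ x y (List.getElem_mem hi) (by rw [h0]; exact List.getElem_mem hj)
    subst hx
    have hij : i = j := (List.Nodup.getElem_inj_iff (H.nd x)).1 h0
    subst hij
    rfl
  · intro t
    obtain ⟨x, hx⟩ := H.ex t
    obtain ⟨i, hi, h⟩ := List.getElem_of_mem hx
    exact ⟨⟨(x, i), hi⟩, h⟩

/-- the next position -/
def nx (p : S B) : S B :=
  if h : p.1.2 + 1 < (B p.1.1).length then ⟨(p.1.1, p.1.2 + 1), h⟩
    else ⟨(E p.1.1, 0), List.length_pos_iff.2 (H.ne _)⟩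

lemma nx_inj : Function.Injective (H.nx E) := by
  rintro ⟨⟨x, i⟩, hi⟩ ⟨⟨y, j⟩, hj⟩ h
  have hi' : i < (B x).length := hi
  have hj' : j < (B y).length := hj
  unfold nx at h
  by_cases h1 : i + 1 < (B x).length <;> by_cases h2 : j + 1 < (B y).length
  · simp only [h1, h2, dif_pos] at h
    have h3 := congrArg Subtype.val h
    have h4 := congrArg Prod.fst h3
    have h5 := congrArg Prod.snd h3
    simp only at h4 h5
    subst h4
    have : i = j := by omega
    subst this
    rfl
  · simp only [h1, h2, dif_pos, dif_neg, not_false_iff] at h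
    have h3 := congrArg Prod.snd (congrArg Subtype.val h)
    simp at h3
  · simp only [h1, h2, dif_pos, dif_neg, not_false_iff] at h
    have h3 := congrArg Prod.snd (congrArg Subtype.val h)
    simp at h3
  · simp only [h1, h2, dif_neg, not_false_iff] at h
    have h3 := congrArg Prod.fst (congrArg Subtype.val h)
    have h4 : x = y := E.injective h3
    subst h4
    have : i = j := by omega
    subst this
    rfl

/-- **the permutation of the tokens** -/
theorem exists_perm [Finite T] : ∃ F : Equiv.Perm T, Fol E B H.ne F := by
  classical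
  set e : S B ≃ T := Equiv.ofBijective _ H.at_bij with he
  have hfin : Finite (S B) := Finite.of_equiv T e.symm
  set f : Equiv.Perm (S B) := Equiv.ofBijective _ (Finite.injective_iff_bijective.1 (H.nx_inj E))
    with hf
  refine ⟨e.permCongr f, fun x => ?_⟩
  have key : ∀ p : S B, (e.permCongr f) (at' B p) = at' B (H.nx E p) := by
    intro p
    have h1 : e.symm (at' B p) = p := e.symm_apply_apply p
    rw [Equiv.permCongr_apply, h1]
    rfl
  rw [List.isChain_iff_getElem]
  intro i hi
  rw [List.length_append, List.length_singleton] at hi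
  have hi' : i < (B x).length := by omega
  rw [List.getElem_append_left hi']
  have h2 := key ⟨(x, i), hi'⟩
  by_cases h3 : i + 1 < (B x).length
  · rw [List.getElem_append_left h3]
    unfold nx at h2
    simp only [h3, dif_pos] at h2
    exact h2
  · rw [List.getElem_append_right (by omega)]
    unfold nx at h2
    simp only [h3, dif_neg, not_false_iff] at h2
    rw [show (B x)[i]'hi' = at' B ⟨(x, i), hi'⟩ from rfl, h2]
    simp only [List.getElem_singleton]
    exact (List.head_eq_getElem _).symm

end Blk

section

variable {X T : Type*} {E : Equiv.Perm X} {B : X → List T} {hne : ∀ x, B x ≠ []}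
  {F : Equiv.Perm T}

lemma Fol.last (h : Fol E B hne F) (x : X) :
    F ((B x).getLast (hne x)) = (B (E x)).head (hne _) := by
  have h1 := List.isChain_append.1 (h x)
  exact h1.2.2 _ (List.getLast?_eq_some_getLast (hne x)) _ (by simp)

lemma Fol.chain (h : Fol E B hne F) (x : X) : List.IsChain (fun a b => F a = b) (B x) :=
  (h x).left_of_append

lemma same_F {F : Equiv.Perm T} (t : T) : F.SameCycle t (F t) := ⟨1, by simp⟩

/-- tokens of a chain are on one circle -/
lemma chain_same {F : Equiv.Perm T} : ∀ (l : List T) (p : T),
    List.IsChain (fun a b => F a = b) (p :: l) → ∀ t ∈ l, F.SameCycle p t := by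
  intro l
  induction l with
  | nil => intro p _ t ht; simp at ht
  | cons q l ih =>
    intro p hp t ht
    rw [List.isChain_cons_cons] at hp
    obtain ⟨rfl, hp⟩ := hp
    rcases List.mem_cons.1 ht with rfl | ht
    · exact same_F p
    · exact (same_F p).trans (ih _ hp t ht)

lemma Fol.same_blk (h : Fol E B hne F) {x : X} {t u : T} (ht : t ∈ B x) (hu : u ∈ B x) :
    F.SameCycle t u := by
  have key : ∀ v ∈ B x, F.SameCycle ((B x).head (hne x)) v := by
    intro v hv
    have h1 := h.chain x
    rw [← List.cons_head_tail (hne x)] at h1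
    rw [← List.cons_head_tail (hne x)] at hv
    rcases List.mem_cons.1 hv with h2 | h2
    · rw [← h2]
    · exact chain_same _ _ h1 v h2
  exact (key t ht).symm.trans (key u hu)

lemma Fol.same (h : Fol E B hne F) {x y : X} (hxy : E.SameCycle x y) {t u : T} (ht : t ∈ B x)
    (hu : u ∈ B y) : F.SameCycle t u := by
  have key : ∀ (n : ℕ) (u : T), u ∈ B ((E ^ n) x) → F.SameCycle t u := by
    intro n
    induction n with
    | zero => intro u hu; exact h.same_blk ht hu
    | succ n ih =>
      intro u hu
      have h1 := h.last ((E ^ n) x)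
      have h2 := ih _ (List.getLast_mem (hne ((E ^ n) x)))
      have e : (E ^ (n + 1)) x = E ((E ^ n) x) := by rw [pow_succ']; rfl
      rw [e] at hu
      have h3 := h.same_blk (List.head_mem (hne _)) hu
      refine (h2.trans ?_).trans h3
      rw [← h1]
      exact ⟨1, by simp⟩
  have hfin : E.SameCycle x y := hxy
  obtain ⟨n, rfl⟩ := hfin
  rcases n with n | n
  · exact key n u (by simpa using hu)
  · -- backwards
    have hs : ∀ (n : ℕ) (y : X) (t u : T), t ∈ B ((E ^ n) y) → u ∈ B y → F.SameCycle t u := by
      intro n
      induction n with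
      | zero => intro y t u ht hu; exact h.same_blk ht hu
      | succ n ih =>
        intro y t u ht hu
        have e : (E ^ (n + 1)) y = (E ^ n) (E y) := by rw [pow_succ]; rfl
        rw [e] at ht
        have h1 := ih (E y) t _ ht (List.head_mem (hne _))
        have h2 := h.last y
        have h3 := h.same_blk (List.getLast_mem (hne y)) hu
        refine h1.trans ((?_ : F.SameCycle _ _).trans h3)
        rw [← h2]
        exact (same_F _).symm
    refine hs (n + 1) _ t u ?_ hu
    have : (E ^ (n + 1)) ((E ^ (Int.negSucc n)) x) = x := by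
      rw [zpow_negSucc, ← Equiv.Perm.mul_apply, mul_inv_cancel, Equiv.Perm.one_apply]
    rw [this]
    exact ht

/-- the next token is in the same or in the next block -/
lemma Fol.step (h : Fol E B hne F) {x : X} {t : T} (ht : t ∈ B x) :
    F t ∈ B x ∨ F t ∈ B (E x) := by
  obtain ⟨i, hi, rfl⟩ := List.getElem_of_mem ht
  have h1 := List.isChain_iff_getElem.1 (h x) i (by
    rw [List.length_append, List.length_singleton]; omega)
  rw [List.getElem_append_left hi] at h1
  rw [h1]
  by_cases h2 : i + 1 < (B x).length
  · left
    rw [List.getElem_append_left h2]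
    exact List.getElem_mem h2
  · right
    rw [List.getElem_append_right (by omega)]
    simp only [List.getElem_singleton]
    exact List.head_mem _

lemma Fol.same_iff [Finite T] (h : Fol E B hne F) (hB : Blk B) {x y : X} {t u : T} (ht : t ∈ B x)
    (hu : u ∈ B y) : F.SameCycle t u ↔ E.SameCycle x y := by
  refine ⟨fun h1 => ?_, fun h1 => h.same h1 ht hu⟩
  obtain ⟨n, rfl⟩ := h1.exists_nat_pow_eq
  clear h1
  induction n generalizing y with
  | zero =>
    rw [hB.uq _ _ _ ht hu]
  | succ n ih =>
    have e : (F ^ (n + 1)) t = F ((F ^ n) t) := by rw [pow_succ']; rfl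
    obtain ⟨z, hz⟩ := hB.ex ((F ^ n) t)
    have h1 := ih hz
    rcases h.step hz with h2 | h2
    · rw [← e] at h2
      rw [hB.uq _ _ _ hu h2]; exact h1
    · rw [← e] at h2
      rw [hB.uq _ _ _ hu h2]
      exact h1.trans ⟨1, by simp⟩

open Classical in
/-- **sums over the circles** -/
lemma Fol.sum [Fintype T] [Fintype X] (h : Fol E B hne F) (hB : Blk B) (w : T → ℤ) {x : X} {t : T}
    (ht : t ∈ B x) : ∑ u ∈ Finset.univ.filter (fun u => F.SameCycle t u), w u =
      ∑ y ∈ Finset.univ.filter (fun y => E.SameCycle x y), ((B y).map w).sum := by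
  have e1 : ∀ y, ((B y).map w).sum = ∑ t ∈ (B y).toFinset, w t := by
    intro y
    rw [List.sum_toFinset w (hB.nd y)]
  rw [Finset.sum_congr rfl (fun y _ => e1 y), ← Finset.sum_biUnion]
  · refine Finset.sum_congr ?_ (fun _ _ => rfl)
    ext u
    simp only [Finset.mem_biUnion, Finset.mem_filter, Finset.mem_univ, true_and,
      List.mem_toFinset]
    constructor
    · intro h1
      obtain ⟨y, hy⟩ := hB.ex u
      exact ⟨y, (h.same_iff hB ht hy).1 h1, hy⟩
    · rintro ⟨y, h1, h2⟩
      exact (h.same_iff hB ht h2).2 h1
  · intro y _ z _ hyz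
    rw [Function.onFun, Finset.disjoint_left]
    intro u hu hu'
    rw [List.mem_toFinset] at hu hu'
    exact hyz (hB.uq u _ _ hu hu')

end

/-- neighbours in a list, up to idle tokens -/
lemma adj_of_nz {T : Type*} {F : Equiv.Perm T} {w : T → ℤ} {u t : T} {l l₁ l₂ : List T}
    (hl : List.IsChain (fun a b => F a = b) l) (h : nz w l = l₁ ++ u :: t :: l₂)
    (hu : w u = -1) (ht : w t = 1) : AdjT F w u t := by
  refine ⟨hu, ht, ?_⟩
  induction l generalizing l₁ with
  | nil => simp [nz] at h
  | cons a l ih =>
    by_cases ha : w a = 0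
    · rw [nz_cons_eq ha] at h
      exact ih hl.tail h
    · rw [nz_cons_ne ha] at h
      rcases l₁ with _ | ⟨b, l₁⟩
      · rw [List.nil_append, List.cons.injEq] at h
        obtain ⟨rfl, h⟩ := h
        clear ih ha
        -- the next token which is not idle
        have key : ∀ (l : List T) (a : T), List.IsChain (fun a b => F a = b) (a :: l) →
            nz w l = t :: l₂ → ∃ n : ℕ, t = (F ^ (n + 1)) a ∧
              ∀ m, 0 < m → m ≤ n → w ((F ^ m) a) = 0 := by
          intro l
          induction l with
          | nil => intro a _ h; simp [nz] at h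
          | cons b l ih =>
            intro a hc h
            rw [List.isChain_cons_cons] at hc
            obtain ⟨rfl, hc⟩ := hc
            by_cases hb : w (F a) = 0
            · rw [nz_cons_eq hb] at h
              obtain ⟨n, h1, h2⟩ := ih _ hc h
              refine ⟨n + 1, ?_, ?_⟩
              · rw [h1]
                conv_rhs => rw [pow_succ]
                rfl
              · intro m h3 h4
                rcases m with _ | m
                · omega
                · rcases m with _ | m
                  · simpa using hb
                  · have h5 := h2 (m + 1) (by omega) (by omega)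
                    rw [pow_succ]
                    exact h5
            · rw [nz_cons_ne hb, List.cons.injEq] at h
              refine ⟨0, by simp [h.1], fun m h3 h4 => by omega⟩
        exact key _ _ hl h
      · rw [List.cons_append, List.cons.injEq] at h
        exact ih hl.tail h.2

end Pool.Agent.MP42.EO
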