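import Pool.Agent.MP42.TQ.LayO

/-!
# From a layout with its token system to a solution on the units (owner helper18)
-/

set_option autoImplicit false
set_option linter.unusedSectionVars false

namespace Pool.Agent.MP42.EO

open Pool.Agent.MP42.NE Pool.Agent.MP42.O3

variable {X D : Type*}

/-- the legal types over the units of the segments -/
structure UOk (M : BM X) (E : Equiv.Perm D) (τ : D → D) (c : X → D) (nt len fr : X → ℕ)
    (ok : D → Bool → Bool → Bool → Prop) : Prop where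
  oks : ∀ y s a b, ok y s a b → ok (τ y) s b a
  hf : ∀ y s s' a b b', ok y s a b → ok y s' a b' → b = b'
  hg : ∀ y s s' a a' b, ok y s a b → ok y s' a' b → a = a'
  fr1 : ∀ x, M.ek (M.ν x) = .R → fr x ≤ len x ∧ fr x + fr (opp M x) ≤ len x
  real : ∀ x, M.ek (M.ν x) = .R → ∀ s a, ok ((E ^ (nt x + fr x + 1)) (c x)) s a a
  near : ∀ x s a b, okP (posOp (M.pos (M.ν x))) s a b → ok ((E ^ (nt x + 0 + 1)) (c x)) s a b
  far : ∀ x s a b, okP (M.pos (M.E x)) s a b → ok ((E ^ (nt x + len x + 1)) (c x)) s a b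
  thin : ∀ x, nt x = 1 → ∀ s a b, b = (!a) → (s = true ↔ M.lab x = .B2) → ok (E (c x)) s a b
  nt1 : ∀ x, (M.lab x).isB = true → nt x = 1

namespace Layt

variable {M : BM X} {E : Equiv.Perm D} {τ : D → D} {c : X → D} {nt len fr : X → ℕ}
  {ok : D → Bool → Bool → Bool → Prop} (S : Seg M E τ c nt len) (U : UOk M E τ c nt len fr ok)
  (L : Layt M)

include S U

variable {L}

lemma hnt_of (H : L.OK) (x : X) (h : L.th x ≠ []) : nt x = 1 := U.nt1 x (H.thB x h)

/-- the types are legal on every unit -/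
lemma ok_tk [Finite X] [Nonempty X] (H : L.OK) {ty : L.Tok → Bool}
    (hty : ∀ t, L.wt t ≠ 0 → L.okt t (ty t) (ty (L.lam t))) (y : D) (t : L.Tok)
    (ht : t ∈ Seg.tk L E c nt len (L.uix len fr ty) y) (hw : L.wt t ≠ 0) :
    ok y (sn L.wt t) (ty t) (ty (L.lam t)) := by
  have P := Layt.pls H (len := len) (fr := fr) S.lenz U.fr1 ty
  have hP := S.plc P (hnt_of S U H)
  have key : ∀ (x : X) (i : ℕ) (hi : i < (L.w x).length),
      ok ((E ^ (nt x + L.uix len fr ty x i + 1)) (c x)) (sn L.wt ⟨(.cr, x, i), hi⟩)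
        (ty ⟨(.cr, x, i), hi⟩) (ty ⟨(.cl, x, i), hi⟩) := by
    intro x i hi
    have h1 : L.okc x i (ty ⟨(.cr, x, i), hi⟩) (ty ⟨(.cl, x, i), hi⟩) :=
      hty ⟨(.cr, x, i), hi⟩ (Layt.wt_ne.2 (by simp))
    have e : sn L.wt ⟨(.cr, x, i), hi⟩ = ((L.w x).getD i (true, 0)).1 := by
      show decide (sgq ((L.w x).getD i (true, 0)) = 1) = _
      unfold sgq
      cases ((L.w x).getD i (true, 0)).1 <;> simp
    rw [e]
    by_cases h2 : M.ek (M.ν x) = .R
    · unfold okc at h1
      rw [if_pos h2] at h1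
      rw [← h1]
      have h3 : L.uix len fr ty x i = fr x := by unfold uix; rw [if_pos h2]
      rw [h3]
      exact U.real x h2 _ _
    · rcases uix_ok (len := len) (fr := fr) hi h2 h1 with ⟨h3, h4⟩ | ⟨h3, h4⟩
      · rw [h3]; exact U.near x _ _ _ h4
      · rw [h3]; exact U.far x _ _ _ h4
  obtain ⟨⟨k, x, i⟩, hv⟩ := t
  cases k
  · have h1 := S.mem_cr P (x := x) (t := ⟨(.cr, x, i), hv⟩) (Layt.mem_crs.2 ⟨rfl, rfl⟩)
    rw [hP.uq _ _ _ ht h1]
    exact key x i hv
  · -- the other side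
    have h1 := S.mem_cr P (x := x) (t := ⟨(.cr, x, i), hv⟩) (Layt.mem_crs.2 ⟨rfl, rfl⟩)
    have h2 : (⟨(.cr, x, i), hv⟩ : L.Tok) ∈ Seg.tk L E c nt len (L.uix len fr ty) (τ y) := by
      have h3 : (⟨(.cr, x, i), hv⟩ : L.Tok) ∈
          nz L.wt (Seg.tk L E c nt len (L.uix len fr ty) (τ y)) := by
        rw [hP.nz_rev y, List.mem_reverse, List.mem_map]
        refine ⟨⟨(.cl, x, i), hv⟩, ?_, rfl⟩
        rw [mem_nz]
        exact ⟨ht, hw⟩
      exact (mem_nz.1 h3).1
    have h3 := hP.uq _ _ _ h2 h1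
    have h4 := U.oks _ _ _ _ (key x i hv)
    rw [← h3, S.ττ] at h4
    exact h4
  · have h1 := S.mem_tn P (x := x) (t := ⟨(.tn, x, i), hv⟩) (Layt.mem_tns.2 ⟨rfl, rfl⟩)
    rw [hP.uq _ _ _ ht h1]
    have h2 : i < (L.th x).length := hv
    have h3 : L.th x ≠ [] := by intro h3; rw [h3] at h2; simp at h2
    have h4 := H.thB x h3
    apply U.thin x (U.nt1 x h4)
    · exact hty ⟨(.tn, x, i), hv⟩ hw
    · have e : sn L.wt ⟨(.tn, x, i), hv⟩ = ((L.th x)[i]'h2).1 := by
        show decide (sgq ((L.th x).getD i (true, 0)) = 1) = _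
        rw [List.getD_eq_getElem _ _ h2]
        unfold sgq
        cases ((L.th x)[i]'h2).1 <;> simp
      rw [e]
      have h5 : M.lab x = .B2 ∨ M.lab x = .B3 := by
        revert h4; cases M.lab x <;> simp [Lab.isB]
      rcases h5 with h5 | h5
      · exact ⟨fun _ => h5, fun _ => H.th2 x h5 _ (List.getElem_mem h2)⟩
      · rw [H.th3 x h5 _ (List.getElem_mem h2), h5]
        simp
  · exact absurd rfl hw

open Classical in
/-- **Solutions on the units.** -/
theorem sol_of [Finite X] [Fintype D] (H : L.OK) {K : ℕ} {x₀ : X} {s : ℤ} {sg : L.Tok → ℤ}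
    {cls sw : L.Tok → Prop} {Pos : L.Tok → Bool → Prop} {a0 : L.Tok → Bool}
    (h : TkE L.F L.lam L.wt K (L.idt x₀) s sg cls sw L.okt Pos a0) (hm : L.Mono Pos)
    (t0 t1 : Bool) : ∃ (v : D → ℤ) (κ : D → ℕ → Bool) (sgD : D → ℤ),
      Sol E τ ok (K + 1) (Seg.G E c nt len) (c x₀) s t0 t1 v κ sgD ∧
      (∀ x, nt x = 1 → (∀ i j : ℕ, i < j → (j : ℤ) < v (E (c x)) →
          κ (E.symm (E (c x))) i = true → κ (E.symm (E (c x))) j = true) ∧
        ∀ i j : ℕ, i < j → (j : ℤ) < -v (E (c x)) → κ (E (c x)) j = true →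
          κ (E (c x)) i = true) ∧
      ∀ x, nt x = 1 → L.th x = [] → v (E (c x)) = 0 := by
  have : Nonempty X := ⟨x₀⟩
  obtain ⟨κ, sgD, tk, ty, h1, h2, h3⟩ := h.sol (E := E) (τ := τ) (G := Seg.G E c nt len)
    (ok := ok) U.hf U.hg (rD := c x₀) (S.G_c x₀) t0 t1
    (Ex := fun tk ty => (∀ x, nt x = 1 → tk (E (c x)) = L.tns x) ∧
      ∀ x, MonoT L.wt ty (L.tns x)) (by
    intro ty hpos hty
    have P := Layt.pls H (len := len) (fr := fr) S.lenz U.fr1 ty
    refine ⟨_, _, S.plc P (hnt_of S U H), ?_, ?_, ?_, ?_⟩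
    · rw [S.pt_c P]
    · exact ok_tk S U H hty
    · intro x hx
      exact S.tk_thin P hx
    · intro x
      unfold MonoT
      have e : nz L.wt (L.tns x) = L.tns x := by
        unfold nz
        rw [List.filter_eq_self]
        intro t ht
        have h7 : t.1.1 ≠ .id := by rw [(Layt.mem_tns.1 ht).1]; simp
        simpa using Layt.wt_ne.2 h7
      rw [e, List.pairwise_iff_getElem]
      intro i j hi hj hij
      have hi' : i < (L.th x).length := by simpa [Layt.tns] using hi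
      have hj' : j < (L.th x).length := by simpa [Layt.tns] using hj
      have e1 : (L.tns x)[i]'hi = ⟨(.tn, x, i), hi'⟩ := by simp [Layt.tns, Layt.tok]
      have e2 : (L.tns x)[j]'hj = ⟨(.tn, x, j), hj'⟩ := by simp [Layt.tns, Layt.tok]
      rw [e1, e2]
      intro h5
      exact hm ⟨(.tn, x, i), hi'⟩ ⟨(.tn, x, j), hj'⟩ rfl rfl rfl hij _ _
        (hpos _ (Layt.wt_ne.2 (by simp))) (hpos _ (Layt.wt_ne.2 (by simp))) h5)
  refine ⟨_, κ, sgD, h1, ?_, ?_⟩
  · intro x hx
    have hS : SameS L.wt (tk (E (c x))) := by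
      rw [h2.1 x hx]
      have h4 : ∀ t ∈ nz L.wt (L.tns x), L.th x ≠ [] ∧ ∃ q ∈ L.th x, L.wt t = sgq q := by
        intro t ht
        obtain ⟨⟨k, y, i⟩, hv⟩ := t
        obtain ⟨h5, h6⟩ := Layt.mem_tns.1 (mem_nz.1 ht).1
        simp only at h5 h6
        subst h5 h6
        have h7 : i < (L.th y).length := hv
        refine ⟨by intro h8; rw [h8] at h7; simp at h7, (L.th y)[i]'h7, List.getElem_mem h7, ?_⟩
        show sgq ((L.th y).getD i (true, 0)) = _
        rw [List.getD_eq_getElem _ _ h7]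
      by_cases h5 : M.lab x = .B2
      · left
        intro t ht
        obtain ⟨-, q, hq, h6⟩ := h4 t ht
        rw [h6]
        unfold sgq
        rw [H.th2 x h5 q hq]; rfl
      · right
        intro t ht
        obtain ⟨h7, q, hq, h6⟩ := h4 t ht
        have h8 := H.thB x h7
        have h9 : M.lab x = .B3 := by
          revert h8 h5; cases M.lab x <;> simp [Lab.isB]
        rw [h6]
        unfold sgq
        rw [H.th3 x h9 q hq]; rfl
    have hM : MonoT L.wt ty (tk (E (c x))) := by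
      rw [h2.1 x hx]
      exact h2.2 x
    exact h3 (E (c x)) hS hM
  · intro x hx h4
    rw [Plc.vv_eq h.w1, h2.1 x hx]
    have h5 : L.tns x = [] := by
      unfold Layt.tns
      have h6 : (L.th x).length = 0 := by rw [h4]; rfl
      apply List.eq_nil_of_length_eq_zero
      rw [List.length_ofFn, h6]
    rw [h5]; rfl

end Layt

end Pool.Agent.MP42.EO
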