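import Pool.Agent.MP42.TQ.Asm
import Pool.Agent.MP42.EO.Region

/-!
# Solutions on the ribbons of the system with the thin ribbons (owner helper18)
-/

set_option autoImplicit false
set_option linter.unusedSectionVars false

namespace Pool.Agent.MP42.EO

open Pool.Agent.Helper55.UNF Pool.Agent.MP42 Pool.Agent.MP42.NE

section Lift

variable {D : Type*} [Fintype D] {E : Equiv.Perm D} {τ : D → D}
  {ok : D → Bool → Bool → Bool → Prop} {A : D → Prop}

open Classical in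
/-- **extension of a solution from the active positions** -/
theorem Sol.liftL {K : ℕ} {G' : {x // A x} → Prop} {r' : {x // A x}} {s : ℤ} {t0 t1 : Bool}
    {v' : {x // A x} → ℤ} {κ : {x // A x} → ℕ → Bool} {sg : {x // A x} → ℤ}
    (hττ : ∀ x, τ (τ x) = x) (hA : ∀ x, A x → A (τ x))
    (h : Sol (ret E A) (fun x => ⟨τ x.1, hA x.1 x.2⟩) (fun x => ok x.1) K G' r' s t0 t1 v' κ sg)
    {G : D → Prop} (hG : ∀ x, G x ↔ ∃ y : {x // A x}, E.SameCycle x y.1 ∧ G' y)
    (hGτ : ∀ x, G (τ x) ↔ G x)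
    (hG'c : ∀ x y : {x // A x}, E.SameCycle x.1 y.1 → G' x → G' y)
    {r : D} (hr : E.SameCycle r r'.1) :
    ∃ (κ'' : D → ℕ → Bool) (sg'' : D → ℤ), Sol E τ ok K G r s t0 t1
      (fun x => if hx : A x then v' ⟨x, hx⟩ else 0) κ'' sg'' ∧
      (∀ x : {x // A x}, κ'' x.1 = κ x) ∧
      ∀ x : {x // A x}, κ'' (E.symm x.1) = κ ((ret E A).symm x) := by
  set v : D → ℤ := fun x => if hx : A x then v' ⟨x, hx⟩ else 0 with hv
  have v0 : ∀ x, ¬ A x → v x = 0 := fun x hx => by simp only [hv]; rw [dif_neg hx]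
  have vA : ∀ x : {x // A x}, v x.1 = v' x := fun x => by
    simp only [hv]; rw [dif_pos x.2]
  have vsub : (fun x : {x // A x} => v x.1) = v' := funext vA
  have hGE : ∀ x, G (E x) ↔ G x := by
    intro x
    rw [hG, hG]
    simp only [Es]
  have tts' : TTS (ret E A) (fun x => ⟨τ x.1, hA x.1 x.2⟩) (fun x => v x.1)
      (fun x => ok x.1) κ := by rw [vsub]; exact h.tts
  obtain ⟨κ'', k1, k2, k3, k4⟩ := TTS.extend hA v0 tts'
  -- letters
  set sg'' : D → ℤ := fun x => if hx : ∃ y : {x // A x}, E.SameCycle x y.1 then sg hx.choose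
    else 1 with hsg
  have sgc : ∀ {x y : {x // A x}}, E.SameCycle x.1 y.1 → sg y = sg x := fun hxy =>
    cyc_eq h.sgE (ret_same_iff.2 hxy)
  have sgA : ∀ {x : D} {y : {x // A x}}, E.SameCycle x y.1 → sg'' x = sg y := by
    intro x y hxy
    have hx : ∃ y : {x // A x}, E.SameCycle x y.1 := ⟨y, hxy⟩
    simp only [hsg]
    rw [dif_pos hx]
    exact sgc (hxy.symm.trans hx.choose_spec)
  refine ⟨κ'', sg'', ?_, k2, fun x => ?_⟩
  swap
  · obtain ⟨n, h1, h2⟩ := Sys.ret_symm (A := A) E x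
    have h3 : E.symm x.1 = (E ^ n) ((ret E A).symm x).1 := by
      rw [Equiv.symm_apply_eq, ← h1, pow_succ', Equiv.Perm.mul_apply]
    rw [h3, ← k2]
    have key : ∀ m ≤ n, κ'' ((E ^ m) ((ret E A).symm x).1) = κ'' ((ret E A).symm x).1 := by
      intro m
      induction m with
      | zero => intro _; rfl
      | succ m ih =>
        intro hm
        have h4 := h2 m (by omega)
        rw [pow_succ', Equiv.Perm.mul_apply] at h4 ⊢
        rw [k3 _ h4, ih (by omega)]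
    exact key n le_rfl
  refine ⟨?_, ?_, ?_, ?_, ?_, ?_, ?_, ?_, ?_, ?_, ?_, ?_⟩
  · intro x
    by_cases hx : A x
    · rw [vA ⟨x, hx⟩]
      have h1 := vA ⟨τ x, hA x hx⟩
      rw [h1]
      exact h.vτ ⟨x, hx⟩
    · have h1 : ¬ A (τ x) := fun h' => hx (by have := hA _ h'; rwa [hττ] at this)
      rw [v0 _ hx, v0 _ h1]
  · intro x hx
    by_cases hA' : A x
    · rw [vA ⟨x, hA'⟩]
      apply h.vG
      intro h'
      exact hx ((hG x).2 ⟨⟨x, hA'⟩, sR _, h'⟩)
    · exact v0 x hA'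
  · intro x
    simp only [hsg]
    split_ifs with hx
    · exact h.sg1 _
    · exact Or.inl rfl
  · intro x
    by_cases hx : ∃ y : {x // A x}, E.SameCycle x y.1
    · obtain ⟨y, hy⟩ := hx
      rw [sgA hy, sgA ((Es _ _).2 hy)]
    · have hx' : ¬ ∃ y : {x // A x}, E.SameCycle (E x) y.1 := by
        rintro ⟨y, hy⟩; exact hx ⟨y, (Es _ _).1 hy⟩
      simp only [hsg]
      rw [dif_neg hx, dif_neg hx']
  · intro x hx
    rw [sgA (hx.symm.trans hr)]
    exact h.sgr r' (sR _)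
  · intro d hd
    obtain ⟨y, hy, hy'⟩ := (hG d).1 hd
    rw [sgA hy, sum_cycle_congr (E := E) (v := v) hy, sum_cycle_ret (E := E) (v := v) v0 y]
    have h1 := h.sum y hy'
    rw [← h1]
    refine Finset.sum_congr ?_ (fun x _ => vA x)
    ext x; simp only [Finset.mem_filter]
  · apply PB.of_ret v0
    rw [vsub]; exact h.pb
  · exact k1
  · intro x j hj
    by_cases hx : ∃ y : {x // A x}, E.SameCycle x y.1
    · obtain ⟨y, hy, hy'⟩ := exists_prev k2 k3 hx
      rw [hy']; exact h.per y j hj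
    · have hx' : ∀ y, E.SameCycle x y → ¬ A y := fun y hy hA' => hx ⟨⟨y, hA'⟩, hy⟩
      rw [k4 x hx', k4 x hx']
  · intro x j hx
    by_cases hx' : ∃ y : {x // A x}, E.SameCycle x y.1
    · obtain ⟨y, hy, hy'⟩ := exists_prev k2 k3 hx'
      rw [hy']
      exact h.κG y j (fun hG' => hx ((hG x).2 ⟨y, hy, hG'⟩))
    · exact k4 x (fun y hy hA' => hx' ⟨⟨y, hA'⟩, hy⟩) j
  · intro x hx
    have hx' : ∃ y : {x // A x}, E.SameCycle x y.1 := ⟨r', hx.symm.trans hr⟩
    obtain ⟨y, hy, hy'⟩ := exists_prev k2 k3 hx'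
    obtain ⟨ε, hε⟩ := h.deep y (ret_same_iff.2 ((hr.symm.trans hx).trans hy))
    exact ⟨ε, fun j hj => by rw [hy']; exact hε j hj⟩
  · intro w T ρ hw hT hρ hdeep
    have hT1 := TS.region hT hGE hGτ
    set w' : D → ℤ := fun x => if G x then w x else 0 with hw'
    set T' : D → ℕ → Prop := fun x j => if G x then T x j else True with hT'
    have w0 : ∀ x, ¬ A x → w' x = 0 := by
      intro x hx
      simp only [hw']
      split_ifs with hGx
      · rw [hw x hGx]; exact v0 x hx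
      · rfl
    have hT2 := Sys.TS.restrict hT1 hA w0
    have hT'G : ∀ x, G x → ∀ j, T' x j ↔ T x j := by
      intro x hx j
      simp only [hT']; rw [if_pos hx]
    have hG'G : ∀ y : {x // A x}, G' y → G y.1 := fun y hy => (hG y.1).2 ⟨y, sR _, hy⟩
    obtain ⟨c, hc⟩ := h.conn (fun x => w' x.1) (fun x j => T' x.1 j) (fun x => ρ x.1) (by
      intro y hy
      have h1 := hG'G y hy
      simp only [hw']
      rw [if_pos h1, hw _ h1, vA]) hT2 (by
      intro x
      show ρ (retFun E A x.1) ↔ ρ x.1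
      rw [retFun_eq]
      exact cyc_iff hρ (s_pow _ _)) (by
      intro x hx hxr j hj
      have h1 := hG'G x hx
      show T' x.1 j ↔ ρ x.1
      rw [hT'G _ h1]
      refine hdeep x.1 h1 (fun h' => hxr (ret_same_iff.2 (h'.trans hr))) j hj)
    refine ⟨c, ?_⟩
    have key : ∀ (m : ℕ) (y : {x // A x}), G' y → ∀ j, T ((E ^ m) y.1) j ↔ c := by
      intro m
      induction m with
      | zero =>
        intro y hy j
        rw [pow_zero, Equiv.Perm.one_apply, ← hT'G _ (hG'G y hy)]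
        exact hc y hy j
      | succ m ih =>
        intro y hy j
        have hGm : G ((E ^ (m + 1)) y.1) := (hG _).2 ⟨y, (s_pow _ _).symm, hy⟩
        by_cases hz : A ((E ^ (m + 1)) y.1)
        · obtain ⟨z, hz1, hz2⟩ := (hG _).1 hGm
          rw [← hT'G _ hGm]
          exact hc ⟨_, hz⟩ (hG'c z ⟨_, hz⟩ hz1.symm hz2) j
        · rw [← ih y hy j]
          have e : (E ^ (m + 1)) y.1 = E ((E ^ m) y.1) := by rw [pow_succ']; rfl
          rw [e] at hz hGm ⊢
          exact hT.st ((E ^ m) y.1) j j (by rw [hw _ hGm, v0 _ hz]; ring)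
    intro x hx j
    obtain ⟨y, h1, h2⟩ := (hG x).1 hx
    obtain ⟨n, hn⟩ := h1.symm.exists_nat_pow_eq
    rw [← hn]
    exact key n y h2 j

end Lift

section Whole

variable {D : Type*} [Fintype D] {S : Sys D} {A : D → Prop}

open Classical in
/-- **from solutions on the ribbons to solutions on all darts** -/
theorem exists_pieceL {ok : D → Bool → Bool → Bool → Prop}
    {L : D → ℤ → (ℕ → Bool) → (ℕ → Bool) → Prop} {Q : D → D → ℤ → ℤ → Prop} {K : ℕ}
    (hA : ∀ x, A x → A (S.ta x)) (hdead : ∀ x, ¬ A x → S.ta x = x)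
    (hne : ∀ x, A x → S.ta x ≠ x) (hex : ∀ x, ∃ y, S.E.SameCycle x y ∧ A y)
    (hL0 : ∀ x κ' κ, L x 0 κ' κ) (hQ0 : ∀ x y m n, m = 0 ∨ n = 0 → Q x y m n)
    (hsol : ∀ (r : {x // A x}) (s : ℤ), (s = 1 ∨ s = -1) → ∀ t0 t1 : Bool, ∃ v κ sg,
      Sol (ret S.E A) (fun x => ⟨S.ta x.1, hA x.1 x.2⟩) (fun x => ok x.1) K
        (Reg (ret S.E A) (fun x => ⟨S.ta x.1, hA x.1 x.2⟩) r) r s t0 t1 v κ sg ∧
      (∀ x, Reg (ret S.E A) (fun x => ⟨S.ta x.1, hA x.1 x.2⟩) r x →
        L x.1 (v x) (κ ((ret S.E A).symm x)) (κ x)) ∧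
      ∀ x y, Reg (ret S.E A) (fun x => ⟨S.ta x.1, hA x.1 x.2⟩) r x →
        Reg (ret S.E A) (fun x => ⟨S.ta x.1, hA x.1 x.2⟩) r y → Q x.1 y.1 (v x) (v y))
    (r : D) {s : ℤ} (hs : s = 1 ∨ s = -1) (t0 t1 : Bool) :
    ∃ v κ sg, Piece S ok K (Reg S.E S.ta r) r s t0 t1 v κ sg ∧
      (∀ x, L x (v x) (κ (S.E.symm x)) (κ x)) ∧ ∀ x y, Q x y (v x) (v y) := by
  obtain ⟨r', hr', hr''⟩ := hex r
  obtain ⟨v, κ, sg, hSol, hL, hQ⟩ := hsol ⟨r', hr''⟩ s hs t0 t1
  obtain ⟨κ'', sg'', h, hk, hk'⟩ := Sol.liftL (E := S.E) (τ := S.ta) (ok := ok) (A := A)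
    (fun x => Sys.ta_ta x) hA hSol (G := Reg S.E S.ta r) (by
      intro x
      constructor
      · intro hx
        obtain ⟨y, hy, hy'⟩ := hex x
        exact ⟨⟨y, hy'⟩, hy, reg_ret hA hdead hex hx ⟨r', hr''⟩ ⟨y, hy'⟩ hr' hy⟩
      · rintro ⟨y, hy, hy'⟩
        exact ((Reg.cyc hr').trans (reg_of_ret hy')).trans (Reg.cyc hy).symm)
    (fun x => Reg.τ_iff) (fun x y hxy hx => hx.trans (Reg.cyc (ret_same_iff.2 hxy)))
    (r := r) hr'
  refine ⟨_, κ'', sg'', ⟨h.vτ, h.vG, ?_, h.sg1, h.sgE, h.sgr r (sR r), h.sum, h.pb, h.tts,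
    h.per, h.κG, h.deep r (sR r), h.conn⟩, ?_, ?_⟩
  rotate_right
  · intro x y
    by_cases hx : A x
    swap
    · exact hQ0 _ _ _ _ (Or.inl (dif_neg hx))
    by_cases hy : A y
    swap
    · exact hQ0 _ _ _ _ (Or.inr (dif_neg hy))
    by_cases hrx : Reg (ret S.E A) (fun x => (⟨S.ta x.1, hA x.1 x.2⟩ : {x // A x}))
          ⟨r', hr''⟩ ⟨x, hx⟩
    swap
    · exact hQ0 _ _ _ _ (Or.inl ((dif_pos hx).trans (hSol.vG _ hrx)))
    by_cases hry : Reg (ret S.E A) (fun x => (⟨S.ta x.1, hA x.1 x.2⟩ : {x // A x}))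
          ⟨r', hr''⟩ ⟨y, hy⟩
    swap
    · exact hQ0 _ _ _ _ (Or.inr ((dif_pos hy).trans (hSol.vG _ hry)))
    have h1 := hQ ⟨x, hx⟩ ⟨y, hy⟩ hrx hry
    rw [dif_pos hx, dif_pos hy]
    exact h1
  · intro x hx
    by_cases hAx : A x
    · exact absurd hx (hne x hAx)
    · exact dif_neg hAx
  · intro x
    by_cases hx : A x
    · by_cases hr : Reg (ret S.E A) (fun x => (⟨S.ta x.1, hA x.1 x.2⟩ : {x // A x}))
          ⟨r', hr''⟩ ⟨x, hx⟩
      · have h1 := hL ⟨x, hx⟩ hr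
        rw [← hk' ⟨x, hx⟩, ← hk ⟨x, hx⟩] at h1
        rw [dif_pos hx]
        exact h1
      · have h1 : v ⟨x, hx⟩ = 0 := hSol.vG _ hr
        rw [dif_pos hx, h1]
        exact hL0 _ _ _
    · rw [dif_neg hx]
      exact hL0 _ _ _

end Whole

/-! ## The system with the thin ribbons -/

open Pool.Agent.Helper55.UNF.GridSolid

section

variable {P : GridSolid} {a b : Fin 3} (T : Thin P a b) (hab : a ≠ b)

namespace Thin

/-- the ribbons, thin or not -/
def TR : Type := {p : T.TD hab // RibT p}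

noncomputable instance : Fintype (T.TR hab) := by
  classical
  unfold TR
  infer_instance

variable {T hab} in
/-- a ribbon is moved by `ta` -/
lemma ta_ne {p : T.TD hab} (h : RibT p) : (T.tsys hab).ta p ≠ p := by
  have h0 := (T.cuts hab).sys_ta p
  rw [h0]
  unfold RibT at h
  by_cases h1 : p.1.2 = 0
  · rw [if_pos h1] at h
    have h2 : (T.cuts hab).tt p = (T.cuts hab).dd ((sysH P a b hab).ta p.1.1) 0
        (Nat.zero_le _) := if_pos h1
    intro h3
    rw [h2, (T.cuts hab).ext_iff'] at h3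
    exact (ta_ne_iff hab _).2 h h3.1
  · rw [if_neg h1] at h
    intro h2
    have h3 := (T.cuts hab).tt_thin p (by omega) h
    rw [h2] at h3
    exact (T.cuts hab).cp_ne p.1 (by omega) h h3.symm

variable {T hab} in
lemma rib_ta_iff (p : T.TD hab) : RibT p ↔ (T.tsys hab).ta p ≠ p :=
  ⟨ta_ne, fun h => by
    by_contra h'
    exact h (T.ta_not hab h')⟩

lemma ribT_ta (p : T.TD hab) (h : RibT p) : RibT ((T.tsys hab).ta p) := by
  rw [rib_ta_iff] at h ⊢
  rw [Sys.ta_ta]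
  exact h.symm

/-- the next ribbon on the ring -/
noncomputable def EE : Equiv.Perm (T.TR hab) := ret (T.tsys hab).E RibT

/-- the other side of a ribbon -/
noncomputable def tau (x : T.TR hab) : T.TR hab := ⟨(T.tsys hab).ta x.1, T.ribT_ta hab x.1 x.2⟩

lemma exists_ribT (p : T.TD hab) : ∃ q, (T.tsys hab).E.SameCycle p q ∧ RibT q := by
  obtain ⟨y, h1, h2⟩ := exists_rib hab p.1.1
  refine ⟨d0 T hab y, T.cyc_of' hab h1, ?_⟩
  unfold RibT
  exact (if_pos (show (d0 T hab y).1.2 = 0 from rfl)).mpr ((ta_ne_iff hab y).1 h2)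

/-- solutions on the ribbons: the types of the strands over every thin ribbon are monotone -/
def SolsM (K : ℕ) : Prop :=
  ∀ (r : T.TR hab) (s : ℤ), (s = 1 ∨ s = -1) → ∀ t0 t1 : Bool, ∃ v κ sg,
    Sol (T.EE hab) (T.tau hab) (fun x => okT x.1) K (Reg (T.EE hab) (T.tau hab) r) r s t0 t1
      v κ sg ∧
    (∀ x, Reg (T.EE hab) (T.tau hab) r x →
      T.MonoL hab x.1 (v x) (κ ((T.EE hab).symm x)) (κ x)) ∧
    ∀ x y, Reg (T.EE hab) (T.tau hab) r x → Reg (T.EE hab) (T.tau hab) r y →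
      M.XZr x.1 y.1 → v x = 0 ∨ v y = 0

/-- **from the ribbons to all darts** -/
theorem piecesM_of_sols {K : ℕ} (h : T.SolsM hab K) : T.PiecesM hab K := by
  intro r s hs t0 t1
  obtain ⟨v, κ, sg, h1, h2, h3⟩ := exists_pieceL (S := T.tsys hab) (A := RibT) (ok := okT)
    (L := T.MonoL hab) (Q := fun x y m n => M.XZr x y → m = 0 ∨ n = 0) (K := K) (T.ribT_ta hab) (fun x hx => T.ta_not hab hx)
    (fun x hx => ta_ne hx) (T.exists_ribT hab) (fun x κ' κ _ =>
      ⟨fun i j _ hj => by omega, fun i j _ hj => by omega⟩) (fun _ _ _ _ h _ => h) h r hs t0 t1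
  exact ⟨v, κ, sg, h1, fun x _ => h2 x, fun x y _ _ => h3 x y⟩

end Thin

end

end Pool.Agent.MP42.EO
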