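import Pool.Agent.MP42.TQ.SolTy
import Pool.Agent.MP42.TQ.Lift

/-!
# Solutions on the ribbons of the thin system from local conditions (owner helper18)

`TyS`: the numbers of strands `v` with one curve (`conn`), classes `cls` of the rings (`true` =
the pops determine the types), allowed types `Pos x i` of the lane `i` over the ribbon `x`, and
local conditions.  `TyS.sol`: the types exist.  `Thin.sols_of_ty`: the same on the ribbons of the
system with the thin ribbons.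
-/

set_option autoImplicit false
set_option linter.unusedSectionVars false

namespace Pool.Agent.MP42.EO

open Pool.Agent.MP42.NE

open Classical in
/-- Lanes with classes of the rings and local conditions on the types, global data as in `Sol`. -/
structure TyS {D : Type*} [Fintype D] (E : Equiv.Perm D) (τ : D → D)
    (ok : D → Bool → Bool → Bool → Prop) (K : ℕ) (G : D → Prop) (r : D) (s : ℤ) (v sg : D → ℤ)
    (cls : D → Prop) (Pos : D → ℕ → Bool → Prop) (a0 : D → ℕ → Bool) : Prop where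
  tt : ∀ x, τ (τ x) = x
  vτ : ∀ x, v (τ x) = v x
  vG : ∀ x, ¬ G x → v x = 0
  GE : ∀ x, G (E x) ↔ G x
  rG : G r
  sg1 : ∀ x, sg x = 1 ∨ sg x = -1
  sgE : ∀ x, sg (E x) = sg x
  sgr : sg r = s
  sum : ∀ d, G d → ∑ x ∈ Finset.univ.filter (fun x => E.SameCycle d x), v x = 2 * sg d
  pb : PB E v K
  conn : ∀ (v' : D → ℤ) (T : D → ℕ → Prop) (ρ : D → Prop), (∀ x, G x → v' x = v x) →
    TS E τ v' T → (∀ x, ρ (E x) ↔ ρ x) →
    (∀ x, G x → ¬ E.SameCycle x r → ∀ j, 3 * K + 1 ≤ j → (T x j ↔ ρ x)) →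
    ∃ c : Prop, ∀ x, G x → ∀ j, T x j ↔ c
  clsE : ∀ x, cls (E x) ↔ cls x
  oks : ∀ x s a b, ok x s a b → ok (τ x) s b a
  nosink : ∀ x, v x ≠ 0 → DetM v cls x ∨ DetM v cls (τ x)
  src : ∀ x i, i < (v x).natAbs → DetM v cls x → DetM v cls (τ x) →
    ok x (decide (0 < v x)) (a0 x i) (a0 (τ x) ((v x).natAbs - 1 - i)) ∧ Pos x i (a0 x i)
  flow : ∀ x i, i < (v x).natAbs → DetM v cls x → ¬ DetM v cls (τ x) →
    ∀ b, Pos (τ x) ((v x).natAbs - 1 - i) b → ∃ a, Pos x i a ∧ ok x (decide (0 < v x)) a b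
  strand : ∀ y j, j < (v y).natAbs → ¬ DetM v cls y → (∀ a, Pos y j a) ∨ PosAdj E v Pos y j
  root : s = 1 ↔ ¬ cls r
  rootPos : ∀ x, E.SameCycle r x → ∀ i a, Pos x i a
  pos : ∀ x i, i < (v x).natAbs → ∃ a, Pos x i a

namespace TyS

variable {D : Type*} [Fintype D] {E : Equiv.Perm D} {τ : D → D}
  {ok : D → Bool → Bool → Bool → Prop} {K : ℕ} {G : D → Prop} {r : D} {s : ℤ} {v sg : D → ℤ}
  {cls : D → Prop} {Pos : D → ℕ → Bool → Prop} {a0 : D → ℕ → Bool}

lemma toM (H : TyS E τ ok K G r s v sg cls Pos a0) : TyM E τ ok K G r s v sg cls Pos a0 where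
  tt := H.tt
  vτ := H.vτ
  vG := H.vG
  GE := H.GE
  rG := H.rG
  sg1 := H.sg1
  sgE := H.sgE
  sgr := H.sgr
  cirs := fun x hx => cir_of_sum x (H.sg1 x) (H.sum x hx) H.pb
  conn := fun T hT hdeep => H.conn v T (fun _ => False) (fun _ _ => rfl) hT (fun _ => Iff.rfl)
    (fun x hx _ j hj => iff_of_false (hdeep x hx j hj) (fun h => h))
  clsE := H.clsE
  oks := H.oks
  nosink := H.nosink
  src := H.src
  flow := H.flow
  strand := H.strand
  root := H.root
  rootPos := H.rootPos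
  pos := H.pos

/-- **the types exist** -/
theorem sol (H : TyS E τ ok K G r s v sg cls Pos a0) (t0 t1 : Bool) :
    ∃ κ : D → ℕ → Bool, Sol E τ ok (3 * K + 1) G r s t0 t1 v κ sg ∧
      (∀ x (i : ℕ), (i : ℤ) < v x → Pos x i (κ (E.symm x) i)) ∧
      ∀ x (i : ℕ), (i : ℤ) < -v x → Pos x i (κ x ((v x).natAbs - 1 - i)) := by
  obtain ⟨κ, h1, h2, h3, h4, h5, h6⟩ := H.toM.exists_kappa t0 t1
  refine ⟨κ, ⟨H.vτ, H.vG, H.sg1, H.sgE, ?_, H.sum, ?_, h1, h2, h3, h4, H.conn⟩, h5, h6⟩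
  · intro x hx
    rw [← H.sgr]
    exact cyc_eq H.sgE hx
  · intro x n hn
    refine (H.pb x n hn).trans ?_
    push_cast
    linarith [Int.natCast_nonneg K]

/-- the types of the lanes over one ribbon are monotone -/
lemma mono (H : TyS E τ ok K G r s v sg cls Pos a0) {κ : D → ℕ → Bool}
    (h5 : ∀ x (i : ℕ), (i : ℤ) < v x → Pos x i (κ (E.symm x) i))
    (h6 : ∀ x (i : ℕ), (i : ℤ) < -v x → Pos x i (κ x ((v x).natAbs - 1 - i))) {x : D}
    (hx : ∀ i j : ℕ, i < j → j < (v x).natAbs → ∀ a b, Pos x i a → Pos x j b → a = true →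
      b = true) :
    (∀ i j : ℕ, i < j → (j : ℤ) < v x → κ (E.symm x) i = true → κ (E.symm x) j = true) ∧
      ∀ i j : ℕ, i < j → (j : ℤ) < -v x → κ x j = true → κ x i = true := by
  constructor
  · intro i j hij hj h
    exact hx i j hij (by omega) _ _ (h5 x i (by omega)) (h5 x j hj) h
  · intro i j hij hj h
    have h7 := h6 x ((v x).natAbs - 1 - j) (by omega)
    have h8 := h6 x ((v x).natAbs - 1 - i) (by omega)
    rw [show (v x).natAbs - 1 - ((v x).natAbs - 1 - j) = j by omega] at h7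
    rw [show (v x).natAbs - 1 - ((v x).natAbs - 1 - i) = i by omega] at h8
    exact hx _ _ (by omega) (by omega) _ _ h7 h8 h

end TyS

open Pool.Agent.Helper55.UNF Pool.Agent.Helper55.UNF.GridSolid

variable {P : GridSolid} {a b : Fin 3} (T : Thin P a b) (hab : a ≠ b)

/-- **Solutions with types on the ribbons of the thin system.** -/
theorem Thin.sols_of_ty {K : ℕ} (h : ∀ (r : T.TR hab) (s : ℤ), (s = 1 ∨ s = -1) →
    ∃ v sg cls Pos a0, TyS (T.EE hab) (T.tau hab) (fun x => Thin.okT x.1) K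
      (Reg (T.EE hab) (T.tau hab) r) r s v sg cls Pos a0 ∧
      (∀ x : T.TR hab, x.1.1.2 ≠ 0 → ∀ i j : ℕ, i < j → j < (v x).natAbs → ∀ a b, Pos x i a →
        Pos x j b → a = true → b = true) ∧
      ∀ x y : T.TR hab, Thin.M.XZr x.1 y.1 → v x = 0 ∨ v y = 0) : T.SolsM hab (3 * K + 1) := by
  intro r s hs t0 t1
  obtain ⟨v, sg, cls, Pos, a0, H, hm, hxz⟩ := h r s hs
  obtain ⟨κ, h1, h2, h3⟩ := H.sol t0 t1
  exact ⟨v, κ, sg, h1, fun x _ hx => H.mono h2 h3 (hm x hx), fun x y _ _ => hxz x y⟩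

/-- **Edge unfoldings from lanes with local conditions.** -/
theorem unfold_of_ty (hP : P.IsOrthogonalPolyhedron) (hsep : SepRing (sysH P a b hab)) {K : ℕ}
    (h : ∀ (r : T.TR hab) (s : ℤ), (s = 1 ∨ s = -1) →
    ∃ v sg cls Pos a0, TyS (T.EE hab) (T.tau hab) (fun x => Thin.okT x.1) K
      (Reg (T.EE hab) (T.tau hab) r) r s v sg cls Pos a0 ∧
      (∀ x : T.TR hab, x.1.1.2 ≠ 0 → ∀ i j : ℕ, i < j → j < (v x).natAbs → ∀ a b, Pos x i a →
        Pos x j b → a = true → b = true) ∧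
      ∀ x y : T.TR hab, Thin.M.XZr x.1 y.1 → v x = 0 ∨ v y = 0) {Q : ℕ}
    (hQ : 5 * (6 * (24 * (3 * K + 1) + 24) + 1) + 1 ≤ Q) (hn : 0 < 2 * Q + 1) :
    (P.refine (2 * Q + 1) hn).HasEdgeUnfolding :=
  unfold_of_piecesT T hab hP (T.piecesM_of_sols hab (T.sols_of_ty hab h)) hsep hQ hn

end Pool.Agent.MP42.EO
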