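import Pool.Agent.MP42.TQ.LayV
import Pool.Agent.MP42.TQ.LayS
import Pool.Agent.MP42.TQ.SolTy2

/-!
# Edge unfoldings from layouts on the big map (owner helper18)
-/

set_option autoImplicit false
set_option linter.unusedSectionVars false

namespace Pool.Agent.MP42.EO

open Pool.Agent.Helper55.UNF Pool.Agent.Helper55.UNF.GridSolid Pool.Agent.MP42.NE
open Pool.Agent.MP42.Geo Pool.Agent.MP42NG Pool.Agent.MP42 Pool.Agent.MP42.O3

variable {Q : GridSolid} {a b : Fin 3}

/-- the legal types over a ribbon dart by its position -/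
lemma okH_ps (u : RD Q a b) (s t t' : Bool) : okH b u.1 s t t' ↔ okP (psH u) s t t' := by
  rw [psH_eq]
  rcases kinds b u.1 with h | h | h | h | h
  · rw [okH_real h]
    have h' : u.1.1.1.d.1 = a := h
    rw [if_pos h']; rfl
  · rw [okH_flatX h]
    have h1 : ¬ u.1.1.1.d.1 = a := h.1
    have h2 : ¬ u.1.1.1.d.1 = b := h.2.1
    have h3 : ¬ u.1.1.stN.1.d.1 = b := h.2.2
    rw [if_neg h1, if_neg h2, if_neg h3]; rfl
  · rw [okH_flatZ h]
    have h1 : ¬ u.1.1.1.d.1 = a := h.1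
    have h2 : u.1.1.1.d.1 = b := h.2.1
    have h3 : u.1.1.stN.1.d.1 = b := h.2.2
    rw [if_neg h1, if_pos h2, if_pos h3]; rfl
  · rw [okH_gateX h]
    have h1 : ¬ u.1.1.1.d.1 = a := h.1
    have h2 : ¬ u.1.1.1.d.1 = b := h.2.1
    have h3 : u.1.1.stN.1.d.1 = b := h.2.2
    rw [if_neg h1, if_neg h2, if_pos h3]; rfl
  · rw [okH_gateZ h]
    have h1 : ¬ u.1.1.1.d.1 = a := h.1
    have h2 : u.1.1.1.d.1 = b := h.2.1
    have h3 : ¬ u.1.1.stN.1.d.1 = b := h.2.2
    rw [if_neg h1, if_pos h2, if_neg h3]; rfl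

lemma okP_f {p : O3.Pos} {s s' t t' u : Bool} (h : okP p s t t') (h' : okP p s' t u) : t' = u := by
  cases p
  · exact h.symm.trans h'
  · exact h.2.trans h'.2.symm
  · exact h.2.trans h'.2.symm
  · exact h.1.symm.trans h'.1
  · exact h.1.symm.trans h'.1

lemma okP_g {p : O3.Pos} {s s' t t' u : Bool} (h : okP p s t u) (h' : okP p s' t' u) : t = t' := by
  cases p
  · exact h.trans h'.symm
  · exact h.1.trans h'.1.symm
  · exact h.1.trans h'.1.symm
  · exact h.1.trans h'.1.symm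
  · exact h.1.trans h'.1.symm

section

variable (hM : Q.IsManifold) (hab : a ≠ b)

lemma okT_d0' (x : RD Q a b) (s t t' : Bool) :
    Thin.okT (d0' hM hab x).1 s t t' ↔ okP (psH x) s t t' := by
  rw [← okH_ps]
  unfold Thin.okT
  rw [if_pos (show (d0' hM hab x).1.1.2 = 0 from rfl)]
  rfl

lemma okT_th' {x : RD Q a b} (h : Quad hab x) (s t t' : Bool) :
    Thin.okT (th' hM hab x h).1 s t t' ↔ (t' = !t ∧ (s = true ↔ Real x.1)) := by
  unfold Thin.okT
  rw [if_neg (show ¬ (th' hM hab x h).1.1.2 = 0 from by show ¬ (1 : ℕ) = 0; omega)]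
  have e : (TAl hM hab).X (th' hM hab x h).1.1.1.1 ↔ Real x.1 := by
    show (TAl hM hab).X x.1.1 ↔ _
    rw [TAl_X hM hab x]
    exact ⟨fun h' => h'.1, fun h' => ⟨h', h⟩⟩
  rw [e]

lemma op_eq (p : O3.Pos) : posOp p = p.op := by cases p <;> rfl

variable (W : (UMH hM hab).D → Prop) (hE : ∀ x, W ((UMH hM hab).toBM.E x) ↔ W x)
  (hτ : ∀ x, W ((UMH hM hab).toBM.τ x) ↔ W x)

/-- **the legal types on the segments of a region** -/
theorem uokH : UOk ((UMH hM hab).toBM.sub W hE hτ) ((TAl hM hab).EE hab) ((TAl hM hab).tau hab)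
    (fun x => d0' hM hab x.1.1) (fun x => ntH hab x.1.1) (fun x => (UMH hM hab).len x.1)
    (fun x => (UMH hM hab).fr x.1) (fun y => Thin.okT y.1) where
  oks y s t t' h := by
    have h : Thin.okT y.1 s t t' := h
    show Thin.okT ((TAl hM hab).tau hab y).1 s t' t
    rcases TR_cases hM hab y with ⟨x, rfl⟩ | ⟨x, hq, rfl⟩
    · rw [tau_d0, okT_d0', psH_tH]
      rw [okT_d0'] at h
      rw [← op_eq]
      exact okP_op h
    · rw [tau_th, okT_th']
      rw [okT_th'] at h
      refine ⟨by rw [h.1]; simp, h.2.trans ?_⟩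
      constructor
      · intro h1; exact quad_real2 hM hab hq h1
      · intro h1
        have h2 := quad_real2 hM hab (quad_nu hM hab (quad_nu hM hab hq).1).1 h1
        rwa [(quad_nu hM hab hq).2] at h2
  hf y s s' t t' u h h' := by
    have h : Thin.okT y.1 s t t' := h
    have h' : Thin.okT y.1 s' t u := h'
    rcases TR_cases hM hab y with ⟨x, rfl⟩ | ⟨x, hq, rfl⟩
    · rw [okT_d0'] at h h'
      exact okP_f h h'
    · rw [okT_th'] at h h'
      rw [h.1, h'.1]
  hg y s s' t t' u h h' := by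
    have h : Thin.okT y.1 s t u := h
    have h' : Thin.okT y.1 s' t' u := h'
    rcases TR_cases hM hab y with ⟨x, rfl⟩ | ⟨x, hq, rfl⟩
    · rw [okT_d0'] at h h'
      exact okP_g h h'
    · rw [okT_th'] at h h'
      have := h.1.symm.trans h'.1
      cases t <;> cases t' <;> simp at this <;> rfl
  fr1 x h := by
    have h1 : (UMH hM hab).HR x.1 := UM.HR_of_ek h
    refine ⟨(UM.fr_spec h1).1, ?_⟩
    have h2 := UM.opp_ν' (U := UMH hM hab) x.1
    have h3 := BM.sub_opp (hE := hE) (hτ := hτ) x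
    show (UMH hM hab).fr x.1 + (UMH hM hab).fr (opp ((UMH hM hab).toBM.sub W hE hτ) x).1 ≤ _
    rw [h3]
    exact UM.fr_opp h2 h1
  real x h s t := by
    have h1 : (UMH hM hab).HR x.1 := UM.HR_of_ek h
    obtain ⟨h2, h3⟩ := UM.fr_spec h1
    show Thin.okT (((TAl hM hab).EE hab ^ (ntH hab x.1.1 + (UMH hM hab).fr x.1 + 1))
      (d0' hM hab x.1.1)).1 s t t
    rw [unit_x hM hab x.1 h2, okT_d0']
    have h4 : psH ((EH hab ^ ((UMH hM hab).fr x.1 + 1)) x.1.1) = .r := h3
    rw [h4]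
    exact rfl
  near x s t t' h := by
    show Thin.okT (((TAl hM hab).EE hab ^ (ntH hab x.1.1 + 0 + 1)) (d0' hM hab x.1.1)).1 s t t'
    rw [unit_x hM hab x.1 (Nat.zero_le _), okT_d0']
    have e1 : ((UMH hM hab).toBM.sub W hE hτ).pos (((UMH hM hab).toBM.sub W hE hτ).ν x) =
        psH ((UMH hM hab).n x.1.1) := by
      rw [BM.sub_pos, BM.sub_ν, UM.pos_eq, UM.ν_toBM]; rfl
    rw [e1] at h
    have e2 : psH ((UMH hM hab).n x.1.1) = (psH (EH hab x.1.1)).op := psH_tH hab _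
    rw [e2, op_eq] at h
    have e3 : (psH (EH hab x.1.1)).op.op = psH (EH hab x.1.1) := by
      cases psH (EH hab x.1.1) <;> rfl
    rw [e3] at h
    rw [zero_add, pow_one]
    exact h
  far x s t t' h := by
    show Thin.okT (((TAl hM hab).EE hab ^ (ntH hab x.1.1 + (UMH hM hab).len x.1 + 1))
      (d0' hM hab x.1.1)).1 s t t'
    rw [unit_x hM hab x.1 le_rfl, okT_d0']
    have e1 : ((UMH hM hab).toBM.sub W hE hτ).pos (((UMH hM hab).toBM.sub W hE hτ).E x) =
        psH ((EH hab ^ ((UMH hM hab).len x.1 + 1)) x.1.1) := by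
      rw [BM.sub_pos, BM.sub_E, UM.pos_eq]
      have e2 : ((UMH hM hab).toBM.E x.1).1 = ((UMH hM hab).E ^ ((UMH hM hab).len x.1 + 1)) x.1.1 :=
        UM.E'_val x.1
      rw [e2]; rfl
    rw [e1] at h
    exact h
  thin x h s t t' h1 h2 := by
    have h' : ntH hab x.1.1 = 1 := h
    have hq : Quad hab x.1.1 := by
      by_contra hq
      rw [ntH_zero hab hq] at h'; omega
    show Thin.okT ((TAl hM hab).EE hab (d0' hM hab x.1.1)).1 s t t'
    rw [EE_d0_quad hM hab hq, okT_th']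
    refine ⟨h1, h2.trans ?_⟩
    exact (real_iff_B2 (hM := hM) (x := x.1) hq).symm
  nt1 x h := by
    have h1 : ((UMH hM hab).toBM.lab x.1).isB = true := h
    exact ntH_one hab ((quad_iff_isB x.1).2 h1)

/-- every ribbon dart is behind a corner of its ring -/
lemma exists_seg {u : RD Q a b} (h : ∃ y, (EH hab).SameCycle y u ∧ (UMH hM hab).Bg y) :
    ∃ (x : (UMH hM hab).D) (j : ℕ), j ≤ (UMH hM hab).len x ∧ u = (EH hab ^ (j + 1)) x.1 := by
  classical
  obtain ⟨y, hy, hb⟩ := h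
  have hex : ∃ n : ℕ, ∃ y, (UMH hM hab).Bg y ∧ u = (EH hab ^ (n + 1)) y := by
    obtain ⟨n, rfl⟩ := hy.exists_nat_pow_eq
    rcases n with _ | n
    · refine ⟨orderOf (EH (Q := Q) hab) - 1, y, hb, ?_⟩
      have h1 : orderOf (EH (Q := Q) hab) - 1 + 1 = orderOf (EH (Q := Q) hab) := by
        have := orderOf_pos (EH (Q := Q) hab)
        omega
      rw [h1, pow_orderOf_eq_one, pow_zero]
    · exact ⟨n, y, hb, rfl⟩
  obtain ⟨y, hb, hy⟩ := Nat.find_spec hex
  refine ⟨⟨y, hb⟩, Nat.find hex, ?_, hy⟩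
  by_contra hc
  have h1 : (UMH hM hab).len ⟨y, hb⟩ < Nat.find hex := by omega
  have h2 := ((UMH hM hab).E' ⟨y, hb⟩).2
  rw [UM.E'_val] at h2
  refine Nat.find_min hex (m := Nat.find hex - ((UMH hM hab).len ⟨y, hb⟩ + 1)) (by omega)
    ⟨_, h2, ?_⟩
  have h3 : ∀ (n l : ℕ), l < n → (EH hab ^ (n + 1)) y =
      (EH hab ^ (n - (l + 1) + 1)) ((EH hab ^ (l + 1)) y) := by
    intro n l hl
    rw [← Equiv.Perm.mul_apply, ← pow_add]
    congr 2
    omega
  exact hy.trans (h3 _ _ h1)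

/-- rings of the big map and of the system -/
lemma reg_d0'_EH (x : RD Q a b) : Reg ((TAl hM hab).EE hab) ((TAl hM hab).tau hab)
    (d0' hM hab x) (d0' hM hab (EH hab x)) := by
  by_cases h : Quad hab x
  · rw [← EE_th hM hab h, ← EE_d0_quad hM hab h]
    exact (reg_E _).trans (reg_E _)
  · rw [← EE_d0 hM hab h]
    exact reg_E _

lemma reg_d0'_tH (x : RD Q a b) : Reg ((TAl hM hab).EE hab) ((TAl hM hab).tau hab)
    (d0' hM hab x) (d0' hM hab (tH hab x)) := by
  rw [← tau_d0]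
  exact reg_τ _

lemma reg_d0'_pow (x : RD Q a b) (n : ℕ) : Reg ((TAl hM hab).EE hab) ((TAl hM hab).tau hab)
    (d0' hM hab x) (d0' hM hab ((EH hab ^ n) x)) := by
  induction n with
  | zero => exact Reg.refl _
  | succ n ih =>
    rw [pow_succ']
    exact ih.trans (reg_d0'_EH hM hab _)

/-- regions of the big map are in regions of the system -/
lemma reg_big {x y : (UMH hM hab).D}
    (h : Reg (UMH hM hab).toBM.E (UMH hM hab).toBM.τ x y) :
    Reg ((TAl hM hab).EE hab) ((TAl hM hab).tau hab) (d0' hM hab x.1) (d0' hM hab y.1) := by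
  have h1 : ∀ x : (UMH hM hab).D, Reg ((TAl hM hab).EE hab) ((TAl hM hab).tau hab)
      (d0' hM hab x.1) (d0' hM hab ((UMH hM hab).toBM.E x).1) := by
    intro x
    have e : ((UMH hM hab).toBM.E x).1 = ((UMH hM hab).E ^ ((UMH hM hab).len x + 1)) x.1 :=
      UM.E'_val x
    rw [e]
    exact reg_d0'_pow hM hab _ _
  induction h with
  | rel x y h =>
    rcases h with rfl | rfl
    · exact h1 x
    · -- the other side
      have e1 : (UMH hM hab).toBM.τ x = (UMH hM hab).toBM.ν ((UMH hM hab).toBM.E.symm x) := by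
        unfold BM.ν
        rw [Equiv.apply_symm_apply]
      have h2 := h1 ((UMH hM hab).toBM.E.symm x)
      rw [Equiv.apply_symm_apply] at h2
      rw [e1, UM.ν_toBM]
      have e2 : ((UMH hM hab).ν' ((UMH hM hab).toBM.E.symm x)).1 =
          tH hab (EH hab ((UMH hM hab).toBM.E.symm x).1) := rfl
      rw [e2]
      exact h2.symm.trans ((reg_d0'_EH hM hab _).trans (reg_d0'_tH hM hab _))
  | refl x => exact Reg.refl _
  | symm x y _ ih => exact ih.symm
  | trans x y z _ _ ih1 ih2 => exact ih1.trans ih2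

end

/-- **the region of a corner** of the big map -/
noncomputable def BMr (hM : Q.IsManifold) (hab : a ≠ b) (x₀ : (UMH hM hab).D) :
    BM {x // Reg (UMH hM hab).toBM.E (UMH hM hab).toBM.τ x₀ x} :=
  (UMH hM hab).toBM.sub _ (fun _ => Reg.E_iff) (fun _ => Reg.τ_iff)

/-- the requirement on the region of a root dart of the thin system -/
def GoalM (hM : Q.IsManifold) (hab : a ≠ b) (K : ℕ) (r : (TAl hM hab).TR hab) (s : ℤ)
    (t0 t1 : Bool) : Prop :=
  ∃ v κ sg, Sol ((TAl hM hab).EE hab) ((TAl hM hab).tau hab) (fun x => Thin.okT x.1) K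
    (Reg ((TAl hM hab).EE hab) ((TAl hM hab).tau hab) r) r s t0 t1 v κ sg ∧
    (∀ x, Reg ((TAl hM hab).EE hab) ((TAl hM hab).tau hab) r x →
      (TAl hM hab).MonoL hab x.1 (v x) (κ (((TAl hM hab).EE hab).symm x)) (κ x)) ∧
    ∀ x y, Reg ((TAl hM hab).EE hab) ((TAl hM hab).tau hab) r x →
      Reg ((TAl hM hab).EE hab) ((TAl hM hab).tau hab) r y →
      Thin.M.XZr x.1 y.1 → v x = 0 ∨ v y = 0

/-- **Solutions from a layout** on the region of a corner of the big map -/
theorem goal_big (hM : Q.IsManifold) (hab : a ≠ b) {K : ℕ} {r : (TAl hM hab).TR hab}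
    {x₀ : (UMH hM hab).D} (hrx : ((TAl hM hab).EE hab).SameCycle r (d0' hM hab x₀.1)) {s : ℤ}
    {L : Layt (BMr hM hab x₀)} {sg : L.Tok → ℤ} {cls sw : L.Tok → Prop}
    {Pos : L.Tok → Bool → Prop} {a0 : L.Tok → Bool} (hOK : L.OK) (hmono : L.Mono Pos)
    (H : TkE L.F L.lam L.wt K (L.idt ⟨x₀, Reg.refl _⟩) s sg cls sw L.okt Pos a0)
    (t0 t1 : Bool) : GoalM hM hab (K + 1) r s t0 t1 := by
  classical
  have S := segH hM hab (fun x => Reg (UMH hM hab).toBM.E (UMH hM hab).toBM.τ x₀ x)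
    (fun _ => Reg.E_iff) (fun _ => Reg.τ_iff)
  have U := uokH hM hab (fun x => Reg (UMH hM hab).toBM.E (UMH hM hab).toBM.τ x₀ x)
    (fun _ => Reg.E_iff) (fun _ => Reg.τ_iff)
  obtain ⟨v, κ, sgD, h1, h2, h3⟩ := Layt.sol_of S U hOK H hmono t0 t1
  -- the positions are the region
  have hG : ∀ y, Seg.G ((TAl hM hab).EE hab) (fun x : {x // Reg (UMH hM hab).toBM.E
      (UMH hM hab).toBM.τ x₀ x} => d0' hM hab x.1.1) (fun x => ntH hab x.1.1)
      (fun x => (UMH hM hab).len x.1) y ↔ Reg ((TAl hM hab).EE hab) ((TAl hM hab).tau hab) r y := by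
    intro y
    constructor
    · rintro ⟨x, j, hj, rfl⟩
      refine (Reg.cyc hrx).trans ((reg_big hM hab x.2).trans ?_)
      exact Reg.cyc (s_pow _ _)
    · intro hy
      have h4 := Reg.inv ((Reg.cyc hrx.symm).trans hy) S.GE S.Gτ
      rw [← h4, ← S.GE]
      exact ⟨⟨x₀, Reg.refl _⟩, 0, Nat.zero_le _, rfl⟩
  have hGe : Seg.G ((TAl hM hab).EE hab) (fun x : {x // Reg (UMH hM hab).toBM.E
      (UMH hM hab).toBM.τ x₀ x} => d0' hM hab x.1.1) (fun x => ntH hab x.1.1)
      (fun x => (UMH hM hab).len x.1) = Reg ((TAl hM hab).EE hab) ((TAl hM hab).tau hab) r :=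
    funext fun y => propext (hG y)
  rw [hGe] at h1
  -- thin ribbons
  have hth : ∀ (x : RD Q a b) (hq : Quad hab x),
      Reg ((TAl hM hab).EE hab) ((TAl hM hab).tau hab) r (th' hM hab x hq) →
      ∃ z : {x // Reg (UMH hM hab).toBM.E (UMH hM hab).toBM.τ x₀ x}, z.1.1 = x ∧
        th' hM hab x hq = (TAl hM hab).EE hab (d0' hM hab z.1.1) := by
    intro x hq hx
    obtain ⟨z, j, hj, hz⟩ := (hG _).2 hx
    have hz : th' hM hab x hq = ((TAl hM hab).EE hab ^ (j + 1)) (d0' hM hab z.1.1) := hz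
    have hj : j ≤ ntH hab z.1.1 + (UMH hM hab).len z.1 := hj
    by_cases h5 : j < ntH hab z.1.1
    · by_cases hq' : Quad hab z.1.1
      · rw [ntH_one hab hq'] at h5
        have h6 : j = 0 := by omega
        subst h6
        rw [zero_add, pow_one] at hz
        refine ⟨z, ?_, hz⟩
        rw [EE_d0_quad hM hab hq'] at hz
        exact (th'_inj hM hab hz).symm
      · rw [ntH_zero hab hq'] at h5; omega
    · exfalso
      have h6 := unit_x hM hab z.1 (j := j - ntH hab z.1.1) (by omega)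
      rw [show ntH hab z.1.1 + (j - ntH hab z.1.1) = j by omega] at h6
      exact d0'_ne_th' hM hab (hz.trans h6).symm
  refine ⟨v, κ, sgD, ?_, ?_, ?_⟩
  · -- the root on its ring
    refine ⟨h1.vτ, h1.vG, h1.sg1, h1.sgE, ?_, h1.sum, h1.pb, h1.tts, h1.per, h1.κG, ?_, ?_⟩
    · intro x hx
      exact h1.sgr x (hrx.symm.trans hx)
    · intro x hx
      exact h1.deep x (hrx.symm.trans hx)
    · intro v' T' ρ hv hT' hρ hd
      refine h1.conn v' T' ρ hv hT' hρ ?_
      intro x hx hxr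
      exact hd x hx (fun h4 => hxr (h4.trans hrx))
  · intro y hy
    rcases TR_cases hM hab y with ⟨x, rfl⟩ | ⟨x, hq, rfl⟩
    · intro h4
      exact absurd rfl h4
    · intro _
      obtain ⟨z, rfl, hz⟩ := hth x hq hy
      rw [hz]
      exact h2 z (ntH_one hab hq)
  · intro p q hp hq' hxz
    rcases TR_cases hM hab p with ⟨x, rfl⟩ | ⟨x, hqx, rfl⟩
    · exact absurd rfl hxz.1
    rcases TR_cases hM hab q with ⟨y, rfl⟩ | ⟨y, hqy, rfl⟩
    · exact absurd rfl hxz.2.1
    obtain ⟨z, rfl, hz⟩ := hth x hqx hp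
    obtain ⟨z', rfl, hz'⟩ := hth y hqy hq'
    obtain ⟨-, -, hX, hZ, he⟩ := hxz
    have hX : (TAl hM hab).X z.1.1.1.1 := hX
    have he : (hE a b z'.1.1.1.1).r2 = z.1.1.1.1 := he
    have hreal : Real z.1.1.1 := ((TAl_X hM hab z.1.1).1 hX).1
    -- the corner `z` is behind the corner `z'`
    have hnr : ¬ Real z'.1.1.1 := by
      intro h5
      have h6 := (quad_real hM hab hqy h5).1.east hab
      have h7 : hE a b z'.1.1.1.1 = z'.1.1.1.1.stE := hfx_wall h6.1
      apply h6.1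
      rw [← h7]
      have h8 : (hE a b z'.1.1.1.1).1.d.1 = z.1.1.1.1.1.d.1 := by
        rw [← he]; rfl
      rw [h8]; exact hreal
    obtain ⟨hR, -, -⟩ := quad_gate hM hab hqy hnr
    have h5 : hE a b z'.1.1.1.1 = (nu (EH hab) (tH hab) z'.1.1).1.1.r2 := by
      have h3 := quad_E hM hab hqy
      have h4 := tH_real hab hR
      rw [← h4, ← h3]; rfl
    rw [h5, FSt.r2_r2] at he
    have h6 : nu (EH hab) (tH hab) z'.1.1 = z.1.1 := RD.ext he
    have h7 : (BMr hM hab x₀).ν z' = z := by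
      apply Subtype.ext
      apply Subtype.ext
      unfold BMr
      rw [BM.sub_ν, UM.ν_toBM]
      exact h6
    have h8 : (BMr hM hab x₀).lab z' = .B3 := by
      have h9 := (quad_iff_isB (hM := hM) z'.1).1 hqy
      have h10 : ¬ (UMH hM hab).toBM.lab z'.1 = .B2 := fun h11 =>
        hnr ((real_iff_B2 (hM := hM) hqy).2 h11)
      show (UMH hM hab).toBM.lab z'.1 = .B3
      revert h9 h10
      cases (UMH hM hab).toBM.lab z'.1 <;> simp [Lab.isB]
    rw [hz, hz']
    rcases hOK.thx z' h8 with h9 | h9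
    · right
      exact h3 z' (ntH_one hab hqy) h9
    · left
      rw [h7] at h9
      exact h3 z (ntH_one hab hqx) h9

end Pool.Agent.MP42.EO
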