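import Pool.Agent.MP42.TQ.LayR

/-!
# Solutions on regions with one or two rings (owner helper18)

`exists_solA`: all darts of the region are in one ring.  The two strands cross one unit `u`.
`exists_solB`: the region has two rings and `u` is a real unit between them.
-/

set_option autoImplicit false
set_option linter.unusedSectionVars false

namespace Pool.Agent.MP42.EO

open Pool.Agent.MP42.NE

variable {D : Type*}

/-- partial sums if the second power is the identity -/
lemma pb_two {T : Type*} {F : Equiv.Perm T} {w : T → ℤ} {K : ℕ} (hK : 2 ≤ K)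
    (hF : ∀ t, F (F t) = t) (w1 : ∀ t, |w t| ≤ 1) : PB F w K := by
  intro x n hn
  have h1 : n ≤ 2 := by
    by_contra hc
    refine hn 2 (by omega) (by omega) ?_
    rw [pow_succ, pow_one]
    exact hF x
  refine (Finset.abs_sum_le_sum_abs _ _).trans ?_
  refine (Finset.sum_le_sum (fun i _ => w1 _)).trans ?_
  rw [Finset.sum_const, Finset.card_range]
  simp only [nsmul_eq_mul, mul_one]
  exact_mod_cast h1.trans hK

/-! ## One ring -/

section A

variable {E : Equiv.Perm D} {τ : D → D} {G : D → Prop}

open Classical in
/-- the tokens -/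
noncomputable def tkA (τ : D → D) (u y : D) : List Bool :=
  if y = u then [false] else if y = τ u then [true] else []

/-- between `u` and `τ u` -/
def AA (E : Equiv.Perm D) (τ : D → D) (u y : D) : Prop :=
  ∃ n : ℕ, y = (E ^ n) u ∧ ∀ m ≤ n, (E ^ m) u ≠ τ u

open Classical in
/-- the last token -/
noncomputable def ptA (E : Equiv.Perm D) (τ : D → D) (u y : D) : Bool :=
  if AA E τ u y then false else true

lemma plcA [Finite D] (ττ : ∀ y, τ (τ y) = y) (GE : ∀ y, G (E y) ↔ G y) (Gτ : ∀ y, G (τ y) ↔ G y)
    {u : D} (hu : G u) (hne : τ u ≠ u) (hG : ∀ y, G y → E.SameCycle u y) {w : Bool → ℤ}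
    (hw : ∀ t, w t ≠ 0) :
    Plc E τ G Equiv.boolNot (fun t => !t) w (tkA τ u) (ptA E τ u) := by
  classical
  have e1 : tkA τ u u = [false] := by unfold tkA; rw [if_pos rfl]
  have e2 : tkA τ u (τ u) = [true] := by unfold tkA; rw [if_neg hne, if_pos rfl]
  have e3 : ∀ y, y ≠ u → y ≠ τ u → tkA τ u y = [] := by
    intro y h1 h2; unfold tkA; rw [if_neg h1, if_neg h2]
  have hcyc : E.SameCycle u (τ u) := hG _ ((Gτ u).2 hu)
  -- before `u`
  have p1 : ptA E τ u (E.symm u) = true := by
    unfold ptA
    rw [if_neg]
    rintro ⟨n, h1, h2⟩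
    have h3 : (E ^ (n + 1)) u = u := by
      rw [pow_succ', Equiv.Perm.mul_apply, ← h1, Equiv.apply_symm_apply]
    obtain ⟨m, hm⟩ := hcyc.exists_nat_pow_eq
    have h4 : ∀ q : ℕ, (E ^ ((n + 1) * q)) u = u := by
      intro q
      induction q with
      | zero => rfl
      | succ q ih => rw [Nat.mul_succ, pow_add, Equiv.Perm.mul_apply, h3, ih]
    have h5 : (E ^ (m % (n + 1))) u = τ u := by
      rw [← hm]
      conv_rhs => rw [← Nat.mod_add_div m (n + 1), pow_add, Equiv.Perm.mul_apply, h4]
    exact h2 _ (by have := Nat.mod_lt m (show 0 < n + 1 by omega); omega) h5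
  have p2 : ptA E τ u u = false := by
    unfold ptA
    rw [if_pos]
    refine ⟨0, rfl, ?_⟩
    intro m hm
    obtain rfl : m = 0 := by omega
    exact hne.symm
  have p3 : ptA E τ u (E.symm (τ u)) = false := by
    unfold ptA
    rw [if_pos]
    have hex : ∃ n : ℕ, (E ^ n) u = τ u := hcyc.exists_nat_pow_eq
    have h1 := Nat.find_spec hex
    have h2 : Nat.find hex ≠ 0 := by
      intro h0
      rw [h0] at h1
      exact hne h1.symm
    obtain ⟨n, hn⟩ := Nat.exists_eq_succ_of_ne_zero h2
    refine ⟨n, ?_, ?_⟩
    · rw [← h1, hn, Nat.succ_eq_add_one, pow_succ', Equiv.Perm.mul_apply, Equiv.symm_apply_apply]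
    · intro m hm
      exact Nat.find_min hex (by omega)
  have p4 : ptA E τ u (τ u) = true := by
    unfold ptA
    rw [if_neg]
    rintro ⟨n, h1, h2⟩
    exact h2 n le_rfl h1.symm
  have p5 : ∀ y, y ≠ u → y ≠ τ u → ptA E τ u (E.symm y) = ptA E τ u y := by
    intro y h1 h2
    unfold ptA
    refine if_congr ?_ rfl rfl
    constructor
    · rintro ⟨n, h3, h4⟩
      refine ⟨n + 1, ?_, ?_⟩
      · rw [pow_succ', Equiv.Perm.mul_apply, ← h3, Equiv.apply_symm_apply]
      · intro m hm
        rcases Nat.lt_or_ge n m with h5 | h5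
        · obtain rfl : m = n + 1 := by omega
          rw [pow_succ', Equiv.Perm.mul_apply, ← h3, Equiv.apply_symm_apply]
          exact h2
        · exact h4 m h5
    · rintro ⟨n, h3, h4⟩
      rcases n with _ | n
      · exact absurd h3 h1
      · refine ⟨n, ?_, fun m hm => h4 m (by omega)⟩
        rw [h3, pow_succ', Equiv.Perm.mul_apply, Equiv.symm_apply_apply]
  refine ⟨ττ, GE, Gτ, ?_, ?_, ?_, ?_, ?_, ?_, ?_, ?_⟩
  · intro y hy
    apply e3
    · rintro rfl; exact hy hu
    · rintro rfl; exact hy ((Gτ u).2 hu)
  · intro y hy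
    by_cases h1 : y = u
    · subst h1
      rw [e1, p1]; simp
    by_cases h2 : y = τ u
    · subst h2
      rw [e2, p3]; simp
    · rw [e3 y h1 h2]; exact List.isChain_singleton _
  · intro y hy
    by_cases h1 : y = u
    · subst h1
      simp only [e1, p2]; rfl
    by_cases h2 : y = τ u
    · subst h2
      simp only [e2, p4]; rfl
    · simp only [e3 y h1 h2]
      exact p5 y h1 h2
  · intro y
    by_cases h1 : y = u
    · subst h1
      rw [e1]; simp
    by_cases h2 : y = τ u
    · subst h2
      rw [e2]; simp
    · rw [e3 y h1 h2]; exact List.nodup_nil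
  · intro t y z hy hz
    have h1 : ∀ y, t ∈ tkA τ u y → y = if t then τ u else u := by
      intro y hy
      unfold tkA at hy
      split_ifs at hy with h1 h2
      · simp only [List.mem_singleton] at hy
        subst hy; simpa using h1
      · simp only [List.mem_singleton] at hy
        subst hy; simpa using h2
      · simp at hy
    rw [h1 y hy, h1 z hz]
  · intro t
    cases t
    · exact ⟨u, by rw [e1]; simp⟩
    · exact ⟨τ u, by rw [e2]; simp⟩
  · intro y hy
    exact ⟨u, (hG y hy).symm, by rw [e1]; simp⟩
  · intro y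
    have hf : ∀ l : List Bool, l.filter (fun t => decide (w t ≠ 0)) = l := by
      intro l
      rw [List.filter_eq_self]
      intro t _
      simpa using hw t
    rw [hf, hf]
    by_cases h1 : y = u
    · subst h1
      rw [e1, e2]; rfl
    by_cases h2 : y = τ u
    · subst h2
      rw [ττ, e1, e2]; rfl
    · have h3 : τ y ≠ u := by
        intro h3
        apply h2
        rw [← h3, ττ]
      have h4 : τ y ≠ τ u := by
        intro h4
        apply h1
        rw [← ττ y, h4, ττ]
      rw [e3 y h1 h2, e3 _ h3 h4]; rfl

/-- the global fields -/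
lemma tkgA {s : ℤ} (hs : s = 1 ∨ s = -1) {K : ℕ} (hK : 2 ≤ K) (r : Bool) :
    TkG Equiv.boolNot (fun t => !t) (fun _ => s) K r s (fun _ => s) := by
  have hcyc : ∀ t u : Bool, Equiv.boolNot.SameCycle t u := by
    intro t u
    by_cases h : t = u
    · rw [h]
    · refine ⟨1, ?_⟩
      rw [zpow_one]
      cases t <;> cases u <;> simp at h ⊢
  refine ⟨fun t => by simp, fun _ => rfl, fun t => ?_, fun _ => hs, fun _ => rfl, rfl, ?_, ?_, ?_⟩
  · rcases hs with h | h <;> simp [h]
  · intro t
    rw [Finset.sum_congr (s₂ := Finset.univ) (by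
      ext u
      simp only [Finset.mem_filter, Finset.mem_univ, true_and, iff_true]
      exact hcyc t u) (fun _ _ => rfl)]
    simp
  · refine pb_two hK (fun t => by simp) (fun t => ?_)
    rcases hs with h | h <;> simp [h]
  · intro S ρ hS _ _
    refine ⟨S false 0, fun t j => ?_⟩
    rcases hs with h | h
    · subst h
      have h0 : ∀ t, S t 0 ↔ S false 0 := by
        have h1 := hS.pop true 0 0 (by simp)
        have h1' : S false 0 ↔ S true 0 := h1
        intro t
        cases t
        · exact Iff.rfl
        · exact h1'.symm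
      induction j generalizing t with
      | zero => exact h0 t
      | succ j ih =>
        have h2 := hS.st t j (j + 1) (by push_cast; ring)
        have h3 := ih (Equiv.boolNot t)
        exact h2.symm.trans h3
    · subst h
      have h0 : ∀ t, S t 0 ↔ S false 0 := by
        have h1 := hS.push true 0 0 (by simp)
        have h1' : S true 0 ↔ S false 0 := h1
        intro t
        cases t
        · exact Iff.rfl
        · exact h1'
      induction j generalizing t with
      | zero => exact h0 t
      | succ j ih =>
        have h2 := hS.st (Equiv.boolNot t) (j + 1) j (by push_cast; ring)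
        have h3 := ih (Equiv.boolNot t)
        have h4 : Equiv.boolNot (Equiv.boolNot t) = t := by simp
        rw [h4] at h2
        exact h2.trans h3

open Classical in
/-- **Solutions on a region with one ring** -/
theorem exists_solA [Fintype D] {ok : D → Bool → Bool → Bool → Prop}
    (oks : ∀ y s a b, ok y s a b → ok (τ y) s b a)
    (hf : ∀ y s s' a b b', ok y s a b → ok y s' a b' → b = b')
    (hg : ∀ y s s' a a' b, ok y s a b → ok y s' a' b → a = a')
    (ττ : ∀ y, τ (τ y) = y) (GE : ∀ y, G (E y) ↔ G y) (Gτ : ∀ y, G (τ y) ↔ G y)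
    {u r : D} (hu : G u) (hr : G r) (hne : τ u ≠ u) (hG : ∀ y, G y → E.SameCycle u y) {s : ℤ}
    (hs : s = 1 ∨ s = -1) {K : ℕ} (hK : 2 ≤ K) (t0 t1 : Bool)
    (hok : ok u (decide (s = 1)) t0 t1 ∨ ok u (decide (s = 1)) t1 t0) :
    ∃ v κ sg, Sol E τ ok (K + 1) G r s t0 t1 v κ sg ∧ ∀ y, y ≠ u → y ≠ τ u → v y = 0 := by
  have hw : ∀ t : Bool, (fun _ : Bool => s) t ≠ 0 := by
    intro t
    rcases hs with h | h <;> simp [h]
  have P := plcA (E := E) (τ := τ) (G := G) ττ GE Gτ hu hne hG hw
  have H := tkgA hs hK (ptA E τ u r)
  -- the strands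
  obtain ⟨δ, hδ⟩ : ∃ δ : ℕ, ok u (decide (s = 1))
      (if (δ + (if s = 1 then 0 else 1)) % 2 = 0 then t0 else t1)
      (if (δ + (if s = 1 then 1 else 0)) % 2 = 0 then t0 else t1) := by
    rcases hs with h | h
    · subst h
      rcases hok with h | h
      · exact ⟨0, by simpa using h⟩
      · exact ⟨1, by simpa using h⟩
    · subst h
      rcases hok with h | h
      · exact ⟨1, by simpa using h⟩
      · exact ⟨0, by simpa using h⟩
  set κ : Bool → ℕ → Bool := fun t j =>
    if (j + ((if t then 0 else 1) + δ)) % 2 = 0 then t0 else t1 with hκ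
  have hst : ∀ (p : Bool) (j k : ℕ), (k : ℤ) = s + j → κ (!p) j = κ p k := by
    intro p j k hk
    simp only [hκ]
    refine if_congr ?_ rfl rfl
    rcases hs with h | h
    · subst h
      obtain rfl : k = 1 + j := by omega
      cases p <;> simp <;> omega
    · subst h
      obtain rfl : j = k + 1 := by omega
      cases p <;> simp <;> omega
  obtain ⟨κD, sgD, h1, -⟩ := H.sol (okt := fun _ _ _ _ => True) (κ := κ) (t0 := t0) (t1 := t1)
    ⟨fun p j k hk => hst p j k hk, fun _ _ _ _ => trivial, fun _ _ _ _ => trivial⟩
    (by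
      intro t j _
      simp only [hκ]
      refine if_congr ?_ rfl rfl
      omega)
    (by
      intro t _
      exact ⟨(if t then 0 else 1) + δ, fun j _ => rfl⟩)
    hf hg hr P (Equiv.Perm.SameCycle.refl _ _) (by
      have hty : ok u (decide (s = 1)) (TkS.tyk Equiv.boolNot (fun _ => s) κ false)
          (TkS.tyk Equiv.boolNot (fun _ => s) κ true) := by
        rcases hs with h | h
        · subst h
          have e1 : TkS.tyk Equiv.boolNot (fun _ => (1 : ℤ)) κ false = κ true 0 := rfl
          have e2 : TkS.tyk Equiv.boolNot (fun _ => (1 : ℤ)) κ true = κ false 0 := rfl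
          rw [e1, e2]
          simp only [hκ]
          simpa [add_comm] using hδ
        · subst h
          have e1 : TkS.tyk Equiv.boolNot (fun _ => (-1 : ℤ)) κ false = κ false 0 := rfl
          have e2 : TkS.tyk Equiv.boolNot (fun _ => (-1 : ℤ)) κ true = κ true 0 := rfl
          rw [e1, e2]
          simp only [hκ]
          simpa [add_comm] using hδ
      intro y t ht _
      unfold tkA at ht
      split_ifs at ht with h2 h3
      · simp only [List.mem_singleton] at ht
        subst ht; subst h2
        exact hty
      · simp only [List.mem_singleton] at ht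
        subst ht; subst h3
        exact oks _ _ _ _ hty
      · simp at ht)
  refine ⟨_, κD, sgD, h1, fun y h2 h3 => ?_⟩
  unfold Plc.vv
  have e : tkA τ u y = [] := by unfold tkA; rw [if_neg h2, if_neg h3]
  rw [e]
  rfl

end A

/-! ## Two rings -/

section B

variable {E : Equiv.Perm D} {τ : D → D} {G : D → Prop}

open Classical in
/-- the tokens -/
noncomputable def tkB (τ : D → D) (u y : D) : List (Bool × Bool) :=
  if y = u then [(false, false), (false, true)]
  else if y = τ u then [(true, true), (true, false)] else []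

open Classical in
/-- the last token -/
noncomputable def ptB (E : Equiv.Perm D) (u y : D) : Bool × Bool :=
  if E.SameCycle u y then (false, true) else (true, false)

/-- the next token -/
def FB : Equiv.Perm (Bool × Bool) where
  toFun p := (p.1, !p.2)
  invFun p := (p.1, !p.2)
  left_inv p := by simp
  right_inv p := by simp

/-- the other side -/
def lamB (p : Bool × Bool) : Bool × Bool := (!p.1, p.2)

lemma FB_same {p q : Bool × Bool} : FB.SameCycle p q ↔ p.1 = q.1 := by
  constructor
  · intro h
    obtain ⟨n, rfl⟩ := h.exists_nat_pow_eq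
    clear h
    induction n with
    | zero => rfl
    | succ n ih => rw [pow_succ', Equiv.Perm.mul_apply]; exact ih
  · intro h
    by_cases h2 : p.2 = q.2
    · rw [Prod.ext h h2]
    · refine ⟨1, ?_⟩
      rw [zpow_one]
      apply Prod.ext
      · exact h
      · show (!p.2) = q.2
        cases hp : p.2 <;> cases hq : q.2 <;> rw [hp, hq] at h2 <;> simp at h2 ⊢

lemma plcB [Finite D] (ττ : ∀ y, τ (τ y) = y) (GE : ∀ y, G (E y) ↔ G y) (Gτ : ∀ y, G (τ y) ↔ G y)
    {u : D} (hu : G u) (hne : ¬ E.SameCycle u (τ u))
    (hG : ∀ y, G y → E.SameCycle u y ∨ E.SameCycle (τ u) y) {w : Bool × Bool → ℤ}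
    (hw : ∀ t, w t ≠ 0) :
    Plc E τ G FB lamB w (tkB τ u) (ptB E u) := by
  classical
  have hne' : τ u ≠ u := by
    intro h
    apply hne
    rw [h]
  have e1 : tkB τ u u = [(false, false), (false, true)] := by unfold tkB; rw [if_pos rfl]
  have e2 : tkB τ u (τ u) = [(true, true), (true, false)] := by
    unfold tkB; rw [if_neg hne', if_pos rfl]
  have e3 : ∀ y, y ≠ u → y ≠ τ u → tkB τ u y = [] := by
    intro y h1 h2; unfold tkB; rw [if_neg h1, if_neg h2]
  have sE : ∀ y, E.SameCycle u (E.symm y) ↔ E.SameCycle u y := by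
    intro y
    have := Equiv.Perm.sameCycle_apply_right (f := E) (x := u) (y := E.symm y)
    rw [Equiv.apply_symm_apply] at this
    exact this.symm
  have p0 : ∀ y, ptB E u (E.symm y) = ptB E u y := by
    intro y
    unfold ptB
    exact if_congr (sE y) rfl rfl
  have p1 : ptB E u u = (false, true) := by
    unfold ptB; rw [if_pos (Equiv.Perm.SameCycle.refl _ _)]
  have p2 : ptB E u (τ u) = (true, false) := by
    unfold ptB; rw [if_neg hne]
  refine ⟨ττ, GE, Gτ, ?_, ?_, ?_, ?_, ?_, ?_, ?_, ?_⟩
  · intro y hy
    apply e3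
    · rintro rfl; exact hy hu
    · rintro rfl; exact hy ((Gτ u).2 hu)
  · intro y hy
    rw [p0]
    by_cases h1 : y = u
    · subst h1
      rw [e1, p1]; simp [FB]
    by_cases h2 : y = τ u
    · subst h2
      rw [e2, p2]; simp [FB]
    · rw [e3 y h1 h2]; exact List.isChain_singleton _
  · intro y hy
    simp only [p0]
    by_cases h1 : y = u
    · subst h1
      simp only [e1, p1]; rfl
    by_cases h2 : y = τ u
    · subst h2
      simp only [e2, p2]; rfl
    · simp only [e3 y h1 h2]; rfl
  · intro y
    by_cases h1 : y = u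
    · subst h1
      rw [e1]; simp
    by_cases h2 : y = τ u
    · subst h2
      rw [e2]; simp
    · rw [e3 y h1 h2]; exact List.nodup_nil
  · intro t y z hy hz
    have h1 : ∀ y, t ∈ tkB τ u y → y = if t.1 then τ u else u := by
      intro y hy
      unfold tkB at hy
      split_ifs at hy with h1 h2
      · simp only [List.mem_cons, List.not_mem_nil, or_false] at hy
        rcases hy with rfl | rfl <;> simpa using h1
      · simp only [List.mem_cons, List.not_mem_nil, or_false] at hy
        rcases hy with rfl | rfl <;> simpa using h2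
      · simp at hy
    rw [h1 y hy, h1 z hz]
  · rintro ⟨i, j⟩
    cases i
    · exact ⟨u, by rw [e1]; cases j <;> simp⟩
    · exact ⟨τ u, by rw [e2]; cases j <;> simp⟩
  · intro y hy
    rcases hG y hy with h | h
    · exact ⟨u, h.symm, by rw [e1]; simp⟩
    · exact ⟨τ u, h.symm, by rw [e2]; simp⟩
  · intro y
    have hf : ∀ l : List (Bool × Bool), l.filter (fun t => decide (w t ≠ 0)) = l := by
      intro l
      rw [List.filter_eq_self]
      intro t _
      simpa using hw t
    rw [hf, hf]
    by_cases h1 : y = u
    · subst h1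
      rw [e1, e2]; rfl
    by_cases h2 : y = τ u
    · subst h2
      rw [ττ, e1, e2]; rfl
    · have h3 : τ y ≠ u := by
        intro h3
        apply h2
        rw [← h3, ττ]
      have h4 : τ y ≠ τ u := by
        intro h4
        apply h1
        rw [← ττ y, h4, ττ]
      rw [e3 y h1 h2, e3 _ h3 h4]; rfl

/-- the global fields -/
lemma tkgB {s : ℤ} (hs : s = 1 ∨ s = -1) {K : ℕ} (hK : 2 ≤ K) {r : Bool × Bool}
    (hr : r.1 = false) : TkG FB lamB (fun _ => s) K r s (fun _ => s) := by
  refine ⟨fun t => by simp [lamB], fun _ => rfl, fun t => ?_, fun _ => hs, fun _ => rfl, rfl,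
    ?_, ?_, ?_⟩
  · rcases hs with h | h <;> simp [h]
  · rintro ⟨i, j⟩
    rw [Finset.sum_congr (s₂ := {(i, false), (i, true)}) (by
      ext ⟨i', j'⟩
      simp only [Finset.mem_filter, Finset.mem_univ, true_and, FB_same, Finset.mem_insert,
        Finset.mem_singleton, Prod.mk.injEq]
      constructor
      · rintro rfl
        cases j' <;> simp
      · rintro (h | h)
        · exact h.1.symm
        · exact h.1.symm) (fun _ _ => rfl)]
    rw [Finset.sum_pair (by simp)]
    ring
  · refine pb_two hK (fun t => by simp [FB]) (fun t => ?_)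
    rcases hs with h | h <;> simp [h]
  · intro S ρ hS hρ ⟨M, hM⟩
    have hρ' : ∀ j, ρ (true, j) ↔ ρ (true, false) := by
      intro j
      cases j
      · exact Iff.rfl
      · exact hρ (true, false)
    have hd : ∀ (j : Bool) (k : ℕ), M ≤ k → (S (true, j) k ↔ ρ (true, false)) := by
      intro j k hk
      refine (hM (true, j) ?_ k hk).trans (hρ' j)
      rw [FB_same, hr]
      simp
    refine ⟨ρ (true, false), ?_⟩
    rcases hs with h | h
    · subst h
      have hst : ∀ (p : Bool × Bool) (j : ℕ), (S (FB p) j ↔ S p (j + 1)) := fun p j =>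
        hS.st p j (j + 1) (by push_cast; ring)
      have hpop : ∀ j : Bool, (S (true, j) 0 ↔ S (false, j) 0) := by
        intro j
        have h1 := hS.pop (false, !j) 0 0 (by simp)
        have h2 : S (false, !!j) 0 ↔ S (true, !!j) 0 := h1
        rw [Bool.not_not] at h2
        exact h2.symm
      have a1 : ∀ (d : ℕ) (j : Bool) (k : ℕ), M ≤ k + d →
          (S (true, j) k ↔ ρ (true, false)) := by
        intro d
        induction d with
        | zero => intro j k hk; exact hd j k hk
        | succ d ih =>
          intro j k hk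
          by_cases h1 : M ≤ k
          · exact hd j k h1
          · have h2 := hst (true, !j) k
            have h3 : FB (true, !j) = (true, j) := by simp [FB]
            rw [h3] at h2
            exact h2.trans (ih _ _ (by omega))
      have a2 : ∀ (k : ℕ) (j : Bool), (S (false, j) k ↔ ρ (true, false)) := by
        intro k
        induction k with
        | zero => intro j; exact (hpop j).symm.trans (a1 M j 0 (by omega))
        | succ k ih =>
          intro j
          have h2 := hst (false, j) k
          exact h2.symm.trans (ih (!j))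
      rintro ⟨i, j⟩ k
      cases i
      · exact a2 k j
      · exact a1 M j k (by omega)
    · subst h
      have hst : ∀ (p : Bool × Bool) (j : ℕ), (S (FB p) (j + 1) ↔ S p j) := fun p j =>
        hS.st p (j + 1) j (by push_cast; ring)
      have hpush : ∀ j : Bool, (S (true, j) 0 ↔ S (false, j) 0) := by
        intro j
        exact (hS.push (false, j) 0 0 (by simp)).symm
      have a1 : ∀ (d : ℕ) (j : Bool) (k : ℕ), M ≤ k + d →
          (S (true, j) k ↔ ρ (true, false)) := by
        intro d
        induction d with
        | zero => intro j k hk; exact hd j k hk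
        | succ d ih =>
          intro j k hk
          by_cases h1 : M ≤ k
          · exact hd j k h1
          · have h2 := hst (true, j) k
            exact h2.symm.trans (ih (!j) (k + 1) (by omega))
      have a2 : ∀ (k : ℕ) (j : Bool), (S (false, j) k ↔ ρ (true, false)) := by
        intro k
        induction k with
        | zero => intro j; exact (hpush j).symm.trans (a1 M j 0 (by omega))
        | succ k ih =>
          intro j
          have h2 := hst (false, !j) k
          have h3 : FB (false, !j) = (false, j) := by simp [FB]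
          rw [h3] at h2
          exact h2.trans (ih _)
      rintro ⟨i, j⟩ k
      cases i
      · exact a2 k j
      · exact a1 M j k (by omega)

open Classical in
/-- **Solutions on a region with two rings** and a real unit between them -/
theorem exists_solB [Fintype D] {ok : D → Bool → Bool → Bool → Prop}
    (oks : ∀ y s a b, ok y s a b → ok (τ y) s b a)
    (hf : ∀ y s s' a b b', ok y s a b → ok y s' a b' → b = b')
    (hg : ∀ y s s' a a' b, ok y s a b → ok y s' a' b → a = a')
    (ττ : ∀ y, τ (τ y) = y) (GE : ∀ y, G (E y) ↔ G y) (Gτ : ∀ y, G (τ y) ↔ G y)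
    {u r : D} (hu : G u) (hr : E.SameCycle u r) (hne : ¬ E.SameCycle u (τ u))
    (hG : ∀ y, G y → E.SameCycle u y ∨ E.SameCycle (τ u) y) {s : ℤ}
    (hs : s = 1 ∨ s = -1) {K : ℕ} (hK : 2 ≤ K) (t0 t1 : Bool)
    (hok : ∀ s' a, ok u s' a a) :
    ∃ v κ sg, Sol E τ ok (K + 1) G r s t0 t1 v κ sg ∧ ∀ y, y ≠ u → y ≠ τ u → v y = 0 := by
  have hw : ∀ t : Bool × Bool, (fun _ : Bool × Bool => s) t ≠ 0 := by
    intro t
    rcases hs with h | h <;> simp [h]
  have P := plcB (E := E) (τ := τ) (G := G) ττ GE Gτ hu hne hG hw
  have e0 : ptB E u r = (false, true) := by unfold ptB; rw [if_pos hr]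
  have H := tkgB hs hK (r := ptB E u r) (by rw [e0])
  have hGr : G r := by
    obtain ⟨n, rfl⟩ := hr.exists_nat_pow_eq
    clear hr e0 H
    induction n with
    | zero => exact hu
    | succ n ih => rw [pow_succ', Equiv.Perm.mul_apply, GE]; exact ih
  -- the strands
  set κ : Bool × Bool → ℕ → Bool := fun t j =>
    if (j + (if t.2 then 0 else 1)) % 2 = 0 then t0 else t1 with hκ
  have hst : ∀ (p : Bool × Bool) (j k : ℕ), (k : ℤ) = s + j → κ (FB p) j = κ p k := by
    rintro ⟨i, p⟩ j k hk
    simp only [hκ]
    refine if_congr ?_ rfl rfl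
    rcases hs with h | h
    · subst h
      obtain rfl : k = 1 + j := by omega
      cases p <;> simp [FB] <;> omega
    · subst h
      obtain rfl : j = k + 1 := by omega
      cases p <;> simp [FB] <;> omega
  obtain ⟨κD, sgD, h1, -⟩ := H.sol (okt := fun _ _ _ _ => True) (κ := κ) (t0 := t0) (t1 := t1)
    ⟨fun p j k hk => hst p j k hk, fun _ _ _ _ => trivial, fun _ _ _ _ => trivial⟩
    (by
      intro t j _
      simp only [hκ]
      refine if_congr ?_ rfl rfl
      omega)
    (by
      intro t _
      exact ⟨(if t.2 then 0 else 1), fun j _ => rfl⟩)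
    hf hg hGr P (Equiv.Perm.SameCycle.refl _ _) (by
      have hty : ∀ t, TkS.tyk FB (fun _ => s) κ (lamB t) = TkS.tyk FB (fun _ => s) κ t := by
        intro t
        unfold TkS.tyk
        split_ifs
        · rfl
        · rfl
      intro y t ht _
      rw [hty]
      unfold tkB at ht
      split_ifs at ht with h2 h3
      · subst h2
        exact hok _ _
      · subst h3
        exact oks _ _ _ _ (hok _ _)
      · simp at ht)
  refine ⟨_, κD, sgD, h1, fun y h2 h3 => ?_⟩
  unfold Plc.vv
  have e : tkB τ u y = [] := by unfold tkB; rw [if_neg h2, if_neg h3]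
  rw [e]
  rfl

end B

end Pool.Agent.MP42.EO
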