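import Pool.Agent.MP42.O3.Unit
import Pool.Agent.MP42.EO.Bfs

/-!
# Real units on the rings (owner helper18)

`UM.exists_real_sep`: every ring of a region with at least two rings has a real unit with another
ring on its other side (two walls at one vertex have opposite directions, so a cycle of walls has no
highest vertex).  `UM.real_of_pole`: the ring of a pole has a real unit.
-/

set_option autoImplicit false
set_option linter.unusedSectionVars false

namespace Pool.Agent.MP42.O3.UM

open Pool.Agent.MP42.EO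

variable {P : Type*} {U : UM P}

lemma op_op (p : Pos) : p.op.op = p := by cases p <;> rfl

lemma ps_real_τ {u : P} : U.ps (U.τ u) = .r ↔ U.ps u = .r := by
  rw [U.un]; exact op_r

/-- the ring of the departing unit -/
lemma ring_n {r x : P} : U.E.SameCycle r (U.τ (U.n x)) ↔ U.E.SameCycle r x := by
  have h : U.τ (U.n x) = U.E x := U.ττ _
  rw [h]
  exact Equiv.Perm.sameCycle_apply_right

/-- the ring `r` is on exactly one side -/
def Zs (U : UM P) (r u : P) : Prop := ¬ (U.E.SameCycle r u ↔ U.E.SameCycle r (U.τ u))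

lemma zs_τ {r u : P} : U.Zs r (U.τ u) ↔ U.Zs r u := by
  unfold Zs
  rw [U.ττ]
  exact not_congr ⟨fun h => h.symm, fun h => h.symm⟩

lemma zs_n {r x : P} : U.Zs r (U.n x) ↔ ¬ (U.E.SameCycle r x ↔ U.E.SameCycle r (U.n x)) := by
  unfold Zs
  rw [ring_n]
  exact not_congr ⟨fun h => h.symm, fun h => h.symm⟩

/-- at the vertex of a separating wall there is a second one with the opposite direction -/
lemma second {r d : P} (hd : U.Zs r d) (hZ : ∀ u, U.Zs r u → U.ps u ≠ .r) :
    ∃ d', U.Zs r d' ∧ U.y d' = U.y d ∧ U.σ d' = !(U.σ d) := by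
  have hr := hZ d hd
  have y1 : U.y (U.n d) = U.y d := U.w2 d
  have y2 : U.y (U.n (U.n d)) = U.y d := (U.w2 _).trans y1
  have y3 : U.y (U.n (U.n (U.n d))) = U.y d := (U.w2 _).trans y2
  by_cases e1 : U.n d = d
  · exfalso
    have h1 : U.Zs r (U.n d) := by rw [e1]; exact hd
    rw [zs_n, e1] at h1
    exact h1 Iff.rfl
  by_cases z1 : U.Zs r (U.n d)
  · exact ⟨_, z1, y1, U.w3 d hr (hZ _ z1) e1⟩
  by_cases e2 : U.n (U.n d) = d
  · exfalso
    have h1 : U.Zs r (U.n (U.n d)) := by rw [e2]; exact hd
    rw [zs_n, e2] at h1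
    rw [zs_n, not_not] at z1
    exact h1 z1.symm
  by_cases z2 : U.Zs r (U.n (U.n d))
  · exact ⟨_, z2, y2, U.w3' d hr (hZ _ z2) e2⟩
  rw [zs_n, not_not] at z1 z2
  by_cases e3 : U.n (U.n (U.n d)) = d
  · exfalso
    have h1 : U.Zs r (U.n (U.n (U.n d))) := by rw [e3]; exact hd
    rw [zs_n, e3] at h1
    exact h1 (z1.trans z2).symm
  have e4 : U.n (U.n (U.n (U.n d))) = d := (U.v4 d e1 e2 e3).1
  have z3 : U.Zs r (U.n (U.n (U.n d))) := by
    rw [zs_n]
    intro h1
    have h2 : U.Zs r (U.n (U.n (U.n (U.n d)))) := by rw [e4]; exact hd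
    rw [zs_n, e4] at h2
    exact h2 ((z1.trans z2).trans h1).symm
  refine ⟨_, z3, y3, ?_⟩
  have h1 : U.σ (U.n (U.n (U.n (U.n d)))) = !(U.σ (U.n (U.n (U.n d)))) := by
    refine U.w3 _ (hZ _ z3) ?_ ?_
    · have : U.τ (U.E (U.n (U.n (U.n d)))) = d := e4
      rw [this]; exact hr
    · intro h
      have : U.τ (U.E (U.n (U.n (U.n d)))) = d := e4
      rw [this] at h
      exact e3 h.symm
  rw [e4] at h1
  rw [h1, Bool.not_not]

/-- **a real unit between the ring and another ring** -/
theorem exists_real_sep [Finite P] {r z : P} (hz : Reg U.E U.τ r z)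
    (hne : ¬ U.E.SameCycle r z) :
    ∃ u, U.E.SameCycle r u ∧ ¬ U.E.SameCycle r (U.τ u) ∧ U.ps u = .r := by
  by_contra hcon
  push Not at hcon
  have hZ : ∀ u, U.Zs r u → U.ps u ≠ .r := by
    intro u hu h1
    by_cases h2 : U.E.SameCycle r u
    · by_cases h3 : U.E.SameCycle r (U.τ u)
      · exact hu ⟨fun _ => h3, fun _ => h2⟩
      · exact hcon u h2 h3 h1
    · by_cases h3 : U.E.SameCycle r (U.τ u)
      · exact hcon (U.τ u) h3 (by rw [U.ττ]; exact h2) (ps_real_τ.2 h1)
      · exact hu ⟨fun h => absurd h h2, fun h => absurd h h3⟩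
  -- separating units exist
  have hex : ∃ u, U.Zs r u := by
    by_contra h1
    push Not at h1
    have h2 := hz.inv (ψ := fun u => U.E.SameCycle r u)
      (fun x => Equiv.Perm.sameCycle_apply_right) (fun x => by
        have := h1 x
        unfold Zs at this
        rw [not_not] at this
        exact this.symm)
    exact hne (h2.1 (Equiv.Perm.SameCycle.refl _ _))
  obtain ⟨d, hd, hmax⟩ : ∃ d, U.Zs r d ∧ ∀ u, U.Zs r u → U.y u ≤ U.y d := by
    obtain ⟨u₀, hu₀⟩ := hex
    obtain ⟨d, hd⟩ := Set.Finite.exists_maximalFor (fun u => U.y u) {u | U.Zs r u}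
      (Set.toFinite _) ⟨u₀, hu₀⟩
    refine ⟨d, hd.1, fun u hu => ?_⟩
    by_contra h
    exact h (hd.2 hu (by simpa using (not_le.1 h).le))
  have hup : ∀ u, U.Zs r u → U.y u = U.y d → U.σ u = true := by
    intro u hu hy
    by_contra h
    have h' : U.σ u = false := by simpa using h
    have h1 := (U.w1 u (hZ u hu)).2
    rw [h'] at h1
    have h2 := hmax _ (zs_τ.2 hu)
    simp only [Bool.false_eq_true, if_false] at h1
    omega
  obtain ⟨d', h1, h2, h3⟩ := second hd hZ
  rw [hup d hd rfl, hup d' h1 h2] at h3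
  exact absurd h3 (by decide)

/-- **the ring of a pole has a real unit** -/
theorem real_of_pole [Finite P] {d : P} (hd : U.n d = d) :
    ∃ k : ℕ, U.ps ((U.E ^ k) d) = .r := by
  by_contra hcon
  push Not at hcon
  have hh : U.ps d = .h := U.v1 d hd
  have key : ∀ k : ℕ, U.ps ((U.E ^ (k + 1)) d) = .t ∨ U.ps ((U.E ^ (k + 1)) d) = .x := by
    intro k
    induction k with
    | zero =>
      left
      have h1 : U.E d = U.τ d := by
        have := congrArg U.τ hd
        unfold n at this
        rwa [U.ττ] at this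
      rw [zero_add, pow_one, h1, U.un, hh]
      rfl
    | succ k ih =>
      have h2 := hcon (k + 1 + 1)
      rw [pow_succ', Equiv.Perm.mul_apply] at h2 ⊢
      set x := (U.E ^ (k + 1)) d with hx
      have h3 : U.ps (U.n x) = (U.ps (U.E x)).op := U.un _
      by_cases e1 : U.n x = x
      · have := U.v1 x e1
        rw [this] at ih
        rcases ih with h | h <;> exact absurd h (by decide)
      by_cases e2 : U.n (U.n x) = x
      · have h4 := U.v2 x e1 e2
        have h5 : U.ps (U.τ (U.E x)) = (U.ps (U.E x)).op := U.un _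
        rw [h5] at h4
        revert h2 h4
        rcases ih with h | h <;> rw [h] <;> cases U.ps (U.E x) <;> simp [ok2, Pos.op]
      by_cases e3 : U.n (U.n (U.n x)) = x
      · have h4 := U.v3 x e1 e2 e3
        have h5 : U.ps (U.τ (U.E x)) = (U.ps (U.E x)).op := U.un _
        rw [h5] at h4
        generalize U.ps (U.τ (U.E (U.τ (U.E x)))) = q at h4
        revert h2 h4
        rcases ih with h | h <;> rw [h] <;> cases U.ps (U.E x) <;> cases q <;>
          simp [ok3, labOf, Pos.op]
      · obtain ⟨-, h4⟩ := U.v4 x e1 e2 e3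
        have h5 : U.ps (U.τ (U.E x)) = (U.ps (U.E x)).op := U.un _
        rw [h5] at h4
        rcases h4 with h4 | h4
        · rcases ih with h | h <;> rw [h] at h4 <;> exact absurd h4.1 (by decide)
        · exact absurd (op_r.1 h4.2) h2
  have h1 := key (orderOf U.E - 1)
  have h2 : orderOf U.E - 1 + 1 = orderOf U.E := by
    have := orderOf_pos U.E
    omega
  rw [h2, pow_orderOf_eq_one, Equiv.Perm.one_apply, hh] at h1
  rcases h1 with h | h <;> exact absurd h (by decide)

/-- rings with a vertex of valence at least three -/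
def BgR (U : UM P) (u : P) : Prop := ∃ x, U.E.SameCycle u x ∧ U.Bg x

lemma bgR_E {u : P} : U.BgR (U.E u) ↔ U.BgR u := by
  unfold BgR
  simp only [Equiv.Perm.sameCycle_apply_left]

/-- if a ring has no vertex of valence at least three then `τ` maps it to a ring -/
lemma τ_ring [Finite P] {u : P} (h : ¬ U.BgR u) {y : P} (hy : U.E.SameCycle u y) :
    U.E.SameCycle (U.τ u) (U.τ y) := by
  obtain ⟨n, rfl⟩ := hy.exists_nat_pow_eq
  clear hy
  induction n with
  | zero => exact Equiv.Perm.SameCycle.refl _ _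
  | succ n ih =>
    have h1 : ¬ U.Bg ((U.E ^ n) u) := fun h2 => h ⟨_, ⟨(n : ℤ), by rw [zpow_natCast]⟩, h2⟩
    have h2 := back h1
    rw [pow_succ', Equiv.Perm.mul_apply]
    refine ih.trans ?_
    rw [← h2]
    exact (Equiv.Perm.sameCycle_apply_left).2 (Equiv.Perm.SameCycle.refl _ _)

/-- the vertices at the two ends of a unit -/
lemma bg_τ_E {x : P} (h : ¬ U.Bg x) : ¬ U.Bg (U.τ (U.E x)) := fun h1 => h (bg_n.1 h1)

lemma bgR_τ' [Finite P] {u : P} (h : U.BgR (U.τ u)) : U.BgR u := by
  by_contra hc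
  obtain ⟨x, hx, hb⟩ := h
  have key : ∀ n : ℕ, ∃ y, U.E.SameCycle u y ∧ (U.E ^ n) (U.τ u) = U.τ y := by
    intro n
    induction n with
    | zero => exact ⟨u, Equiv.Perm.SameCycle.refl _ _, rfl⟩
    | succ n ih =>
      obtain ⟨y, hy, h1⟩ := ih
      refine ⟨U.E.symm y, ?_, ?_⟩
      · have : U.E.SameCycle (U.E.symm y) y := by
          have := (Equiv.Perm.sameCycle_apply_right (f := U.E) (x := U.E.symm y)
            (y := U.E.symm y)).2 (Equiv.Perm.SameCycle.refl _ _)
          rwa [Equiv.apply_symm_apply] at this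
        exact hy.trans this.symm
      · rw [pow_succ', Equiv.Perm.mul_apply, h1]
        have h2 : ¬ U.Bg (U.E.symm y) := by
          intro h2
          apply hc
          refine ⟨U.E.symm y, ?_, h2⟩
          have : U.E.SameCycle (U.E.symm y) y := by
            have := (Equiv.Perm.sameCycle_apply_right (f := U.E) (x := U.E.symm y)
              (y := U.E.symm y)).2 (Equiv.Perm.SameCycle.refl _ _)
            rwa [Equiv.apply_symm_apply] at this
          exact hy.trans this.symm
        have h3 := back h2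
        rw [Equiv.apply_symm_apply] at h3
        exact h3
  obtain ⟨n, hn⟩ := hx.exists_nat_pow_eq
  obtain ⟨y, hy, h1⟩ := key n
  rw [hn] at h1
  -- `x = τ y` is the corner after `E⁻¹ y`
  have h2 : ¬ U.Bg (U.E.symm y) := by
    intro h2
    apply hc
    refine ⟨U.E.symm y, ?_, h2⟩
    have : U.E.SameCycle (U.E.symm y) y := by
      have := (Equiv.Perm.sameCycle_apply_right (f := U.E) (x := U.E.symm y)
        (y := U.E.symm y)).2 (Equiv.Perm.SameCycle.refl _ _)
      rwa [Equiv.apply_symm_apply] at this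
    exact hy.trans this.symm
  have h3 := bg_τ_E h2
  rw [Equiv.apply_symm_apply, ← h1] at h3
  exact h3 hb

lemma bgR_τ [Finite P] {u : P} : U.BgR (U.τ u) ↔ U.BgR u :=
  ⟨bgR_τ', fun h => bgR_τ' (by rw [U.ττ]; exact h)⟩

/-- all rings of the region have vertices of valence at least three, or none -/
lemma bgR_reg [Finite P] {u z : P} (h : Reg U.E U.τ u z) : U.BgR u ↔ U.BgR z :=
  h.inv (fun _ => bgR_E) (fun _ => bgR_τ)

end Pool.Agent.MP42.O3.UM
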