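import Pool.Agent.MP42.TQ.LayF
import Pool.Agent.MP42.TQ.RootS
import Pool.Agent.MP42.TQ.RootU
import Pool.Agent.MP42.PL.Big
import Pool.Agent.MP42.EO.PoleH

/-!
# Edge unfoldings from layouts, all regions and rings (owner helper18)

`LayoutThm K`: on every planar connected big map there is, for every root ring which has an edge
with a real unit to another ring, a layout with a token system.  `unfold_of_layout`: this gives
the edge unfoldings.  The regions with one ring have a pole, the regions without vertices of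
valence at least three have at most two rings; in both cases the strands cross one unit.
-/

set_option autoImplicit false
set_option linter.unusedSectionVars false

namespace Pool.Agent.MP42.EO

open Pool.Agent.Helper55.UNF Pool.Agent.Helper55.UNF.GridSolid Pool.Agent.MP42.NE
open Pool.Agent.MP42.Geo Pool.Agent.MP42NG Pool.Agent.MP42 Pool.Agent.MP42.O3
open Pool.Agent.MP42.PL

variable {Q : GridSolid} {a b : Fin 3}

section

variable (hM : Q.IsManifold) (hab : a ≠ b)

/-- the ribbon dart at or before a ribbon -/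
def Bs (p : (TAl hM hab).TR hab) (x : RD Q a b) : Prop :=
  p = d0' hM hab x ∨ ∃ h : Quad hab x, p = th' hM hab x h

lemma exists_bs (p : (TAl hM hab).TR hab) : ∃ x, Bs hM hab p x := by
  rcases TR_cases hM hab p with ⟨x, h⟩ | ⟨x, h, h'⟩
  · exact ⟨x, Or.inl h⟩
  · exact ⟨x, Or.inr ⟨h, h'⟩⟩

lemma bs_d0 {x y : RD Q a b} (h : Bs hM hab (d0' hM hab x) y) : y = x := by
  rcases h with h | ⟨h, h'⟩
  · exact (d0'_inj hM hab h).symm
  · exact absurd h' (d0'_ne_th' hM hab)

lemma bs_th {x y : RD Q a b} {hx : Quad hab x} (h : Bs hM hab (th' hM hab x hx) y) : y = x := by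
  rcases h with h | ⟨h, h'⟩
  · exact absurd h.symm (d0'_ne_th' hM hab)
  · exact (th'_inj hM hab h').symm

lemma bs_cyc {p : (TAl hM hab).TR hab} {x : RD Q a b} (h : Bs hM hab p x) :
    ((TAl hM hab).EE hab).SameCycle p (d0' hM hab x) := by
  rcases h with h | ⟨h, h'⟩
  · rw [h]
  · rw [h', ← EE_d0_quad hM hab h, Es]

lemma cyc_EE_d0 (x : RD Q a b) : ((TAl hM hab).EE hab).SameCycle (d0' hM hab x)
    (d0' hM hab (EH hab x)) := by
  by_cases h : Quad hab x
  · rw [← EE_th hM hab h, sE, ← EE_d0_quad hM hab h, sE]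
  · rw [← EE_d0 hM hab h, sE]

lemma bs_E {p : (TAl hM hab).TR hab} {x y : RD Q a b} (h : Bs hM hab p x)
    (h' : Bs hM hab ((TAl hM hab).EE hab p) y) : y = x ∨ y = EH hab x := by
  rcases h with h | ⟨hq, h⟩
  · subst h
    by_cases hq : Quad hab x
    · rw [EE_d0_quad hM hab hq] at h'
      exact Or.inl (bs_th hM hab h')
    · rw [EE_d0 hM hab hq] at h'
      exact Or.inr (bs_d0 hM hab h')
  · subst h
    rw [EE_th hM hab hq] at h'
    exact Or.inr (bs_d0 hM hab h')

/-- the rings of the thin system are the rings of the ribbon darts -/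
lemma bs_same {p q : (TAl hM hab).TR hab} {x y : RD Q a b} (hp : Bs hM hab p x)
    (hq : Bs hM hab q y) : ((TAl hM hab).EE hab).SameCycle p q ↔ (EH hab).SameCycle x y := by
  constructor
  · intro h
    obtain ⟨n, rfl⟩ := h.exists_nat_pow_eq
    clear h
    induction n generalizing y with
    | zero =>
      have hq' : Bs hM hab p y := hq
      rcases hp with h | ⟨h, h'⟩
      · subst h
        rw [bs_d0 hM hab hq']
      · subst h'
        rw [bs_th hM hab hq']
    | succ n ih =>
      obtain ⟨z, hz⟩ := exists_bs hM hab (((TAl hM hab).EE hab ^ n) p)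
      rw [pow_succ', Equiv.Perm.mul_apply] at hq
      rcases bs_E hM hab hz hq with h | h
      · rw [h]; exact ih hz
      · rw [h, sE]; exact ih hz
  · intro h
    refine (bs_cyc hM hab hp).trans (Equiv.Perm.SameCycle.trans ?_ (bs_cyc hM hab hq).symm)
    obtain ⟨n, rfl⟩ := h.exists_nat_pow_eq
    clear h hq
    induction n with
    | zero => exact sR _
    | succ n ih =>
      rw [pow_succ', Equiv.Perm.mul_apply]
      exact ih.trans (cyc_EE_d0 hM hab _)

/-- the regions of the thin system are the regions of the ribbon darts -/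
lemma bs_reg {p q : (TAl hM hab).TR hab} {x y : RD Q a b} (hp : Bs hM hab p x)
    (hq : Bs hM hab q y) (h : Reg ((TAl hM hab).EE hab) ((TAl hM hab).tau hab) p q) :
    Reg (EH hab) (tH hab) x y := by
  have key : ∀ p q : (TAl hM hab).TR hab,
      Reg ((TAl hM hab).EE hab) ((TAl hM hab).tau hab) p q →
      ∀ x y, Bs hM hab p x → Bs hM hab q y → Reg (EH hab) (tH hab) x y := by
    intro p q h
    induction h with
    | rel p q h =>
      intro x y hx hy
      rcases h with rfl | rfl
      · rcases bs_E hM hab hx hy with h | h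
        · rw [h]; exact Reg.refl _
        · rw [h]; exact reg_E _
      · rcases hx with h | ⟨hq, h⟩
        · subst h
          rw [tau_d0] at hy
          rw [bs_d0 hM hab hy]
          exact reg_τ _
        · subst h
          rw [tau_th] at hy
          rw [bs_th hM hab hy]
          have h1 : ∀ z : RD Q a b, Reg (EH hab) (tH hab) z (nu (EH hab) (tH hab) z) := fun z =>
            (reg_E z).trans (reg_τ _)
          exact (h1 _).trans (h1 _)
    | refl p =>
      intro x y hx hy
      exact Reg.cyc ((bs_same hM hab hx hy).1 (sR _))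
    | symm p q _ ih => intro x y hx hy; exact (ih y x hy hx).symm
    | trans p q s _ _ ih1 ih2 =>
      intro x y hx hy
      obtain ⟨z, hz⟩ := exists_bs hM hab q
      exact (ih1 x z hx hz).trans (ih2 z y hz hy)
  exact key p q h x y hp hq

lemma reg_of_RD {x y : RD Q a b} (h : Reg (EH hab) (tH hab) x y) :
    Reg ((TAl hM hab).EE hab) ((TAl hM hab).tau hab) (d0' hM hab x) (d0' hM hab y) := by
  induction h with
  | rel x y h =>
    rcases h with rfl | rfl
    · exact reg_d0'_EH hM hab x
    · exact reg_d0'_tH hM hab x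
  | refl x => exact Reg.refl _
  | symm x y _ ih => exact ih.symm
  | trans x y z _ _ ih1 ih2 => exact ih1.trans ih2

lemma tau_tau (p : (TAl hM hab).TR hab) :
    (TAl hM hab).tau hab ((TAl hM hab).tau hab p) = p := by
  apply Subtype.ext
  exact ((TAl hM hab).tsys hab).ta_ta p.1

lemma okT_oks (y : (TAl hM hab).TR hab) (s t t' : Bool) (h : Thin.okT y.1 s t t') :
    Thin.okT ((TAl hM hab).tau hab y).1 s t' t := by
  rcases TR_cases hM hab y with ⟨x, rfl⟩ | ⟨x, hq, rfl⟩
  · rw [tau_d0, okT_d0', psH_tH]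
    rw [okT_d0'] at h
    rw [← op_eq]
    exact okP_op h
  · rw [tau_th, okT_th']
    rw [okT_th'] at h
    refine ⟨by rw [h.1]; simp, h.2.trans ?_⟩
    constructor
    · intro h1; exact quad_real2 hM hab hq h1
    · intro h1
      have h2 := quad_real2 hM hab (quad_nu hM hab (quad_nu hM hab hq).1).1 h1
      rwa [(quad_nu hM hab hq).2] at h2

lemma okT_f (y : (TAl hM hab).TR hab) (s s' t t' u : Bool) (h : Thin.okT y.1 s t t')
    (h' : Thin.okT y.1 s' t u) : t' = u := by
  rcases TR_cases hM hab y with ⟨x, rfl⟩ | ⟨x, hq, rfl⟩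
  · rw [okT_d0'] at h h'
    exact okP_f h h'
  · rw [okT_th'] at h h'
    rw [h.1, h'.1]

lemma okT_g (y : (TAl hM hab).TR hab) (s s' t t' u : Bool) (h : Thin.okT y.1 s t u)
    (h' : Thin.okT y.1 s' t' u) : t = t' := by
  rcases TR_cases hM hab y with ⟨x, rfl⟩ | ⟨x, hq, rfl⟩
  · rw [okT_d0'] at h h'
    exact okP_g h h'
  · rw [okT_th'] at h h'
    have := h.1.symm.trans h'.1
    cases t <;> cases t' <;> simp at this <;> rfl

/-- the conditions at the thin ribbons if the strands cross only one unit -/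
lemma goal_unit {K : ℕ} {r : (TAl hM hab).TR hab} {s : ℤ} {t0 t1 : Bool} {u : RD Q a b}
    (h : ∃ v κ sg, Sol ((TAl hM hab).EE hab) ((TAl hM hab).tau hab) (fun x => Thin.okT x.1) K
      (Reg ((TAl hM hab).EE hab) ((TAl hM hab).tau hab) r) r s t0 t1 v κ sg ∧
      ∀ y, y ≠ d0' hM hab u → y ≠ (TAl hM hab).tau hab (d0' hM hab u) → v y = 0) :
    GoalM hM hab K r s t0 t1 := by
  obtain ⟨v, κ, sg, h1, h2⟩ := h
  have h3 : ∀ (x : RD Q a b) (hq : Quad hab x), v (th' hM hab x hq) = 0 := by
    intro x hq
    apply h2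
    · exact (d0'_ne_th' hM hab).symm
    · rw [tau_d0]; exact (d0'_ne_th' hM hab).symm
  refine ⟨v, κ, sg, h1, ?_, ?_⟩
  · intro y _
    rcases TR_cases hM hab y with ⟨x, rfl⟩ | ⟨x, hq, rfl⟩
    · intro h4
      exact absurd rfl h4
    · intro _
      rw [h3]
      exact ⟨fun i j _ hj => by omega, fun i j _ hj => by omega⟩
  · intro p q _ _ hxz
    left
    rcases TR_cases hM hab p with ⟨x, rfl⟩ | ⟨x, hqx, rfl⟩
    · exact absurd rfl hxz.1
    · exact h3 _ _

end

end Pool.Agent.MP42.EO
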