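import Pool.Agent.MP42.TQ.LayY

/-!
# The types at the crossings of a layout (owner helper18)

`okP p s a b`: a strand crosses a unit with the position `p` at its far end with the sign `s`, with
the type `a` on our side and `b` on the other side.  `Layt.okt`: over an edge with a real unit the
type does not change; otherwise a crossing is over the first unit, and a lane `dl` may be over the
last unit instead.
-/

set_option autoImplicit false
set_option linter.unusedSectionVars false

namespace Pool.Agent.MP42.EO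

open Pool.Agent.MP42.NE Pool.Agent.MP42.O3

/-- types over a unit, `p` = position of the unit at its far end -/
def okP : O3.Pos → Bool → Bool → Bool → Prop
  | .r, _, a, b => a = b
  | .t, _, a, b => a = true ∧ b = false
  | .h, _, a, b => a = false ∧ b = true
  | .z, s, a, b => a = b ∧ (s = false → a = false)
  | .x, s, a, b => a = b ∧ (s = true → a = true)

instance (p : O3.Pos) (s a b : Bool) : Decidable (okP p s a b) := by
  cases p <;> unfold okP <;> infer_instance

/-- the other end of a unit -/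
def posOp : O3.Pos → O3.Pos
  | .r => .r | .t => .h | .h => .t | .z => .z | .x => .x

lemma okP_op {p : O3.Pos} {s a b : Bool} (h : okP p s a b) : okP (posOp p) s b a := by
  cases p
  · exact Eq.symm h
  · exact ⟨h.2, h.1⟩
  · exact ⟨h.2, h.1⟩
  · exact ⟨h.1.symm, fun hs => h.1 ▸ h.2 hs⟩
  · exact ⟨h.1.symm, fun hs => h.1 ▸ h.2 hs⟩

namespace Layt

variable {X : Type*} {M : BM X} (L : Layt M)

/-- **types over a crossing**, seen from its own corner -/
def okc (x : X) (i : ℕ) (a b : Bool) : Prop :=
  if M.ek (M.ν x) = .R then a = b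
  else okP (posOp (M.pos (M.ν x))) ((L.w x).getD i (true, 0)).1 a b ∨
    (L.dl x i = true ∧ okP (M.pos (M.E x)) ((L.w x).getD i (true, 0)).1 a b)

/-- **types at a token** and on its other side -/
def okt (t : L.Tok) (a b : Bool) : Prop :=
  match t.1.1 with
  | .cr => L.okc t.1.2.1 t.1.2.2 a b
  | .cl => L.okc t.1.2.1 t.1.2.2 b a
  | .tn => b = !a
  | .id => a = b

lemma okt_symm (t : L.Tok) (a b : Bool) (h : L.okt t a b) : L.okt (L.lam t) b a := by
  obtain ⟨⟨k, x, i⟩, hv⟩ := t
  cases k
  · exact h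
  · exact h
  · have h' : b = !a := h
    show a = !b
    rw [h']; simp
  · exact Eq.symm h

/-- **the conditions on a layout** -/
structure OK : Prop where
  thB : ∀ x, L.th x ≠ [] → (M.lab x).isB = true
  th2 : ∀ x, M.lab x = .B2 → ∀ q ∈ L.th x, q.1 = true
  th3 : ∀ x, M.lab x = .B3 → ∀ q ∈ L.th x, q.1 = false
  /-- at every corner only one kind of thin ribbons -/
  thx : ∀ x, M.lab x = .B3 → L.th x = [] ∨ L.th (M.ν x) = []
  dl1 : ∀ x i, i < (L.w x).length → L.dl x i = true → M.ek (M.ν x) ≠ .R →
    (L.w x).length = 1 ∧ ∀ j, j < (L.w (opp M x)).length → L.dl (opp M x) j = false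

/-- the types over a thin ribbon are monotone -/
def Mono (Pos : L.Tok → Bool → Prop) : Prop :=
  ∀ t u : L.Tok, t.1.1 = .tn → u.1.1 = .tn → t.1.2.1 = u.1.2.1 → t.1.2.2 < u.1.2.2 →
    ∀ a b, Pos t a → Pos u b → a = true → b = true

open Classical in
/-- the unit of a crossing, for given types; `fr x` = index of the first real unit -/
noncomputable def uix (len fr : X → ℕ) (ty : L.Tok → Bool) (x : X) (i : ℕ) : ℕ :=
  if M.ek (M.ν x) = .R then fr x
  else if h : i < (L.w x).length then
    (if L.dl x i = true ∧ ¬ okP (posOp (M.pos (M.ν x))) ((L.w x).getD i (true, 0)).1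
        (ty ⟨(.cr, x, i), h⟩) (ty ⟨(.cl, x, i), h⟩) then len x else 0)
  else 0

variable {L}

lemma ek_opp (x : X) : M.ek (M.ν (opp M x)) = M.ek (M.ν x) := by
  unfold opp
  rw [M.ν_μ, ← M.ekτ (M.E x)]
  rfl

lemma pls (H : L.OK) {len fr : X → ℕ} (hlen : ∀ x, len (opp M x) = len x)
    (hfr : ∀ x, M.ek (M.ν x) = .R → fr x ≤ len x ∧ fr x + fr (opp M x) ≤ len x)
    (ty : L.Tok → Bool) : Pls L len (L.uix len fr ty) where
  le x i hi := by
    unfold uix
    split_ifs with h1 h2
    · exact (hfr x h1).1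
    · exact le_rfl
    · exact Nat.zero_le _
  mono x i j hij hj := by
    unfold uix
    by_cases h1 : M.ek (M.ν x) = .R
    · rw [if_pos h1, if_pos h1]
    · rw [if_neg h1, if_neg h1, dif_pos (by omega : i < (L.w x).length), dif_pos hj]
      by_cases h2 : L.dl x i = true
      · have h3 := (H.dl1 x i (by omega) h2 h1).1
        have h4 : i = j := by omega
        subst h4
        exact le_rfl
      · rw [if_neg (fun h => h2 h.1)]
        exact Nat.zero_le _
  cross x i j hi hj := by
    unfold uix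
    by_cases h1 : M.ek (M.ν x) = .R
    · rw [if_pos h1, if_pos (by rw [ek_opp]; exact h1)]
      exact (hfr x h1).2
    · have h1' : ¬ M.ek (M.ν (opp M x)) = .R := by rw [ek_opp]; exact h1
      rw [if_neg h1, if_neg h1', dif_pos hi, dif_pos hj]
      by_cases h2 : L.dl x i = true
      · have h3 := (H.dl1 x i hi h2 h1).2 j hj
        rw [if_neg (c := L.dl (opp M x) j = true ∧ _) (fun h => by rw [h3] at h; simp at h)]
        split_ifs <;> omega
      · rw [if_neg (fun h => h2 h.1), hlen]
        split_ifs <;> omega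

/-- a crossing over a non-real edge is over a good unit -/
lemma uix_ok {len fr : X → ℕ} {ty : L.Tok → Bool} {x : X} {i : ℕ} (hi : i < (L.w x).length)
    (h1 : ¬ M.ek (M.ν x) = .R)
    (h : L.okc x i (ty ⟨(.cr, x, i), hi⟩) (ty ⟨(.cl, x, i), hi⟩)) :
    (L.uix len fr ty x i = 0 ∧ okP (posOp (M.pos (M.ν x))) ((L.w x).getD i (true, 0)).1
      (ty ⟨(.cr, x, i), hi⟩) (ty ⟨(.cl, x, i), hi⟩)) ∨
    (L.uix len fr ty x i = len x ∧ okP (M.pos (M.E x)) ((L.w x).getD i (true, 0)).1
      (ty ⟨(.cr, x, i), hi⟩) (ty ⟨(.cl, x, i), hi⟩)) := by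
  unfold okc at h
  rw [if_neg h1] at h
  unfold uix
  rw [if_neg h1, dif_pos hi]
  by_cases h2 : okP (posOp (M.pos (M.ν x))) ((L.w x).getD i (true, 0)).1
      (ty ⟨(.cr, x, i), hi⟩) (ty ⟨(.cl, x, i), hi⟩)
  · left
    rw [if_neg (fun h' => h'.2 h2)]
    exact ⟨rfl, h2⟩
  · right
    have h3 := h.resolve_left h2
    rw [if_pos ⟨h3.1, h2⟩]
    exact ⟨rfl, h3.2⟩

end Layt

end Pool.Agent.MP42.EO
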