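import Pool.Agent.MP42.TQ.LayT
import Pool.Agent.MP42.U.Node

/-!
# Placements of the tokens on the ribbons (owner helper18)

`Plc`: every token (idle or not) is placed on exactly one ribbon `y`; `tk y` = the tokens on `y` in
the order `F`, `pt y` = the last token placed at or before `y`.
-/

set_option autoImplicit false
set_option linter.unusedSectionVars false

namespace Pool.Agent.MP42.EO

open Pool.Agent.MP42.NE

open Lay

variable {T D : Type*}

/-- **Placements** -/
structure Plc (E : Equiv.Perm D) (τ : D → D) (G : D → Prop) (F : Equiv.Perm T) (lam : T → T)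
    (w : T → ℤ) (tk : D → List T) (pt : D → T) : Prop where
  ττ : ∀ y, τ (τ y) = y
  GE : ∀ y, G (E y) ↔ G y
  Gτ : ∀ y, G (τ y) ↔ G y
  tkG : ∀ y, ¬ G y → tk y = []
  ch : ∀ y, G y → List.IsChain (fun a b => F a = b) (pt (E.symm y) :: tk y)
  la : ∀ y, G y → (pt (E.symm y) :: tk y).getLast (List.cons_ne_nil _ _) = pt y
  nd : ∀ y, (tk y).Nodup
  uq : ∀ t y z, t ∈ tk y → t ∈ tk z → y = z
  ex : ∀ t, ∃ y, t ∈ tk y
  hp : ∀ y, G y → ∃ z, E.SameCycle y z ∧ tk z ≠ []
  wr : ∀ y, (tk (τ y)).filter (fun t => w t ≠ 0) =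
    (((tk y).filter (fun t => w t ≠ 0)).map lam).reverse

/-- the sign of a token -/
def sn (w : T → ℤ) (t : T) : Bool := decide (w t = 1)

/-- the tokens which are not idle -/
def nz (w : T → ℤ) (l : List T) : List T := l.filter (fun t => w t ≠ 0)

lemma mem_nz {w : T → ℤ} {l : List T} {t : T} : t ∈ nz w l ↔ t ∈ l ∧ w t ≠ 0 := by
  unfold nz; simp

lemma nz_append {w : T → ℤ} (l l' : List T) : nz w (l ++ l') = nz w l ++ nz w l' := by
  unfold nz; exact List.filter_append ..

lemma nz_cons_ne {w : T → ℤ} {l : List T} {t : T} (h : w t ≠ 0) : nz w (t :: l) = t :: nz w l := by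
  unfold nz; rw [List.filter_cons_of_pos (by simpa using h)]

lemma nz_cons_eq {w : T → ℤ} {l : List T} {t : T} (h : w t = 0) : nz w (t :: l) = nz w l := by
  unfold nz; rw [List.filter_cons_of_neg (by simpa using h)]

/-- a word with values -/
def wvt {A : Type*} (w : T → ℤ) (V : T → A) (l : List T) : List (Bool × A) :=
  (nz w l).map fun t => (sn w t, V t)

section

variable {F : Equiv.Perm T} {lam : T → T} {w : T → ℤ} {A : Type*}

/-- the value of a token: top of the stack before a pop, after a push -/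
def tv' (F : Equiv.Perm T) (w : T → ℤ) (κ : T → ℕ → A) (t : T) : A :=
  if w t = 1 then κ (F.symm t) 0 else κ t 0

/-- the stacks after the tokens -/
def StA (F : Equiv.Perm T) (w : T → ℤ) (κ : T → ℕ → A) : Prop :=
  ∀ (p : T) (j k : ℕ), (k : ℤ) = w (F p) + j → κ (F p) j = κ p k

/-- one token -/
lemma StA.step (w1 : ∀ t, w t = -1 ∨ w t = 0 ∨ w t = 1) {κ : T → ℕ → A} (h : StA F w κ) (p : T) :
    SR (wvt w (tv' F w κ) [F p]) (κ p) (κ (F p)) := by
  have h0 := h p
  rcases w1 (F p) with h1 | h1 | h1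
  · have e : wvt w (tv' F w κ) [F p] = [(false, κ (F p) 0)] := by
      unfold wvt
      rw [nz_cons_ne (by omega)]
      simp [nz, sn, tv', h1]
    rw [e, sr_push, sr_nil]
    funext j
    rcases j with _ | j
    · rfl
    · rw [cons_succ]
      exact (h0 (j + 1) j (by push_cast; omega)).symm
  · have e : wvt w (tv' F w κ) [F p] = [] := by
      unfold wvt
      rw [nz_cons_eq h1]
      rfl
    rw [e, sr_nil]
    funext j
    exact (h0 j j (by omega)).symm
  · have e : wvt w (tv' F w κ) [F p] = [(true, κ p 0)] := by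
      unfold wvt
      rw [nz_cons_ne (by omega)]
      simp [nz, sn, tv', h1]
    rw [e, sr_pop, sr_nil]
    refine ⟨rfl, ?_⟩
    funext j
    exact (h0 j (j + 1) (by push_cast; omega)).symm

lemma wv_append (V : T → A) (l l' : List T) : wvt w V (l ++ l') = wvt w V l ++ wvt w V l' := by
  unfold wvt; rw [nz_append, List.map_append]

/-- consecutive tokens -/
lemma StA.run (w1 : ∀ t, w t = -1 ∨ w t = 0 ∨ w t = 1) {κ : T → ℕ → A} (h : StA F w κ) :
    ∀ (l : List T) (p : T), List.IsChain (fun a b => F a = b) (p :: l) →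
      SR (wvt w (tv' F w κ) l) (κ p) (κ ((p :: l).getLast (List.cons_ne_nil _ _))) := by
  intro l
  induction l with
  | nil => intro p _; rfl
  | cons q l ih =>
    intro p hp
    rw [List.isChain_cons_cons] at hp
    obtain ⟨rfl, hp⟩ := hp
    have e : wvt w (tv' F w κ) (F p :: l) = wvt w (tv' F w κ) [F p] ++ wvt w (tv' F w κ) l := by
      rw [← wv_append]; rfl
    rw [e, sr_append, List.getLast_cons (List.cons_ne_nil _ _)]
    exact ⟨_, h.step w1 p, ih _ hp⟩

end

namespace Plc

variable {E : Equiv.Perm D} {τ : D → D} {G : D → Prop} {F : Equiv.Perm T} {lam : T → T}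
  {w : T → ℤ} {tk : D → List T} {pt : D → T} (P : Plc E τ G F lam w tk pt)

include P

lemma nz_rev (y : D) : nz w (tk (τ y)) = ((nz w (tk y)).map lam).reverse := P.wr y

/-- the sum of the signs over a ribbon -/
def vv (w : T → ℤ) (tk : D → List T) (y : D) : ℤ := sm ((nz w (tk y)).map (sn w))

omit P in
lemma vv_eq (w1 : ∀ t, w t = -1 ∨ w t = 0 ∨ w t = 1) (y : D) :
    vv w tk y = ((tk y).map w).sum := by
  unfold vv
  induction tk y with
  | nil => rfl
  | cons t l ih =>
    rw [List.map_cons, List.sum_cons, ← ih]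
    rcases w1 t with h | h | h
    · rw [nz_cons_ne (by omega), List.map_cons, sm_cons, h]
      simp [sn, h]
    · rw [nz_cons_eq h, h, zero_add]
    · rw [nz_cons_ne (by omega), List.map_cons, sm_cons, h]
      simp [sn, h]

lemma vv_τ (wl : ∀ t, w (lam t) = w t) (y : D) : vv w tk (τ y) = vv w tk y := by
  unfold vv
  rw [P.nz_rev, List.map_reverse, sm_reverse, List.map_map]
  congr 1
  refine List.map_congr_left (fun t _ => ?_)
  simp [sn, wl]

lemma vv_G {y : D} (h : ¬ G y) : vv w tk y = 0 := by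
  unfold vv
  rw [P.tkG y h]
  rfl

lemma Gs (y : D) : G (E.symm y) ↔ G y := by
  have := P.GE (E.symm y)
  rwa [Equiv.apply_symm_apply, iff_comm] at this

/-- **the stacks on the ribbons**: opposite signs cancel -/
theorem vr (w1 : ∀ t, w t = -1 ∨ w t = 0 ∨ w t = 1) {A : Type*} {κ : T → ℕ → A}
    (hκ : StA F w κ) (hlw : ∀ t, w (lam t) = w t) {R : Bool → A → A → Prop}
    (hf : ∀ s s' a b b', R s a b → R s' a b' → b = b')
    (hg : ∀ s s' a a' b, R s a b → R s' a' b → a = a') {y : D} (hy : G y)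
    (hR : ∀ t ∈ tk y, w t ≠ 0 → R (sn w t) (tv' F w κ t) (tv' F w κ (lam t))) :
    VR R (vv w tk y) (κ (pt (E.symm y))) (κ (pt y)) (κ (pt (E.symm (τ y)))) (κ (pt (τ y))) := by
  have hy' : G (τ y) := (P.Gτ y).2 hy
  set l : List (Bool × A × A) := (nz w (tk y)).map
    (fun t => (sn w t, tv' F w κ t, tv' F w κ (lam t))) with hl
  have h1 := hκ.run w1 (tk y) _ (P.ch y hy)
  rw [P.la y hy] at h1
  have h2 := hκ.run w1 (tk (τ y)) _ (P.ch _ hy')
  rw [P.la _ hy'] at h2
  have e1 : wvt w (tv' F w κ) (tk y) = l.map fun x => (x.1, x.2.1) := by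
    rw [hl, List.map_map]; rfl
  have e2 : wvt w (tv' F w κ) (tk (τ y)) = (l.map fun x => (x.1, x.2.2)).reverse := by
    unfold wvt
    rw [P.nz_rev, hl, List.map_reverse, List.map_map, List.map_map]
    congr 1
    refine List.map_congr_left (fun t _ => ?_)
    simp [sn, hlw]
  rw [e1] at h1
  rw [e2] at h2
  have h3 := contract hf hg l (by
    intro x hx
    rw [hl] at hx
    obtain ⟨t, ht, rfl⟩ := List.mem_map.1 hx
    exact hR t (mem_nz.1 ht).1 (mem_nz.1 ht).2) h1 h2
  have e3 : sm (l.map Prod.fst) = vv w tk y := by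
    unfold vv
    rw [hl, List.map_map]; rfl
  rw [e3] at h3
  exact h3

end Plc

end Pool.Agent.MP42.EO
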