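import Pool.Agent.MP42.TQ.LayP

/-!
# From the stacks on the ribbons to the stacks after the tokens (owner helper18)
-/

set_option autoImplicit false
set_option linter.unusedSectionVars false

namespace Pool.Agent.MP42.EO

open Pool.Agent.MP42.NE

open Lay

namespace Lay

variable {A : Type*}

lemma sr_det {l : List (Bool × A)} : ∀ {S S' S'' : ℕ → A}, SR l S S' → SR l S S'' → S' = S'' := by
  induction l with
  | nil => intro S S' S'' h h'; exact h.symm.trans h'
  | cons p l ih =>
    obtain ⟨b, a⟩ := p
    intro S S' S'' h h'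
    cases b
    · exact ih h h'
    · exact ih h.2 h'.2

/-- deep strands are not changed -/
lemma sr_deep {l : List (Bool × A)} : ∀ {S S' : ℕ → A}, SR l S S' → ∀ j k : ℕ, l.length ≤ k →
    (j : ℤ) + sm (l.map Prod.fst) = k → S' j = S k := by
  induction l with
  | nil =>
    intro S S' h j k _ hk
    have h' : S = S' := h
    simp only [List.map_nil, sm_nil, add_zero, Nat.cast_inj] at hk
    rw [h', hk]
  | cons p l ih =>
    obtain ⟨b, a⟩ := p
    intro S S' h j k hl hk
    simp only [List.length_cons] at hl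
    cases b
    · have h' : SR l (cons a S) S' := h
      rw [List.map_cons, sm_cons] at hk
      simp only [Bool.false_eq_true, if_false] at hk
      have h1 := ih h' j (k + 1) (by omega) (by push_cast; omega)
      rw [h1, cons_succ]
    · have h' : a = S 0 ∧ SR l (tl S) S' := h
      rw [List.map_cons, sm_cons] at hk
      simp only [if_true] at hk
      obtain ⟨k, rfl⟩ : ∃ k', k = k' + 1 := ⟨k - 1, by omega⟩
      have h1 := ih h'.2 j k (by omega) (by push_cast at hk; omega)
      rw [h1, tl_apply]

end Lay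

variable {T D : Type*}

namespace Plc

variable {E : Equiv.Perm D} {τ : D → D} {G : D → Prop} {F : Equiv.Perm T} {lam : T → T}
  {w : T → ℤ} {tk : D → List T} {pt : D → T} (P : Plc E τ G F lam w tk pt)

include P

lemma G_of {t : T} {y : D} (h : t ∈ tk y) : G y := by
  by_contra hc
  rw [P.tkG y hc] at h
  simp at h

/-- induction from a ribbon with tokens -/
lemma pt_ind {Q : D → Prop} (h1 : ∀ y, G y → tk y ≠ [] → Q y)
    (h2 : ∀ y, G y → tk y = [] → Q (E.symm y) → Q y) {y : D} [Finite D] (hy : G y) : Q y := by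
  obtain ⟨z, hz, hz'⟩ := P.hp y hy
  obtain ⟨n, rfl⟩ := hz.symm.exists_nat_pow_eq
  have hG : ∀ m : ℕ, G ((E ^ m) z) ↔ G z := by
    intro m
    induction m with
    | zero => exact Iff.rfl
    | succ m ih => rw [pow_succ', Equiv.Perm.mul_apply, P.GE, ih]
  have hz0 : G z := (hG n).1 hy
  clear hy hz
  induction n with
  | zero => exact h1 z hz0 hz'
  | succ n ih =>
    have e : (E ^ (n + 1)) z = E ((E ^ n) z) := by rw [pow_succ']; rfl
    by_cases h3 : tk ((E ^ (n + 1)) z) = []
    · refine h2 _ ((hG _).2 hz0) h3 ?_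
      rw [e, Equiv.symm_apply_apply]
      exact ih
    · exact h1 _ ((hG _).2 hz0) h3

lemma pt_mem {y : D} (hy : G y) (h : tk y ≠ []) : ∃ l, tk y = l ++ [pt y] := by
  have h1 := P.la y hy
  rw [List.getLast_cons h] at h1
  exact ⟨(tk y).dropLast, by rw [← h1, List.dropLast_append_getLast]⟩

lemma pt_nil {y : D} (hy : G y) (h : tk y = []) : pt y = pt (E.symm y) := by
  have h1 := P.la y hy
  rw [← h1]
  simp [h]

/-- the token `pt y` is on the same ring -/
lemma pt_home [Finite D] {y : D} (hy : G y) : ∃ z, pt y ∈ tk z ∧ E.SameCycle y z := by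
  refine P.pt_ind (Q := fun y => ∃ z, pt y ∈ tk z ∧ E.SameCycle y z) ?_ ?_ hy
  · intro y hy h
    obtain ⟨l, hl⟩ := P.pt_mem hy h
    exact ⟨y, by rw [hl]; simp, Equiv.Perm.SameCycle.refl _ _⟩
  · rintro y hy h ⟨z, hz, hz'⟩
    refine ⟨z, by rw [P.pt_nil hy h]; exact hz, ?_⟩
    have h1 : E.SameCycle (E.symm y) y := by
      have := Equiv.Perm.SameCycle.refl E (E.symm y)
      have h2 := Equiv.Perm.sameCycle_apply_right.2 this
      rwa [Equiv.apply_symm_apply] at h2
    exact h1.symm.trans hz'

/-- the token before a token -/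
lemma prev {y : D} {l₁ l₂ : List T} {t : T} (h : tk y = l₁ ++ t :: l₂) :
    (l₁ = [] ∧ F (pt (E.symm y)) = t) ∨ ∃ l q, l₁ = l ++ [q] ∧ F q = t := by
  have hy : G y := P.G_of (t := t) (by rw [h]; simp)
  have h1 := P.ch y hy
  rw [h] at h1
  rcases List.eq_nil_or_concat l₁ with h2 | ⟨l, q, h2⟩
  · left
    subst h2
    rw [List.nil_append, List.isChain_cons_cons] at h1
    exact ⟨rfl, h1.1⟩
  · right
    refine ⟨l, q, by simpa using h2, ?_⟩
    rw [h2, List.concat_eq_append, List.append_assoc, ← List.cons_append] at h1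
    have h3 := (List.isChain_append.1 h1).2.1
    rw [List.singleton_append, List.isChain_cons_cons] at h3
    exact h3.1

/-- neighbours are on one ring -/
lemma home_F [Finite D] {t : T} {y z : D} (hy : t ∈ tk y) (hz : F t ∈ tk z) :
    E.SameCycle y z := by
  obtain ⟨l₁, l₂, h⟩ := List.append_of_mem hz
  rcases P.prev h with ⟨-, h1⟩ | ⟨l, q, h1, h2⟩
  · have h3 := F.injective h1
    have hGz := P.G_of hz
    obtain ⟨x, h4, h5⟩ := P.pt_home (y := E.symm z) ((P.Gs z).2 hGz)
    rw [h3] at h4
    rw [P.uq t y x hy h4]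
    have h6 : E.SameCycle (E.symm z) z := by
      have := Equiv.Perm.SameCycle.refl E (E.symm z)
      have h2 := Equiv.Perm.sameCycle_apply_right.2 this
      rwa [Equiv.apply_symm_apply] at h2
    exact h5.symm.trans h6
  · have h3 := F.injective h2
    subst h3
    have h4 : q ∈ tk z := by rw [h, h1]; simp
    rw [P.uq q y z hy h4]

/-- the tokens of a ribbon are on the circle of `pt y` -/
lemma same_pt {y : D} {t : T} (h : t ∈ tk y) : F.SameCycle (pt (E.symm y)) t := by
  have hy := P.G_of h
  have key : ∀ (l : List T) (p : T), List.IsChain (fun a b => F a = b) (p :: l) → ∀ t ∈ l,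
      F.SameCycle p t := by
    intro l
    induction l with
    | nil => intro p _ t ht; simp at ht
    | cons q l ih =>
      intro p hp t ht
      rw [List.isChain_cons_cons] at hp
      obtain ⟨rfl, hp⟩ := hp
      have h1 : F.SameCycle p (F p) :=
        Equiv.Perm.sameCycle_apply_right.2 (Equiv.Perm.SameCycle.refl _ _)
      rcases List.mem_cons.1 ht with rfl | ht
      · exact h1
      · exact h1.trans (ih _ hp t ht)
  exact key _ _ (P.ch y hy) t h

lemma same_step {y : D} (hy : G y) : F.SameCycle (pt (E.symm y)) (pt y) := by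
  by_cases h : tk y = []
  · rw [P.pt_nil hy h]
  · obtain ⟨l, hl⟩ := P.pt_mem hy h
    exact P.same_pt (by rw [hl]; simp)

lemma same_pt' {y : D} {t : T} (h : t ∈ tk y) : F.SameCycle (pt y) t :=
  (P.same_step (P.G_of h)).symm.trans (P.same_pt h)

lemma same_of [Finite D] {y z : D} (hy : G y) (h : E.SameCycle y z) :
    F.SameCycle (pt y) (pt z) := by
  obtain ⟨n, rfl⟩ := h.exists_nat_pow_eq
  clear h
  have hG : ∀ m : ℕ, G ((E ^ m) y) := by
    intro m
    induction m with
    | zero => exact hy
    | succ m ih => rw [pow_succ', Equiv.Perm.mul_apply, P.GE]; exact ih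
  induction n with
  | zero => exact Equiv.Perm.SameCycle.refl _ _
  | succ n ih =>
    have e : (E ^ (n + 1)) y = E ((E ^ n) y) := by rw [pow_succ']; rfl
    have h1 := P.same_step (hG (n + 1))
    rw [e, Equiv.symm_apply_apply] at h1
    rw [e]
    exact ih.trans h1

lemma of_same [Finite D] [Finite T] {t u : T} {y z : D} (hy : t ∈ tk y) (hz : u ∈ tk z)
    (h : F.SameCycle t u) : E.SameCycle y z := by
  obtain ⟨n, rfl⟩ := h.exists_nat_pow_eq
  clear h
  induction n generalizing z with
  | zero => rw [P.uq _ _ _ hy hz]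
  | succ n ih =>
    obtain ⟨x, hx⟩ := P.ex ((F ^ n) t)
    have h1 := ih hx
    rw [pow_succ', Equiv.Perm.mul_apply] at hz
    exact h1.trans (P.home_F hx hz)

variable {A : Type*}

/-- **from the stacks on the ribbons to the stacks after the tokens** -/
theorem lift [Finite D] [Finite T] [Nonempty A] (w1 : ∀ t, w t = -1 ∨ w t = 0 ∨ w t = 1)
    (hlw : ∀ t, w (lam t) = w t) {S : D → ℕ → A}
    (h : ∀ y, G y → VR (fun _ a b => a = b) (vv w tk y) (S (E.symm y)) (S y)
      (S (E.symm (τ y))) (S (τ y))) :
    ∃ κ : T → ℕ → A, StA F w κ ∧ (∀ t, w t ≠ 0 → tv' F w κ (lam t) = tv' F w κ t) ∧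
      (∀ y, G y → κ (pt y) = S y) ∧
      ∀ t y, t ∈ tk y → ∃ δ : ℤ, |δ| ≤ (tk y).length ∧
        ∀ j k : ℕ, (tk y).length ≤ k → (j : ℤ) + δ = k → S y j = κ t k := by
  classical
  -- the values on one ribbon
  have hc : ∀ y, ∃ cs : List A, G y → cs.length = (nz w (tk y)).length ∧
      SR (((nz w (tk y)).map (sn w)).zip cs) (S (E.symm y)) (S y) ∧
      SR (((nz w (tk y)).map (sn w)).zip cs).reverse (S (E.symm (τ y))) (S (τ y)) := by
    intro y
    by_cases hy : G y
    · obtain ⟨cs, h1, h2, h3⟩ := expand _ (h y hy)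
      exact ⟨cs, fun _ => ⟨by rw [h1, List.length_map], h2, h3⟩⟩
    · exact ⟨[], fun h => absurd h hy⟩
  choose cs hcs using hc
  have hrev : ∀ y, G y → ((nz w (tk y)).map (sn w)).zip (cs y) =
      (((nz w (tk (τ y))).map (sn w)).zip (cs (τ y))).reverse := by
    intro y hy
    have hy' : G (τ y) := (P.Gτ y).2 hy
    obtain ⟨a1, a2, a3⟩ := hcs y hy
    obtain ⟨b1, b2, b3⟩ := hcs _ hy'
    rw [P.ττ] at b3
    refine unique _ _ ?_ a2 a3 b3 (by rw [List.reverse_reverse]; exact b2)
    rw [List.map_reverse, List.map_fst_zip (by rw [List.length_map, a1]),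
      List.map_fst_zip (by rw [List.length_map, b1]), P.nz_rev, List.map_reverse,
      List.reverse_reverse, List.map_map]
    refine List.map_congr_left (fun t _ => ?_)
    simp [sn, hlw]
  -- the values
  have hV : ∀ y, ∃ f : T → A, G y → (nz w (tk y)).map f = cs y := by
    intro y
    by_cases hy : G y
    · obtain ⟨f, hf⟩ := U.exists_fun (A := A) (l := nz w (tk y)) (bs := cs y)
        ((P.nd y).filter _) (hcs y hy).1.symm inferInstance
      exact ⟨f, fun _ => hf⟩
    · exact ⟨fun _ => Classical.arbitrary A, fun h => absurd h hy⟩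
  choose f hf using hV
  choose hm hhm using P.ex
  set V : T → A := fun t => f (hm t) t with hVdef
  have hVy : ∀ y, ∀ t ∈ tk y, V t = f y t := by
    intro y t ht
    rw [hVdef]
    simp only
    rw [P.uq t _ _ (hhm t) ht]
  have hwv : ∀ y, G y → wvt w V (tk y) = ((nz w (tk y)).map (sn w)).zip (cs y) := by
    intro y hy
    rw [← hf y hy]
    unfold wvt
    rw [List.zip_map', List.map_congr_left (fun t ht => ?_)]
    rw [hVy y t (mem_nz.1 ht).1]
  have hSR : ∀ y, G y → SR (wvt w V (tk y)) (S (E.symm y)) (S y) := by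
    intro y hy
    rw [hwv y hy]
    exact (hcs y hy).2.1
  have hVlam : ∀ t, w t ≠ 0 → V (lam t) = V t := by
    intro t ht
    set y := hm t with hyd
    have hy := P.G_of (hhm t)
    have hy' : G (τ y) := (P.Gτ y).2 hy
    have h1 := hrev y hy
    rw [← hwv y hy, ← hwv _ hy'] at h1
    unfold wvt at h1
    rw [P.nz_rev, List.map_reverse, List.reverse_reverse, List.map_map] at h1
    have h2 := List.map_inj_left.1 h1 t (mem_nz.2 ⟨hhm t, ht⟩)
    exact (congrArg Prod.snd h2).symm
  -- the stacks
  have hex : ∀ t, ∃ S₁ : ℕ → A, ∀ y l₁ l₂, tk y = l₁ ++ t :: l₂ →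
      SR (wvt w V (l₁ ++ [t])) (S (E.symm y)) S₁ ∧ SR (wvt w V l₂) S₁ (S y) := by
    intro t
    obtain ⟨l₁, l₂, h1⟩ := List.append_of_mem (hhm t)
    have h2 := hSR (hm t) (P.G_of (hhm t))
    have h3 : tk (hm t) = (l₁ ++ [t]) ++ l₂ := by rw [h1]; simp
    rw [h3, wv_append, sr_append] at h2
    obtain ⟨S₁, h4, h5⟩ := h2
    refine ⟨S₁, fun y l₁' l₂' h6 => ?_⟩
    have h7 : y = hm t := P.uq t _ _ (by rw [h6]; simp) (hhm t)
    subst h7
    have h8 : l₁' = l₁ ∧ l₂' = l₂ := by
      have hn := P.nd (hm t)
      rw [h1] at h6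
      have key : ∀ (a b a' b' : List T) (t : T), (a ++ t :: b).Nodup →
          a ++ t :: b = a' ++ t :: b' → a' = a ∧ b' = b := by
        intro a
        induction a with
        | nil =>
          intro b a' b' t hn he
          rcases a' with _ | ⟨c, a'⟩
          · simp at he; exact ⟨rfl, he.symm⟩
          · simp only [List.nil_append, List.cons_append, List.cons.injEq] at he
            obtain ⟨rfl, he⟩ := he
            rw [List.nil_append, List.nodup_cons] at hn
            exact absurd (by rw [he]; simp) hn.1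
        | cons c a ih =>
          intro b a' b' t hn he
          rcases a' with _ | ⟨c', a'⟩
          · simp only [List.nil_append, List.cons_append, List.cons.injEq] at he
            obtain ⟨rfl, he⟩ := he
            rw [List.cons_append, List.nodup_cons] at hn
            exact absurd (by simp) hn.1
          · simp only [List.cons_append, List.cons.injEq] at he
            obtain ⟨rfl, he⟩ := he
            rw [List.cons_append, List.nodup_cons] at hn
            obtain ⟨e1, e2⟩ := ih b a' b' t hn.2 he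
            exact ⟨by rw [e1], e2⟩
      rw [h1] at hn
      exact key _ _ _ _ _ hn h6
    rw [h8.1, h8.2]
    exact ⟨h4, h5⟩
  choose κ hκ using hex
  -- the stack at `pt y`
  have hpt : ∀ y, G y → κ (pt y) = S y := by
    intro y hy
    refine P.pt_ind (Q := fun y => κ (pt y) = S y) ?_ ?_ hy
    · intro y hy hn
      obtain ⟨l, hl⟩ := P.pt_mem hy hn
      exact (hκ (pt y) y l [] hl).2
    · intro y hy hn ih
      rw [P.pt_nil hy hn, ih]
      have h1 := hSR y hy
      rw [hn] at h1
      exact h1
  -- the steps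
  have hstep : ∀ p, SR (wvt w V [F p]) (κ p) (κ (F p)) := by
    intro p
    obtain ⟨z, hz⟩ := P.ex (F p)
    obtain ⟨l₁, l₂, h1⟩ := List.append_of_mem hz
    have hGz := P.G_of hz
    obtain ⟨h2, h3⟩ := hκ (F p) z l₁ l₂ h1
    rw [wv_append, sr_append] at h2
    obtain ⟨S₀, h4, h5⟩ := h2
    have h6 : κ p = S₀ := by
      rcases P.prev h1 with ⟨h7, h8⟩ | ⟨l, q, h7, h8⟩
      · have h9 := F.injective h8
        subst h7
        rw [← h9, hpt _ ((P.Gs z).2 hGz)]
        exact h4
      · have h9 := F.injective h8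
        subst h9
        have h10 := (hκ q z l (F q :: l₂) (by rw [h1, h7]; simp)).1
        rw [h7] at h4
        exact sr_det h10 h4
    rw [h6]
    exact h5
  have hst : StA F w κ := by
    intro p j k hk
    have h1 := hstep p
    rcases w1 (F p) with h2 | h2 | h2
    · have e : wvt w V [F p] = [(false, V (F p))] := by
        unfold wvt
        rw [nz_cons_ne (by omega)]
        simp [nz, sn, h2]
      rw [e, sr_push, sr_nil] at h1
      rw [← h1]
      obtain ⟨j', rfl⟩ : ∃ j', j = j' + 1 := ⟨j - 1, by omega⟩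
      rw [cons_succ]
      congr 1
      omega
    · have e : wvt w V [F p] = [] := by
        unfold wvt
        rw [nz_cons_eq h2]
        rfl
      rw [e, sr_nil] at h1
      rw [← h1]
      congr 1
      omega
    · have e : wvt w V [F p] = [(true, V (F p))] := by
        unfold wvt
        rw [nz_cons_ne (by omega)]
        simp [nz, sn, h2]
      rw [e, sr_pop, sr_nil] at h1
      rw [← h1.2, tl_apply]
      congr 1
      omega
  have htv : ∀ t, w t ≠ 0 → tv' F w κ t = V t := by
    intro t ht
    have h1 := hstep (F.symm t)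
    rw [Equiv.apply_symm_apply] at h1
    unfold tv'
    rcases w1 t with h2 | h2 | h2
    · have e : wvt w V [t] = [(false, V t)] := by
        unfold wvt
        rw [nz_cons_ne (by omega)]
        simp [nz, sn, h2]
      rw [e, sr_push, sr_nil] at h1
      rw [if_neg (by omega), ← h1]
      rfl
    · exact absurd h2 ht
    · have e : wvt w V [t] = [(true, V t)] := by
        unfold wvt
        rw [nz_cons_ne (by omega)]
        simp [nz, sn, h2]
      rw [e, sr_pop, sr_nil] at h1
      rw [if_pos h2, ← h1.1]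
  refine ⟨κ, hst, ?_, hpt, ?_⟩
  · intro t ht
    rw [htv t ht, htv _ (by rw [hlw]; exact ht), hVlam t ht]
  · intro t y hty
    obtain ⟨l₁, l₂, h1⟩ := List.append_of_mem hty
    have h2 := (hκ t y l₁ l₂ h1).2
    have h3 : (wvt w V l₂).length ≤ l₂.length := by
      unfold wvt nz
      rw [List.length_map]
      exact List.length_filter_le _ _
    have h4 : l₂.length ≤ (tk y).length := by
      rw [h1, List.length_append, List.length_cons]; omega
    refine ⟨sm ((wvt w V l₂).map Prod.fst), ?_, fun j k hk hj => sr_deep h2 j k (by omega) hj⟩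
    have h5 := sm_le ((wvt w V l₂).map Prod.fst)
    rw [List.length_map] at h5
    refine h5.trans ?_
    exact_mod_cast h3.trans h4

end Plc

end Pool.Agent.MP42.EO
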