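import Pool.Agent.MP42.TQ.LayT

/-!
# Types of all strands, the ends which determine the types are given (owner helper28)

`TyE` = `TyD` with an arbitrary predicate `dt` (the ends which determine the types of their strands)
instead of the class rule `Det`: the ends of one strand with two ends are `dt` and not `dt`, and the
unmatched ends of the root ring are not `dt`.
`TkE` = `TkS` where the matched pairs (push, pop) of neighbouring tokens in `sw` are exchanged.
Copies of the proofs of helper18 in `Types` and `Types2`.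
-/

set_option autoImplicit false
set_option linter.unusedSectionVars false

namespace Pool.Agent.MP42.EO

open Pool.Agent.MP42.NE

open TyD (kap kap_re kap_le kap_none re_same le_same)

variable {D : Type*} {E : Equiv.Perm D} {v : D → ℤ} {x y p q p' q' : D} {i j k : ℕ}

variable {N K : ℕ} {s : ℤ}

/-- Lanes with local conditions on the types; `dt` = the ends which determine the types. -/
structure TyE (E : Equiv.Perm D) (τ : D → D) (ok : D → Bool → Bool → Bool → Prop)
    (K : ℕ) (G : D → Prop) (r : D) (s : ℤ) (v sg : D → ℤ) (dt : D → Prop)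
    (Pos : D → Bool → Prop) (a0 : D → Bool) : Prop where
  tt : ∀ x, τ (τ x) = x
  vτ : ∀ x, v (τ x) = v x
  v1 : ∀ x, v x = -1 ∨ v x = 0 ∨ v x = 1
  vG : ∀ x, ¬ G x → v x = 0
  GE : ∀ x, G (E x) ↔ G x
  rG : G r
  sg1 : ∀ x, sg x = 1 ∨ sg x = -1
  sgE : ∀ x, sg (E x) = sg x
  sgr : sg r = s
  cirs : ∀ x, G x → ∃ N, Cir E v x N (sg x) K
  conn : ∀ T : D → ℕ → Prop, TS E τ v T → (∀ x, G x → ∀ j, K + 1 ≤ j → ¬ T x j) →
    ∃ c : Prop, ∀ x, G x → ∀ j, T x j ↔ c
  dtpar : ∀ x y, Par E v x y → (dt y ↔ ¬ dt x)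
  oks : ∀ x s a b, ok x s a b → ok (τ x) s b a
  nosink : ∀ x, v x ≠ 0 → dt x ∨ dt (τ x)
  src : ∀ x, v x ≠ 0 → dt x → dt (τ x) →
    ok x (decide (v x = 1)) (a0 x) (a0 (τ x)) ∧ Pos x (a0 x)
  flow : ∀ x, v x ≠ 0 → dt x → ¬ dt (τ x) → ∀ b, Pos (τ x) b →
    ∃ a, Pos x a ∧ ok x (decide (v x = 1)) a b
  strand : ∀ x y, Par E v x y → dt x → ∀ a, Pos x a → Pos y a
  rootnd : ∀ x, E.SameCycle r x → v x ≠ 0 → (∀ y, ¬ Par E v x y) → ¬ dt x
  rootPos : ∀ x, E.SameCycle r x → v x ≠ 0 → ¬ dt x → (∀ y, ¬ Par E v x y) →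
    ∀ a, Pos x a
  pos : ∀ x, v x ≠ 0 → ∃ a, Pos x a

namespace TyE

variable [Finite D] {τ : D → D} {ok : D → Bool → Bool → Bool → Prop} {G : D → Prop} {r : D}
  {sg : D → ℤ} {dt : D → Prop} {Pos : D → Bool → Prop} {a0 : D → Bool}

lemma G_cyc (H : TyE E τ ok K G r s v sg dt Pos a0) {x y : D} (h : E.SameCycle x y) :
    G x ↔ G y := by
  obtain ⟨n, rfl⟩ := h.exists_nat_pow_eq
  clear h
  induction n with
  | zero => exact Iff.rfl
  | succ n ih => rw [pow_succ', Equiv.Perm.mul_apply, H.GE]; exact ih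

lemma sg_cyc (H : TyE E τ ok K G r s v sg dt Pos a0) {x y : D} (h : E.SameCycle x y) :
    sg y = sg x := by
  obtain ⟨n, rfl⟩ := h.exists_nat_pow_eq
  clear h
  induction n with
  | zero => rfl
  | succ n ih => rw [pow_succ', Equiv.Perm.mul_apply, H.sgE]; exact ih

lemma ne_G (H : TyE E τ ok K G r s v sg dt Pos a0) {x : D} (h : v x ≠ 0) : G x := by
  by_contra hc
  exact h (H.vG x hc)

lemma re_G (H : TyE E τ ok K G r s v sg dt Pos a0) {x q : D} {j : ℕ} (h : RE E v x j q) :
    G x := by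
  have h1 := h.vq
  exact (H.G_cyc (re_same h)).2 (H.ne_G (by omega))

lemma le_G (H : TyE E τ ok K G r s v sg dt Pos a0) {x q : D} {j : ℕ} (h : LE E v x j q) :
    G x := by
  have h1 := h.vp
  exact (H.G_cyc (le_same h)).1 (H.ne_G (by omega))

/-- a strand with two ends is not deep -/
lemma both (H : TyE E τ ok K G r s v sg dt Pos a0) {x q p : D} {j : ℕ} (h : RE E v x j q)
    (h' : LE E v x j p) : j ≤ K := by
  have hx := H.re_G h
  rcases H.sg1 x with h1 | h1
  · have h2 := le_same h'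
    obtain ⟨N, hN⟩ := H.cirs p ((H.G_cyc h2).2 hx)
    rw [← H.sg_cyc h2, h1] at hN
    exact hN.le_bd h'
  · obtain ⟨N, hN⟩ := H.cirs x hx
    rw [h1] at hN
    exact hN.re_bd h

/-! ## Dependences -/

/-- the type at `x` depends on the type at `y` -/
def dep (E : Equiv.Perm D) (τ : D → D) (v : D → ℤ) (dt : D → Prop) (x y : D) : Prop :=
  v x ≠ 0 ∧ dt x ∧ ¬ dt (τ x) ∧ Par E v (τ x) y

omit [Finite D] in
lemma dep_right {x y y' : D} (h : dep E τ v dt x y) (h' : dep E τ v dt x y') : y' = y :=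
  h.2.2.2.uniq h'.2.2.2

lemma dep_left (H : TyE E τ ok K G r s v sg dt Pos a0) {x x' y : D} (h : dep E τ v dt x y)
    (h' : dep E τ v dt x' y) : x' = x := by
  have h1 := h.2.2.2.symm.uniq h'.2.2.2.symm
  have h2 := congrArg τ h1
  rwa [H.tt, H.tt] at h2

/-- **there are no closed strands** -/
lemma acyclic (H : TyE E τ ok K G r s v sg dt Pos a0) (x : D) :
    ¬ Relation.TransGen (dep E τ v dt) x x := by
  intro hx
  set C : D → Prop := fun y => Relation.TransGen (dep E τ v dt) x y ∧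
    Relation.TransGen (dep E τ v dt) y x with hC
  have hsucc : ∀ y, C y → ∃ z, dep E τ v dt y z ∧ C z := by
    rintro y ⟨h1, h2⟩
    obtain ⟨z, h3, h4⟩ := Relation.TransGen.head'_iff.1 h2
    refine ⟨z, h3, h1.tail h3, ?_⟩
    rcases Relation.reflTransGen_iff_eq_or_transGen.1 h4 with h5 | h5
    · rw [← h5]; exact hx
    · exact h5
  have hpred : ∀ y, C y → ∃ z, dep E τ v dt z y ∧ C z := by
    rintro y ⟨h1, h2⟩
    obtain ⟨z, h3, h4⟩ := Relation.TransGen.tail'_iff.1 h1
    refine ⟨z, h4, ?_, Relation.TransGen.head h4 h2⟩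
    rcases Relation.reflTransGen_iff_eq_or_transGen.1 h3 with h5 | h5
    · rw [h5]; exact hx
    · exact h5
  set C' : D → Prop := fun z => C z ∨ C (τ z) with hC'
  have hτ : ∀ z, C' (τ z) ↔ C' z := by
    intro z
    simp only [hC', H.tt]
    exact Or.comm
  have hpar : ∀ z, C' z → ∃ w, Par E v z w ∧ C' w := by
    rintro z (h | h)
    · obtain ⟨w, h1, h2⟩ := hpred z h
      exact ⟨τ w, h1.2.2.2.symm, Or.inr (by rw [H.tt]; exact h2)⟩
    · obtain ⟨w, h1, h2⟩ := hsucc _ h
      have h3 := h1.2.2.2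
      rw [H.tt] at h3
      exact ⟨w, h3, Or.inl h2⟩
  have hpar' : ∀ p q, Mt2 E v p q → (C' p ↔ C' q) := by
    intro p q h
    constructor
    · intro hp
      obtain ⟨w, h1, h2⟩ := hpar p hp
      rw [← (Par.uniq (Or.inl h) h1)]; exact h2
    · intro hq
      obtain ⟨w, h1, h2⟩ := hpar q hq
      rw [← (Par.uniq (Or.inr h) h1)]; exact h2
  set T : D → ℕ → Prop := fun y j => ∃ z, C' z ∧ (RE E v y j z ∨ LE E v y j z) with hT
  have hTpop : ∀ z, v z = 1 → (T (E.symm z) 0 ↔ C' z) := by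
    intro z hz
    constructor
    · rintro ⟨w, hw, h | h⟩
      · rw [(re_pop' hz).1 h] at hw; exact hw
      · exact (hpar' w z (mt2_iff.2 ⟨hz, h⟩)).1 hw
    · intro h
      exact ⟨z, h, Or.inl ((re_pop' hz).2 rfl)⟩
  have hTpush : ∀ z, v z = -1 → (T z 0 ↔ C' z) := by
    intro z hz
    constructor
    · rintro ⟨w, hw, h | h⟩
      · exact (hpar' z w ⟨hz, h⟩).2 hw
      · rw [(le_push hz).1 h] at hw; exact hw
    · intro h
      exact ⟨z, h, Or.inr (LE.push z hz)⟩
  have hTS : TS E τ v T := by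
    refine ⟨H.tt, H.vτ, ?_, ?_, ?_⟩
    · intro y j k hk
      simp only [hT]
      constructor
      · rintro ⟨z, hz, h | h⟩
        · exact ⟨z, hz, Or.inl ((re_step (by omega)).2 h)⟩
        · exact ⟨z, hz, Or.inr ((le_step' (by omega)).2 h)⟩
      · rintro ⟨z, hz, h | h⟩
        · exact ⟨z, hz, Or.inl ((re_step (by omega)).1 h)⟩
        · exact ⟨z, hz, Or.inr ((le_step' (by omega)).1 h)⟩
    · intro z i j hij
      have h1 := H.v1 z
      have hz : v z = 1 := by omega
      obtain rfl : i = 0 := by omega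
      obtain rfl : j = 0 := by omega
      rw [hTpop z hz, hTpop (τ z) (by rw [H.vτ]; exact hz), hτ]
    · intro z i j hij
      have h1 := H.v1 z
      have hz : v z = -1 := by omega
      obtain rfl : i = 0 := by omega
      obtain rfl : j = 0 := by omega
      rw [hTpush z hz, hTpush (τ z) (by rw [H.vτ]; exact hz), hτ]
  have hdeep : ∀ y, G y → ∀ j, K + 1 ≤ j → ¬ T y j := by
    rintro y hy j hj ⟨z, hz, h | h⟩
    · obtain ⟨w, h1, -⟩ := hpar z hz
      rcases h1 with h1 | h1
      · have := h1.1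
        have := h.vq
        omega
      · have := H.both h (h1.le h)
        omega
    · obtain ⟨w, h1, -⟩ := hpar z hz
      rcases h1 with h1 | h1
      · have := H.both (h1.re h) h
        omega
      · have := (mt2_iff.1 h1).1
        have := h.vp
        omega
  obtain ⟨c, hc⟩ := H.conn T hTS hdeep
  have hCx : C' x := Or.inl ⟨hx, hx⟩
  obtain ⟨w, hw, -⟩ := hpar x hCx
  have hGx := H.ne_G hw.ne
  have hc' : ¬ c := fun h => hdeep x hGx (K + 1) le_rfl ((hc x hGx _).2 h)
  rcases H.v1 x with h1 | h1 | h1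
  · exact hc' ((hc x hGx 0).1 ((hTpush x h1).2 hCx))
  · exact hw.ne h1
  · have h2 : G (E.symm x) := by
      have := H.GE (E.symm x)
      rw [Equiv.apply_symm_apply] at this
      exact this.1 hGx
    exact hc' ((hc _ h2 0).1 ((hTpop x h1).2 hCx))

/-- the dependences are well-founded -/
lemma wf (H : TyE E τ ok K G r s v sg dt Pos a0) :
    WellFounded (fun y x => dep E τ v dt x y) := by
  have h1 : WellFounded (Relation.TransGen (fun y x => dep E τ v dt x y)) := by
    have : IsTrans D (Relation.TransGen (fun y x => dep E τ v dt x y)) :=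
      ⟨fun _ _ _ h1 h2 => h1.trans h2⟩
    have : Std.Irrefl (Relation.TransGen (fun y x => dep E τ v dt x y)) := by
      refine ⟨fun x hx => H.acyclic x ?_⟩
      have h2 := Relation.transGen_swap.1 hx
      exact h2
    exact Finite.wellFounded_of_trans_of_irrefl _
  have h2 : Subrelation (fun y x => dep E τ v dt x y)
      (Relation.TransGen (fun y x => dep E τ v dt x y)) := fun {_ _} h =>
    Relation.TransGen.single h
  exact h2.wf h1

/-- **types of the ends** -/
theorem exists_ty (H : TyE E τ ok K G r s v sg dt Pos a0) (δ : D → Bool)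
    (hδ : ∀ x, v x ≠ 0 → ¬ dt x → (∀ y, ¬ Par E v x y) → Pos x (δ x)) :
    ∃ ty : D → Bool,
    (∀ x, v x ≠ 0 → Pos x (ty x)) ∧
    (∀ x, v x ≠ 0 → ok x (decide (v x = 1)) (ty x) (ty (τ x))) ∧
    (∀ x y, Par E v x y → ty x = ty y) ∧
    ∀ x, v x ≠ 0 → ¬ dt x → (∀ y, ¬ Par E v x y) → ty x = δ x := by
  classical
  -- the value at the determining ends
  have hg : ∀ (x : D) (b : Bool), ∃ a, v x ≠ 0 → dt x → ¬ dt (τ x) →
      Pos (τ x) b → Pos x a ∧ ok x (decide (v x = 1)) a b := by
    intro x b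
    by_cases h : v x ≠ 0 ∧ dt x ∧ ¬ dt (τ x) ∧ Pos (τ x) b
    · obtain ⟨a, ha⟩ := H.flow x h.1 h.2.1 h.2.2.1 b h.2.2.2
      exact ⟨a, fun _ _ _ _ => ha⟩
    · exact ⟨false, fun h1 h2 h3 h4 => absurd ⟨h1, h2, h3, h4⟩ h⟩
  choose g hg using hg
  -- recursion
  obtain ⟨f, hf⟩ : ∃ f : D → Bool, ∀ x, f x = if dt (τ x) then a0 x else
      g x (if h : ∃ y, Par E v (τ x) y then f h.choose else δ (τ x)) := by
    let F : (x : D) → ((y : D) → dep E τ v dt x y → Bool) → Bool := fun x ih =>
      if h1 : dt (τ x) then a0 x else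
        if h2 : v x ≠ 0 ∧ dt x then
          g x (if h : ∃ y, Par E v (τ x) y then ih h.choose ⟨h2.1, h2.2, h1, h.choose_spec⟩
            else δ (τ x))
        else false
    let f' : D → Bool := H.wf.fix F
    have hf' : ∀ x, f' x = F x (fun y _ => f' y) := fun x => WellFounded.fix_eq _ _ _
    refine ⟨fun x => if v x ≠ 0 ∧ dt x then f' x else if dt (τ x) then a0 x else
      g x (if h : ∃ y, Par E v (τ x) y then f' h.choose else δ (τ x)), fun x => ?_⟩
    have h3 : ∀ h : ∃ y, Par E v (τ x) y, ¬ dt (τ x) →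
        (v h.choose ≠ 0 ∧ dt h.choose) := fun h h' =>
      ⟨h.choose_spec.symm.ne, (H.dtpar _ _ h.choose_spec).2 h'⟩
    by_cases h1 : v x ≠ 0 ∧ dt x
    · simp only [if_pos h1]
      rw [hf' x]
      by_cases h2 : dt (τ x)
      · rw [if_pos h2]
        exact dif_pos h2
      · rw [if_neg h2]
        simp only [F, dif_neg h2, dif_pos h1]
        by_cases h4 : ∃ y, Par E v (τ x) y
        · rw [dif_pos h4, dif_pos h4, if_pos (h3 h4 h2)]
        · rw [dif_neg h4, dif_neg h4]
    · simp only [if_neg h1]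
      by_cases h2 : dt (τ x)
      · rw [if_pos h2, if_pos h2]
      · rw [if_neg h2, if_neg h2]
        by_cases h4 : ∃ y, Par E v (τ x) y
        · rw [dif_pos h4, dif_pos h4, if_pos (h3 h4 h2)]
        · rw [dif_neg h4, dif_neg h4]
  -- the types
  set ty : D → Bool := fun x => if dt x then f x else
    if h : ∃ y, Par E v x y then f h.choose else δ x with hty
  have ty1 : ∀ x, dt x → ty x = f x := fun x h => if_pos h
  have ty2 : ∀ x, ¬ dt x → ty x = if h : ∃ y, Par E v x y then f h.choose else δ x :=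
    fun x h => if_neg h
  have ty3 : ∀ x y, ¬ dt x → Par E v x y → ty x = f y := by
    intro x y h h'
    have hex : ∃ y, Par E v x y := ⟨y, h'⟩
    rw [ty2 x h, dif_pos hex, Par.uniq h' hex.choose_spec]
  have hpos : ∀ x, v x ≠ 0 → dt x → Pos x (f x) := by
    intro x
    induction x using H.wf.induction with
    | _ x ih =>
      intro hx hd
      rw [hf]
      split_ifs with h1 h2
      · exact (H.src x hx hd h1).2
      · refine (hg x _ hx hd h1 ?_).1
        have h3 := h2.choose_spec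
        have h4 := (H.dtpar _ _ h3).2 h1
        exact H.strand _ _ h3.symm h4 _ (ih _ ⟨hx, hd, h1, h3⟩ h3.symm.ne h4)
      · exact (hg x _ hx hd h1 (hδ _ (by rw [H.vτ]; exact hx) h1
          (fun y hy => h2 ⟨y, hy⟩))).1
  have hpos' : ∀ x, v x ≠ 0 → Pos x (ty x) := by
    intro x hx
    by_cases h1 : dt x
    · rw [ty1 x h1]; exact hpos x hx h1
    · by_cases h2 : ∃ y, Par E v x y
      · obtain ⟨y, hy⟩ := h2
        have h4 := (H.dtpar _ _ hy).2 h1
        rw [ty3 x y h1 hy]
        exact H.strand _ _ hy.symm h4 _ (hpos y hy.symm.ne h4)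
      · rw [ty2 x h1, dif_neg h2]
        exact hδ x hx h1 (fun y hy => h2 ⟨y, hy⟩)
  have hok : ∀ x, v x ≠ 0 → dt x → ok x (decide (v x = 1)) (ty x) (ty (τ x)) := by
    intro x hx hd
    rw [ty1 x hd, hf]
    by_cases h1 : dt (τ x)
    · rw [if_pos h1, ty1 _ h1, hf, H.tt, if_pos hd]
      exact (H.src x hx hd h1).1
    · rw [if_neg h1, ty2 _ h1]
      refine (hg x _ hx hd h1 ?_).2
      rw [← ty2 _ h1]
      exact hpos' _ (by rw [H.vτ]; exact hx)
  refine ⟨ty, hpos', ?_, ?_, ?_⟩
  · intro x hx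
    rcases H.nosink x hx with h | h
    · exact hok x hx h
    · have h1 := hok (τ x) (by rw [H.vτ]; exact hx) h
      rw [H.vτ, H.tt] at h1
      have h2 := H.oks _ _ _ _ h1
      rwa [H.tt] at h2
  · intro x y h
    by_cases h1 : dt x
    · have h2 : ¬ dt y := fun h' => (H.dtpar _ _ h).1 h' h1
      rw [ty1 x h1, ty3 y x h2 h.symm]
    · have h2 := (H.dtpar _ _ h).2 h1
      rw [ty1 y h2, ty3 x y h1 h]
  · intro x hx h1 h2
    rw [ty2 x h1, dif_neg (by rintro ⟨y, hy⟩; exact h2 y hy)]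

/-- **stacks of types from local conditions** -/
theorem exists_kappa (H : TyE E τ ok K G r s v sg dt Pos a0) (t0 t1 : Bool) :
    ∃ κ : D → ℕ → Bool, TTS E τ v ok κ ∧ (∀ x j, K + 1 ≤ j → κ x (j + 2) = κ x j) ∧
      (∀ x j, ¬ G x → κ x j = false) ∧
      (∀ x, E.SameCycle r x → ∃ ε : ℕ, ∀ j, K + 1 ≤ j →
        κ x j = if (j + ε) % 2 = 0 then t0 else t1) ∧
      (∀ x, v x = 1 → Pos x (κ (E.symm x) 0)) ∧ ∀ x, v x = -1 → Pos x (κ x 0) := by
  classical
  choose! p0 hp0 using H.pos
  set δ : D → Bool := fun x => if E.SameCycle r x then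
    (if ∃ j, K + 1 ≤ j ∧ j % 2 = 0 ∧ (RE E v r j x ∨ LE E v r j x) then t0 else t1)
    else p0 x with hδ
  obtain ⟨ty, h1, h2, h3, h4⟩ := H.exists_ty δ (by
    intro x hx hd hn
    simp only [hδ]
    by_cases hr : E.SameCycle r x
    · exact H.rootPos x hr hx hd hn _
    · rw [if_neg hr]
      exact hp0 x hx)
  have hv1 := H.v1
  have hpop : ∀ x, v x = 1 → kap E v ty (E.symm x) 0 = ty x := fun x hx =>
    kap_re ((re_pop' hx).2 rfl)
  have hpush : ∀ x, v x = -1 → kap E v ty x 0 = ty x := fun x hx =>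
    kap_le h3 (LE.push x hx)
  have htts : TTS E τ v ok (kap E v ty) := by
    constructor
    · intro y j k hk
      by_cases hq : ∃ q, RE E v (E y) j q
      · obtain ⟨q, hq⟩ := hq
        rw [kap_re hq, kap_re ((re_step (by omega)).2 hq)]
      by_cases hq' : ∃ q, LE E v (E y) j q
      · obtain ⟨q, hq'⟩ := hq'
        rw [kap_le h3 hq', kap_le h3 ((le_step' (by omega)).2 hq')]
      · rw [kap_none (fun q h => hq ⟨q, h⟩) (fun q h => hq' ⟨q, h⟩),
          kap_none (fun q h => hq ⟨q, (re_step (by omega)).1 h⟩)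
            (fun q h => hq' ⟨q, (le_step' (by omega)).1 h⟩)]
    · intro y i j hij
      have := hv1 y
      have hy : v y = 1 := by omega
      obtain rfl : i = 0 := by omega
      obtain rfl : j = 0 := by omega
      have h5 := h2 y (by omega)
      rw [hy, show (decide ((1 : ℤ) = 1)) = true from rfl] at h5
      rw [hpop y hy, hpop (τ y) (by rw [H.vτ]; exact hy)]
      exact h5
    · intro y i j hij
      have := hv1 y
      have hy : v y = -1 := by omega
      obtain rfl : i = 0 := by omega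
      obtain rfl : j = 0 := by omega
      have h5 := h2 y (by omega)
      rw [hy, show (decide ((-1 : ℤ) = 1)) = false from rfl] at h5
      rw [hpush y hy, hpush (τ y) (by rw [H.vτ]; exact hy)]
      exact h5
  have hper : ∀ x j, K + 1 ≤ j → kap E v ty x (j + 2) = kap E v ty x j := by
    intro x j hj
    by_cases hx : G x
    · obtain ⟨N, hN⟩ := H.cirs x hx
      rcases H.sg1 x with h5 | h5
      · rw [h5] at hN
        obtain ⟨q, hq⟩ := hN.re hv1 j
        rw [kap_re hq, kap_re ((hN.re_two (by omega)).2 hq)]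
      · rw [h5] at hN
        obtain ⟨q, hq⟩ := hN.le hv1 j
        rw [kap_le h3 hq, kap_le h3 ((hN.le_two (by omega)).2 hq)]
    · rw [kap_none (fun q h => hx (H.re_G h)) (fun q h => hx (H.le_G h)),
        kap_none (fun q h => hx (H.re_G h)) (fun q h => hx (H.le_G h))]
  have hroot : ∀ j, K + 1 ≤ j → kap E v ty r j = if j % 2 = 0 then t0 else t1 := by
    intro j hj
    obtain ⟨N, hN⟩ := H.cirs r H.rG
    have h5 := H.sgr
    have h6 := H.sg1 r
    rcases h6 with h6 | h6
    · rw [h6] at hN h5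
      obtain ⟨q, hq⟩ := hN.re hv1 j
      have hs := re_same hq
      have hnp : ∀ y, ¬ Par E v q y := by
        rintro y (hy | hy)
        · have := hy.1
          have := hq.vq
          omega
        · have := H.both hq (hy.le hq)
          omega
      have hq0 := hq.vq
      have hnd : ¬ dt q := H.rootnd q hs (by omega) hnp
      rw [kap_re hq, h4 q (by omega) hnd hnp]
      simp only [hδ]
      rw [if_pos hs]
      by_cases hj2 : j % 2 = 0
      · rw [if_pos hj2, if_pos ⟨j, hj, hj2, Or.inl hq⟩]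
      · rw [if_neg hj2, if_neg]
        rintro ⟨j', h7, h8, h9 | h9⟩
        · have := hN.re_par hq h9
          omega
        · have := h9.vp
          omega
    · rw [h6] at hN h5
      obtain ⟨q, hq⟩ := hN.le hv1 j
      have hs := (le_same hq).symm
      have hq0 := hq.vp
      have hnp : ∀ y, ¬ Par E v q y := by
        rintro y (hy | hy)
        · have := H.both (hy.re hq) hq
          omega
        · have := (mt2_iff.1 hy).1
          omega
      have hnd : ¬ dt q := H.rootnd q hs (by omega) hnp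
      rw [kap_le h3 hq, h4 q (by omega) hnd hnp]
      simp only [hδ]
      rw [if_pos hs]
      by_cases hj2 : j % 2 = 0
      · rw [if_pos hj2, if_pos ⟨j, hj, hj2, Or.inr hq⟩]
      · rw [if_neg hj2, if_neg]
        rintro ⟨j', h7, h8, h9 | h9⟩
        · have := h9.vq
          omega
        · obtain ⟨N', hN'⟩ := H.cirs _ ((H.G_cyc hs).1 H.rG)
          have := hN'.le_par hq h9
          omega
  refine ⟨kap E v ty, htts, hper, ?_, ?_, ?_, ?_⟩
  · intro x j hx
    exact kap_none (fun q h => hx (H.re_G h)) (fun q h => hx (H.le_G h))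
  · intro x hx
    obtain ⟨c, hc, hc'⟩ : ∃ c : ℤ, |c| ≤ K ∧ ∀ j k : ℕ, K ≤ j → (k : ℤ) = j + c →
        kap E v ty x j = kap E v ty r k := by
      obtain ⟨N, hN⟩ := H.cirs r H.rG
      obtain ⟨n0, hn0⟩ := hx.exists_nat_pow_eq
      have hlt : n0 % N < N := Nat.mod_lt _ hN.pos
      have h5 : (E ^ (n0 % N)) r = x := by
        have h6 : n0 = n0 % N + N * (n0 / N) := (Nat.mod_add_div n0 N).symm
        rw [h6, pow_add, Equiv.Perm.mul_apply, (hN.mul _).1] at hn0
        exact hn0
      generalize n0 % N = n at hlt h5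
      refine ⟨hs E v r n, hN.bd n hlt.le, ?_⟩
      intro j k hj hk
      have h6 : ∀ m ≤ n, ∀ k : ℕ, (k : ℤ) = j + hs E v r n - hs E v r (n - m) →
          kap E v ty x j = kap E v ty ((E ^ (n - m)) r) k := by
        intro m
        induction m with
        | zero =>
          intro _ k hk
          rw [Nat.sub_zero] at hk ⊢
          rw [h5]
          congr 1
          omega
        | succ m ih =>
          intro hm k hk
          have h7 := hs_succ' (E := E) (v := v) r (n - (m + 1))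
          rw [show n - (m + 1) + 1 = n - m by omega] at h7
          have b1 := abs_le.1 (hN.bd n hlt.le)
          obtain ⟨k', hk'⟩ : ∃ k' : ℕ, (k' : ℤ) = j + hs E v r n - hs E v r (n - m) := by
            refine ⟨(j + hs E v r n - hs E v r (n - m)).toNat, Int.toNat_of_nonneg ?_⟩
            have h8 : hs E v r n = hs E v r (n - m) + hs E v ((E ^ (n - m)) r) m := by
              rw [← hs_add]; congr 1; omega
            obtain ⟨M, hM⟩ := H.cirs ((E ^ (n - m)) r)
              ((H.G_cyc ⟨((n - m : ℕ) : ℤ), by rw [zpow_natCast]⟩).1 H.rG)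
            have h9 := hN.period hM
            have b3 := abs_le.1 (hM.bd m (by omega))
            omega
          rw [ih (by omega) k' hk']
          have e1 : (E ^ (n - m)) r = E ((E ^ (n - (m + 1))) r) := by
            rw [← Equiv.Perm.mul_apply, ← pow_succ']
            congr 2
            omega
          rw [e1] at h7 ⊢
          apply htts.st
          omega
      have h7 := h6 n le_rfl k (by rw [Nat.sub_self, hs_zero]; omega)
      rwa [Nat.sub_self, pow_zero, Equiv.Perm.one_apply] at h7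
    refine ⟨(c % 2).toNat, fun j hj => ?_⟩
    have hc1 := abs_le.1 hc
    obtain ⟨l, hl⟩ : ∃ l : ℕ, (l : ℤ) = ((j + 2 * (K + 1) : ℕ) : ℤ) + c :=
      ⟨(((j + 2 * (K + 1) : ℕ) : ℤ) + c).toNat, Int.toNat_of_nonneg (by push_cast; omega)⟩
    have h5 := hc' (j + 2 * (K + 1)) l (by omega) hl
    have h6 := per_mod (hper x) hj (j := j + 2 * (K + 1)) (by omega) (by omega)
    rw [h6, h5, hroot l (by push_cast at hl; omega)]
    have h7 : l % 2 = 0 ↔ (j + (c % 2).toNat) % 2 = 0 := by
      push_cast at hl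
      omega
    by_cases h8 : l % 2 = 0
    · rw [if_pos h8, if_pos (h7.1 h8)]
    · rw [if_neg h8, if_neg (fun h => h8 (h7.2 h))]
  · intro x hx
    rw [hpop x hx]
    exact h1 x (by omega)
  · intro x hx
    rw [hpush x hx]
    exact h1 x (by omega)

end TyE

/-! ## Token systems -/

variable {T : Type*}

/-- the tokens which determine the types of their strands: the class rule, exchanged on `sw` -/
def dts (w : T → ℤ) (cls sw : T → Prop) (t : T) : Prop := Det w cls t ↔ ¬ sw t

lemma dts_of_not {w : T → ℤ} {cls sw : T → Prop} {t : T} (h : ¬ sw t) :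
    dts w cls sw t ↔ Det w cls t := by
  unfold dts
  exact ⟨fun h' => h'.2 h, fun h' => ⟨fun _ => h, fun _ => h'⟩⟩

lemma dts_of {w : T → ℤ} {cls sw : T → Prop} {t : T} (h : sw t) :
    dts w cls sw t ↔ ¬ Det w cls t := by
  unfold dts
  exact ⟨fun h' h2 => h'.1 h2 h, fun h' => ⟨fun h2 => absurd h2 h', fun h2 => absurd h h2⟩⟩

open Classical in
/-- **Token systems** in which the flow is reversed on the pairs of neighbours in `sw` -/
structure TkE [Fintype T] (F : Equiv.Perm T) (lam : T → T) (w : T → ℤ) (K : ℕ) (r : T) (s : ℤ)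
    (sg : T → ℤ) (cls sw : T → Prop) (okt : T → Bool → Bool → Prop) (Pos : T → Bool → Prop)
    (a0 : T → Bool) : Prop where
  ll : ∀ t, lam (lam t) = t
  wl : ∀ t, w (lam t) = w t
  w1 : ∀ t, w t = -1 ∨ w t = 0 ∨ w t = 1
  sg1 : ∀ t, sg t = 1 ∨ sg t = -1
  sgF : ∀ t, sg (F t) = sg t
  sgr : sg r = s
  sum : ∀ t, ∑ u ∈ Finset.univ.filter (fun u => F.SameCycle t u), w u = 2 * sg t
  pb : PB F w K
  conn : ∀ (S : Stk T) (ρ : T → Prop), TS F lam w S → (∀ t, ρ (F t) ↔ ρ t) →
    (∃ M : ℕ, ∀ t, ¬ F.SameCycle t r → ∀ j, M ≤ j → (S t j ↔ ρ t)) → ∃ c : Prop, ∀ t j, S t j ↔ c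
  clsF : ∀ t, cls (F t) ↔ cls t
  swp : ∀ t, sw t → ∃ u, (AdjT F w u t ∨ AdjT F w t u) ∧ sw u
  oks : ∀ t a b, okt t a b → okt (lam t) b a
  nosink : ∀ t, w t ≠ 0 → dts w cls sw t ∨ dts w cls sw (lam t)
  src : ∀ t, w t ≠ 0 → dts w cls sw t → dts w cls sw (lam t) →
    okt t (a0 t) (a0 (lam t)) ∧ Pos t (a0 t)
  flow : ∀ t, w t ≠ 0 → dts w cls sw t → ¬ dts w cls sw (lam t) → ∀ b, Pos (lam t) b →
    ∃ a, Pos t a ∧ okt t a b
  strand : ∀ t, w t ≠ 0 → ¬ dts w cls sw t → (∀ a, Pos t a) ∨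
    ∃ u, (AdjT F w u t ∨ AdjT F w t u) ∧ ∀ a, Pos u a → Pos t a
  root : s = 1 ↔ ¬ cls r
  pos : ∀ t, w t ≠ 0 → ∃ a, Pos t a

lemma adj_par {F : Equiv.Perm T} {w : T → ℤ} {t u : T} (h : AdjT F w u t ∨ AdjT F w t u) :
    Par F w t u := by
  rcases h with h | h
  · exact Or.inr h.mt
  · exact Or.inl h.mt

namespace TkE

variable [Fintype T] {F : Equiv.Perm T} {lam : T → T} {w : T → ℤ} {K : ℕ} {r : T} {s : ℤ}
  {sg : T → ℤ} {cls sw : T → Prop} {okt : T → Bool → Bool → Prop} {Pos : T → Bool → Prop}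
  {a0 : T → Bool}

lemma sw_par (H : TkE F lam w K r s sg cls sw okt Pos a0) {x y : T} (h : Par F w x y)
    (hx : sw x) : sw y := by
  obtain ⟨u, h1, h2⟩ := H.swp x hx
  rw [← Par.uniq (adj_par h1) h] at h2
  exact h2

lemma dtpar (H : TkE F lam w K r s sg cls sw okt Pos a0) (x y : T) (h : Par F w x y) :
    dts w cls sw y ↔ ¬ dts w cls sw x := by
  have h1 := h.det H.clsF
  by_cases hx : sw x
  · rw [dts_of hx, dts_of (H.sw_par h hx), h1]
  · have hy : ¬ sw y := fun hy => hx (H.sw_par h.symm hy)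
    rw [dts_of_not hx, dts_of_not hy, h1]

lemma cir (H : TkE F lam w K r s sg cls sw okt Pos a0) (t : T) :
    ∃ N, Cir F w t N (sg t) K := cir_of_sum t (H.sg1 t) (H.sum t) H.pb

lemma cyc (H : TkE F lam w K r s sg cls sw okt Pos a0) {t : T} (h : F.SameCycle r t) :
    sg t = s ∧ (cls t ↔ cls r) := by
  obtain ⟨n, rfl⟩ := h.exists_nat_pow_eq
  clear h
  induction n with
  | zero => exact ⟨H.sgr, Iff.rfl⟩
  | succ n ih =>
    rw [pow_succ', Equiv.Perm.mul_apply, H.sgF, H.clsF]
    exact ih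

lemma rootnd (H : TkE F lam w K r s sg cls sw okt Pos a0) (x : T) (h : F.SameCycle r x)
    (hx : w x ≠ 0) (hn : ∀ y, ¬ Par F w x y) : ¬ dts w cls sw x := by
  have hsw : ¬ sw x := by
    intro h1
    obtain ⟨u, h2, -⟩ := H.swp x h1
    exact hn u (adj_par h2)
  rw [dts_of_not hsw]
  obtain ⟨h1, h2⟩ := H.cyc h
  have h3 := H.w1 x
  have h4 := H.root
  unfold Det
  rcases H.sg1 x with h5 | h5
  · -- pushes are matched
    have h6 : w x = 1 := by
      by_contra h7
      have h8 : w x = -1 := by omega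
      obtain ⟨N, hN⟩ := H.cir x
      rw [h5] at hN
      obtain ⟨q, hq⟩ := hN.re H.w1 0
      exact hn q (Or.inl ⟨h8, hq⟩)
    rw [h6, h2]
    have h7 : ¬ cls r := h4.1 (by rw [← h1, h5])
    exact fun h8 => h7 (h8.1 rfl)
  · -- pops are matched
    have h6 : w x = -1 := by
      by_contra h7
      have h8 : w x = 1 := by omega
      have h9 : sg (F.symm x) = -1 := by
        rw [← h5, ← H.sgF (F.symm x), Equiv.apply_symm_apply]
      obtain ⟨N, hN⟩ := H.cir (F.symm x)
      rw [h9] at hN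
      obtain ⟨q, hq⟩ := hN.le H.w1 0
      exact hn q (Or.inr (mt2_iff.2 ⟨h8, hq⟩))
    rw [h6, h2]
    have h7 : cls r := by
      by_contra h8
      have := h4.2 h8
      omega
    exact fun h8 => by
      have := h8.2 h7
      omega

lemma toE (H : TkE F lam w K r s sg cls sw okt Pos a0) :
    TyE F lam (fun t _ a b => okt t a b) K (fun _ => True) r s w sg (dts w cls sw) Pos a0 where
  tt := H.ll
  vτ := H.wl
  v1 := H.w1
  vG := fun t h => absurd trivial h
  GE := fun _ => Iff.rfl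
  rG := trivial
  sg1 := H.sg1
  sgE := H.sgF
  sgr := H.sgr
  cirs := fun t _ => H.cir t
  conn := fun S hS hd => by
    obtain ⟨c, hc⟩ := H.conn S (fun _ => False) hS (fun _ => Iff.rfl)
      ⟨K + 1, fun t _ j hj => iff_of_false (hd t trivial j hj) (fun h => h)⟩
    exact ⟨c, fun t _ j => hc t j⟩
  dtpar := H.dtpar
  oks := fun t _ a b h => H.oks t a b h
  nosink := H.nosink
  src := H.src
  flow := H.flow
  strand := by
    intro x y h hd a ha
    have hy : ¬ dts w cls sw y := by rw [H.dtpar x y h]; exact not_not.2 hd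
    rcases H.strand y h.symm.ne hy with h1 | ⟨u, h1, h2⟩
    · exact h1 a
    · have h4 := h.symm.uniq (adj_par h1)
      subst h4
      exact h2 a ha
  rootnd := H.rootnd
  rootPos := by
    intro x _ hx hd hn a
    rcases H.strand x hx hd with h1 | ⟨u, h1, h2⟩
    · exact h1 a
    · exact absurd (adj_par h1) (hn u)
  pos := H.pos

/-- **the types exist** -/
theorem exists_ty (H : TkE F lam w K r s sg cls sw okt Pos a0) (t0 t1 : Bool) :
    ∃ κ : T → ℕ → Bool, TTS F lam w (fun t _ a b => okt t a b) κ ∧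
      (∀ t j, K + 1 ≤ j → κ t (j + 2) = κ t j) ∧
      (∀ t, F.SameCycle r t → ∃ ε : ℕ, ∀ j, K + 1 ≤ j → κ t j = if (j + ε) % 2 = 0 then t0 else t1) ∧
      (∀ t, w t ≠ 0 → Pos t (TkS.tyk F w κ t)) ∧
      ∀ t, w t ≠ 0 → okt t (TkS.tyk F w κ t) (TkS.tyk F w κ (lam t)) := by
  obtain ⟨κ, h1, h2, -, h4, h5, h6⟩ := H.toE.exists_kappa t0 t1
  refine ⟨κ, h1, h2, h4, ?_, ?_⟩
  · intro t ht
    unfold TkS.tyk
    split_ifs with h
    · exact h5 t h
    · exact h6 t (by have := H.w1 t; omega)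
  · intro t ht
    unfold TkS.tyk
    rw [H.wl]
    split_ifs with h
    · exact h1.pop t 0 0 (by rw [h]; rfl)
    · exact h1.push t 0 0 (by
        have := H.w1 t
        have h7 : w t = -1 := by omega
        rw [h7]; rfl)

end TkE

end Pool.Agent.MP42.EO
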