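import Pool.Agent.MP42.TQ.LayQ
import Pool.Agent.MP42.TQ.TyE
import Pool.Agent.MP42.TQ.SolTy2

/-!
# From a token system and its placements to a solution (owner helper18)
-/

set_option autoImplicit false
set_option linter.unusedSectionVars false

namespace Pool.Agent.MP42.EO

open Pool.Agent.MP42.NE

open Lay

variable {T D : Type*}

lemma list_range_sum (f : ℕ → ℤ) (n : ℕ) :
    ((List.range n).map f).sum = ∑ i ∈ Finset.range n, f i := by
  induction n with
  | zero => rfl
  | succ n ih => rw [List.range_succ, List.map_append, List.sum_append, Finset.sum_range_succ, ih]; simp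

lemma chain_eq {F : Equiv.Perm T} : ∀ (l : List T) (p : T),
    List.IsChain (fun a b => F a = b) (p :: l) →
    l = (List.range l.length).map (fun i => (F ^ i) (F p)) := by
  intro l
  induction l with
  | nil => intro p _; rfl
  | cons q l ih =>
    intro p hp
    rw [List.isChain_cons_cons] at hp
    obtain ⟨rfl, hp⟩ := hp
    have h1 := ih _ hp
    rw [List.length_cons, List.range_succ_eq_map, List.map_cons, List.map_map]
    congr 1

lemma chain_append {F : Equiv.Perm T} : ∀ (l l' : List T) (p : T),
    List.IsChain (fun a b => F a = b) (p :: l) →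
    List.IsChain (fun a b => F a = b) ((p :: l).getLast (List.cons_ne_nil _ _) :: l') →
    List.IsChain (fun a b => F a = b) (p :: (l ++ l')) := by
  intro l
  induction l with
  | nil => intro l' p _ h; exact h
  | cons q l ih =>
    intro l' p hp h
    rw [List.cons_append, List.isChain_cons_cons]
    rw [List.isChain_cons_cons] at hp
    refine ⟨hp.1, ih l' q hp.2 ?_⟩
    rwa [List.getLast_cons (List.cons_ne_nil _ _)] at h

namespace Plc

variable {E : Equiv.Perm D} {τ : D → D} {G : D → Prop} {F : Equiv.Perm T} {lam : T → T}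
  {w : T → ℤ} {tk : D → List T} {pt : D → T} (P : Plc E τ G F lam w tk pt)

include P

/-- the tokens on an interval of ribbons -/
lemma interval {x : D} (hx : G x) (n : ℕ) :
    List.IsChain (fun a b => F a = b)
      (pt (E.symm x) :: (List.range n).flatMap (fun i => tk ((E ^ i) x))) ∧
    (pt (E.symm x) :: (List.range n).flatMap (fun i => tk ((E ^ i) x))).getLast
      (List.cons_ne_nil _ _) = pt (E.symm ((E ^ n) x)) := by
  have hG : ∀ m : ℕ, G ((E ^ m) x) := by
    intro m
    induction m with
    | zero => exact hx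
    | succ m ih => rw [pow_succ', Equiv.Perm.mul_apply, P.GE]; exact ih
  induction n with
  | zero => exact ⟨List.isChain_singleton _, rfl⟩
  | succ n ih =>
    obtain ⟨h1, h2⟩ := ih
    have h3 := P.ch _ (hG n)
    have h4 := P.la _ (hG n)
    rw [← h2] at h3
    have e : (List.range (n + 1)).flatMap (fun i => tk ((E ^ i) x)) =
        (List.range n).flatMap (fun i => tk ((E ^ i) x)) ++ tk ((E ^ n) x) := by
      rw [List.range_succ, List.flatMap_append]
      simp
    have h5 : E.symm ((E ^ (n + 1)) x) = (E ^ n) x := by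
      rw [pow_succ', Equiv.Perm.mul_apply, Equiv.symm_apply_apply]
    refine ⟨?_, ?_⟩
    · rw [e]
      exact chain_append _ _ _ h1 h3
    · rw [h5]
      simp only [e, ← List.cons_append]
      by_cases h6 : tk ((E ^ n) x) = []
      · simp only [h6, List.append_nil]
        rw [h2]
        rw [← h4]
        simp [h6]
      · rw [List.getLast_append_of_ne_nil _ h6]
        rw [← h4, List.getLast_cons h6]

/-- **partial sums on the ribbons** -/
lemma pb {K : ℕ} (w1 : ∀ t, w t = -1 ∨ w t = 0 ∨ w t = 1) (h : PB F w K) :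
    PB E (vv w tk) K := by
  intro x n hn
  by_cases hx : G x
  swap
  · have hG : ∀ m : ℕ, ¬ G ((E ^ m) x) := by
      intro m
      induction m with
      | zero => exact hx
      | succ m ih => rw [pow_succ', Equiv.Perm.mul_apply, P.GE]; exact ih
    rw [Finset.sum_eq_zero (fun i _ => P.vv_G (hG i))]
    simp
  have h1 := (P.interval hx n).1
  set L := (List.range n).flatMap (fun i => tk ((E ^ i) x)) with hL
  have h2 := chain_eq _ _ h1
  have hsum : ∑ i ∈ Finset.range n, vv w tk ((E ^ i) x) = (L.map w).sum := by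
    rw [hL, List.map_flatMap]
    clear h2 h1 hL L hn
    induction n with
    | zero => rfl
    | succ n ih =>
      rw [Finset.sum_range_succ, ih, List.range_succ, List.flatMap_append, List.sum_append,
        vv_eq w1]
      simp
  have hnd : L.Nodup := by
    rw [hL, List.nodup_flatMap]
    refine ⟨fun i _ => P.nd _, ?_⟩
    rw [List.pairwise_iff_getElem]
    intro i j hi hj hij
    simp only [List.getElem_range, Function.onFun]
    rw [List.disjoint_left]
    intro t ht ht'
    have h3 := P.uq t _ _ ht ht'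
    simp only [List.length_range] at hi hj
    have h4 : (E ^ (j - i)) x = x := by
      have h5 : (E ^ i) ((E ^ (j - i)) x) = (E ^ i) x := by
        rw [← Equiv.Perm.mul_apply, ← pow_add, show i + (j - i) = j by omega, h3]
      exact (E ^ i).injective h5
    exact hn (j - i) (by omega) (by omega) h4
  have h3 : (L.map w).sum = ∑ i ∈ Finset.range L.length, w ((F ^ i) (F (pt (E.symm x)))) := by
    conv_lhs => rw [h2]
    rw [List.map_map, list_range_sum]
    rfl
  rw [hsum, h3]
  apply h
  intro i hi hi' hc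
  have h4 : L[i] = L[0] := by
    have a1 : L[i]'hi' = (F ^ i) (F (pt (E.symm x))) := by
      have := List.getElem_of_eq h2 hi'
      rw [this]
      simp
    have a2 : L[0]'(by omega) = F (pt (E.symm x)) := by
      have := List.getElem_of_eq h2 (i := 0) (by omega)
      rw [this]
      simp
    rw [a1, a2, hc]
  have h5 := (List.Nodup.getElem_inj_iff hnd).1 h4
  omega

open Classical in
/-- **the sums over the rings** -/
lemma sum_ring [Fintype D] [Fintype T] (w1 : ∀ t, w t = -1 ∨ w t = 0 ∨ w t = 1) {d : D}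
    (hd : G d) : ∑ x ∈ Finset.univ.filter (fun x => E.SameCycle d x), vv w tk x =
      ∑ u ∈ Finset.univ.filter (fun u => F.SameCycle (pt d) u), w u := by
  have e1 : ∀ x, vv w tk x = ∑ t ∈ (tk x).toFinset, w t := by
    intro x
    rw [vv_eq w1, List.sum_toFinset w (P.nd x)]
  rw [Finset.sum_congr rfl (fun x _ => e1 x), ← Finset.sum_biUnion]
  · refine Finset.sum_congr ?_ (fun _ _ => rfl)
    ext t
    simp only [Finset.mem_biUnion, Finset.mem_filter, Finset.mem_univ, true_and,
      List.mem_toFinset]
    constructor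
    · rintro ⟨y, h1, h2⟩
      exact (P.same_of hd h1).trans (P.same_pt' h2)
    · intro h
      obtain ⟨z, hz⟩ := P.ex t
      obtain ⟨x₀, h1, h2⟩ := P.pt_home hd
      exact ⟨z, h2.trans (P.of_same h1 hz h), hz⟩
  · intro x _ y _ hxy
    rw [Function.onFun, Finset.disjoint_left]
    intro t ht ht'
    rw [List.mem_toFinset] at ht ht'
    exact hxy (P.uq t _ _ ht ht')

end Plc

/-- all tokens of the ribbon have the same sign -/
def SameS (w : T → ℤ) (l : List T) : Prop := (∀ t ∈ nz w l, w t = 1) ∨ ∀ t ∈ nz w l, w t = -1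

/-- the types of the tokens are `false, .., false, true, .., true` -/
def MonoT (w : T → ℤ) (ty : T → Bool) (l : List T) : Prop :=
  (nz w l).Pairwise fun t u => ty t = true → ty u = true

section

variable {A : Type*}

lemma sr_pops {l : List (Bool × A)} : ∀ {S S' : ℕ → A}, (∀ p ∈ l, p.1 = true) → SR l S S' →
    ∀ (i : ℕ) (h : i < l.length), S i = (l[i]'h).2 := by
  induction l with
  | nil => intro S S' _ _ i h; simp at h
  | cons p l ih =>
    obtain ⟨b, a⟩ := p
    intro S S' h1 h2 i hi
    have hb : b = true := h1 (b, a) (by simp)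
    subst hb
    have h3 : a = S 0 ∧ SR l (tl S) S' := h2
    rcases i with _ | i
    · exact h3.1.symm
    · have h4 := ih (fun p hp => h1 p (by simp [hp])) h3.2 i (by simpa using hi)
      rw [tl_apply] at h4
      simpa using h4

lemma sr_pushes {l : List (Bool × A)} : ∀ {S S' : ℕ → A}, (∀ p ∈ l, p.1 = false) → SR l S S' →
    ∀ (i : ℕ) (h : i < l.length), S' i = (l[l.length - 1 - i]'(by omega)).2 := by
  induction l using List.reverseRecOn with
  | nil => intro S S' _ _ i h; simp at h
  | append_singleton l p ih =>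
    obtain ⟨b, a⟩ := p
    intro S S' h1 h2 i hi
    have hb : b = false := h1 (b, a) (by simp)
    subst hb
    obtain ⟨S₀, h3, h4⟩ := sr_append.1 h2
    have h5 : cons a S₀ = S' := h4
    rw [← h5]
    rcases i with _ | i
    · rw [cons_zero]
      simp
    · rw [cons_succ]
      have hi' : i < l.length := by
        rw [List.length_append, List.length_singleton] at hi; omega
      have h6 := ih (fun p hp => h1 p (by simp [hp])) h3 i hi'
      rw [h6]
      congr 1
      rw [List.getElem_append_left (by
        rw [List.length_append, List.length_singleton]; omega)]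
      congr 1
      rw [List.length_append, List.length_singleton]
      omega

end

open Classical in
/-- the global fields of a token system -/
structure TkG [Fintype T] (F : Equiv.Perm T) (lam : T → T) (w : T → ℤ) (K : ℕ) (r : T) (s : ℤ)
    (sg : T → ℤ) : Prop where
  ll : ∀ t, lam (lam t) = t
  wl : ∀ t, w (lam t) = w t
  w1 : ∀ t, w t = -1 ∨ w t = 0 ∨ w t = 1
  sg1 : ∀ t, sg t = 1 ∨ sg t = -1
  sgF : ∀ t, sg (F t) = sg t
  sgr : sg r = s
  sum : ∀ t, ∑ u ∈ Finset.univ.filter (fun u => F.SameCycle t u), w u = 2 * sg t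
  pb : PB F w K
  conn : ∀ (S : Stk T) (ρ : T → Prop), TS F lam w S → (∀ t, ρ (F t) ↔ ρ t) →
    (∃ M : ℕ, ∀ t, ¬ F.SameCycle t r → ∀ j, M ≤ j → (S t j ↔ ρ t)) → ∃ c : Prop, ∀ t j, S t j ↔ c

lemma TkE.toG [Fintype T] {F : Equiv.Perm T} {lam : T → T} {w : T → ℤ} {K : ℕ} {r : T} {s : ℤ}
    {sg : T → ℤ} {cls sw : T → Prop} {okt : T → Bool → Bool → Prop} {Pos : T → Bool → Prop}
    {a0 : T → Bool} (H : TkE F lam w K r s sg cls sw okt Pos a0) : TkG F lam w K r s sg :=
  ⟨H.ll, H.wl, H.w1, H.sg1, H.sgF, H.sgr, H.sum, H.pb, H.conn⟩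

namespace TkG

variable [Fintype T] {F : Equiv.Perm T} {lam : T → T} {w : T → ℤ} {K : ℕ} {r : T} {s : ℤ}
  {sg : T → ℤ}

open Classical in
/-- **Solutions from a token system with given stacks of types.** -/
theorem sol [Fintype D] (H : TkG F lam w K r s sg) {okt : T → Bool → Bool → Bool → Prop}
    {κ : T → ℕ → Bool} {t0 t1 : Bool} (h1 : TTS F lam w okt κ)
    (h2 : ∀ t j, K + 1 ≤ j → κ t (j + 2) = κ t j)
    (h3 : ∀ t, F.SameCycle r t → ∃ ε : ℕ, ∀ j, K + 1 ≤ j →
      κ t j = if (j + ε) % 2 = 0 then t0 else t1)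
    {E : Equiv.Perm D} {τ : D → D}
    {G : D → Prop} {ok : D → Bool → Bool → Bool → Prop}
    (hf : ∀ y s s' a b b', ok y s a b → ok y s' a b' → b = b')
    (hg : ∀ y s s' a a' b, ok y s a b → ok y s' a' b → a = a')
    {rD : D} (hrG : G rD) {tk : D → List T} {pt : D → T} (P : Plc E τ G F lam w tk pt)
    (hr : F.SameCycle r (pt rD))
    (hok : ∀ y, ∀ t ∈ tk y, w t ≠ 0 → ok y (sn w t) (TkS.tyk F w κ t) (TkS.tyk F w κ (lam t))) :
    ∃ κD sgD, Sol E τ ok (K + 1) G rD s t0 t1 (Plc.vv w tk) κD sgD ∧
      ∀ y, SameS w (tk y) → MonoT w (TkS.tyk F w κ) (tk y) →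
        (∀ i j : ℕ, i < j → (j : ℤ) < Plc.vv w tk y → κD (E.symm y) i = true →
          κD (E.symm y) j = true) ∧
        ∀ i j : ℕ, i < j → (j : ℤ) < -Plc.vv w tk y → κD y j = true → κD y i = true := by
  have hty : TkS.tyk F w κ = tv' F w κ := rfl
  have hst : StA F w κ := h1.st
  have hvr : ∀ y, G y → VR (ok y) (Plc.vv w tk y) (κ (pt (E.symm y))) (κ (pt y))
      (κ (pt (E.symm (τ y)))) (κ (pt (τ y))) := fun y hy =>
    P.vr H.w1 hst H.wl (hf y) (hg y) hy (fun t ht hw => hok y t ht hw)
  have hsgc : ∀ {t u : T}, F.SameCycle t u → sg u = sg t := fun h => cyc_eq H.sgF h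
  set κD : D → ℕ → Bool := fun y j => if G y then κ (pt y) j else false with hκD
  have hκ1 : ∀ y, G y → κD y = κ (pt y) := by
    intro y hy; funext j; simp only [hκD, if_pos hy]
  have hκ0 : ∀ y, ¬ G y → ∀ j, κD y j = false := by
    intro y hy j; simp only [hκD, if_neg hy]
  set sgD : D → ℤ := fun y => if G y then sg (pt y) else 1 with hsgD
  refine ⟨κD, sgD, ⟨P.vv_τ H.wl, fun y hy => P.vv_G hy, ?_, ?_, ?_, ?_,
    ?_, ?_, ?_, fun y j hy => hκ0 y hy j, ?_, ?_⟩, ?_⟩
  · intro y
    simp only [hsgD]
    split_ifs with h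
    · exact H.sg1 _
    · exact Or.inl rfl
  · intro y
    simp only [hsgD, P.GE]
    split_ifs with h
    · have h6 := P.same_step ((P.GE y).2 h)
      rw [Equiv.symm_apply_apply] at h6
      exact hsgc h6
    · rfl
  · intro y hy
    have hGy : G y := by
      obtain ⟨n, rfl⟩ := hy.exists_nat_pow_eq
      clear hy
      induction n with
      | zero => exact hrG
      | succ n ih => rw [pow_succ', Equiv.Perm.mul_apply, P.GE]; exact ih
    simp only [hsgD, if_pos hGy]
    rw [← H.sgr]
    exact hsgc (hr.trans (P.same_of hrG hy))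
  · intro d hd
    have h6 := P.sum_ring H.w1 hd
    have h7 := H.sum (pt d)
    simp only [hsgD, if_pos hd]
    rw [← h7, ← h6]
  · have h6 := P.pb H.w1 H.pb
    intro x n hn
    refine (h6 x n hn).trans ?_
    push_cast; linarith
  · constructor
    · intro p j k hk
      by_cases hp : G p
      · have hp' : G (E p) := (P.GE p).2 hp
        rw [hκ1 _ hp', hκ1 _ hp]
        have h6 := (hvr (E p) hp').s1 j k hk
        rwa [Equiv.symm_apply_apply] at h6
      · rw [hκ0 _ (fun h => hp ((P.GE p).1 h)), hκ0 _ hp]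
    · intro p i j hij
      by_cases hp : G p
      · rw [hκ1 _ ((P.Gs p).2 hp), hκ1 _ ((P.Gs _).2 ((P.Gτ p).2 hp))]
        exact (hvr p hp).pop i j hij
      · rw [P.vv_G hp] at hij
        omega
    · intro p i j hij
      by_cases hp : G p
      · rw [hκ1 _ hp, hκ1 _ ((P.Gτ p).2 hp)]
        exact (hvr p hp).push i j hij
      · rw [P.vv_G hp] at hij
        omega
  · intro x j hj
    by_cases hx : G x
    · rw [hκ1 _ hx]
      exact h2 _ j hj
    · rw [hκ0 _ hx, hκ0 _ hx]
  · intro x hx
    have hGx : G x := by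
      obtain ⟨n, rfl⟩ := hx.exists_nat_pow_eq
      clear hx
      induction n with
      | zero => exact hrG
      | succ n ih => rw [pow_succ', Equiv.Perm.mul_apply, P.GE]; exact ih
    obtain ⟨ε, hε⟩ := h3 _ (hr.trans (P.same_of hrG hx))
    exact ⟨ε, fun j hj => by rw [hκ1 _ hGx]; exact hε j hj⟩
  · intro v' T' ρ hv hT hρ hdeep
    have hVR : ∀ y, G y → VR (fun _ a b => a = b) (Plc.vv w tk y) (T' (E.symm y)) (T' y)
        (T' (E.symm (τ y))) (T' (τ y)) := by
      intro y hy
      have hy' := (P.Gτ y).2 hy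
      refine ⟨?_, ?_, ?_, ?_⟩
      · intro j k hk
        have h6 := hT.st (E.symm y) j k (by rw [Equiv.apply_symm_apply, hv y hy]; exact hk)
        rw [Equiv.apply_symm_apply] at h6
        exact propext h6
      · intro j k hk
        have h6 := hT.st (E.symm (τ y)) j k (by
          rw [Equiv.apply_symm_apply, hv _ hy', P.vv_τ H.wl]; exact hk)
        rw [Equiv.apply_symm_apply] at h6
        exact propext h6
      · intro i j hij
        exact propext (hT.pop y i j (by rw [hv y hy]; exact hij))
      · intro i j hij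
        exact propext (hT.push y i j (by rw [hv y hy]; exact hij))
    obtain ⟨S, s1, s2, s3, s4⟩ := P.lift (A := Prop) H.w1 H.wl hVR
    choose hm hhm using P.ex
    have hρ' : ∀ {x y : D}, E.SameCycle x y → (ρ y ↔ ρ x) := by
      intro x y h
      obtain ⟨n, rfl⟩ := h.exists_nat_pow_eq
      clear h
      induction n with
      | zero => exact Iff.rfl
      | succ n ih => rw [pow_succ', Equiv.Perm.mul_apply, hρ]; exact ih
    have hTS : TS F lam w S := by
      refine ⟨H.ll, H.wl, fun p j k hk => by rw [s1 p j k hk], ?_, ?_⟩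
      · intro p i j hij
        have h0 := H.w1 p
        have h6 : w p = 1 := by omega
        obtain rfl : i = 0 := by omega
        obtain rfl : j = 0 := by omega
        have h7 := s2 p (by omega)
        unfold tv' at h7
        rw [H.wl, if_pos h6, if_pos h6] at h7
        rw [h7]
      · intro p i j hij
        have h0 := H.w1 p
        have h6 : w p = -1 := by omega
        obtain rfl : i = 0 := by omega
        obtain rfl : j = 0 := by omega
        have h7 := s2 p (by omega)
        unfold tv' at h7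
        rw [H.wl, if_neg (by omega), if_neg (by omega)] at h7
        rw [h7]
    have hd : ∃ M : ℕ, ∀ t, ¬ F.SameCycle t r → ∀ j, M ≤ j → (S t j ↔ ρ (hm t)) := by
      refine ⟨K + 1 + Fintype.card T, fun t ht k hk => ?_⟩
      have hG := P.G_of (hhm t)
      have hlen : (tk (hm t)).length ≤ Fintype.card T := (P.nd _).length_le_card
      obtain ⟨δ, d1, d2⟩ := s4 t _ (hhm t)
      have d1' := abs_le.1 d1
      have h6 := d2 ((k : ℤ) - δ).toNat k (by omega) (by omega)
      rw [← h6]
      apply hdeep _ hG
      · intro h7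
        apply ht
        exact (P.same_pt' (hhm t)).symm.trans ((P.same_of hG h7).trans hr.symm)
      · omega
    obtain ⟨c, hc⟩ := H.conn S (fun t => ρ (hm t)) hTS
      (fun t => hρ' (P.home_F (hhm t) (hhm (F t)))) hd
    refine ⟨c, fun x hx j => ?_⟩
    rw [← s3 x hx]
    exact hc _ j
  · intro y hS hM
    by_cases hy : G y
    swap
    · rw [P.vv_G hy]
      exact ⟨fun i j _ hj => by omega, fun i j _ hj => by omega⟩
    have hrun := hst.run H.w1 (tk y) _ (P.ch y hy)
    rw [P.la y hy] at hrun
    have hlen : (wvt w (tv' F w κ) (tk y)).length = (nz w (tk y)).length := by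
      unfold wvt; rw [List.length_map]
    have hget : ∀ (i : ℕ) (h : i < (nz w (tk y)).length),
        ((wvt w (tv' F w κ) (tk y))[i]'(by rw [hlen]; exact h)).2 =
          TkS.tyk F w κ ((nz w (tk y))[i]'h) := by
      intro i h
      unfold wvt
      rw [List.getElem_map]
      rfl
    have hmon : ∀ (i j : ℕ) (hi : i < (nz w (tk y)).length) (hj : j < (nz w (tk y)).length),
        i < j → TkS.tyk F w κ ((nz w (tk y))[i]'hi) = true →
          TkS.tyk F w κ ((nz w (tk y))[j]'hj) = true := by
      intro i j hi hj hij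
      exact List.pairwise_iff_getElem.1 hM i j hi hj hij
    rw [hκ1 _ hy, hκ1 _ ((P.Gs y).2 hy)]
    have hsm : ∀ l : List T, (∀ t ∈ l, w t = 1) → sm (l.map (sn w)) = l.length := by
      intro l
      induction l with
      | nil => intro _; rfl
      | cons t l ih =>
        intro h
        rw [List.map_cons, sm_cons, ih (fun u hu => h u (by simp [hu]))]
        simp [sn, h t (by simp)]
        ring
    have hsm' : ∀ l : List T, (∀ t ∈ l, w t = -1) → sm (l.map (sn w)) = -l.length := by
      intro l
      induction l with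
      | nil => intro _; rfl
      | cons t l ih =>
        intro h
        rw [List.map_cons, sm_cons, ih (fun u hu => h u (by simp [hu]))]
        simp [sn, h t (by simp)]
    rcases hS with hS | hS
    · have e : Plc.vv w tk y = (nz w (tk y)).length := hsm _ hS
      rw [e]
      refine ⟨fun i j hij hj hi => ?_, fun i j _ hj => by omega⟩
      have hj' : j < (nz w (tk y)).length := by omega
      have hall : ∀ p ∈ wvt w (tv' F w κ) (tk y), p.1 = true := by
        intro p hp
        unfold wvt at hp
        obtain ⟨t, ht, rfl⟩ := List.mem_map.1 hp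
        simp [sn, hS t ht]
      rw [sr_pops hall hrun i (by rw [hlen]; omega), hget i (by omega)] at hi
      rw [sr_pops hall hrun j (by rw [hlen]; omega), hget j (by omega)]
      exact hmon i j _ _ hij hi
    · have e : Plc.vv w tk y = -(nz w (tk y)).length := hsm' _ hS
      rw [e]
      refine ⟨fun i j _ hj => by omega, fun i j hij hj hi => ?_⟩
      have hj' : j < (nz w (tk y)).length := by omega
      have hall : ∀ p ∈ wvt w (tv' F w κ) (tk y), p.1 = false := by
        intro p hp
        unfold wvt at hp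
        obtain ⟨t, ht, rfl⟩ := List.mem_map.1 hp
        simp [sn, hS t ht]
      rw [sr_pushes hall hrun j (by rw [hlen]; omega), hget _ (by omega)] at hi
      rw [sr_pushes hall hrun i (by rw [hlen]; omega), hget _ (by omega)]
      exact hmon _ _ _ _ (by rw [hlen]; omega) hi

end TkG

namespace TkE

variable [Fintype T] {F : Equiv.Perm T} {lam : T → T} {w : T → ℤ} {K : ℕ} {r : T} {s : ℤ}
  {sg : T → ℤ} {cls sw : T → Prop} {okt : T → Bool → Bool → Prop} {Pos : T → Bool → Prop}
  {a0 : T → Bool}

open Classical in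
/-- **Solutions from a token system.** -/
theorem sol [Fintype D] (H : TkE F lam w K r s sg cls sw okt Pos a0) {E : Equiv.Perm D} {τ : D → D}
    {G : D → Prop} {ok : D → Bool → Bool → Bool → Prop}
    (hf : ∀ y s s' a b b', ok y s a b → ok y s' a b' → b = b')
    (hg : ∀ y s s' a a' b, ok y s a b → ok y s' a' b → a = a')
    {rD : D} (hrG : G rD) (t0 t1 : Bool) {Ex : (D → List T) → (T → Bool) → Prop}
    (hpl : ∀ ty : T → Bool, (∀ t, w t ≠ 0 → Pos t (ty t)) →
      (∀ t, w t ≠ 0 → okt t (ty t) (ty (lam t))) → ∃ tk pt, Plc E τ G F lam w tk pt ∧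
        F.SameCycle r (pt rD) ∧
        (∀ y, ∀ t ∈ tk y, w t ≠ 0 → ok y (sn w t) (ty t) (ty (lam t))) ∧ Ex tk ty) :
    ∃ κ sgD tk ty, Sol E τ ok (K + 1) G rD s t0 t1 (Plc.vv w tk) κ sgD ∧ Ex tk ty ∧
      ∀ y, SameS w (tk y) → MonoT w ty (tk y) →
        (∀ i j : ℕ, i < j → (j : ℤ) < Plc.vv w tk y → κ (E.symm y) i = true →
          κ (E.symm y) j = true) ∧
        ∀ i j : ℕ, i < j → (j : ℤ) < -Plc.vv w tk y → κ y j = true → κ y i = true := by
  obtain ⟨κ, h1, h2, h3, h4, h5⟩ := H.exists_ty t0 t1
  obtain ⟨tk, pt, P, hr, hok, hEx⟩ := hpl (TkS.tyk F w κ) h4 h5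
  obtain ⟨κD, sgD, h6, h7⟩ := H.toG.sol h1 h2 h3 hf hg hrG P hr hok
  exact ⟨κD, sgD, tk, TkS.tyk F w κ, h6, hEx, h7⟩

end TkE

end Pool.Agent.MP42.EO
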