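import Mathlib

/-!
# Lanes of both signs over one ribbon: words (owner helper18)

A word is a list of pairs (sign, value), `true` = pop, `false` = push.  Over one ribbon there is a
list of lanes; on the other side of the ribbon the list is reversed.  `contract`: adjacent lanes
with opposite signs cancel, only the sum `v` of the signs is left.  `expand`: the converse, for
stacks with the same values on both sides.
-/

set_option autoImplicit false

namespace Pool.Agent.MP42.EO.Lay

variable {A : Type*}

/-- push -/
def cons (a : A) (S : ℕ → A) : ℕ → A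
  | 0 => a
  | j + 1 => S j

@[simp] lemma cons_zero (a : A) (S : ℕ → A) : cons a S 0 = a := rfl

@[simp] lemma cons_succ (a : A) (S : ℕ → A) (j : ℕ) : cons a S (j + 1) = S j := rfl

/-- the stack without its top -/
def tl (S : ℕ → A) : ℕ → A := fun j => S (j + 1)

@[simp] lemma tl_apply (S : ℕ → A) (j : ℕ) : tl S j = S (j + 1) := rfl

@[simp] lemma tl_cons (a : A) (S : ℕ → A) : tl (cons a S) = S := rfl

lemma cons_tl (S : ℕ → A) : cons (S 0) (tl S) = S := by
  funext j; cases j <;> rfl

/-- signed values on a stack -/
def SR : List (Bool × A) → (ℕ → A) → (ℕ → A) → Prop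
  | [], S, S' => S = S'
  | (true, a) :: w, S, S' => a = S 0 ∧ SR w (tl S) S'
  | (false, a) :: w, S, S' => SR w (cons a S) S'

@[simp] lemma sr_nil {S S' : ℕ → A} : SR [] S S' ↔ S = S' := Iff.rfl

@[simp] lemma sr_pop {a : A} {w : List (Bool × A)} {S S' : ℕ → A} :
    SR ((true, a) :: w) S S' ↔ a = S 0 ∧ SR w (tl S) S' := Iff.rfl

@[simp] lemma sr_push {a : A} {w : List (Bool × A)} {S S' : ℕ → A} :
    SR ((false, a) :: w) S S' ↔ SR w (cons a S) S' := Iff.rfl

lemma sr_append {w₁ w₂ : List (Bool × A)} : ∀ {S S' : ℕ → A},
    SR (w₁ ++ w₂) S S' ↔ ∃ S₁, SR w₁ S S₁ ∧ SR w₂ S₁ S' := by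
  induction w₁ with
  | nil => intro S S'; simp
  | cons p w ih =>
    obtain ⟨b, a⟩ := p
    intro S S'
    cases b
    · simp [ih]
    · simp [ih, and_assoc]

/-- the sum of the signs -/
def sm (l : List Bool) : ℤ := (l.map fun b => if b then (1 : ℤ) else -1).sum

@[simp] lemma sm_nil : sm [] = 0 := rfl

@[simp] lemma sm_cons (b : Bool) (l : List Bool) :
    sm (b :: l) = (if b then (1 : ℤ) else -1) + sm l := by simp [sm]

@[simp] lemma sm_append (l₁ l₂ : List Bool) : sm (l₁ ++ l₂) = sm l₁ + sm l₂ := by simp [sm]

lemma sm_reverse (l : List Bool) : sm l.reverse = sm l := by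
  unfold sm
  rw [List.map_reverse, List.sum_reverse]

lemma sm_le (l : List Bool) : |sm l| ≤ l.length := by
  induction l with
  | nil => simp
  | cons b l ih =>
    rw [sm_cons, List.length_cons]
    have := abs_le.1 ih
    cases b <;> simp only [Bool.false_eq_true, if_true, if_false] <;> rw [abs_le] <;>
      constructor <;> push_cast <;> linarith

/-- stacks on both sides of a ribbon with `v` strands -/
structure VR (R : Bool → A → A → Prop) (v : ℤ) (S S' P P' : ℕ → A) : Prop where
  s1 : ∀ j k : ℕ, (k : ℤ) = v + j → S' j = S k
  s2 : ∀ j k : ℕ, (k : ℤ) = v + j → P' j = P k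
  pop : ∀ i j : ℕ, (i : ℤ) + j + 1 = v → R true (S i) (P j)
  push : ∀ i j : ℕ, (i : ℤ) + j + 1 = -v → R false (S' i) (P' j)

/-- **adjacent lanes with opposite signs cancel** -/
theorem contract {R : Bool → A → A → Prop}
    (hf : ∀ s s' a b b', R s a b → R s' a b' → b = b')
    (hg : ∀ s s' a a' b, R s a b → R s' a' b → a = a') (l : List (Bool × A × A)) :
    ∀ {S S' P P' : ℕ → A}, (∀ x ∈ l, R x.1 x.2.1 x.2.2) →
      SR (l.map fun x => (x.1, x.2.1)) S S' → SR (l.map fun x => (x.1, x.2.2)).reverse P P' →
      VR R (sm (l.map Prod.fst)) S S' P P' := by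
  induction l using List.reverseRecOn with
  | nil =>
    intro S S' P P' _ h1 h2
    have h1' : S = S' := h1
    have h2' : P = P' := h2
    subst h1' h2'
    refine ⟨?_, ?_, ?_, ?_⟩
    · intro j k h; simp only [List.map_nil, sm_nil, zero_add, Nat.cast_inj] at h; rw [h]
    · intro j k h; simp only [List.map_nil, sm_nil, zero_add, Nat.cast_inj] at h; rw [h]
    · intro i j h; simp only [List.map_nil, sm_nil] at h; omega
    · intro i j h; simp only [List.map_nil, sm_nil] at h; omega
  | append_singleton l x ih =>
    obtain ⟨s, a, b⟩ := x
    intro S S' P P' hR h1 h2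
    rw [List.map_append, sr_append] at h1
    rw [List.map_append, List.reverse_append] at h2
    obtain ⟨S₀, h1, h3⟩ := h1
    have hx : R s a b := hR (s, a, b) (by simp)
    rw [List.map_append, sm_append]
    cases s
    · -- a push
      have h4 : cons a S₀ = S' := h3
      have h5 : SR (l.map fun x => (x.1, x.2.2)).reverse (cons b P) P' := h2
      have h6 := ih (fun y hy => hR y (by simp [hy])) h1 h5
      set v : ℤ := sm (l.map Prod.fst) with hv
      have e : sm (List.map Prod.fst [(false, a, b)]) = -1 := by simp
      rw [e]
      subst h4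
      refine ⟨?_, ?_, ?_, ?_⟩
      · intro j k h
        rcases j with _ | j
        · rw [cons_zero]
          have h7 := h6.pop k 0 (by push_cast at *; omega)
          exact hg _ _ _ _ _ hx h7
        · rw [cons_succ]
          exact h6.s1 j k (by push_cast at *; omega)
      · intro j k h
        have h7 := h6.s2 j (k + 1) (by push_cast at *; omega)
        rw [h7, cons_succ]
      · intro i j h
        have h7 := h6.pop i (j + 1) (by push_cast at *; omega)
        exact h7
      · intro i j h
        rcases i with _ | i
        · rw [cons_zero]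
          have h7 := h6.s2 j 0 (by push_cast at *; omega)
          rw [h7, cons_zero]
          exact hx
        · rw [cons_succ]
          exact h6.push i j (by push_cast at *; omega)
    · -- a pop
      have h4 : a = S₀ 0 ∧ tl S₀ = S' := h3
      have h5 : b = P 0 ∧ SR (l.map fun x => (x.1, x.2.2)).reverse (tl P) P' := h2
      have h6 := ih (fun y hy => hR y (by simp [hy])) h1 h5.2
      set v : ℤ := sm (l.map Prod.fst) with hv
      have e : sm (List.map Prod.fst [(true, a, b)]) = 1 := by simp
      rw [e]
      obtain ⟨ha, hS⟩ := h4
      subst hS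
      refine ⟨?_, ?_, ?_, ?_⟩
      · intro j k h
        exact h6.s1 (j + 1) k (by push_cast at *; omega)
      · intro j k h
        rcases k with _ | k
        · have h7 := h6.push 0 j (by push_cast at *; omega)
          rw [← h5.1]
          rw [← ha] at h7
          exact (hf _ _ _ _ _ hx h7).symm
        · have h7 := h6.s2 j k (by push_cast at *; omega)
          rw [h7, tl_apply]
      · intro i j h
        rcases j with _ | j
        · have h7 := h6.s1 0 i (by push_cast at *; omega)
          rw [← h7, ← ha, ← h5.1]
          exact hx
        · have h7 := h6.pop i j (by push_cast at *; omega)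
          exact h7
      · intro i j h
        exact h6.push (i + 1) j (by push_cast at *; omega)

/-- **the lanes from the stacks** -/
theorem expand (ss : List Bool) : ∀ {S S' P P' : ℕ → A},
    VR (fun _ a b => a = b) (sm ss) S S' P P' → ∃ cs : List A, cs.length = ss.length ∧
      SR (ss.zip cs) S S' ∧ SR (ss.zip cs).reverse P P' := by
  induction ss using List.reverseRecOn with
  | nil =>
    intro S S' P P' h
    refine ⟨[], rfl, ?_, ?_⟩
    · show S = S'
      funext j
      exact (h.s1 j j (by simp)).symm
    · show P = P'
      funext j
      exact (h.s2 j j (by simp)).symm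
  | append_singleton ss s ih =>
    intro S S' P P' h
    rw [sm_append] at h
    set v : ℤ := sm ss with hv
    cases s
    · have e : sm [false] = -1 := by simp
      rw [e] at h
      have h1 : VR (fun _ a b => a = b) v S (tl S') (cons (S' 0) P) P' := by
        refine ⟨?_, ?_, ?_, ?_⟩
        · intro j k hk
          exact h.s1 (j + 1) k (by push_cast at *; omega)
        · intro j k hk
          rcases k with _ | k
          · rw [cons_zero]
            exact (h.push 0 j (by push_cast at *; omega)).symm
          · rw [cons_succ]
            exact h.s2 j k (by push_cast at *; omega)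
        · intro i j hk
          rcases j with _ | j
          · rw [cons_zero]
            exact (h.s1 0 i (by push_cast at *; omega)).symm
          · rw [cons_succ]
            exact h.pop i j (by push_cast at *; omega)
        · intro i j hk
          exact h.push (i + 1) j (by push_cast at *; omega)
      obtain ⟨cs, h2, h3, h4⟩ := ih h1
      refine ⟨cs ++ [S' 0], by simp [h2], ?_, ?_⟩
      · rw [List.zip_append h2.symm, sr_append]
        refine ⟨_, h3, ?_⟩
        show cons (S' 0) (tl S') = S'
        exact cons_tl S'
      · rw [List.zip_append h2.symm, List.reverse_append]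
        exact h4
    · have e : sm [true] = 1 := by simp
      rw [e] at h
      have h1 : VR (fun _ a b => a = b) v S (cons (P 0) S') (tl P) P' := by
        refine ⟨?_, ?_, ?_, ?_⟩
        · intro j k hk
          rcases j with _ | j
          · rw [cons_zero]
            exact (h.pop k 0 (by push_cast at *; omega)).symm
          · rw [cons_succ]
            exact h.s1 j k (by push_cast at *; omega)
        · intro j k hk
          rw [tl_apply]
          exact h.s2 j (k + 1) (by push_cast at *; omega)
        · intro i j hk
          exact h.pop i (j + 1) (by push_cast at *; omega)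
        · intro i j hk
          rcases i with _ | i
          · rw [cons_zero]
            exact (h.s2 j 0 (by push_cast at *; omega)).symm
          · rw [cons_succ]
            exact h.push i j (by push_cast at *; omega)
      obtain ⟨cs, h2, h3, h4⟩ := ih h1
      refine ⟨cs ++ [P 0], by simp [h2], ?_, ?_⟩
      · rw [List.zip_append h2.symm, sr_append]
        refine ⟨_, h3, ?_⟩
        show P 0 = cons (P 0) S' 0 ∧ tl (cons (P 0) S') = S'
        exact ⟨rfl, rfl⟩
      · rw [List.zip_append h2.symm, List.reverse_append]
        exact ⟨rfl, h4⟩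

/-- the lanes are unique -/
theorem unique (l : List (Bool × A)) : ∀ (l' : List (Bool × A)) {S S' P P' : ℕ → A},
    l.map Prod.fst = l'.map Prod.fst → SR l S S' → SR l.reverse P P' → SR l' S S' →
    SR l'.reverse P P' → l = l' := by
  induction l using List.reverseRecOn with
  | nil =>
    intro l' S S' P P' h _ _ _ _
    exact (List.map_eq_nil_iff.1 h.symm).symm
  | append_singleton l x ih =>
    obtain ⟨s, c⟩ := x
    intro l' S S' P P' h h1 h2 h3 h4
    induction l' using List.reverseRecOn with
    | nil => simp at h
    | append_singleton l' x' _ =>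
      obtain ⟨s', c'⟩ := x'
      rw [List.map_append, List.map_append, List.map_singleton, List.map_singleton] at h
      have h5 := List.append_inj' h rfl
      have h6 : s = s' := by simpa using h5.2
      subst h6
      obtain ⟨S₀, g1, h1'⟩ := sr_append.1 h1
      obtain ⟨S₁, g3, h3'⟩ := sr_append.1 h3
      rw [List.reverse_append] at h2 h4
      cases s
      · have e1 : cons c S₀ = S' := h1'
        have e2 : cons c' S₁ = S' := h3'
        have e3 : c = c' := congrFun (e1.trans e2.symm) 0
        have e4 : S₀ = S₁ := congrArg tl (e1.trans e2.symm)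
        subst e3 e4
        have e5 := ih l' h5.1 g1 (P := cons c P) h2 g3 h4
        rw [e5]
      · have e1 : c = S₀ 0 ∧ tl S₀ = S' := h1'
        have e2 : c' = S₁ 0 ∧ tl S₁ = S' := h3'
        have e3 : c = P 0 ∧ SR l.reverse (tl P) P' := h2
        have e4 : c' = P 0 ∧ SR l'.reverse (tl P) P' := h4
        have e5 : c = c' := e3.1.trans e4.1.symm
        have e6 : S₀ = S₁ := by
          rw [← cons_tl S₀, ← cons_tl S₁, e1.2, e2.2, ← e1.1, ← e2.1, e5]
        subst e5 e6
        have e7 := ih l' h5.1 g1 e3.2 g3 e4.2
        rw [e7]

end Pool.Agent.MP42.EO.Lay
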