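import Pool.Agent.MP42.TQ.SolTy
import Pool.Agent.MP42.TQ.LayW

/-!
# Token systems (owner helper18)

Tokens `t : T` in the order `F` of the circles, `w t = 1` pop, `w t = -1` push, `w t = 0` idle;
`lam t` = the token on the other side.  `TkS`: token system with one curve (`conn`), classes and
local conditions on the types.  `TkS.exists_ty`: the types exist.
-/

set_option autoImplicit false
set_option linter.unusedSectionVars false

namespace Pool.Agent.MP42.EO

open Pool.Agent.MP42.NE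

variable {T : Type*}

/-- the push `u` and the pop `t` are neighbours, up to idle tokens -/
def AdjT (F : Equiv.Perm T) (w : T → ℤ) (u t : T) : Prop :=
  w u = -1 ∧ w t = 1 ∧ ∃ n : ℕ, t = (F ^ (n + 1)) u ∧ ∀ m, 0 < m → m ≤ n → w ((F ^ m) u) = 0

lemma AdjT.mt {F : Equiv.Perm T} {w : T → ℤ} {u t : T} (h : AdjT F w u t) : Mt2 F w u t := by
  obtain ⟨h1, h2, n, h3, h4⟩ := h
  refine ⟨h1, ?_⟩
  have key : ∀ m ≤ n, (RE F w u 0 t ↔ RE F w ((F ^ m) u) 0 t) := by
    intro m
    induction m with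
    | zero => intro _; exact Iff.rfl
    | succ m ih =>
      intro hm
      have e : (F ^ (m + 1)) u = F ((F ^ m) u) := by rw [pow_succ']; rfl
      have h5 := h4 (m + 1) (by omega) hm
      rw [e] at h5 ⊢
      rw [ih (by omega), re_step (k := 0) (j := 0) (by rw [h5]; rfl)]
  rw [key n le_rfl, h3]
  have e : (F ^ (n + 1)) u = F ((F ^ n) u) := by rw [pow_succ']; rfl
  rw [e]
  apply RE.pop
  rw [← e, ← h3]
  exact h2

/-- the stack after every token -/
abbrev Stk (T : Type*) := T → ℕ → Prop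

open Classical in
/-- **Token systems** -/
structure TkS [Fintype T] (F : Equiv.Perm T) (lam : T → T) (w : T → ℤ) (K : ℕ) (r : T) (s : ℤ)
    (sg : T → ℤ) (cls : T → Prop) (okt : T → Bool → Bool → Prop) (Pos : T → Bool → Prop)
    (a0 : T → Bool) : Prop where
  ll : ∀ t, lam (lam t) = t
  wl : ∀ t, w (lam t) = w t
  w1 : ∀ t, w t = -1 ∨ w t = 0 ∨ w t = 1
  sg1 : ∀ t, sg t = 1 ∨ sg t = -1
  sgF : ∀ t, sg (F t) = sg t
  sgr : sg r = s
  sum : ∀ t, ∑ u ∈ Finset.univ.filter (fun u => F.SameCycle t u), w u = 2 * sg t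
  pb : PB F w K
  conn : ∀ (S : Stk T) (ρ : T → Prop), TS F lam w S → (∀ t, ρ (F t) ↔ ρ t) →
    (∃ M : ℕ, ∀ t, ¬ F.SameCycle t r → ∀ j, M ≤ j → (S t j ↔ ρ t)) → ∃ c : Prop, ∀ t j, S t j ↔ c
  clsF : ∀ t, cls (F t) ↔ cls t
  oks : ∀ t a b, okt t a b → okt (lam t) b a
  nosink : ∀ t, w t ≠ 0 → Det w cls t ∨ Det w cls (lam t)
  src : ∀ t, w t ≠ 0 → Det w cls t → Det w cls (lam t) → okt t (a0 t) (a0 (lam t)) ∧ Pos t (a0 t)
  flow : ∀ t, w t ≠ 0 → Det w cls t → ¬ Det w cls (lam t) → ∀ b, Pos (lam t) b →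
    ∃ a, Pos t a ∧ okt t a b
  strand : ∀ t, w t ≠ 0 → ¬ Det w cls t → (∀ a, Pos t a) ∨
    ∃ u, (AdjT F w u t ∨ AdjT F w t u) ∧ ∀ a, Pos u a → Pos t a
  root : s = 1 ↔ ¬ cls r
  pos : ∀ t, w t ≠ 0 → ∃ a, Pos t a

namespace TkS

variable [Fintype T] {F : Equiv.Perm T} {lam : T → T} {w : T → ℤ} {K : ℕ} {r : T} {s : ℤ}
  {sg : T → ℤ} {cls : T → Prop} {okt : T → Bool → Bool → Prop} {Pos : T → Bool → Prop}
  {a0 : T → Bool}

lemma toD (H : TkS F lam w K r s sg cls okt Pos a0) :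
    TyD F lam (fun t _ a b => okt t a b) K (fun _ => True) r s w sg cls Pos a0 where
  tt := H.ll
  vτ := H.wl
  v1 := H.w1
  vG := fun t h => absurd trivial h
  GE := fun _ => Iff.rfl
  rG := trivial
  sg1 := H.sg1
  sgE := H.sgF
  sgr := H.sgr
  cirs := fun t _ => cir_of_sum t (H.sg1 t) (H.sum t) H.pb
  conn := fun S hS hd => by
    obtain ⟨c, hc⟩ := H.conn S (fun _ => False) hS (fun _ => Iff.rfl)
      ⟨K + 1, fun t _ j hj => iff_of_false (hd t trivial j hj) (fun h => h)⟩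
    exact ⟨c, fun t _ j => hc t j⟩
  clsE := H.clsF
  oks := fun t _ a b h => H.oks t a b h
  nosink := H.nosink
  src := H.src
  flow := H.flow
  strand := by
    intro x y h hd a ha
    have hy : ¬ Det w cls y := by rw [h.det H.clsF]; exact not_not.2 hd
    rcases H.strand y h.symm.ne hy with h1 | ⟨u, h1, h2⟩
    · exact h1 a
    · have h3 : Par F w y u := by
        rcases h1 with h1 | h1
        · exact Or.inr h1.mt
        · exact Or.inl h1.mt
      have h4 := h.symm.uniq h3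
      subst h4
      exact h2 a ha
  root := H.root
  rootPos := by
    intro x _ hx hd hn a
    rcases H.strand x hx hd with h1 | ⟨u, h1, h2⟩
    · exact h1 a
    · exfalso
      apply hn u
      rcases h1 with h1 | h1
      · exact Or.inr h1.mt
      · exact Or.inl h1.mt
  pos := H.pos

/-- the type of a token -/
def tyk (F : Equiv.Perm T) (w : T → ℤ) (κ : T → ℕ → Bool) (t : T) : Bool :=
  if w t = 1 then κ (F.symm t) 0 else κ t 0

/-- **the types exist** -/
theorem exists_ty (H : TkS F lam w K r s sg cls okt Pos a0) (t0 t1 : Bool) :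
    ∃ κ : T → ℕ → Bool, TTS F lam w (fun t _ a b => okt t a b) κ ∧
      (∀ t j, K + 1 ≤ j → κ t (j + 2) = κ t j) ∧
      (∀ t, F.SameCycle r t → ∃ ε : ℕ, ∀ j, K + 1 ≤ j → κ t j = if (j + ε) % 2 = 0 then t0 else t1) ∧
      (∀ t, w t ≠ 0 → Pos t (tyk F w κ t)) ∧
      ∀ t, w t ≠ 0 → okt t (tyk F w κ t) (tyk F w κ (lam t)) := by
  obtain ⟨κ, h1, h2, -, h4, h5, h6⟩ := H.toD.exists_kappa t0 t1
  refine ⟨κ, h1, h2, h4, ?_, ?_⟩
  · intro t ht
    unfold tyk
    split_ifs with h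
    · exact h5 t h
    · exact h6 t (by have := H.w1 t; omega)
  · intro t ht
    unfold tyk
    rw [H.wl]
    split_ifs with h
    · exact h1.pop t 0 0 (by rw [h]; rfl)
    · exact h1.push t 0 0 (by
        have := H.w1 t
        have h7 : w t = -1 := by omega
        rw [h7]; rfl)

end TkS

end Pool.Agent.MP42.EO
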