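import Pool.Agent.MP42.TQ.LayZ
import Pool.Agent.MP42.TQ.LayO

/-!
# The big map of a region and its units (owner helper18)
-/

set_option autoImplicit false
set_option linter.unusedSectionVars false

namespace Pool.Agent.MP42.O3

variable {D : Type*}

/-- **restriction of a big map** to a set of corners -/
def BM.sub (M : BM D) (W : D → Prop) (hE : ∀ x, W (M.E x) ↔ W x) (hτ : ∀ x, W (M.τ x) ↔ W x) :
    BM {x // W x} where
  E := M.E.subtypePerm hE
  τ x := ⟨M.τ x.1, (hτ x.1).2 x.2⟩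
  lab x := M.lab x.1
  ek x := M.ek x.1
  ττ x := Subtype.ext (M.ττ x.1)
  lab_nu x := M.lab_nu x.1
  n3 x h := Subtype.ext (M.n3 x.1 h)
  n4 x h := Subtype.ext (M.n4 x.1 h)
  ekτ x := M.ekτ x.1
  ekok x := M.ekok x.1
  ekP x h := Subtype.ext (M.ekP x.1 h)

section

variable {M : BM D} {W : D → Prop} {hE : ∀ x, W (M.E x) ↔ W x} {hτ : ∀ x, W (M.τ x) ↔ W x}

lemma BM.sub_E (x : {x // W x}) : ((M.sub W hE hτ).E x).1 = M.E x.1 := rfl

lemma BM.sub_ν (x : {x // W x}) : ((M.sub W hE hτ).ν x).1 = M.ν x.1 := rfl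

lemma BM.sub_Esymm (x : {x // W x}) : ((M.sub W hE hτ).E.symm x).1 = M.E.symm x.1 := by
  rw [Equiv.eq_symm_apply]
  have h := congrArg Subtype.val ((M.sub W hE hτ).E.apply_symm_apply x)
  exact h

lemma BM.sub_μ (x : {x // W x}) : ((M.sub W hE hτ).μ x).1 = M.μ x.1 :=
  BM.sub_Esymm _

lemma BM.sub_pos (x : {x // W x}) : (M.sub W hE hτ).pos x = M.pos x.1 := rfl

lemma BM.sub_opp (x : {x // W x}) : (EO.opp (M.sub W hE hτ) x).1 = EO.opp M x.1 :=
  BM.sub_μ _

end

namespace UM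

variable {P : Type*} {U : UM P} [Finite P]

/-- units of an edge from both sides -/
lemma unit_back {c z : U.D} (hz : U.ν' z = U.E' c) {j : ℕ} (hj : j ≤ U.len c) :
    (U.E ^ (U.len c - j + 1)) z.1 = U.τ ((U.E ^ (j + 1)) c.1) := by
  have h1 : U.n z.1 = (U.E' c).1 := congrArg Subtype.val hz
  have h2 : U.E z.1 = U.τ ((U.E ^ (U.len c + 1)) c.1) := by
    rw [← E'_val, ← h1]
    exact (U.ττ _).symm
  have h3 := walk_back (U := U) (c := c.1) (n := U.len c) (fun j hj => len_not hj)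
    (U.len c - j) (by omega)
  rw [pow_succ, Equiv.Perm.mul_apply, h2, h3]
  congr 3
  omega

lemma opp_ν' (c : U.D) : U.ν' (EO.opp U.toBM c) = U.E' c := by
  have h1 : U.toBM.ν (U.toBM.μ (U.E' c)) = U.E' c := U.toBM.ν_μ (U.E' c)
  have h2 : ∀ z, U.toBM.ν z = U.ν' z := fun z => τ'_E' z
  rw [h2] at h1
  exact h1

lemma ν_toBM (x : U.D) : U.toBM.ν x = U.ν' x := τ'_E' x

/-- an edge of the kind `R` has a real unit -/
lemma HR_of_ek {c : U.D} (h : U.toBM.ek (U.toBM.ν c) = .R) : U.HR c := by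
  by_contra hc
  have h1 : U.ek' (U.τ' (U.E' c)) = .R := h
  rw [ek'_τ'] at h1
  unfold ek' at h1
  have e : U.E'.symm (U.E' c) = c := Equiv.symm_apply_apply _ _
  rw [e, if_neg hc] at h1
  split_ifs at h1 with h2
  have e2 : (U.τ' (U.E' c)).1 = U.n c.1 := congrArg Subtype.val (τ'_E' c)
  rw [e2] at h1
  have h3 := auto c hc (U.len c) le_rfl
  rw [← E'_val, U.un] at h3
  revert h1 h3
  cases U.ps (U.n c.1) <;> cases U.ps (U.E' c).1 <;> simp [st, Pos.op, base]

/-- index of the first real unit -/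
noncomputable def fr (U : UM P) (c : U.D) : ℕ := retN U.E (fun x => U.ps x = .r) c.1

lemma fr_le {c : U.D} {i : ℕ} (h : U.ps ((U.E ^ (i + 1)) c.1) = .r) : U.fr c ≤ i := by
  by_contra hc
  exact retN_not (not_le.1 hc) h

lemma fr_spec {c : U.D} (h : U.HR c) :
    U.fr c ≤ U.len c ∧ U.ps ((U.E ^ (U.fr c + 1)) c.1) = .r := by
  obtain ⟨i, hi, h1⟩ := h
  refine ⟨(fr_le h1).trans hi, ?_⟩
  have h2 : U.ps (retFun U.E (fun x => U.ps x = .r) c.1) = .r :=
    retFun_spec (p := fun x => U.ps x = .r) ⟨i + 1, h1⟩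
  rw [retFun_eq] at h2
  exact h2

lemma fr_opp {c z : U.D} (hz : U.ν' z = U.E' c) (h : U.HR c) : U.fr c + U.fr z ≤ U.len c := by
  obtain ⟨h1, h2⟩ := fr_spec h
  have h3 : U.fr z ≤ U.len c - U.fr c := by
    apply fr_le
    rw [unit_back hz h1, U.un, h2]
    rfl
  omega

end UM

end Pool.Agent.MP42.O3

namespace Pool.Agent.MP42.EO

open Pool.Agent.Helper55.UNF Pool.Agent.Helper55.UNF.GridSolid Pool.Agent.MP42.NE
open Pool.Agent.MP42.Geo Pool.Agent.MP42NG Pool.Agent.MP42 Pool.Agent.MP42.O3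

variable {Q : GridSolid} {a b : Fin 3} (hM : Q.IsManifold) (hab : a ≠ b)

section

variable {hM hab}

lemma bg_of_quad {x : RD Q a b} (h : Quad hab x) : (UMH hM hab).Bg x := h.1

lemma quad_iff_isB (x : (UMH hM hab).D) :
    Quad hab x.1 ↔ ((UMH hM hab).toBM.lab x).isB = true := by
  have e : (UMH hM hab).toBM.lab x = (UMH hM hab).lab' x := rfl
  rw [e]
  constructor
  · intro h
    have h1 : (UMH hM hab).n ((UMH hM hab).n ((UMH hM hab).n x.1)) ≠ x.1 := h.2
    obtain ⟨-, h2 | h2⟩ := UM.lab'_4 h1 <;> rw [h2.2.2] <;> rfl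
  · intro h
    refine ⟨x.2, ?_⟩
    intro h1
    have h1' : (UMH hM hab).n ((UMH hM hab).n ((UMH hM hab).n x.1)) = x.1 := h1
    obtain ⟨h2, h3⟩ := UM.lab'_3 h1'
    rw [h2, (labOf_pos _ _ _ h3).2.1] at h
    exact absurd h (by decide)

lemma real_iff_B2 {x : (UMH hM hab).D} (h : Quad hab x.1) :
    Real x.1.1 ↔ (UMH hM hab).toBM.lab x = .B2 := by
  have e : (UMH hM hab).toBM.lab x = (UMH hM hab).lab' x := rfl
  have h1 : (UMH hM hab).n ((UMH hM hab).n ((UMH hM hab).n x.1)) ≠ x.1 := h.2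
  have h0 : Real x.1.1 ↔ (UMH hM hab).ps x.1 = .r := (psH_r x.1).symm
  rw [e, h0]
  obtain ⟨-, h2 | h2⟩ := UM.lab'_4 h1
  · exact ⟨fun _ => h2.2.2, fun _ => h2.1⟩
  · constructor
    · intro h3; rw [h2.1] at h3; exact absurd h3 (by decide)
    · intro h3; rw [h2.2.2] at h3; exact absurd h3 (by decide)

end

open Classical in
/-- number of the thin ribbons behind a corner -/
noncomputable def ntH (x : RD Q a b) : ℕ := if Quad hab x then 1 else 0

lemma ntH_one {x : RD Q a b} (h : Quad hab x) : ntH hab x = 1 := if_pos h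

lemma ntH_zero {x : RD Q a b} (h : ¬ Quad hab x) : ntH hab x = 0 := if_neg h

/-- the first unit of the departing edge -/
lemma EE_first (x : RD Q a b) :
    ((TAl hM hab).EE hab ^ (ntH hab x + 1)) (d0' hM hab x) = d0' hM hab (EH hab x) := by
  by_cases h : Quad hab x
  · rw [ntH_one hab h, pow_succ, Equiv.Perm.mul_apply, EE_d0_quad hM hab h, pow_one,
      EE_th hM hab h]
  · rw [ntH_zero hab h, zero_add, pow_one, EE_d0 hM hab h]

/-- the units of the departing edge -/
lemma EE_unit (x : RD Q a b) : ∀ j : ℕ, (∀ m, 0 < m → m ≤ j → ¬ Quad hab ((EH hab ^ m) x)) →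
    ((TAl hM hab).EE hab ^ (ntH hab x + j + 1)) (d0' hM hab x) =
      d0' hM hab ((EH hab ^ (j + 1)) x) := by
  intro j
  induction j with
  | zero => intro _; rw [zero_add, pow_one]; exact EE_first hM hab x
  | succ j ih =>
    intro h
    have h1 := ih (fun m h1 h2 => h m h1 (by omega))
    have e1 : ntH hab x + (j + 1) + 1 = (ntH hab x + j + 1) + 1 := by omega
    rw [e1, pow_succ', Equiv.Perm.mul_apply, h1, EE_d0 hM hab (h (j + 1) (by omega) le_rfl),
      pow_succ' _ (j + 1)]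
    rfl

lemma d0'_inj {x y : RD Q a b} (h : d0' hM hab x = d0' hM hab y) : x = y := by
  have h1 := congrArg (fun p : (TAl hM hab).TR hab => p.1.1.1) h
  exact Subtype.ext h1

lemma th'_inj {x y : RD Q a b} {hx : Quad hab x} {hy : Quad hab y}
    (h : th' hM hab x hx = th' hM hab y hy) : x = y := by
  have h1 := congrArg (fun p : (TAl hM hab).TR hab => p.1.1.1) h
  exact Subtype.ext h1

lemma d0'_ne_th' {x y : RD Q a b} {hy : Quad hab y} : d0' hM hab x ≠ th' hM hab y hy := by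
  intro h
  have h1 := congrArg (fun p : (TAl hM hab).TR hab => p.1.1.2) h
  have h2 : (0 : ℕ) = 1 := h1
  omega

section region

variable (W : (UMH hM hab).D → Prop) (hE : ∀ x, W ((UMH hM hab).toBM.E x) ↔ W x)
  (hτ : ∀ x, W ((UMH hM hab).toBM.τ x) ↔ W x)

lemma unit_x (x : (UMH hM hab).D) {j : ℕ} (hj : j ≤ (UMH hM hab).len x) :
    ((TAl hM hab).EE hab ^ (ntH hab x.1 + j + 1)) (d0' hM hab x.1) =
      d0' hM hab ((EH hab ^ (j + 1)) x.1) := by
  apply EE_unit
  intro m h1 h2 h3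
  have h4 := UM.len_not (U := UMH hM hab) (c := x) (j := m - 1) (by omega)
  rw [show m - 1 + 1 = m by omega] at h4
  exact h4 h3.1

/-- **the segments of the units of a region** -/
theorem segH : Seg ((UMH hM hab).toBM.sub W hE hτ) ((TAl hM hab).EE hab) ((TAl hM hab).tau hab)
    (fun x => d0' hM hab x.1.1) (fun x => ntH hab x.1.1) (fun x => (UMH hM hab).len x.1) where
  ττ y := by
    apply Subtype.ext
    exact Sys.ta_ta (S := (TAl hM hab).tsys hab) y.1
  ntν x := by
    have key : ∀ y : RD Q a b, Quad hab y →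
        Quad hab (nu (EH hab) (tH hab) (nu (EH hab) (tH hab) y)) := fun y hy =>
      (quad_nu hM hab (quad_nu hM hab hy).1).1
    have e : (((UMH hM hab).toBM.sub W hE hτ).ν (((UMH hM hab).toBM.sub W hE hτ).ν x)).1.1 =
        nu (EH hab) (tH hab) (nu (EH hab) (tH hab) x.1.1) := by
      rw [BM.sub_ν, BM.sub_ν, UM.ν_toBM, UM.ν_toBM]; rfl
    show ntH hab (((UMH hM hab).toBM.sub W hE hτ).ν (((UMH hM hab).toBM.sub W hE hτ).ν x)).1.1 =
      ntH hab x.1.1
    rw [e]
    by_cases h : Quad hab x.1.1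
    · rw [ntH_one hab h, ntH_one hab (key _ h)]
    · rw [ntH_zero hab h, ntH_zero hab]
      intro h1
      apply h
      obtain ⟨q1, q2⟩ := quad_nu hM hab h1
      obtain ⟨q3, -⟩ := quad_nu hM hab q1
      have h2 := quad_nu hM hab h1
      -- valence four
      have hB := (quad_iff_isB (hM := hM)
        ((UMH hM hab).toBM.ν ((UMH hM hab).toBM.ν x.1))).1 (by
          rw [UM.ν_toBM, UM.ν_toBM]; exact h1)
      rw [BM.isB_ν, BM.isB_ν] at hB
      exact (quad_iff_isB (hM := hM) x.1).2 hB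
  nt1 x := by
    show ntH hab x.1.1 ≤ 1
    unfold ntH
    split_ifs <;> omega
  cE x := by
    show ((TAl hM hab).EE hab ^ (ntH hab x.1.1 + (UMH hM hab).len x.1 + 1)) (d0' hM hab x.1.1) =
      d0' hM hab ((UMH hM hab).E' x.1).1
    rw [unit_x hM hab x.1 le_rfl, UM.E'_val]
    rfl
  inj x y i j hi hj h := by
    have key : ∀ (z : {x // W x}) (i : ℕ), i ≤ ntH hab z.1.1 + (UMH hM hab).len z.1 →
        (∃ q : Quad hab z.1.1, i = 0 ∧ ((TAl hM hab).EE hab ^ (i + 1)) (d0' hM hab z.1.1) =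
          th' hM hab z.1.1 q) ∨
        ∃ m, i = ntH hab z.1.1 + m ∧ m ≤ (UMH hM hab).len z.1 ∧
          ((TAl hM hab).EE hab ^ (i + 1)) (d0' hM hab z.1.1) =
            d0' hM hab ((EH hab ^ (m + 1)) z.1.1) := by
      intro z i hi
      by_cases h1 : i < ntH hab z.1.1
      · left
        by_cases hq : Quad hab z.1.1
        · rw [ntH_one hab hq] at h1
          have h2 : i = 0 := by omega
          subst h2
          refine ⟨hq, rfl, ?_⟩
          rw [zero_add, pow_one, EE_d0_quad hM hab hq]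
        · rw [ntH_zero hab hq] at h1; omega
      · right
        refine ⟨i - ntH hab z.1.1, by omega, by omega, ?_⟩
        have h2 := unit_x hM hab z.1 (j := i - ntH hab z.1.1) (by omega)
        rw [show ntH hab z.1.1 + (i - ntH hab z.1.1) = i by omega] at h2
        exact h2
    rcases key x i hi with ⟨q, h1, h2⟩ | ⟨m, h1, h2, h3⟩ <;>
      rcases key y j hj with ⟨q', h1', h2'⟩ | ⟨m', h1', h2', h3'⟩
    · rw [h2, h2'] at h
      exact ⟨Subtype.ext (Subtype.ext (th'_inj hM hab h)), by omega⟩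
    · rw [h2, h3'] at h
      exact absurd h.symm (d0'_ne_th' hM hab)
    · rw [h3, h2'] at h
      exact absurd h (d0'_ne_th' hM hab)
    · rw [h3, h3'] at h
      have h4 := d0'_inj hM hab h
      have key2 : ∀ (x y : {x // W x}) (m m' : ℕ), m ≤ m' → m' ≤ (UMH hM hab).len y.1 →
          (EH hab ^ (m + 1)) x.1.1 = (EH hab ^ (m' + 1)) y.1.1 → x = y ∧ m = m' := by
        intro x y m m' hmm hm' h4
        obtain ⟨k, rfl⟩ := Nat.exists_eq_add_of_le hmm
        have h5 : x.1.1 = (EH hab ^ k) y.1.1 := by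
          apply (EH hab ^ (m + 1)).injective
          rw [h4, ← Equiv.Perm.mul_apply, ← pow_add]
          congr 2
          omega
        rcases Nat.eq_zero_or_pos k with h6 | h6
        · subst h6
          exact ⟨Subtype.ext (Subtype.ext h5), rfl⟩
        · exfalso
          have h7 := UM.len_not (U := UMH hM hab) (c := y.1) (j := k - 1) (by omega)
          rw [show k - 1 + 1 = k by omega] at h7
          apply h7
          have h8 : ((UMH hM hab).E ^ k) y.1.1 = x.1.1 := h5.symm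
          rw [h8]
          exact x.1.2
      rcases le_total m m' with h5 | h5
      · obtain ⟨h6, h7⟩ := key2 x y m m' h5 h2' h4
        refine ⟨h6, ?_⟩
        rw [h1, h1', h6, h7]
      · obtain ⟨h6, h7⟩ := key2 y x m' m h5 h2 h4.symm
        refine ⟨h6.symm, ?_⟩
        rw [h1, h1', h6, h7]
  lenz x := by
    have h1 := UM.opp_ν' (U := UMH hM hab) x.1
    have h2 := BM.sub_opp (hE := hE) (hτ := hτ) x
    unfold opp at h2
    show (UMH hM hab).len ((((UMH hM hab).toBM.sub W hE hτ).μ _).1) = _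
    rw [h2]
    exact UM.len_back _ _ h1
  tu x j hj := by
    have h1 := UM.opp_ν' (U := UMH hM hab) x.1
    have h2 := BM.sub_opp (hE := hE) (hτ := hτ) x
    unfold opp at h2
    have hj' : j ≤ (UMH hM hab).len x.1 := hj
    show (TAl hM hab).tau hab (((TAl hM hab).EE hab ^ (ntH hab x.1.1 + j + 1))
      (d0' hM hab x.1.1)) = ((TAl hM hab).EE hab ^ (ntH hab
        (((UMH hM hab).toBM.sub W hE hτ).μ (((UMH hM hab).toBM.sub W hE hτ).E x)).1.1 +
          ((UMH hM hab).len x.1 - j) + 1)) (d0' hM hab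
          (((UMH hM hab).toBM.sub W hE hτ).μ (((UMH hM hab).toBM.sub W hE hτ).E x)).1.1)
    rw [h2, unit_x hM hab x.1 hj', tau_d0]
    have h3 := UM.len_back _ _ h1
    have h4 := unit_x hM hab (opp (UMH hM hab).toBM x.1) (j := (UMH hM hab).len x.1 - j)
      (by rw [h3]; omega)
    have h5 := UM.unit_back h1 hj'
    have h6 : (EH hab ^ ((UMH hM hab).len x.1 - j + 1)) (opp (UMH hM hab).toBM x.1).1 =
        tH hab ((EH hab ^ (j + 1)) x.1.1) := h5
    rw [h6] at h4
    exact h4.symm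
  tt x h := by
    have h' : ntH hab x.1.1 = 1 := h
    have hq : Quad hab x.1.1 := by
      by_contra hq
      rw [ntH_zero hab hq] at h'; omega
    show (TAl hM hab).tau hab ((TAl hM hab).EE hab (d0' hM hab x.1.1)) =
      (TAl hM hab).EE hab (d0' hM hab (((UMH hM hab).toBM.sub W hE hτ).ν
        (((UMH hM hab).toBM.sub W hE hτ).ν x)).1.1)
    have e : (((UMH hM hab).toBM.sub W hE hτ).ν (((UMH hM hab).toBM.sub W hE hτ).ν x)).1.1 =
        nu (EH hab) (tH hab) (nu (EH hab) (tH hab) x.1.1) := by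
      rw [BM.sub_ν, BM.sub_ν, UM.ν_toBM, UM.ν_toBM]; rfl
    rw [e, EE_d0_quad hM hab hq, tau_th, EE_d0_quad]

end region

end Pool.Agent.MP42.EO
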