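import Pool.Agent.MP42.TQ.LayB
import Pool.Agent.MP42.O3.Def

/-!
# The tokens of a layout (owner helper18)

A layout of crossings on the big map: `w x` = the crossings of the edge between the corners `x` and
`ν x` which belong to this vertex, from the vertex outwards, `th x` = the thin crossings at the
corner `x`.  A crossing is a pair (sign, lane).
-/

set_option autoImplicit false
set_option linter.unusedSectionVars false

namespace Pool.Agent.MP42.EO

open Pool.Agent.MP42.NE Pool.Agent.MP42.O3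

/-- kinds of tokens: a crossing seen from its own corner `x`, the same seen from the corner `ν x`,
a thin crossing, the idle token of a corner -/
inductive TK | cr | cl | tn | id
  deriving DecidableEq, Fintype

/-- the sign of a crossing -/
def sgq (q : Bool × ℕ) : ℤ := if q.1 then 1 else -1

lemma sgq_ne (q : Bool × ℕ) : sgq q ≠ 0 := by unfold sgq; split_ifs <;> omega

lemma sgq_or (q : Bool × ℕ) : sgq q = -1 ∨ sgq q = 1 := by unfold sgq; split_ifs <;> omega

/-- **layouts** -/
structure Layt {X : Type*} (M : BM X) where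
  w : X → List (Bool × ℕ)
  th : X → List (Bool × ℕ)
  /-- the lanes whose unit is chosen after the types -/
  dl : X → ℕ → Bool
  thr : ∀ x, th (M.ν (M.ν x)) = (th x).reverse

namespace Layt

variable {X : Type*} {M : BM X} (L : Layt M)

/-- valid tokens -/
def Val : TK → X → ℕ → Prop
  | .cr, x, i => i < (L.w x).length
  | .cl, x, i => i < (L.w x).length
  | .tn, x, i => i < (L.th x).length
  | .id, _, i => i = 0

/-- the tokens -/
abbrev Tok : Type _ := {p : TK × X × ℕ // L.Val p.1 p.2.1 p.2.2}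

instance [Finite X] : Finite L.Tok := by
  classical
  obtain ⟨N, hN⟩ : ∃ N, ∀ x : X, (L.w x).length + (L.th x).length ≤ N := by
    obtain ⟨N, hN⟩ := (Set.finite_range fun x => (L.w x).length + (L.th x).length).bddAbove
    exact ⟨N, fun x => hN ⟨x, rfl⟩⟩
  have h1 : ∀ t : L.Tok, t.1.2.2 < N + 1 := by
    rintro ⟨⟨k, x, i⟩, h⟩
    have h2 := hN x
    cases k <;> simp only [Val] at h <;> show i < N + 1 <;> omega
  refine Finite.of_injective
    (fun t : L.Tok => ((t.1.1, t.1.2.1, ⟨t.1.2.2, h1 t⟩) : TK × X × Fin (N + 1))) ?_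
  intro t u h
  apply Subtype.ext
  have h2 := congrArg Prod.fst h
  have h3 := congrArg (fun z : TK × X × Fin (N + 1) => z.2.1) h
  have h4 := congrArg (fun z : TK × X × Fin (N + 1) => (z.2.2 : ℕ)) h
  exact Prod.ext h2 (Prod.ext h3 h4)

noncomputable instance [Finite X] : Fintype L.Tok := Fintype.ofFinite _

variable {L}

lemma tok_ext {t u : L.Tok} (h1 : t.1.1 = u.1.1) (h2 : t.1.2.1 = u.1.2.1)
    (h3 : t.1.2.2 = u.1.2.2) : t = u := Subtype.ext (Prod.ext h1 (Prod.ext h2 h3))

variable (L)

/-- a token -/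
def tok (k : TK) (x : X) (i : ℕ) (h : L.Val k x i) : L.Tok := ⟨(k, x, i), h⟩

/-- the idle token of a corner -/
def idt (x : X) : L.Tok := ⟨(.id, x, 0), rfl⟩

/-- the sign of a token -/
def wt (t : L.Tok) : ℤ :=
  match t.1.1 with
  | .cr => sgq ((L.w t.1.2.1).getD t.1.2.2 (true, 0))
  | .cl => sgq ((L.w t.1.2.1).getD t.1.2.2 (true, 0))
  | .tn => sgq ((L.th t.1.2.1).getD t.1.2.2 (true, 0))
  | .id => 0

/-- the other side -/
def lam (t : L.Tok) : L.Tok :=
  match t with
  | ⟨(.cr, x, i), h⟩ => ⟨(.cl, x, i), h⟩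
  | ⟨(.cl, x, i), h⟩ => ⟨(.cr, x, i), h⟩
  | ⟨(.tn, x, i), h⟩ => ⟨(.tn, M.ν (M.ν x), (L.th x).length - 1 - i), by
      simp only [Val] at h ⊢
      rw [L.thr, List.length_reverse]; omega⟩
  | ⟨(.id, x, i), h⟩ => ⟨(.id, x, i), h⟩

variable {L}

/-- four steps around the vertex -/
lemma ν4 (hB : ∀ x, (M.lab x).isB = false → L.th x = []) {x : X} (h : L.th x ≠ []) :
    M.ν (M.ν (M.ν (M.ν x))) = x := by
  rcases hb : (M.lab x).isB with _ | _
  · exact absurd (hB x hb) h
  · exact M.n4 x hb

lemma lam_lam (hB : ∀ x, (M.lab x).isB = false → L.th x = []) (t : L.Tok) :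
    L.lam (L.lam t) = t := by
  obtain ⟨⟨k, x, i⟩, h⟩ := t
  cases k
  · rfl
  · rfl
  · have h' : i < (L.th x).length := h
    have h1 : L.th x ≠ [] := by intro h1; rw [h1] at h'; simp at h'
    apply tok_ext
    · rfl
    · exact ν4 hB h1
    · show (L.th (M.ν (M.ν x))).length - 1 - ((L.th x).length - 1 - i) = i
      rw [L.thr, List.length_reverse]; omega
  · rfl

lemma wt_or (t : L.Tok) : L.wt t = -1 ∨ L.wt t = 0 ∨ L.wt t = 1 := by
  obtain ⟨⟨k, x, i⟩, h⟩ := t
  cases k
  · rcases sgq_or ((L.w x).getD i (true, 0)) with h | h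
    · exact Or.inl h
    · exact Or.inr (Or.inr h)
  · rcases sgq_or ((L.w x).getD i (true, 0)) with h | h
    · exact Or.inl h
    · exact Or.inr (Or.inr h)
  · rcases sgq_or ((L.th x).getD i (true, 0)) with h | h
    · exact Or.inl h
    · exact Or.inr (Or.inr h)
  · exact Or.inr (Or.inl rfl)

lemma wt_ne {t : L.Tok} : L.wt t ≠ 0 ↔ t.1.1 ≠ .id := by
  obtain ⟨⟨k, x, i⟩, h⟩ := t
  cases k
  · exact ⟨fun _ => by simp, fun _ => sgq_ne _⟩
  · exact ⟨fun _ => by simp, fun _ => sgq_ne _⟩
  · exact ⟨fun _ => by simp, fun _ => sgq_ne _⟩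
  · exact ⟨fun h => absurd rfl h, fun h => absurd rfl h⟩

lemma lam_kind_id (t : L.Tok) : (L.lam t).1.1 = .id ↔ t.1.1 = .id := by
  obtain ⟨⟨k, x, i⟩, h⟩ := t
  cases k <;> simp [lam]

lemma wt_lam (t : L.Tok) : L.wt (L.lam t) = L.wt t := by
  obtain ⟨⟨k, x, i⟩, h⟩ := t
  cases k
  · rfl
  · rfl
  · have h' : i < (L.th x).length := h
    show sgq ((L.th (M.ν (M.ν x))).getD ((L.th x).length - 1 - i) (true, 0)) =
      sgq ((L.th x).getD i (true, 0))
    rw [L.thr, List.getD_eq_getElem _ _ (by rw [List.length_reverse]; omega),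
      List.getD_eq_getElem _ _ h', List.getElem_reverse]
    congr 2
    omega
  · rfl

variable (L)

/-- the crossings at the corner `x` on the departing edge -/
def crs (x : X) : List L.Tok := List.ofFn fun i : Fin (L.w x).length => L.tok .cr x i i.2

/-- the same crossings seen from the corner `ν x` -/
def cls (x : X) : List L.Tok := List.ofFn fun i : Fin (L.w x).length => L.tok .cl x i i.2

/-- the thin crossings at the corner `x` -/
def tns (x : X) : List L.Tok := List.ofFn fun i : Fin (L.th x).length => L.tok .tn x i i.2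

variable {L}

lemma mem_crs {x : X} {t : L.Tok} : t ∈ L.crs x ↔ t.1.1 = .cr ∧ t.1.2.1 = x := by
  unfold crs
  rw [List.mem_ofFn]
  constructor
  · rintro ⟨i, rfl⟩; exact ⟨rfl, rfl⟩
  · obtain ⟨⟨k, y, i⟩, h⟩ := t
    rintro ⟨h1, h2⟩
    simp only at h1 h2
    subst h1 h2
    exact ⟨⟨i, h⟩, rfl⟩

lemma mem_cls {x : X} {t : L.Tok} : t ∈ L.cls x ↔ t.1.1 = .cl ∧ t.1.2.1 = x := by
  unfold cls
  rw [List.mem_ofFn]
  constructor
  · rintro ⟨i, rfl⟩; exact ⟨rfl, rfl⟩
  · obtain ⟨⟨k, y, i⟩, h⟩ := t
    rintro ⟨h1, h2⟩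
    simp only at h1 h2
    subst h1 h2
    exact ⟨⟨i, h⟩, rfl⟩

lemma mem_tns {x : X} {t : L.Tok} : t ∈ L.tns x ↔ t.1.1 = .tn ∧ t.1.2.1 = x := by
  unfold tns
  rw [List.mem_ofFn]
  constructor
  · rintro ⟨i, rfl⟩; exact ⟨rfl, rfl⟩
  · obtain ⟨⟨k, y, i⟩, h⟩ := t
    rintro ⟨h1, h2⟩
    simp only at h1 h2
    subst h1 h2
    exact ⟨⟨i, h⟩, rfl⟩

lemma nd_crs (x : X) : (L.crs x).Nodup := by
  unfold crs
  rw [List.nodup_ofFn]
  intro i j h
  have h1 := congrArg (fun t : L.Tok => t.1.2.2) h
  exact Fin.ext h1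

lemma nd_cls (x : X) : (L.cls x).Nodup := by
  unfold cls
  rw [List.nodup_ofFn]
  intro i j h
  have h1 := congrArg (fun t : L.Tok => t.1.2.2) h
  exact Fin.ext h1

lemma nd_tns (x : X) : (L.tns x).Nodup := by
  unfold tns
  rw [List.nodup_ofFn]
  intro i j h
  have h1 := congrArg (fun t : L.Tok => t.1.2.2) h
  exact Fin.ext h1

lemma map_lam_crs (x : X) : (L.crs x).map L.lam = L.cls x := by
  unfold crs cls
  rw [List.map_ofFn]; rfl

lemma map_lam_cls (x : X) : (L.cls x).map L.lam = L.crs x := by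
  unfold crs cls
  rw [List.map_ofFn]; rfl

lemma map_lam_tns (x : X) : (L.tns x).map L.lam = (L.tns (M.ν (M.ν x))).reverse := by
  have hlen : (L.th (M.ν (M.ν x))).length = (L.th x).length := by
    rw [L.thr, List.length_reverse]
  apply List.ext_getElem
  · unfold tns
    rw [List.length_map, List.length_reverse, List.length_ofFn, List.length_ofFn, hlen]
  · intro i h1 h2
    rw [List.getElem_map, List.getElem_reverse]
    unfold tns at h1 h2 ⊢
    rw [List.length_map, List.length_ofFn] at h1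
    apply tok_ext
    · simp [tok, lam]
    · simp [tok, lam]
    · simp [tok, lam, hlen]

variable (L)

/-- **the tokens at a corner**, in the order of the circle -/
def W (x : X) : List L.Tok := (L.cls (M.μ x)).reverse ++ L.idt x :: (L.tns x ++ L.crs x)

/-- **the tokens between a corner and the next one** -/
def Bk (x : X) : List L.Tok :=
  L.tns x ++ (L.crs x ++ ((L.cls (M.μ (M.E x))).reverse ++ [L.idt (M.E x)]))

/-- the corner of a token -/
def home (t : L.Tok) : X :=
  match t.1.1 with
  | .cl => M.ν t.1.2.1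
  | _ => t.1.2.1

variable {L}

lemma mem_W {x : X} {t : L.Tok} : t ∈ L.W x ↔ L.home t = x := by
  unfold W
  simp only [List.mem_append, List.mem_reverse, List.mem_cons, mem_crs, mem_cls, mem_tns]
  obtain ⟨⟨k, y, i⟩, h⟩ := t
  cases k
  · simp [home, idt, Subtype.ext_iff]
  · simp only [true_and, home, idt, Subtype.ext_iff, Prod.mk.injEq, false_and, or_false,
      reduceCtorEq]
    constructor
    · rintro rfl; exact M.ν_μ x
    · rintro rfl; exact (M.μ_ν y).symm
  · simp [home, idt, Subtype.ext_iff]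
  · have h' : i = 0 := h
    simp [home, idt, Subtype.ext_iff, h']

lemma W_ne (x : X) : L.W x ≠ [] := by unfold W; simp

lemma W_blk : Blk L.W where
  ne := W_ne
  nd x := by
    unfold W
    rw [List.nodup_append]
    refine ⟨List.nodup_reverse.2 (nd_cls _), ?_, ?_⟩
    · rw [List.nodup_cons, List.nodup_append]
      refine ⟨?_, nd_tns _, nd_crs _, ?_⟩
      · intro h
        rcases List.mem_append.1 h with h | h
        · have := (mem_tns.1 h).1; simp [idt] at this
        · have := (mem_crs.1 h).1; simp [idt] at this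
      · intro t ht u hu h
        have h1 := (mem_tns.1 ht).1
        have h2 := (mem_crs.1 hu).1
        rw [h, h2] at h1
        simp at h1
    · intro t ht u hu h
      rw [List.mem_reverse, mem_cls] at ht
      rw [h] at ht
      rcases List.mem_cons.1 hu with h1 | h1
      · rw [h1] at ht; simp [idt] at ht
      · rcases List.mem_append.1 h1 with h1 | h1
        · have := (mem_tns.1 h1).1; rw [ht.1] at this; simp at this
        · have := (mem_crs.1 h1).1; rw [ht.1] at this; simp at this
  uq t x y h1 h2 := (mem_W.1 h1).symm.trans (mem_W.1 h2)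
  ex t := ⟨_, mem_W.2 rfl⟩

variable (L)

/-- **the next token on the circle** -/
noncomputable def F [Finite X] : Equiv.Perm L.Tok := (W_blk (L := L).exists_perm M.E).choose

variable {L}

lemma fol [Finite X] : Fol M.E L.W W_ne L.F := (W_blk (L := L).exists_perm M.E).choose_spec

/-- the block after a corner is a chain -/
lemma chain_Bk [Finite X] (x : X) :
    List.IsChain (fun a b => L.F a = b) (L.idt x :: L.Bk x) := by
  have h1 := (fol (L := L)) x
  have h2 := (fol (L := L)).chain (M.E x)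
  have e1 : L.W x ++ [(L.W (M.E x)).head (W_ne _)] = (L.cls (M.μ x)).reverse ++
      ((L.idt x :: (L.tns x ++ L.crs x)) ++ [(L.W (M.E x)).head (W_ne _)]) := by
    unfold W; simp
  rw [e1] at h1
  have h3 := List.isChain_append.1 (h1.right_of_append)
  have e2 : L.W (M.E x) = ((L.cls (M.μ (M.E x))).reverse ++ [L.idt (M.E x)]) ++
      (L.tns (M.E x) ++ L.crs (M.E x)) := by unfold W; simp
  rw [e2] at h2
  have h4 := h2.left_of_append
  have e3 : L.idt x :: L.Bk x = (L.idt x :: (L.tns x ++ L.crs x)) ++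
      ((L.cls (M.μ (M.E x))).reverse ++ [L.idt (M.E x)]) := by unfold Bk; simp
  rw [e3, List.isChain_append]
  refine ⟨h3.1, h4, ?_⟩
  intro a ha b hb
  refine h3.2.2 a ha b ?_
  rw [List.head?_singleton, Option.mem_def, Option.some_inj]
  rw [Option.mem_def] at hb
  have e4 : (L.W (M.E x)).head? = some b := by
    rw [e2, List.head?_append, hb]; rfl
  exact (List.head_eq_iff_head?_eq_some (W_ne _)).2 e4

lemma Bk_ne (x : X) : L.Bk x ≠ [] := by unfold Bk; simp

lemma Bk_last (x : X) : (L.idt x :: L.Bk x).getLast (List.cons_ne_nil _ _) = L.idt (M.E x) := by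
  rw [List.getLast_cons (Bk_ne x)]
  unfold Bk
  simp

end Layt

end Pool.Agent.MP42.EO
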