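import Pool.Agent.MP42.TQ.LayX

/-!
# Placement of the tokens of a layout on the units (owner helper18)

`Seg`: the units between the corner `x` and the next corner `E x` are the positions
`E ^ (i + 1) (c x)`, first at most one thin ribbon (`nt x`), then the `len x + 1` units of the
edge.  `Pls`: the unit `ix x i` of every crossing.  `Seg.exists_plc`: the placement.
-/

set_option autoImplicit false
set_option linter.unusedSectionVars false

namespace Pool.Agent.MP42.EO

open Pool.Agent.MP42.NE Pool.Agent.MP42.O3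

section lists

variable {T : Type*}

lemma filter_succ (f : T → ℕ) (n : ℕ) : ∀ (l : List T), l.Pairwise (fun a b => f a ≤ f b) →
    l.filter (fun t => f t < n + 1) = l.filter (fun t => f t < n) ++ l.filter (fun t => f t = n) := by
  intro l
  induction l with
  | nil => intro _; rfl
  | cons a l ih =>
    intro h
    rw [List.pairwise_cons] at h
    have h1 := ih h.2
    rcases lt_trichotomy (f a) n with h2 | h2 | h2
    · rw [List.filter_cons_of_pos (by simpa using by omega), h1,
        List.filter_cons_of_pos (by simpa using h2), List.filter_cons_of_neg (by simp; omega)]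
      rfl
    · have h3 : l.filter (fun t => f t < n) = [] := by
        rw [List.filter_eq_nil_iff]
        intro b hb
        have := h.1 b hb
        simp; omega
      rw [List.filter_cons_of_pos (by simp; omega), h1,
        List.filter_cons_of_neg (by simp; omega), List.filter_cons_of_pos (by simpa using h2), h3]
      rfl
    · rw [List.filter_cons_of_neg (by simp; omega), h1,
        List.filter_cons_of_neg (by simp; omega), List.filter_cons_of_neg (by simp; omega)]

lemma flat_filter (f : T → ℕ) (l : List T) (h : l.Pairwise (fun a b => f a ≤ f b)) (n : ℕ) :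
    (List.range n).flatMap (fun i => l.filter (fun t => f t = i)) =
      l.filter (fun t => f t < n) := by
  induction n with
  | zero => simp
  | succ n ih =>
    rw [List.range_succ, List.flatMap_append, ih, filter_succ f n l h]
    simp

lemma chain_last {R : T → T → Prop} {A B : List T} (h : List.IsChain R (A ++ B)) (hA : A ≠ []) :
    List.IsChain R (A.getLast hA :: B) := by
  have h1 := List.isChain_append.1 h
  rw [List.isChain_cons]
  refine ⟨fun y hy => h1.2.2 _ ?_ y hy, h1.2.1⟩
  exact List.getLast?_eq_some_getLast hA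

end lists

variable {X D : Type*}

/-- **segments** -/
structure Seg (M : BM X) (E : Equiv.Perm D) (τ : D → D) (c : X → D) (nt len : X → ℕ) : Prop where
  ττ : ∀ y, τ (τ y) = y
  ntν : ∀ x, nt (M.ν (M.ν x)) = nt x
  nt1 : ∀ x, nt x ≤ 1
  cE : ∀ x, (E ^ (nt x + len x + 1)) (c x) = c (M.E x)
  inj : ∀ x y i j, i ≤ nt x + len x → j ≤ nt y + len y →
    (E ^ (i + 1)) (c x) = (E ^ (j + 1)) (c y) → x = y ∧ i = j
  lenz : ∀ x, len (M.μ (M.E x)) = len x
  tu : ∀ x j, j ≤ len x → τ ((E ^ (nt x + j + 1)) (c x)) =
    (E ^ (nt (M.μ (M.E x)) + (len x - j) + 1)) (c (M.μ (M.E x)))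
  tt : ∀ x, nt x = 1 → τ (E (c x)) = E (c (M.ν (M.ν x)))

/-- the other corner of the edge -/
def opp (M : BM X) (x : X) : X := M.μ (M.E x)

lemma opp_opp {M : BM X} (x : X) : opp M (opp M x) = x := by
  unfold opp
  rw [BM.E_μ]
  exact M.μ_ν x

/-- the unit of every crossing, seen from its own corner -/
structure Pls {M : BM X} (L : Layt M) (len : X → ℕ) (ix : X → ℕ → ℕ) : Prop where
  le : ∀ x i, i < (L.w x).length → ix x i ≤ len x
  mono : ∀ x i j, i ≤ j → j < (L.w x).length → ix x i ≤ ix x j
  cross : ∀ x i j, i < (L.w x).length → j < (L.w (opp M x)).length →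
    ix x i + ix (opp M x) j ≤ len x

namespace Seg

variable {M : BM X} {E : Equiv.Perm D} {τ : D → D} {c : X → D} {nt len : X → ℕ}
  (S : Seg M E τ c nt len)

/-- the positions in the segments -/
def G (E : Equiv.Perm D) (c : X → D) (nt len : X → ℕ) (y : D) : Prop :=
  ∃ x i, i ≤ nt x + len x ∧ y = (E ^ (i + 1)) (c x)

include S

lemma c_eq (x : X) : c x = (E ^ (nt (M.E.symm x) + len (M.E.symm x) + 1)) (c (M.E.symm x)) := by
  rw [S.cE, Equiv.apply_symm_apply]

lemma G_c (x : X) : G E c nt len (c x) := ⟨_, _, le_rfl, S.c_eq x⟩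

omit S in
lemma G_of {x : X} {i : ℕ} (h : i ≤ nt x + len x) : G E c nt len ((E ^ (i + 1)) (c x)) :=
  ⟨x, i, h, rfl⟩

lemma GE (y : D) : G E c nt len (E y) ↔ G E c nt len y := by
  constructor
  · rintro ⟨x, i, h, h1⟩
    rcases i with _ | i
    · have : y = c x := by
        apply E.injective
        rw [h1]; simp
      rw [this]
      exact S.G_c x
    · have : y = (E ^ (i + 1)) (c x) := by
        apply E.injective
        rw [h1, pow_succ' _ (i + 1)]; rfl
      rw [this]
      exact G_of (by omega)
  · rintro ⟨x, i, h, rfl⟩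
    rcases h.lt_or_eq with h1 | h1
    · refine ⟨x, i + 1, h1, ?_⟩
      rw [pow_succ' _ (i + 1)]; rfl
    · refine ⟨M.E x, 0, Nat.zero_le _, ?_⟩
      rw [← S.cE, h1]; simp

lemma Gτ' (y : D) (h : G E c nt len y) : G E c nt len (τ y) := by
  obtain ⟨x, i, h, rfl⟩ := h
  by_cases h1 : i < nt x
  · have h2 := S.nt1 x
    have h3 : i = 0 := by omega
    subst h3
    have h4 := S.tt x (by omega)
    rw [zero_add, pow_one, h4]
    have h5 : (E ^ (0 + 1)) (c (M.ν (M.ν x))) = E (c (M.ν (M.ν x))) := by simp
    rw [← h5]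
    exact G_of (Nat.zero_le _)
  · obtain ⟨j, rfl⟩ : ∃ j, i = nt x + j := ⟨i - nt x, by omega⟩
    rw [S.tu x j (by omega)]
    exact G_of (by have := S.lenz x; omega)

lemma Gτ (y : D) : G E c nt len (τ y) ↔ G E c nt len y :=
  ⟨fun h => by have := S.Gτ' _ h; rwa [S.ττ] at this, S.Gτ' y⟩

omit S in
/-- local index of a token in its segment -/
noncomputable def ul (L : Layt M) (nt len : X → ℕ) (ix : X → ℕ → ℕ) (t : L.Tok) : ℕ :=
  match t.1.1 with
  | .cr => nt t.1.2.1 + ix t.1.2.1 t.1.2.2
  | .cl => nt (opp M t.1.2.1) + (len t.1.2.1 - ix t.1.2.1 t.1.2.2)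
  | .tn => 0
  | .id => nt (M.E.symm t.1.2.1) + len (M.E.symm t.1.2.1)

omit S in
/-- the segment of a token -/
def sg (L : Layt M) (t : L.Tok) : X :=
  match t.1.1 with
  | .cl => opp M t.1.2.1
  | .id => M.E.symm t.1.2.1
  | _ => t.1.2.1

omit S in
lemma mem_Bk {L : Layt M} {x : X} {t : L.Tok} : t ∈ L.Bk x ↔ sg L t = x := by
  unfold Layt.Bk
  simp only [List.mem_append, List.mem_reverse, List.mem_singleton, Layt.mem_crs, Layt.mem_cls,
    Layt.mem_tns]
  obtain ⟨⟨k, y, i⟩, h⟩ := t
  cases k
  · simp [sg, Layt.idt, Subtype.ext_iff]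
  · simp only [true_and, sg, Layt.idt, Subtype.ext_iff, Prod.mk.injEq, false_and, or_false,
      reduceCtorEq, false_or]
    constructor
    · rintro rfl; exact opp_opp x
    · rintro rfl; exact (opp_opp y).symm
  · simp [sg, Layt.idt, Subtype.ext_iff]
  · have h' : i = 0 := h
    simp only [reduceCtorEq, false_and, false_or, sg, Layt.idt, Subtype.ext_iff, Prod.mk.injEq,
      true_and, h', and_true]
    exact (Equiv.symm_apply_eq _).symm

omit S in
lemma nd_Bk {L : Layt M} (x : X) : (L.Bk x).Nodup := by
  unfold Layt.Bk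
  rw [List.nodup_append]
  refine ⟨Layt.nd_tns _, ?_, ?_⟩
  · rw [List.nodup_append]
    refine ⟨Layt.nd_crs _, ?_, ?_⟩
    · rw [List.nodup_append]
      refine ⟨List.nodup_reverse.2 (Layt.nd_cls _), by simp, ?_⟩
      intro t ht u hu h
      rw [List.mem_reverse, Layt.mem_cls] at ht
      rw [List.mem_singleton] at hu
      rw [h, hu] at ht
      simp [Layt.idt] at ht
    · intro t ht u hu h
      rw [Layt.mem_crs, h] at ht
      rcases List.mem_append.1 hu with h1 | h1
      · rw [List.mem_reverse, Layt.mem_cls, ht.1] at h1; simp at h1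
      · rw [List.mem_singleton] at h1
        rw [h1] at ht; simp [Layt.idt] at ht
  · intro t ht u hu h
    rw [Layt.mem_tns, h] at ht
    rcases List.mem_append.1 hu with h1 | h1
    · rw [Layt.mem_crs, ht.1] at h1; simp at h1
    · rcases List.mem_append.1 h1 with h1 | h1
      · rw [List.mem_reverse, Layt.mem_cls, ht.1] at h1; simp at h1
      · rw [List.mem_singleton] at h1
        rw [h1] at ht; simp [Layt.idt] at ht

variable {L : Layt M} {ix : X → ℕ → ℕ}

omit S in
lemma ul_tns {x : X} {t : L.Tok} (h : t ∈ L.tns x) : ul L nt len ix t = 0 := by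
  have h1 := (Layt.mem_tns.1 h).1
  unfold ul; rw [h1]

omit S in
lemma ul_crs {x : X} {t : L.Tok} (h : t ∈ L.crs x) :
    ul L nt len ix t = nt x + ix x t.1.2.2 := by
  have h1 := Layt.mem_crs.1 h
  unfold ul; rw [h1.1, h1.2]

lemma ul_cls {x : X} {t : L.Tok} (h : t ∈ L.cls (M.μ (M.E x))) :
    ul L nt len ix t = nt x + (len x - ix (opp M x) t.1.2.2) := by
  have h1 := Layt.mem_cls.1 h
  have h2 : t.1.2.1 = opp M x := h1.2
  have h3 : len (opp M x) = len x := S.lenz x
  unfold ul; rw [h1.1, h2, opp_opp, h3]

omit S in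
lemma ul_idt (x : X) : ul L nt len ix (L.idt (M.E x)) = nt x + len x := by
  show nt (M.E.symm (M.E x)) + len (M.E.symm (M.E x)) = _
  rw [Equiv.symm_apply_apply]

omit S in
lemma crs_lt {x : X} {t : L.Tok} (h : t ∈ L.crs x) : t.1.2.2 < (L.w x).length := by
  have h1 := Layt.mem_crs.1 h
  have h2 := t.2
  rw [h1.1, h1.2] at h2
  exact h2

omit S in
lemma cls_lt {x : X} {t : L.Tok} (h : t ∈ L.cls x) : t.1.2.2 < (L.w x).length := by
  have h1 := Layt.mem_cls.1 h
  have h2 := t.2
  rw [h1.1, h1.2] at h2
  exact h2

variable (P : Pls L len ix)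

include P

/-- the tokens of a block are in the right order -/
lemma pw_Bk (x : X) : (L.Bk x).Pairwise fun a b => ul L nt len ix a ≤ ul L nt len ix b := by
  unfold Layt.Bk
  rw [List.pairwise_append]
  refine ⟨?_, ?_, ?_⟩
  · rw [List.pairwise_iff_getElem]
    intro i j hi hj _
    rw [ul_tns (List.getElem_mem hi), ul_tns (List.getElem_mem hj)]
  · rw [List.pairwise_append]
    refine ⟨?_, ?_, ?_⟩
    · rw [List.pairwise_iff_getElem]
      intro i j hi hj hij
      rw [ul_crs (List.getElem_mem hi), ul_crs (List.getElem_mem hj)]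
      have e1 : ((L.crs x)[i]'hi).1.2.2 = i := by simp [Layt.crs, Layt.tok]
      have e2 : ((L.crs x)[j]'hj).1.2.2 = j := by simp [Layt.crs, Layt.tok]
      rw [e1, e2]
      have hj' : j < (L.w x).length := by simpa [Layt.crs] using hj
      have := P.mono x i j hij.le hj'
      omega
    · rw [List.pairwise_append]
      refine ⟨?_, by simp, ?_⟩
      · rw [List.pairwise_reverse, List.pairwise_iff_getElem]
        intro i j hi hj hij
        rw [S.ul_cls (List.getElem_mem hi), S.ul_cls (List.getElem_mem hj)]
        have e1 : ((L.cls (M.μ (M.E x)))[i]'hi).1.2.2 = i := by simp [Layt.cls, Layt.tok]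
        have e2 : ((L.cls (M.μ (M.E x)))[j]'hj).1.2.2 = j := by simp [Layt.cls, Layt.tok]
        rw [e1, e2]
        have hj' : j < (L.w (opp M x)).length := by simpa [Layt.cls, opp] using hj
        have := P.mono (opp M x) i j hij.le hj'
        omega
      · intro t ht u hu
        rw [List.mem_reverse] at ht
        rw [List.mem_singleton] at hu
        rw [hu, ul_idt, S.ul_cls ht]
        omega
    · intro t ht u hu
      rw [ul_crs ht]
      rcases List.mem_append.1 hu with h1 | h1
      · rw [List.mem_reverse] at h1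
        rw [S.ul_cls h1]
        have h2 := P.cross x _ _ (crs_lt ht) (cls_lt h1)
        omega
      · rw [List.mem_singleton] at h1
        rw [h1, ul_idt]
        have := P.le x _ (crs_lt ht)
        omega
  · intro t ht u hu
    rw [ul_tns ht]
    exact Nat.zero_le _

lemma ul_lt {x : X} {t : L.Tok} (h : t ∈ L.Bk x) : ul L nt len ix t < nt x + len x + 1 := by
  unfold Layt.Bk at h
  rcases List.mem_append.1 h with h | h
  · rw [ul_tns h]; omega
  · rcases List.mem_append.1 h with h | h
    · rw [ul_crs h]
      have := P.le x _ (crs_lt h)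
      omega
    · rcases List.mem_append.1 h with h | h
      · rw [List.mem_reverse] at h
        rw [S.ul_cls h]; omega
      · rw [List.mem_singleton] at h
        rw [h, ul_idt]; omega

omit S P in
/-- the tokens on a unit -/
noncomputable def pc (L : Layt M) (nt len : X → ℕ) (ix : X → ℕ → ℕ) (x : X) (i : ℕ) :
    List L.Tok := (L.Bk x).filter fun t => ul L nt len ix t = i

lemma flat (x : X) (n : ℕ) : (List.range n).flatMap (pc L nt len ix x) =
    (L.Bk x).filter fun t => ul L nt len ix t < n :=
  flat_filter _ _ (S.pw_Bk P x) n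

lemma flat_all (x : X) : (List.range (nt x + len x + 1)).flatMap (pc L nt len ix x) = L.Bk x := by
  rw [S.flat P, List.filter_eq_self]
  intro t ht
  simpa using S.ul_lt P ht

omit S P in
/-- the last token before or on a unit -/
noncomputable def pl (L : Layt M) (nt len : X → ℕ) (ix : X → ℕ → ℕ) (x : X) (i : ℕ) : L.Tok :=
  (L.idt x :: (List.range i).flatMap (pc L nt len ix x)).getLast (List.cons_ne_nil _ _)

omit S P in
lemma flat_succ (x : X) (i : ℕ) : L.idt x :: (List.range (i + 1)).flatMap (pc L nt len ix x) =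
    (L.idt x :: (List.range i).flatMap (pc L nt len ix x)) ++ pc L nt len ix x i := by
  rw [List.range_succ, List.flatMap_append]
  simp

lemma chain_pc [Finite X] (x : X) {i : ℕ} (hi : i ≤ nt x + len x) :
    List.IsChain (fun a b => L.F a = b) (pl L nt len ix x i :: pc L nt len ix x i) := by
  apply chain_last
  rw [← flat_succ]
  have h1 := Layt.chain_Bk (L := L) x
  have h2 : L.Bk x = (List.range (i + 1)).flatMap (pc L nt len ix x) ++
      (L.Bk x).drop ((List.range (i + 1)).flatMap (pc L nt len ix x)).length := by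
    have h3 := S.flat_all P x
    have h4 : List.range (nt x + len x + 1) = List.range (i + 1) ++
        (List.range (nt x + len x - i)).map (fun j => i + 1 + j) := by
      rw [← List.range_add]
      congr 1
      omega
    have h5 : (List.range (i + 1)).flatMap (pc L nt len ix x) <+: L.Bk x := by
      rw [← h3, h4, List.flatMap_append]
      exact List.prefix_append _ _
    obtain ⟨r, hr⟩ := h5
    conv_lhs => rw [← hr]
    congr 1
    rw [← hr, List.drop_left]
  rw [h2, ← List.cons_append] at h1
  exact h1.left_of_append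

omit S P in
lemma last_pc (x : X) (i : ℕ) :
    (pl L nt len ix x i :: pc L nt len ix x i).getLast (List.cons_ne_nil _ _) =
      pl L nt len ix x (i + 1) := by
  by_cases h : pc L nt len ix x i = []
  · have h1 := flat_succ (L := L) (nt := nt) (len := len) (ix := ix) x i
    rw [h, List.append_nil] at h1
    simp only [h]
    unfold pl
    simp only [h1]
    rfl
  · rw [List.getLast_cons h]
    unfold pl
    simp only [flat_succ]
    rw [List.getLast_append_of_ne_nil _ h]

lemma pl_end (x : X) : pl L nt len ix x (nt x + len x + 1) = L.idt (M.E x) := by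
  unfold pl
  simp only [S.flat_all P]
  exact Layt.Bk_last x

omit S P in
open Classical in
/-- **tokens on the positions** -/
noncomputable def tk (L : Layt M) (E : Equiv.Perm D) (c : X → D) (nt len : X → ℕ)
    (ix : X → ℕ → ℕ) (y : D) : List L.Tok :=
  if h : ∃ p : X × ℕ, p.2 ≤ nt p.1 + len p.1 ∧ y = (E ^ (p.2 + 1)) (c p.1) then
    pc L nt len ix h.choose.1 h.choose.2 else []

omit S P in
open Classical in
/-- the last token placed at or before the position -/
noncomputable def pt [Nonempty X] (L : Layt M) (E : Equiv.Perm D) (c : X → D) (nt len : X → ℕ)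
    (ix : X → ℕ → ℕ) (y : D) : L.Tok :=
  if h : ∃ p : X × ℕ, p.2 ≤ nt p.1 + len p.1 ∧ y = (E ^ (p.2 + 1)) (c p.1) then
    pl L nt len ix h.choose.1 (h.choose.2 + 1) else L.idt (Classical.arbitrary X)

omit P in
lemma tk_eq {x : X} {i : ℕ} (hi : i ≤ nt x + len x) :
    tk L E c nt len ix ((E ^ (i + 1)) (c x)) = pc L nt len ix x i := by
  have h : ∃ p : X × ℕ, p.2 ≤ nt p.1 + len p.1 ∧
      (E ^ (i + 1)) (c x) = (E ^ (p.2 + 1)) (c p.1) := ⟨(x, i), hi, rfl⟩
  unfold tk
  rw [dif_pos h]
  obtain ⟨h1, h2⟩ := S.inj _ _ _ _ hi h.choose_spec.1 h.choose_spec.2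
  rw [← h1, ← h2]

omit S P in
lemma tk_not {y : D} (h : ¬ G E c nt len y) : tk L E c nt len ix y = [] := by
  unfold tk
  rw [dif_neg]
  rintro ⟨p, h1, h2⟩
  exact h ⟨_, _, h1, h2⟩

lemma pt_eq [Nonempty X] {x : X} {i : ℕ} (hi : i ≤ nt x + len x + 1) :
    pt L E c nt len ix ((E ^ i) (c x)) = pl L nt len ix x i := by
  have key : ∀ (x : X) (i : ℕ), i ≤ nt x + len x →
      pt L E c nt len ix ((E ^ (i + 1)) (c x)) = pl L nt len ix x (i + 1) := by
    intro x i hi
    have h : ∃ p : X × ℕ, p.2 ≤ nt p.1 + len p.1 ∧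
        (E ^ (i + 1)) (c x) = (E ^ (p.2 + 1)) (c p.1) := ⟨(x, i), hi, rfl⟩
    unfold pt
    rw [dif_pos h]
    obtain ⟨h1, h2⟩ := S.inj _ _ _ _ hi h.choose_spec.1 h.choose_spec.2
    rw [← h1, ← h2]
  rcases i with _ | i
  · rw [pow_zero, Equiv.Perm.one_apply, S.c_eq x, key _ _ le_rfl, S.pl_end P,
      Equiv.apply_symm_apply]
    rfl
  · exact key x i (by omega)

/-- the tokens on the other side of a unit of an edge -/
lemma wr_edge (hnt : ∀ x, L.th x ≠ [] → nt x = 1) (x : X) {j : ℕ} (hj : j ≤ len x) :
    nz L.wt (pc L nt len ix (opp M x) (nt (opp M x) + (len x - j))) =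
      ((nz L.wt (pc L nt len ix x (nt x + j))).map L.lam).reverse := by
  have hl0 : ∀ x, len (opp M x) = len x := S.lenz
  have hl : len (opp M x) = len x := hl0 x
  have key : ∀ (x : X) (j : ℕ), j ≤ len x → nz L.wt (pc L nt len ix x (nt x + j)) =
      (L.crs x).filter (fun t => ix x t.1.2.2 = j) ++
        ((L.cls (opp M x)).filter (fun t => ix (opp M x) t.1.2.2 = len x - j)).reverse := by
    intro x j hj
    unfold nz pc Layt.Bk
    simp only [List.filter_append]
    have e1 : (L.tns x).filter (fun t => ul L nt len ix t = nt x + j) = [] := by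
      rw [List.filter_eq_nil_iff]
      intro t ht
      rw [ul_tns ht]
      have h1 : L.th x ≠ [] := by
        intro h1
        have h2 := Layt.mem_tns.1 ht
        have h3 := t.2
        rw [h2.1, h2.2] at h3
        have h4 : t.1.2.2 < (L.th x).length := h3
        rw [h1] at h4; simp at h4
      have := hnt x h1
      simp; omega
    have e2 : (L.crs x).filter (fun t => ul L nt len ix t = nt x + j) =
        (L.crs x).filter (fun t => ix x t.1.2.2 = j) := by
      apply List.filter_congr
      intro t ht
      rw [ul_crs ht]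
      simp
    have e3 : (L.cls (M.μ (M.E x))).reverse.filter (fun t => ul L nt len ix t = nt x + j) =
        ((L.cls (opp M x)).filter (fun t => ix (opp M x) t.1.2.2 = len x - j)).reverse := by
      rw [← List.filter_reverse]
      apply List.filter_congr
      intro t ht
      rw [List.mem_reverse] at ht
      rw [S.ul_cls ht]
      have h1 := P.le (opp M x) _ (cls_lt ht)
      rw [hl0 x] at h1
      by_cases h2 : ix (opp M x) t.1.2.2 = len x - j
      · simp only [h2, decide_true]
        simp; omega
      · simp only [h2, decide_false]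
        simp; omega
    rw [e1, e2, e3, List.filter_nil, List.nil_append]
    have e4 : ∀ l : List L.Tok, (∀ t ∈ l, t.1.1 ≠ .id) → l.filter (fun t => L.wt t ≠ 0) = l := by
      intro l hl
      rw [List.filter_eq_self]
      intro t ht
      simpa using Layt.wt_ne.2 (hl t ht)
    rw [e4 _ (by
        intro t ht
        rw [(Layt.mem_crs.1 (List.mem_filter.1 ht).1).1]; simp),
      e4 _ (by
        intro t ht
        rw [List.mem_reverse] at ht
        rw [(Layt.mem_cls.1 (List.mem_filter.1 ht).1).1]; simp)]
    have e5 : (([L.idt (M.E x)].filter (fun t => ul L nt len ix t = nt x + j)).filter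
        (fun t => L.wt t ≠ 0)) = [] := by
      rw [List.filter_eq_nil_iff]
      intro t ht
      have h1 := (List.mem_filter.1 ht).1
      rw [List.mem_singleton] at h1
      rw [h1]
      simp [Layt.wt, Layt.idt]
    rw [e5, List.append_nil]
  rw [key (opp M x) (len x - j) (by omega), key x j hj, opp_opp, hl, List.map_append,
    List.reverse_append]
  have hcr : ∀ (x : X) (k : ℕ), ((L.crs x).filter (fun t => ix x t.1.2.2 = k)).map L.lam =
      (L.cls x).filter (fun t => ix x t.1.2.2 = k) := by
    intro x k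
    rw [← Layt.map_lam_crs, List.filter_map]
    congr 1
    apply List.filter_congr
    intro t ht
    have h1 := Layt.mem_crs.1 ht
    obtain ⟨⟨k', y, i⟩, h⟩ := t
    simp only at h1
    obtain ⟨rfl, rfl⟩ := h1
    rfl
  have hcl : ∀ (x : X) (k : ℕ), ((L.cls x).filter (fun t => ix x t.1.2.2 = k)).map L.lam =
      (L.crs x).filter (fun t => ix x t.1.2.2 = k) := by
    intro x k
    rw [← Layt.map_lam_cls, List.filter_map]
    congr 1
    apply List.filter_congr
    intro t ht
    have h1 := Layt.mem_cls.1 ht
    obtain ⟨⟨k', y, i⟩, h⟩ := t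
    simp only at h1
    obtain ⟨rfl, rfl⟩ := h1
    rfl
  rw [List.map_reverse, hcl, hcr, List.reverse_reverse]
  congr 2
  rw [show len x - (len x - j) = j by omega]

/-- **The placement.** -/
theorem plc [Finite X] [Nonempty X] (hnt : ∀ x, L.th x ≠ [] → nt x = 1) :
    Plc E τ (G E c nt len) L.F L.lam L.wt (tk L E c nt len ix) (pt L E c nt len ix) where
  ττ := S.ττ
  GE := S.GE
  Gτ := S.Gτ
  tkG y h := tk_not h
  ch y h := by
    obtain ⟨x, i, h1, rfl⟩ := h
    rw [S.tk_eq h1]
    have e : E.symm ((E ^ (i + 1)) (c x)) = (E ^ i) (c x) := by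
      rw [pow_succ', Equiv.Perm.mul_apply, Equiv.symm_apply_apply]
    rw [e, S.pt_eq P (by omega)]
    exact S.chain_pc P x h1
  la y h := by
    obtain ⟨x, i, h1, rfl⟩ := h
    have e : E.symm ((E ^ (i + 1)) (c x)) = (E ^ i) (c x) := by
      rw [pow_succ', Equiv.Perm.mul_apply, Equiv.symm_apply_apply]
    simp only [S.tk_eq h1, e, S.pt_eq P (show i ≤ nt x + len x + 1 by omega)]
    rw [last_pc, S.pt_eq P (by omega)]
  nd y := by
    unfold tk
    split_ifs with h
    · exact (nd_Bk _).filter _
    · exact List.nodup_nil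
  uq t y z hy hz := by
    unfold tk at hy hz
    split_ifs at hy with h
    swap
    · simp at hy
    split_ifs at hz with h'
    swap
    · simp at hz
    rw [h.choose_spec.2, h'.choose_spec.2]
    unfold pc at hy hz
    rw [List.mem_filter, mem_Bk] at hy hz
    have h1 := hy.2
    have h2 := hz.2
    simp only [decide_eq_true_eq] at h1 h2
    rw [← hy.1, ← hz.1, ← h1, ← h2]
  ex t := by
    have h1 := mem_Bk.2 (rfl : sg L t = sg L t)
    have h2 := S.ul_lt P h1
    refine ⟨(E ^ (ul L nt len ix t + 1)) (c (sg L t)), ?_⟩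
    rw [S.tk_eq (by omega)]
    unfold pc
    rw [List.mem_filter]
    exact ⟨h1, by simp⟩
  hp y h := by
    obtain ⟨x, i, h1, rfl⟩ := h
    refine ⟨(E ^ (nt x + len x + 1)) (c x), ?_, ?_⟩
    · refine ⟨((nt x + len x - i : ℕ) : ℤ), ?_⟩
      rw [zpow_natCast, ← Equiv.Perm.mul_apply, ← pow_add]
      congr 2
      omega
    · rw [S.tk_eq le_rfl]
      have h2 : L.idt (M.E x) ∈ pc L nt len ix x (nt x + len x) := by
        unfold pc
        rw [List.mem_filter]
        refine ⟨mem_Bk.2 ?_, ?_⟩
        · show M.E.symm (M.E x) = x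
          exact Equiv.symm_apply_apply _ _
        · rw [ul_idt]; simp
      exact List.ne_nil_of_mem h2
  wr y := by
    by_cases h : G E c nt len y
    swap
    · rw [tk_not h, tk_not (fun h' => h ((S.Gτ y).1 h'))]
      rfl
    obtain ⟨x, i, h1, rfl⟩ := h
    by_cases h2 : i < nt x
    · have h3 := S.nt1 x
      have h4 : i = 0 := by omega
      subst h4
      have h5 := S.tt x (by omega)
      have e0 : ∀ x, nt x = 1 → pc L nt len ix x 0 = L.tns x := by
        intro x hx
        unfold pc Layt.Bk
        rw [List.filter_append]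
        have a1 : (L.tns x).filter (fun t => ul L nt len ix t = 0) = L.tns x := by
          rw [List.filter_eq_self]
          intro t ht
          rw [ul_tns ht]; simp
        rw [a1]
        have a2 : (L.crs x ++ ((L.cls (M.μ (M.E x))).reverse ++ [L.idt (M.E x)])).filter
            (fun t => ul L nt len ix t = 0) = [] := by
          rw [List.filter_eq_nil_iff]
          intro t ht
          rcases List.mem_append.1 ht with ht | ht
          · rw [ul_crs ht, hx]; simp
          · rcases List.mem_append.1 ht with ht | ht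
            · rw [List.mem_reverse] at ht
              rw [S.ul_cls ht, hx]; simp
            · rw [List.mem_singleton] at ht
              rw [ht, ul_idt, hx]; simp
        rw [a2, List.append_nil]
      rw [S.tk_eq (Nat.zero_le _), zero_add, pow_one, h5, e0 x (by omega)]
      have h6 : E (c (M.ν (M.ν x))) = (E ^ (0 + 1)) (c (M.ν (M.ν x))) := by simp
      rw [h6, S.tk_eq (Nat.zero_le _), e0 _ (by rw [S.ntν]; omega)]
      have e4 : ∀ x, (L.tns x).filter (fun t => L.wt t ≠ 0) = L.tns x := by
        intro x
        rw [List.filter_eq_self]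
        intro t ht
        have h7 : t.1.1 ≠ .id := by rw [(Layt.mem_tns.1 ht).1]; simp
        simpa using Layt.wt_ne.2 h7
      rw [e4, e4, Layt.map_lam_tns, List.reverse_reverse]
    · obtain ⟨j, rfl⟩ : ∃ j, i = nt x + j := ⟨i - nt x, by omega⟩
      rw [S.tu x j (by omega), S.tk_eq h1, S.tk_eq (by
        have := S.lenz x; omega)]
      exact S.wr_edge P hnt x (by omega)

lemma pt_c [Nonempty X] (x : X) : pt L E c nt len ix (c x) = L.idt x := by
  have h := S.pt_eq P (x := x) (i := 0) (Nat.zero_le _)
  rw [pow_zero, Equiv.Perm.one_apply] at h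
  rw [h]; rfl

/-- the position of a crossing on the own side -/
lemma mem_cr {x : X} {t : L.Tok} (h : t ∈ L.crs x) :
    t ∈ tk L E c nt len ix ((E ^ (nt x + ix x t.1.2.2 + 1)) (c x)) := by
  rw [S.tk_eq (by have := P.le x _ (crs_lt h); omega)]
  unfold pc
  rw [List.mem_filter]
  refine ⟨?_, by rw [ul_crs h]; simp⟩
  unfold Layt.Bk
  simp [h]

/-- the position of the thin crossings -/
lemma mem_tn {x : X} {t : L.Tok} (h : t ∈ L.tns x) : t ∈ tk L E c nt len ix (E (c x)) := by
  have h6 : E (c x) = (E ^ (0 + 1)) (c x) := by simp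
  rw [h6, S.tk_eq (Nat.zero_le _)]
  unfold pc
  rw [List.mem_filter]
  refine ⟨?_, by rw [ul_tns h]; simp⟩
  unfold Layt.Bk
  simp [h]

lemma tk_thin {x : X} (hx : nt x = 1) : tk L E c nt len ix (E (c x)) = L.tns x := by
  have h6 : E (c x) = (E ^ (0 + 1)) (c x) := by simp
  rw [h6, S.tk_eq (Nat.zero_le _)]
  unfold pc Layt.Bk
  rw [List.filter_append]
  have a1 : (L.tns x).filter (fun t => ul L nt len ix t = 0) = L.tns x := by
    rw [List.filter_eq_self]
    intro t ht
    rw [ul_tns ht]; simp
  rw [a1]
  have a2 : (L.crs x ++ ((L.cls (M.μ (M.E x))).reverse ++ [L.idt (M.E x)])).filter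
      (fun t => ul L nt len ix t = 0) = [] := by
    rw [List.filter_eq_nil_iff]
    intro t ht
    rcases List.mem_append.1 ht with ht | ht
    · rw [ul_crs ht, hx]; simp
    · rcases List.mem_append.1 ht with ht | ht
      · rw [List.mem_reverse] at ht
        rw [S.ul_cls ht, hx]; simp
      · rw [List.mem_singleton] at ht
        rw [ht, ul_idt, hx]; simp
  rw [a2, List.append_nil]

end Seg

end Pool.Agent.MP42.EO
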