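import Pool.Agent.MP42.TP.Pat
import Pool.Agent.MP42.TQ.Lift
import Pool.Agent.MP42.TQ.LayY
import Pool.Agent.MP42.O3.Inst

/-!
# The system with both kinds of thin ribbons at every bad tripod (owner helper18)

`TAl`: all thin ribbons.  Every ribbon of the system is `d0' x` (a ribbon dart) or `th' x` (the thin
ribbon behind the dart `x` at a vertex of valence four), in the order
`d0' x, (th' x), d0' (EH x)`.
-/

set_option autoImplicit false
set_option linter.unusedSectionVars false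

namespace Pool.Agent.MP42.EO

open Pool.Agent.Helper55.UNF Pool.Agent.Helper55.UNF.GridSolid Pool.Agent.MP42.NE
open Pool.Agent.MP42.Geo Pool.Agent.MP42NG Pool.Agent.MP42

variable {Q : GridSolid} {a b : Fin 3}

/-- real darts at the bad tripods -/
def RQ (hab : a ≠ b) (x : RD Q a b) : Prop := Real x.1 ∧ Quad hab x

lemma tH_real (hab : a ≠ b) {x : RD Q a b} (h : Real x.1) : (tH hab x).1.1 = x.1.1.r2 := by
  rw [tH_val]; exact if_pos h

section

variable (hM : Q.IsManifold) (hab : a ≠ b)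

include hM

lemma RQ_nu2 {x : RD Q a b} (h : RQ hab x) :
    RQ hab (nu (EH hab) (tH hab) (nu (EH hab) (tH hab) x)) :=
  ⟨quad_real2 hM hab h.2 h.1, (quad_nu hM hab (quad_nu hM hab h.2).1).1⟩

/-- **all thin ribbons** -/
def TAl : Thin Q a b := thinOf hM hab (RQ hab) (RQ hab) (fun _ h => h) (fun _ h => h)
  (fun _ h => RQ_nu2 hM hab h) (fun _ h => RQ_nu2 hM hab h)

lemma TAl_X (x : RD Q a b) : (TAl hM hab).X x.1.1 ↔ RQ hab x := thinOf_X x

lemma TAl_Z (x : RD Q a b) : (TAl hM hab).Z x.1.1 ↔ RQ hab x := thinOf_Z x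

/-- the thin ribbons are behind the darts at the vertices of valence four -/
lemma TAl_la {d : HD Q a} : 0 < (TAl hM hab).la d ↔ ∃ x : RD Q a b, Quad hab x ∧ x.1 = d := by
  rw [Thin.la_pos]
  constructor
  · rintro (⟨x, h1, h2⟩ | ⟨x, h1, h2⟩)
    · exact ⟨x, h2.2, Subtype.ext h1⟩
    · obtain ⟨q1, q2⟩ := quad_nu hM hab h2.2
      obtain ⟨q3, -⟩ := quad_nu hM hab q1
      obtain ⟨q5, -⟩ := quad_nu hM hab q3
      refine ⟨_, q5, ?_⟩
      have h3 := quad_E hM hab q5
      rw [q2] at h3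
      apply (sysH Q a b hab).E.injective
      rw [h3]
      apply Subtype.ext
      have h4 : (tH hab x).1.1 = x.1.1.r2 := tH_real hab h2.1
      rw [h4, h1]
      exact FSt.r2_r2 _
  · rintro ⟨x, h1, rfl⟩
    by_cases hr : Real x.1
    · exact Or.inl ((TAl_X hM hab x).2 ⟨hr, h1⟩)
    · right
      obtain ⟨hR, -, -⟩ := quad_gate hM hab h1 hr
      have h3 := quad_E hM hab h1
      have h4 : (tH hab (nu (EH hab) (tH hab) x)).1.1 = (nu (EH hab) (tH hab) x).1.1.r2 := tH_real hab hR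
      have h5 : hE a b x.1.1 = (nu (EH hab) (tH hab) x).1.1.r2 := by
        rw [← h4, ← h3]; rfl
      rw [h5, FSt.r2_r2]
      exact (TAl_Z hM hab _).2 ⟨hR, (quad_nu hM hab h1).1⟩

/-- the other side of a thin ribbon -/
lemma TAl_cpd {x : RD Q a b} (h : Quad hab x) : (TAl hM hab).cpd hab x.1 =
    (nu (EH hab) (tH hab) (nu (EH hab) (tH hab) x)).1 := by
  by_cases hr : Real x.1
  · rw [Thin.cpd_X hab ((TAl_X hM hab x).2 ⟨hr, h⟩)]
    apply Subtype.ext
    exact (quad_real hM hab h hr).2.1.symm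
  · obtain ⟨hR, -, -⟩ := quad_gate hM hab h hr
    obtain ⟨q1, -⟩ := quad_nu hM hab h
    obtain ⟨q2, -⟩ := quad_nu hM hab q1
    have h3 := quad_E hM hab h
    have h4 : (tH hab (nu (EH hab) (tH hab) x)).1.1 = (nu (EH hab) (tH hab) x).1.1.r2 := tH_real hab hR
    have h5 : hE a b x.1.1 = (nu (EH hab) (tH hab) x).1.1.r2 := by
      rw [← h4, ← h3]; rfl
    have hZ : (TAl hM hab).Z (hE a b x.1.1).r2 := by
      rw [h5, FSt.r2_r2]
      exact (TAl_Z hM hab _).2 ⟨hR, q1⟩
    apply (sysH Q a b hab).E.injective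
    apply Subtype.ext
    have e1 : ((sysH Q a b hab).E ((TAl hM hab).cpd hab x.1)).1 =
        opq (hE a b x.1.1).r2 := Thin.cpd_Z_E hab hZ
    rw [e1, h5, FSt.r2_r2, quad_E hM hab q2]
    have hR2 := quad_real2 hM hab q1 hR
    have h6 : (tH hab (nu (EH hab) (tH hab) (nu (EH hab) (tH hab)
        (nu (EH hab) (tH hab) x)))).1.1 = (nu (EH hab) (tH hab) (nu (EH hab) (tH hab)
        (nu (EH hab) (tH hab) x))).1.1.r2 := tH_real hab hR2
    rw [h6, (quad_real hM hab q1 hR).2.1, FSt.r2_r2]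

/-- a dart of the spine system as a ribbon of the thin system -/
def d0' (x : RD Q a b) : (TAl hM hab).TR hab :=
  ⟨Thin.d0 (TAl hM hab) hab x.1, by
    unfold Thin.RibT
    exact (if_pos (show (Thin.d0 (TAl hM hab) hab x.1).1.2 = 0 from rfl)).mpr x.2⟩

lemma la_one' {x : RD Q a b} (h : Quad hab x) : (TAl hM hab).la x.1 = 1 := by
  have h1 := (TAl_la hM hab).2 ⟨x, h, rfl⟩
  have h2 := Thin.la_le (T := TAl hM hab) x.1
  omega

/-- the thin ribbon behind a dart -/
def th' (x : RD Q a b) (h : Quad hab x) : (TAl hM hab).TR hab :=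
  ⟨⟨(x.1, 1), by
    have h1 := la_one' hM hab h
    show 1 ≤ (TAl hM hab).la x.1 + _
    omega⟩, by
    unfold Thin.RibT
    refine (if_neg (show ¬ (1 : ℕ) = 0 by omega)).mpr ?_
    exact (la_one' hM hab h).ge⟩

lemma th'_ext {x y : RD Q a b} {h : Quad hab x} {h' : Quad hab y} (hxy : x = y) :
    th' hM hab x h = th' hM hab y h' := by subst hxy; rfl

/-- every ribbon -/
lemma TR_cases (p : (TAl hM hab).TR hab) :
    (∃ x, p = d0' hM hab x) ∨ ∃ (x : RD Q a b) (h : Quad hab x), p = th' hM hab x h := by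
  obtain ⟨⟨⟨d, i⟩, hi⟩, hp⟩ := p
  unfold Thin.RibT at hp
  by_cases h0 : i = 0
  · subst h0
    have hp' : Rib b d := (if_pos rfl).mp hp
    exact Or.inl ⟨⟨d, hp'⟩, rfl⟩
  · have hp' : i ≤ (TAl hM hab).la d := (if_neg (show ¬ i = 0 from h0)).mp hp
    have h1 := Thin.la_le (T := TAl hM hab) d
    have h2 : i = 1 := by omega
    subst h2
    obtain ⟨x, hx, rfl⟩ := (TAl_la hM hab).1 (by omega : 0 < (TAl hM hab).la d)
    exact Or.inr ⟨x, hx, rfl⟩

/-- `q` is reached from `p` without passing a ribbon -/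
def Sk (p q : (TAl hM hab).TD hab) : Prop :=
  ∃ N : ℕ, ((((TAl hM hab).tsys hab).E ^ (N + 1)) p) = q ∧
    ∀ i < N, ¬ Thin.RibT ((((TAl hM hab).tsys hab).E ^ (i + 1)) p)

variable {hM hab}

lemma Sk.one (p : (TAl hM hab).TD hab) : Sk hM hab p (((TAl hM hab).tsys hab).E p) :=
  ⟨0, by simp, fun i hi => by omega⟩

lemma Sk.trans {p q s : (TAl hM hab).TD hab} (h : Sk hM hab p q) (hq : ¬ Thin.RibT q)
    (h' : Sk hM hab q s) : Sk hM hab p s := by
  obtain ⟨N, h1, h2⟩ := h
  obtain ⟨N', h3, h4⟩ := h'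
  refine ⟨N + 1 + N', ?_, ?_⟩
  · rw [← h3, ← h1, ← Equiv.Perm.mul_apply, ← pow_add]
    congr 2
    omega
  · intro i hi
    rcases lt_trichotomy i N with h5 | h5 | h5
    · exact h2 i h5
    · rw [h5, h1]; exact hq
    · have h6 := h4 (i - (N + 1)) (by omega)
      rw [← h1, ← Equiv.Perm.mul_apply, ← pow_add, show i - (N + 1) + 1 + (N + 1) = i + 1 by
        omega] at h6
      exact h6

lemma Sk.ret {p q : (TAl hM hab).TR hab} (h : Sk hM hab p.1 q.1) :
    (TAl hM hab).EE hab p = q := by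
  obtain ⟨N, h1, h2⟩ := h
  apply Subtype.ext
  show retFun _ _ p.1 = q.1
  rw [retFun_eq_of (j := N) (by rw [h1]; exact q.2) h2, h1]

/-- over the dummies to the next dart -/
lemma Sk.dum (d : HD Q a) : ∀ (k i : ℕ) (hi : i ≤ ((TAl hM hab).cuts hab).n d),
    (TAl hM hab).la d ≤ i → k = ((TAl hM hab).cuts hab).n d - i →
    Sk hM hab (((TAl hM hab).cuts hab).dd d i hi)
      (Thin.d0 (TAl hM hab) hab ((sysH Q a b hab).E d)) := by
  intro k
  induction k with
  | zero =>
    intro i hi _ hk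
    have h1 : i = ((TAl hM hab).cuts hab).n d := by omega
    subst h1
    have h2 := Sk.one (hM := hM) (hab := hab)
      (((TAl hM hab).cuts hab).dd d (((TAl hM hab).cuts hab).n d) le_rfl)
    have h3 := ((TAl hM hab).cuts hab).EE_last d
    have h4 : ((TAl hM hab).tsys hab).E
        (((TAl hM hab).cuts hab).dd d (((TAl hM hab).cuts hab).n d) le_rfl) =
        Thin.d0 (TAl hM hab) hab ((sysH Q a b hab).E d) := h3
    rw [h4] at h2
    exact h2
  | succ k ih =>
    intro i hi hla hk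
    have h1 : i < ((TAl hM hab).cuts hab).n d := by omega
    have h2 := Sk.one (hM := hM) (hab := hab) (((TAl hM hab).cuts hab).dd d i hi)
    have h3 := ((TAl hM hab).cuts hab).EE_lt h1
    have h4 : ((TAl hM hab).tsys hab).E (((TAl hM hab).cuts hab).dd d i hi) =
        ((TAl hM hab).cuts hab).dd d (i + 1) h1 := h3
    rw [h4] at h2
    refine h2.trans ?_ (ih (i + 1) h1 (by omega) (by omega))
    unfold Thin.RibT
    intro h5
    have h6 : i + 1 ≤ (TAl hM hab).la d := (if_neg (show ¬ (i + 1 : ℕ) = 0 by omega)).mp h5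
    omega

/-- over the darts which are no ribbons -/
lemma Sk.line {p : (TAl hM hab).TD hab} {d : HD Q a} (h : Sk hM hab p
      (Thin.d0 (TAl hM hab) hab ((sysH Q a b hab).E d))) : ∀ k : ℕ,
    (∀ i < k, ¬ Rib b (((sysH Q a b hab).E ^ (i + 1)) d)) →
    Sk hM hab p (Thin.d0 (TAl hM hab) hab (((sysH Q a b hab).E ^ (k + 1)) d)) := by
  intro k
  induction k with
  | zero => intro _; simpa using h
  | succ k ih =>
    intro hk
    have h1 := ih (fun i hi => hk i (by omega))
    have h2 := hk k (by omega)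
    set e := ((sysH Q a b hab).E ^ (k + 1)) d with he
    have h3 : ((sysH Q a b hab).E ^ (k + 1 + 1)) d = (sysH Q a b hab).E e := by
      rw [pow_succ' _ (k + 1)]; rfl
    rw [h3]
    refine h1.trans ?_ ?_
    · unfold Thin.RibT
      intro h5
      exact h2 ((if_pos (show (Thin.d0 (TAl hM hab) hab e).1.2 = 0 from rfl)).mp h5)
    · have h4 : (TAl hM hab).la e = 0 := by
        by_contra h4
        obtain ⟨x, -, hx⟩ := (TAl_la hM hab).1 (Nat.pos_of_ne_zero h4)
        apply h2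
        rw [← hx]; exact x.2
      exact Sk.dum e _ 0 (Nat.zero_le _) (by omega) rfl

variable (hM hab)

/-- behind a dart, no vertex of valence four -/
theorem EE_d0 {x : RD Q a b} (h : ¬ Quad hab x) :
    (TAl hM hab).EE hab (d0' hM hab x) = d0' hM hab (EH hab x) := by
  apply Sk.ret
  have h0 : (TAl hM hab).la x.1 = 0 := by
    by_contra h4
    obtain ⟨y, hy, hy'⟩ := (TAl_la hM hab).1 (Nat.pos_of_ne_zero h4)
    have : y = x := Subtype.ext hy'
    subst this
    exact h hy
  have h1 := Sk.dum (hM := hM) (hab := hab) x.1 _ 0 (Nat.zero_le _) (by omega) rfl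
  have h2 := h1.line (retN (sysH Q a b hab).E (Rib b) x.1) (fun i hi => retN_not hi)
  have h3 : ((sysH Q a b hab).E ^ (retN (sysH Q a b hab).E (Rib b) x.1 + 1)) x.1 =
      (EH hab x).1 := by
    rw [← retFun_eq]; rfl
  rw [h3] at h2
  exact h2

/-- behind a dart at a vertex of valence four -/
theorem EE_d0_quad {x : RD Q a b} (h : Quad hab x) :
    (TAl hM hab).EE hab (d0' hM hab x) = th' hM hab x h := by
  apply Sk.ret
  have h1 := la_one' hM hab h
  have h2 : 0 < ((TAl hM hab).cuts hab).n x.1 := by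
    show 0 < (TAl hM hab).la x.1 + _
    omega
  have h3 := Sk.one (hM := hM) (hab := hab) (((TAl hM hab).cuts hab).dd x.1 0 h2.le)
  have h4 := ((TAl hM hab).cuts hab).EE_lt h2
  have h5 : ((TAl hM hab).tsys hab).E (((TAl hM hab).cuts hab).dd x.1 0 h2.le) =
      ((TAl hM hab).cuts hab).dd x.1 (0 + 1) h2 := h4
  rw [h5] at h3
  exact h3

/-- behind a thin ribbon -/
theorem EE_th {x : RD Q a b} (h : Quad hab x) :
    (TAl hM hab).EE hab (th' hM hab x h) = d0' hM hab (EH hab x) := by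
  apply Sk.ret
  have h0 := la_one' hM hab h
  have h0' : 1 ≤ ((TAl hM hab).cuts hab).n x.1 := by
    show 1 ≤ (TAl hM hab).la x.1 + _
    omega
  have h1 := Sk.dum (hM := hM) (hab := hab) x.1 _ 1 h0' (by omega) rfl
  have h2 := h1.line (retN (sysH Q a b hab).E (Rib b) x.1) (fun i hi => retN_not hi)
  have h3 : ((sysH Q a b hab).E ^ (retN (sysH Q a b hab).E (Rib b) x.1 + 1)) x.1 =
      (EH hab x).1 := by
    rw [← retFun_eq]; rfl
  rw [h3] at h2
  exact h2

/-- the other side of a ribbon dart -/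
theorem tau_d0 (x : RD Q a b) :
    (TAl hM hab).tau hab (d0' hM hab x) = d0' hM hab (tH hab x) := by
  apply Subtype.ext
  show ((TAl hM hab).tsys hab).ta (Thin.d0 (TAl hM hab) hab x.1) =
    Thin.d0 (TAl hM hab) hab (tH hab x).1
  rw [(((TAl hM hab).cuts hab).sys_ta _)]
  exact ((TAl hM hab).cuts hab).tt_zero x.1

/-- the other side of a thin ribbon -/
theorem tau_th {x : RD Q a b} (h : Quad hab x) :
    (TAl hM hab).tau hab (th' hM hab x h) =
      th' hM hab (nu (EH hab) (tH hab) (nu (EH hab) (tH hab) x))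
        (quad_nu hM hab (quad_nu hM hab h).1).1 := by
  apply Subtype.ext
  show ((TAl hM hab).tsys hab).ta (th' hM hab x h).1 = _
  rw [(((TAl hM hab).cuts hab).sys_ta _)]
  apply Subtype.ext
  rw [((TAl hM hab).cuts hab).tt_thin (th' hM hab x h).1 (by show 0 < 1; omega)
    (by show 1 ≤ (TAl hM hab).la x.1; exact (la_one' hM hab h).ge)]
  show ((TAl hM hab).cpd hab x.1, 1) = _
  rw [TAl_cpd hM hab h]
  rfl

end

end Pool.Agent.MP42.EO
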