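import Pool.Agent.MP42.TQ.TM8

/-!
# Typed connected flows with thin ribbons of any capacity unfold (owner helper18)
-/

set_option autoImplicit false

namespace Pool.Agent.MP42.EO

open Pool.Agent.Helper55.UNF Pool.Agent.Helper55.UNF.GridSolid Pool.Agent.MP42.NE

variable {P : GridSolid} {a b : Fin 3} {T : Thin P a b} {hab : a ≠ b}

namespace Thin.M

open Thin

variable {e : T.TD hab → ℕ} {v : T.TD hab → ℤ}

/-- the types of the reduced flow -/
lemma typ_toT (H : Adm e v) {g : T.TD hab → ℕ → Bool} (G : TyC e v g) (m : P.FSt → ℕ)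
    (hm : ∀ s, pp v s + qq v s ≠ 0 → m s + m (opq s).r2 + 1 = pp v s + qq v s)
    (hM : ∀ s, pp v s + qq v s ≠ 0 → Mono (pp v s + qq v s) (ts v g s) (m s)) :
    (toT H m hm).Typ (gg0 g) := by
  have pX : ∀ s, ∀ i < pp v s, gg0 g s (((toT H m hm).vv s).toNat + i) = ts v g s i := by
    intro s i hi
    rcases pq_cases H (s := s) (by omega) with ⟨x, rfl, h1, h2, h3, h4⟩ | ⟨x, rfl, h1, h2, h3, h4⟩
    swap
    · omega
    have hl : 0 < T.la x := la_pos.2 (Or.inl h1)
    have h : 1 ≤ (T.cuts hab).n x := n_la hl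
    have hgx := e_gap H x
    have hto := tv_om H (x := x) (by omega)
    have a1 := G.gE (d0 T hab x) i (by omega)
    rw [E_d0' h, ← tv_pos (v := v) h, h2] at a1
    rw [gg0_eq, vv_toT, a1, ts_X h1 h3]
    congr 1
    omega
  have pZ : ∀ s, ∀ i < qq v s, gg0 g s.rL ((toT H m hm).ee s.rL - qq v s + i) = ts v g s i := by
    intro s i hi
    rcases pq_cases H (s := s) (by omega) with ⟨x, rfl, h1, h2, h3, h4⟩ | ⟨x, rfl, h1, h2, h3, h4⟩
    · omega
    obtain ⟨z, hz⟩ : ∃ z : HD P a, z = (sysH P a b hab).om x := ⟨_, rfl⟩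
    have hk : KY a b (hE a b x.1) := (T.bZ _ h1).ky
    have hzs : (hE a b x.1).r2.rL = z.1 := by
      rw [hz]
      show _ = hr a b (hE a b x.1)
      rw [hr_nom hk.1 hk.2, FSt.r2_rL]
    have hl : 0 < T.la x := la_pos.2 (Or.inr h1)
    have h : 1 ≤ (T.cuts hab).n x := n_la hl
    have hgx := e_gap H x
    have hto := tv_om H (x := x) (by omega)
    rw [← hz] at hgx hto
    have hz1 : 1 ≤ (T.cuts hab).n z := by rw [hz]; exact n_om' h
    have hkz : KY a b z.1.rR := by
      rw [← hzs, FSt.rL_rR]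
      exact (T.bZ _ h1).ky
    have hv0 : v (d0 T hab z) = 0 := by
      rw [← vv_toT H m hm z]
      have h5 : z.1 = z.1.rR.rL := (FSt.rR_rL _).symm
      rw [h5]
      exact TMl.vv_zero hkz.1 ((rL_b hab hkz.1).2 hkz.2)
    -- from the facet of `s` to the thin dart
    have a1 := G.gE (d0 T hab z) (e (d0 T hab z) - qq v (hE a b x.1).r2 + i) (by omega)
    rw [E_d0' hz1, ← tv_pos (v := v) hz1, hto, hv0] at a1
    have hr2 : (T.tsys hab).r (d1 T hab x h) = d1 T hab z hz1 := by
      rw [r_d1, Sys.Cuts.ext_iff']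
      exact ⟨hz.symm, rfl⟩
    have hc := cnt_d1 H x h
    rw [← hz] at hc
    have a2 := G.gr (d1 T hab x h) (e (d0 T hab z) - qq v (hE a b x.1).r2 + i)
      (by rw [hc]; omega)
    rw [hr2, hc] at a2
    rw [hzs, gg0_eq, ee_toT, ts_Z h1 h4]
    have e1 : (0 : ℤ).toNat + (e (d0 T hab z) - qq v (hE a b x.1).r2 + i) =
      e (d0 T hab z) - qq v (hE a b x.1).r2 + i := by omega
    have e2 : (-(0 : ℤ)).toNat + (e (d0 T hab z) - qq v (hE a b x.1).r2 + i) =
      e (d0 T hab z) - qq v (hE a b x.1).r2 + i := by omega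
    rw [e1, e2] at a1
    rw [a1, a2]
    congr 1
    omega
  constructor
  · -- ring
    intro t ht j hj
    have h0 := vv_toT H m hm ⟨t, ht⟩
    have h1 := p_toT H m hm ⟨t, ht⟩
    have h2 := q_toT H m hm ⟨t, ht⟩
    have h3 := vv_toT H m hm ((sysH P a b hab).E ⟨t, ht⟩)
    have hs := sd_add_toT H m hm ⟨t, ht⟩
    have he := e_gap H ⟨t, ht⟩
    change (toT H m hm).vv (hE a b t) = _ at h3
    change (toT H m hm).vv t = _ at h0
    change (toT H m hm).p t = _ at h1
    change (toT H m hm).q (hE a b t).r2 = _ at h2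
    change (toT H m hm).sd t + _ = _ at hs
    rw [h0, h1, h2, h3]
    have k1 := fun i => gg0_eq g ⟨t, ht⟩ i
    have k2 := fun i => gg0_eq g ((sysH P a b hab).E ⟨t, ht⟩) i
    change ∀ i, gg0 g t i = _ at k1
    change ∀ i, gg0 g (hE a b t) i = _ at k2
    rw [k1, k2]
    obtain ⟨x, hx⟩ : ∃ x : HD P a, x = ⟨t, ht⟩ := ⟨_, rfl⟩
    rw [← hx] at hs he ⊢
    by_cases h : 1 ≤ (T.cuts hab).n x
    · have a1 := G.gE (d0 T hab x)
      have a2 := G.gE (d1 T hab x h)
      rw [E_d0' h] at a1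
      rw [E_d1 h, e_d1 H h] at a2
      rw [← tv_pos (v := v) h] at a1 a2
      rcases own_or h with ⟨o1, o2⟩ | ⟨o1, o2⟩
      · obtain ⟨s1, s2⟩ := own_sign H o1
        have b1 := a1 ((tv v x).toNat + j) (by omega)
        have b2 := a2 j (by omega)
        have e1 : (v (d0 T hab x)).toNat + (tv v x).toNat + j =
          (v (d0 T hab x)).toNat + ((tv v x).toNat + j) := by omega
        have e2 : (-tv v x).toNat + ((tv v x).toNat + j) = (tv v x).toNat + j := by omega
        rw [e1, b1, e2, b2]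
        congr 1
        omega
      · obtain ⟨s1, s2⟩ := own_sign' H o2
        have b1 := a1 j (by omega)
        have b2 := a2 ((-tv v x).toNat + j) (by omega)
        have e1 : (v (d0 T hab x)).toNat + (tv v x).toNat + j =
          (v (d0 T hab x)).toNat + j := by omega
        have e2 : (tv v x).toNat + ((-tv v x).toNat + j) = (-tv v x).toNat + j := by omega
        rw [e2] at b2
        rw [e1, b1, b2]
        congr 1
        omega
    · obtain ⟨s1, s2⟩ := tv_not (v := v) h
      have a1 := G.gE (d0 T hab x) j (by rw [s1, s2] at hs; simp at hs; omega)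
      rw [E_d0 h] at a1
      rw [s1]
      simpa using a1
  · -- half turn
    intro t ht j hj
    have h0 := cn_toT H m hm ⟨t, ht⟩
    change (toT H m hm).cn t = _ at h0
    rw [h0] at hj ⊢
    have h1 := G.gr _ j hj
    rw [r_d0] at h1
    have k1 := fun i => gg0_eq g ⟨t, ht⟩ i
    have k2 := fun i => gg0_eq g ((sysH P a b hab).r ⟨t, ht⟩) i
    change ∀ i, gg0 g t i = _ at k1
    change ∀ i, gg0 g (hr a b t) i = _ at k2
    rw [k1, k2]
    exact h1
  · -- north
    intro t ht j hj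
    have h0 := vv_toT H m hm ⟨t, ht⟩
    have h1 := vv_toT H m hm ((sysH P a b hab).N ⟨t, ht⟩)
    have h2 := ee_toT H m hm ((sysH P a b hab).r ((sysH P a b hab).N ⟨t, ht⟩))
    have k1 := fun i => gg0_eq g ⟨t, ht⟩ i
    have k2 := fun i => gg0_eq g ((sysH P a b hab).N ⟨t, ht⟩) i
    change (toT H m hm).vv t = _ at h0
    change (toT H m hm).vv (hN a t) = _ at h1
    change (toT H m hm).ee (hr a b (hN a t)) = _ at h2
    change ∀ i, gg0 g t i = _ at k1
    change ∀ i, gg0 g (hN a t) i = _ at k2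
    rw [h0] at hj
    have h3 := G.gp _ j hj
    rw [N_d0, r_d0] at h3
    unfold okT at h3
    rw [if_pos (show (d0 T hab ⟨t, ht⟩).1.2 = 0 from rfl)] at h3
    rw [k1, k2, h1, h2]
    exact h3
  · intro t ht j hj
    have h0 := vv_toT H m hm ⟨t, ht⟩
    have h1 := vv_toT H m hm ((sysH P a b hab).N ⟨t, ht⟩)
    have h2 := ee_toT H m hm ((sysH P a b hab).N ⟨t, ht⟩)
    have k1 := fun i => gg0_eq g ⟨t, ht⟩ i
    have k2 := fun i => gg0_eq g ((sysH P a b hab).N ⟨t, ht⟩) i
    change (toT H m hm).vv t = _ at h0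
    change (toT H m hm).vv (hN a t) = _ at h1
    change (toT H m hm).ee (hN a t) = _ at h2
    change ∀ i, gg0 g t i = _ at k1
    change ∀ i, gg0 g (hN a t) i = _ at k2
    rw [h0] at hj
    have h3 := G.gm _ j hj
    rw [N_d0] at h3
    unfold okT at h3
    rw [if_pos (show (d0 T hab ⟨t, ht⟩).1.2 = 0 from rfl)] at h3
    rw [k1, k2, h1, h2]
    exact h3
  · -- passes at the `X` corners
    intro s i hi
    have hi' : i < pp v s := hi
    have h1 := pX s i hi'
    rcases pq_cases H (s := s) (by omega) with ⟨x, rfl, h3, h4, h5, h6⟩ | ⟨x, rfl, h3, h4, h5, h6⟩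
    swap
    · omega
    have hl : 0 < T.la x := la_pos.2 (Or.inl h3)
    have h : 1 ≤ (T.cuts hab).n x := n_la hl
    obtain ⟨y, hy⟩ : ∃ y, y = T.cpd hab x := ⟨_, rfl⟩
    have hly : 0 < T.la y := by rw [hy]; exact la_cpd hl
    have hyv : y.1 = (opq x.1).r2 := by rw [hy, cpd_X hab h3]
    have hty : tv v y = pp v x.1 := by rw [hy, tv_cpd H hl, h4]
    have hto : tv v ((sysH P a b hab).om y) = 0 := tv_om H (by omega)
    have hgy := e_gap H y
    have hN1 : (T.tsys hab).N (d1 T hab x h) =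
        d1 T hab ((sysH P a b hab).om y) (n_om' (n_la hly)) := by
      subst hy; exact N_d1 hl
    have hr1 : (T.tsys hab).r ((T.tsys hab).N (d1 T hab x h)) = d1 T hab y (n_la hly) := by
      subst hy; exact ta_d1 hl
    have a2 := G.gp (d1 T hab x h) i (by rw [← tv_pos (v := v) h]; omega)
    rw [okT_d1, hr1, hN1, e_d1 H, ← tv_pos (v := v) (n_om' (n_la hly)), hto] at a2
    have a3 := G.gE (d1 T hab ((sysH P a b hab).om y) (n_om' (n_la hly)))
      (e (d0 T hab ((sysH P a b hab).om y)) + i) (by rw [e_d1 H, Sys.om_om]; omega)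
    rw [← tv_pos (v := v) (n_om' (n_la hly)), hto, E_d1, Sys.E_om] at a3
    have hb := T.bX _ h3
    have hrv : ((sysH P a b hab).r y).1 = (opq x.1).rL := by
      show hr a b y.1 = _
      rw [hyv, hr_nom (t := (opq x.1).r2) hb.ky'.1 hb.ky'.2, FSt.r2_rR]
    have hv0 : (toT H m hm).vv (opq x.1).rL = 0 :=
      TMl.vv_zero hb.ky'.1 ((rL_b hab hb.ky'.1).2 hb.ky'.2)
    rw [← hrv, vv_toT] at hv0
    have k4 := ee_toT H m hm y
    rw [hyv] at k4
    rw [h1, ts_X h3 h5, k4, ← hrv, gg0_eq]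
    show g (d0 T hab ((sysH P a b hab).r y)) (e (d0 T hab y) - pp v x.1 + i) = _
    rw [hv0] at a3
    have e1 : e (d0 T hab y) - pp v x.1 + i =
      (-(0 : ℤ)).toNat + (e (d0 T hab ((sysH P a b hab).om y)) + i) := by omega
    rw [e1, ← a3]
    have e2 : (0 : ℤ).toNat + (e (d0 T hab ((sysH P a b hab).om y)) + i) = (-(0 : ℤ)).toNat +
      e (d0 T hab ((sysH P a b hab).om y)) + i := by omega
    rw [e2, a2.1]
  · -- passes at the `Z` corners
    intro s i hi
    have hi' : i < qq v s := hi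
    have h1 := pZ s i hi'
    rcases pq_cases H (s := s) (by omega) with ⟨x, rfl, h3, h4, h5, h6⟩ | ⟨x, rfl, h3, h4, h5, h6⟩
    · omega
    have hl : 0 < T.la x := la_pos.2 (Or.inr h3)
    have h : 1 ≤ (T.cuts hab).n x := n_la hl
    obtain ⟨y, hy⟩ : ∃ y, y = T.cpd hab x := ⟨_, rfl⟩
    have hly : 0 < T.la y := by rw [hy]; exact la_cpd hl
    have hyv : hE a b y.1 = opq (hE a b x.1).r2 := by rw [hy, cpd_Z_E hab h3]
    have hZ : T.Z (hE a b y.1).r2 := by rw [hyv]; exact T.oZ _ h3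
    have hty : tv v y = -(qq v (hE a b x.1).r2 : ℤ) := by rw [hy, tv_cpd H hl, h4]
    have hq := qq_E H y
    have hto : tv v ((sysH P a b hab).om y) = 0 := tv_om H (by omega)
    have hgy := e_gap H y
    have h7 := g_cpd H G hl (j := qq v (hE a b x.1).r2 - 1 - i) (by omega)
    have a5 := G.gE (d1 T hab y (n_la hly)) i (by rw [e_d1 H]; omega)
    rw [← tv_pos (v := v) (n_la hly), E_d1, hty] at a5
    have k2 := gg0_eq g ((sysH P a b hab).E y)
    have hEy : ((sysH P a b hab).E y).1 = opq (hE a b x.1).r2 := hyv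
    rw [hEy] at k2
    have k3 := vv_toT H m hm ((sysH P a b hab).E y)
    rw [hEy] at k3
    have e0 : (toT H m hm).q (hE a b x.1).r2 = qq v (hE a b x.1).r2 := rfl
    rw [e0, h1, k2, k3, ← a5, ts_Z h3 h6, ← h7]
    subst hy
    congr 1
    omega
  · intro s i hi hl
    have hi' : i < pp v s := hi
    rw [show (toT H m hm).p s = pp v s from rfl] at hl
    rw [pX s i hi']
    have h2 : qq v s = 0 := by
      rcases pq_cases H (s := s) (by omega) with ⟨x, rfl, h3, h4, h5, h6⟩ |
        ⟨x, rfl, h3, h4, h5, h6⟩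
      · exact h6
      · omega
    exact (hM s (by omega)).1 i (by omega) (by rw [h2]; exact hl)
  · intro s i hi hl
    have hi' : i < pp v s := hi
    rw [show (toT H m hm).p s = pp v s from rfl] at hl
    rw [pX s i hi']
    have h2 : qq v s = 0 := by
      rcases pq_cases H (s := s) (by omega) with ⟨x, rfl, h3, h4, h5, h6⟩ |
        ⟨x, rfl, h3, h4, h5, h6⟩
      · exact h6
      · omega
    exact (hM s (by omega)).2 i (by omega) (by rw [h2]; exact hl)
  · intro s i hi hl
    have hi' : i < qq v s := hi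
    rw [show (toT H m hm).q s = qq v s from rfl] at hl ⊢
    rw [pZ s i hi']
    have h2 : pp v s = 0 := by
      rcases pq_cases H (s := s) (by omega) with ⟨x, rfl, h3, h4, h5, h6⟩ |
        ⟨x, rfl, h3, h4, h5, h6⟩
      · omega
      · exact h6
    exact (hM s (by omega)).1 i (by omega) (by rw [h2, Nat.zero_add]; exact hl)
  · intro s i hi hl
    have hi' : i < qq v s := hi
    rw [show (toT H m hm).q s = qq v s from rfl] at hl ⊢
    rw [pZ s i hi']
    have h2 : pp v s = 0 := by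
      rcases pq_cases H (s := s) (by omega) with ⟨x, rfl, h3, h4, h5, h6⟩ |
        ⟨x, rfl, h3, h4, h5, h6⟩
      · omega
      · exact h6
    exact (hM s (by omega)).2 i (by omega) (by rw [h2, Nat.zero_add]; exact hl)

end Thin.M

/-- **Typed connected flows on the spine system with thin ribbons unfold**, any number of strands
over every thin ribbon.  The types of the strands over a thin ribbon are `false, .., false, true,
.., true` in the order of the strands, seen from the dart with `v > 0`, and the reversed order seen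
from the dart with `v < 0`. -/
theorem hasEdgeUnfolding_of_thinM {e : T.TD hab → ℕ} {v : T.TD hab → ℤ}
    (hF : (T.tsys hab).Fl e v) (hC : (T.tsys hab).FConn e v)
    (hXZ : ∀ p q : T.TD hab, Thin.M.XZr p q → v p = 0 ∨ v q = 0)
    (h0 : ∀ p : T.TD hab, ¬ Thin.RibT p → v p = 0)
    (hpos : ∀ x : HD P a, 0 < e (Thin.d0 T hab x)) (g : T.TD hab → ℕ → Bool)
    (gE : ∀ (d : T.TD hab) (j : ℕ), j < e d →
      g d ((v d).toNat + j) = g ((T.tsys hab).E d) ((-v ((T.tsys hab).E d)).toNat + j))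
    (gr : ∀ (d : T.TD hab) (t : ℕ), t < (T.tsys hab).cnt e v d →
      g ((T.tsys hab).r d) t = g d ((T.tsys hab).cnt e v d - 1 - t))
    (gp : ∀ (d : T.TD hab) (j : ℕ), (j : ℤ) < v d → Thin.okT d true (g d j)
      (g ((T.tsys hab).N d) ((-v ((T.tsys hab).N d)).toNat +
        e ((T.tsys hab).r ((T.tsys hab).N d)) + j)))
    (gm : ∀ (d : T.TD hab) (j : ℕ), (j : ℤ) < -v d → Thin.okT d false (g d j)
      (g ((T.tsys hab).N d) ((v ((T.tsys hab).N d)).toNat + e ((T.tsys hab).N d) + j)))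
    (gi : ∀ d : T.TD hab, d.1.2 ≠ 0 → ∀ i j : ℕ, i < j → (j : ℤ) < v d →
      g d i = true → g d j = true)
    (gd : ∀ d : T.TD hab, d.1.2 ≠ 0 → ∀ i j : ℕ, i < j → (j : ℤ) < -v d →
      g d j = true → g d i = true)
    (F : P.Facet) {N Q : ℕ} (hN : ∀ x, e x ≤ N) (hN' : ∀ x, |v x| ≤ N)
    (hQ : 5 * (6 * N + 1) + 1 ≤ Q) (hK : 0 < 2 * Q + 1) :
    (P.refine (2 * Q + 1) hK).HasEdgeUnfolding := by
  have H : Thin.M.Adm e v := by
    refine ⟨hF, h0, fun p hp hv => ?_, fun p hp hv hX => ?_, hXZ⟩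
    · have h2 := gp p 0 (by exact_mod_cast hv)
      unfold Thin.okT at h2
      rw [if_neg hp] at h2
      exact h2.2.1 rfl
    · have h2 := gm p 0 (by push_cast; omega)
      unfold Thin.okT at h2
      rw [if_neg hp] at h2
      exact absurd (h2.2.2 hX) (by decide)
  have G : Thin.M.TyC e v g := ⟨gE, gr, gp, gm, gi, gd⟩
  obtain ⟨m, hm⟩ := Thin.M.exists_m H G
  exact TMl.hasEdgeUnfolding (S := Thin.M.toT H m (fun s hs => (hm s hs).2))
    (Thin.M.typ_toT H G m _ (fun s hs => (hm s hs).1)) (Thin.M.rconn H m _ hC)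
    (fun x => hpos x) F (fun x => hN _) (fun x => hN' _) hQ hK

end Pool.Agent.MP42.EO
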