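import Pool.Agent.MP42.TQ.Lanes

/-!
# Solutions with types from local conditions on the lanes (owner helper18)

`v` = signed numbers of lanes.  The lanes over the ribbon `x` are numbered `0, 1, .., |v x| - 1` in
the order of the ring; the lane `i` of `x` is the lane `|v x| - 1 - i` of `τ x`.
-/

set_option autoImplicit false
set_option linter.unusedSectionVars false

namespace Pool.Agent.MP42.EO

open Pool.Agent.MP42.NE

variable {D : Type*}

/-- the ends at the ribbon `x` determine the types of their strands -/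
def DetM (v : D → ℤ) (cls : D → Prop) (x : D) : Prop := 0 < v x ↔ cls x

/-- the strand of the lane `j` of `y` ends at the next lane of the ring, and the allowed types
agree -/
def PosAdj (E : Equiv.Perm D) (v : D → ℤ) (Pos : D → ℕ → Bool → Prop) (y : D) (j : ℕ) : Prop :=
  (0 < v y ∧ j = 0 ∧ ∃ (x : D) (n : ℕ), y = (E ^ (n + 1)) x ∧
    (∀ m, 0 < m → m ≤ n → v ((E ^ m) x) = 0) ∧ v x < 0 ∧
    ∀ a, Pos x ((v x).natAbs - 1) a → Pos y 0 a) ∨
  (v y < 0 ∧ j = (v y).natAbs - 1 ∧ ∃ (x : D) (n : ℕ), x = (E ^ (n + 1)) y ∧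
    (∀ m, 0 < m → m ≤ n → v ((E ^ m) y) = 0) ∧ 0 < v x ∧
    ∀ a, Pos x 0 a → Pos y ((v y).natAbs - 1) a)

/-- Lanes with classes of the rings and local conditions on the types. -/
structure TyM (E : Equiv.Perm D) (τ : D → D) (ok : D → Bool → Bool → Bool → Prop)
    (K : ℕ) (G : D → Prop) (r : D) (s : ℤ) (v sg : D → ℤ) (cls : D → Prop)
    (Pos : D → ℕ → Bool → Prop) (a0 : D → ℕ → Bool) : Prop where
  tt : ∀ x, τ (τ x) = x
  vτ : ∀ x, v (τ x) = v x
  vG : ∀ x, ¬ G x → v x = 0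
  GE : ∀ x, G (E x) ↔ G x
  rG : G r
  sg1 : ∀ x, sg x = 1 ∨ sg x = -1
  sgE : ∀ x, sg (E x) = sg x
  sgr : sg r = s
  cirs : ∀ x, G x → ∃ N, Cir E v x N (sg x) K
  conn : ∀ T : D → ℕ → Prop, TS E τ v T → (∀ x, G x → ∀ j, 3 * K + 1 ≤ j → ¬ T x j) →
    ∃ c : Prop, ∀ x, G x → ∀ j, T x j ↔ c
  clsE : ∀ x, cls (E x) ↔ cls x
  oks : ∀ x s a b, ok x s a b → ok (τ x) s b a
  nosink : ∀ x, v x ≠ 0 → DetM v cls x ∨ DetM v cls (τ x)
  src : ∀ x i, i < (v x).natAbs → DetM v cls x → DetM v cls (τ x) →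
    ok x (decide (0 < v x)) (a0 x i) (a0 (τ x) ((v x).natAbs - 1 - i)) ∧ Pos x i (a0 x i)
  flow : ∀ x i, i < (v x).natAbs → DetM v cls x → ¬ DetM v cls (τ x) →
    ∀ b, Pos (τ x) ((v x).natAbs - 1 - i) b → ∃ a, Pos x i a ∧ ok x (decide (0 < v x)) a b
  strand : ∀ y j, j < (v y).natAbs → ¬ DetM v cls y → (∀ a, Pos y j a) ∨ PosAdj E v Pos y j
  root : s = 1 ↔ ¬ cls r
  rootPos : ∀ x, E.SameCycle r x → ∀ i a, Pos x i a
  pos : ∀ x i, i < (v x).natAbs → ∃ a, Pos x i a

namespace TyM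

open LD

variable {E : Equiv.Perm D} {τ : D → D}
  {ok : D → Bool → Bool → Bool → Prop} {K : ℕ} {G : D → Prop} {r : D} {s : ℤ} {v sg : D → ℤ}
  {cls : D → Prop} {Pos : D → ℕ → Bool → Prop} {a0 : D → ℕ → Bool}

lemma ts_gs {P : Type*} {E : Equiv.Perm P} {τ : P → P} {v : P → ℤ} {T : P → ℕ → Prop}
    (h : TS E τ v T) : GS E τ v (fun _ _ a b => (a ↔ b)) T :=
  ⟨fun p j k hk => propext (h.st p j k hk), h.pop, h.push⟩

lemma gs_ts {P : Type*} {E : Equiv.Perm P} {τ : P → P} {v : P → ℤ} {T : P → ℕ → Prop}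
    (tt : ∀ x, τ (τ x) = x) (vt : ∀ x, v (τ x) = v x)
    (h : GS E τ v (fun _ _ a b => (a ↔ b)) T) : TS E τ v T :=
  ⟨tt, vt, fun p j k hk => by rw [h.st p j k hk], h.pop, h.push⟩

lemma tts_gs {P : Type*} {E : Equiv.Perm P} {τ : P → P} {v : P → ℤ} {κ : P → ℕ → Bool}
    {ok : P → Bool → Bool → Bool → Prop} (h : TTS E τ v ok κ) : GS E τ v ok κ :=
  ⟨h.st, h.pop, h.push⟩

lemma gs_tts {P : Type*} {E : Equiv.Perm P} {τ : P → P} {v : P → ℤ} {κ : P → ℕ → Bool}
    {ok : P → Bool → Bool → Bool → Prop} (h : GS E τ v ok κ) : TTS E τ v ok κ :=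
  ⟨h.st, h.pop, h.push⟩

lemma same_fst {l l' : LD v} (h : (EL E v).SameCycle l l') [Finite D] :
    E.SameCycle l.1.1 l'.1.1 := by
  obtain ⟨n, rfl⟩ := h.exists_nat_pow_eq
  obtain ⟨⟨x, i⟩, hi⟩ := l
  obtain ⟨m, k, hk, -, h2, -⟩ := walkL (E := E) x i hi n
  have h3 : ((EL E v ^ n) ⟨(x, i), hi⟩) = ln v ((E ^ m) x) k hk := h2
  rw [h3]
  exact ⟨(m : ℤ), by rw [zpow_natCast]; rfl⟩

lemma same_zero (x : D) (i : ℕ) (hi : i ≤ (v x).natAbs) :
    (EL E v).SameCycle (ln v x 0 (Nat.zero_le _)) (ln v x i hi) := by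
  induction i with
  | zero => exact Equiv.Perm.SameCycle.refl _ _
  | succ i ih =>
    have h1 := ih (by omega)
    rw [← EL_lt (E := E) (by omega)]
    exact Equiv.Perm.sameCycle_apply_right.2 h1

lemma same_last (x : D) : (EL E v).SameCycle (last v x) (last v (E x)) := by
  have h1 := same_zero (E := E) (v := v) (E x) _ le_rfl
  rw [← EL_last] at h1
  exact Equiv.Perm.sameCycle_apply_left.1 h1

lemma same_last' {x y : D} (h : E.SameCycle x y) [Finite D] :
    (EL E v).SameCycle (last v x) (last v y) := by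
  obtain ⟨n, rfl⟩ := h.exists_nat_pow_eq
  clear h
  induction n with
  | zero => exact Equiv.Perm.SameCycle.refl _ _
  | succ n ih =>
    rw [pow_succ', Equiv.Perm.mul_apply]
    exact ih.trans (same_last _)

/-- adjacent lanes are matched -/
lemma mt_adj {x y : D} {n : ℕ} (hy : y = (E ^ (n + 1)) x)
    (h0 : ∀ m, 0 < m → m ≤ n → v ((E ^ m) x) = 0) (hx : v x < 0) (hvy : 0 < v y) :
    Mt2 (EL E v) (vL v) (last v x) (ln v y 1 (by omega)) := by
  have h1 : ∀ m ≤ n, (RE (EL E v) (vL v) (last v x) 0 (ln v y 1 (by omega)) ↔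
      RE (EL E v) (vL v) (last v ((E ^ m) x)) 0 (ln v y 1 (by omega))) := by
    intro m
    induction m with
    | zero => intro _; exact Iff.rfl
    | succ m ih =>
      intro hm
      rw [ih (by omega), re_step (k := 0) (j := 0) (by rw [EL_last, vL_zero]; rfl), EL_last]
      have e1 : E ((E ^ m) x) = (E ^ (m + 1)) x := by
        rw [pow_succ', Equiv.Perm.mul_apply]
      have e2 : ln v (E ((E ^ m) x)) 0 (Nat.zero_le _) = last v ((E ^ (m + 1)) x) := by
        refine LD.ext e1 ?_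
        show 0 = (v ((E ^ (m + 1)) x)).natAbs
        rw [h0 (m + 1) (by omega) hm]; rfl
      rw [e2]
  have h2 : RE (EL E v) (vL v) (last v ((E ^ n) x)) 0 (ln v y 1 (by omega)) := by
    rw [re_step (k := 0) (j := 0) (by rw [EL_last, vL_zero]; rfl), EL_last]
    have e1 : E ((E ^ n) x) = y := by
      rw [hy, pow_succ' E n, Equiv.Perm.mul_apply]
    have e2 : ln v (E ((E ^ n) x)) 0 (Nat.zero_le _) = ln v y 0 (Nat.zero_le _) :=
      LD.ext e1 rfl
    have e3 : EL E v (ln v y 0 (Nat.zero_le _)) = ln v y 1 (by omega) := EL_lt (by omega)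
    rw [e2, ← e3]
    apply RE.pop
    rw [e3, vL_succ (i := 0), Int.sign_eq_one_of_pos hvy]
  refine ⟨?_, (h1 n le_rfl).2 h2⟩
  obtain ⟨k, hk⟩ : ∃ k, (v x).natAbs = k + 1 := ⟨(v x).natAbs - 1, by omega⟩
  have e4 : last v x = ln v x (k + 1) (by omega) := LD.ext rfl hk
  rw [e4, vL_succ, Int.sign_eq_neg_one_of_neg hx]

lemma det_iff {x : D} {i : ℕ} (hi : i + 1 ≤ (v x).natAbs) :
    Det (vL v) (fun l => cls l.1.1) (ln v x (i + 1) hi) ↔ DetM v cls x := by
  unfold Det DetM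
  rw [vL_succ]
  have h1 : (v x).sign = 1 ↔ 0 < v x := by
    rw [Int.sign_eq_one_iff_pos]
  rw [h1]
  exact Iff.rfl

lemma dec_iff {x : D} {i : ℕ} (hi : i + 1 ≤ (v x).natAbs) :
    (decide (vL v (ln v x (i + 1) hi) = 1)) = decide (0 < v x) := by
  rw [vL_succ]
  have h1 : (v x).sign = 1 ↔ 0 < v x := by
    rw [Int.sign_eq_one_iff_pos]
  by_cases h : 0 < v x
  · rw [decide_eq_true h, decide_eq_true (h1.2 h)]
  · rw [decide_eq_false h, decide_eq_false (fun h' => h (h1.1 h'))]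

lemma tau_ln (H : TyM E τ ok K G r s v sg cls Pos a0) {x : D} {i : ℕ}
    (hi : i + 1 ≤ (v x).natAbs) (hj : (v x).natAbs - 1 - i + 1 ≤ (v (τ x)).natAbs) :
    tauL τ H.vτ (ln v x (i + 1) hi) = ln v (τ x) ((v x).natAbs - 1 - i + 1) hj := by
  refine LD.ext rfl ?_
  show (if i + 1 = 0 then 0 else (v x).natAbs + 1 - (i + 1)) = (v x).natAbs - 1 - i + 1
  rw [if_neg (by omega)]
  omega

/-- a lane with a sign -/
lemma ne_zero {l : LD v} (h : vL v l ≠ 0) : ∃ (x : D) (i : ℕ) (hi : i + 1 ≤ (v x).natAbs),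
    l = ln v x (i + 1) hi := by
  obtain ⟨⟨x, i⟩, hi⟩ := l
  have hi0 : i ≠ 0 := by
    rintro rfl
    exact h (vL_zero x)
  obtain ⟨k, rfl⟩ := Nat.exists_eq_succ_of_ne_zero hi0
  exact ⟨x, k, hi, rfl⟩

lemma vb (H : TyM E τ ok K G r s v sg cls Pos a0) (y : D) : |v y| ≤ K := by
  by_cases hy : G y
  · have h1 : G (E.symm y) := by
      have := H.GE (E.symm y)
      rw [Equiv.apply_symm_apply] at this
      exact this.1 hy
    obtain ⟨N, hN⟩ := H.cirs _ h1
    have h2 := hN.bd 1 hN.pos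
    rw [hs_succ, hs_zero, Equiv.apply_symm_apply, add_zero] at h2
    exact h2
  · rw [H.vG y hy]
    simp

/-- the lanes satisfy the local conditions -/
lemma toD [Finite D] (H : TyM E τ ok K G r s v sg cls Pos a0) :
    TyD (EL E v) (tauL τ H.vτ) (fun l => ok l.1.1) (3 * K) (fun l => G l.1.1) (last v r) s (vL v)
      (fun l => sg l.1.1) (fun l => cls l.1.1) (fun l a => l.1.2 = 0 ∨ Pos l.1.1 (l.1.2 - 1) a)
      (fun l => a0 l.1.1 (l.1.2 - 1)) := by
  have hfst : ∀ l : LD v, (EL E v l).1.1 = l.1.1 ∨ (EL E v l).1.1 = E l.1.1 := by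
    rintro ⟨⟨x, i⟩, hi⟩
    have hi' : i ≤ (v x).natAbs := hi
    by_cases h : i < (v x).natAbs
    · left
      have h1 := EL_lt (E := E) (v := v) h
      have h5 : (EL E v (ln v x i h.le)).1.1 = x := by rw [h1]; rfl
      exact h5
    · right
      have h2 : i = (v x).natAbs := by omega
      have h1 := EL_last (E := E) (v := v) x
      have h3 : (⟨(x, i), hi⟩ : LD v) = last v x := LD.ext rfl h2
      rw [h3]
      exact congrArg (fun l : LD v => l.1.1) h1
  have htt : ∀ l : LD v, tauL τ H.vτ (tauL τ H.vτ l) = l := by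
    rintro ⟨⟨x, i⟩, hi⟩
    have hi' : i ≤ (v x).natAbs := hi
    refine LD.ext (H.tt x) ?_
    show (if (if i = 0 then 0 else (v x).natAbs + 1 - i) = 0 then 0 else
      (v (τ x)).natAbs + 1 - (if i = 0 then 0 else (v x).natAbs + 1 - i)) = i
    rw [H.vτ]
    by_cases h : i = 0
    · rw [if_pos h, if_pos rfl, h]
    · rw [if_neg h, if_neg (by omega)]
      omega
  have hvt : ∀ l : LD v, vL v (tauL τ H.vτ l) = vL v l := by
    rintro ⟨⟨x, i⟩, hi⟩
    have hi' : i ≤ (v x).natAbs := hi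
    show (if (if i = 0 then 0 else (v x).natAbs + 1 - i) = 0 then 0 else (v (τ x)).sign) =
      if i = 0 then 0 else (v x).sign
    rw [H.vτ]
    by_cases h : i = 0
    · rw [if_pos h, if_pos h, if_pos rfl]
    · rw [if_neg h, if_neg h, if_neg (by omega)]
  constructor
  · exact htt
  · exact hvt
  · rintro ⟨⟨x, i⟩, hi⟩
    show (if i = 0 then 0 else (v x).sign) = -1 ∨ (if i = 0 then 0 else (v x).sign) = 0 ∨
      (if i = 0 then 0 else (v x).sign) = 1
    by_cases h : i = 0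
    · rw [if_pos h]; exact Or.inr (Or.inl rfl)
    · rw [if_neg h]
      rcases lt_trichotomy (v x) 0 with h1 | h1 | h1
      · left; exact Int.sign_eq_neg_one_of_neg h1
      · right; left; rw [h1]; rfl
      · right; right; exact Int.sign_eq_one_of_pos h1
  · rintro ⟨⟨x, i⟩, hi⟩ hx
    have hx' : ¬ G x := hx
    show (if i = 0 then 0 else (v x).sign) = 0
    rw [H.vG x hx']
    simp
  · intro l
    show G (EL E v l).1.1 ↔ G l.1.1
    rcases hfst l with h | h
    · rw [h]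
    · rw [h, H.GE]
  · exact H.rG
  · exact fun l => H.sg1 _
  · intro l
    show sg (EL E v l).1.1 = sg l.1.1
    rcases hfst l with h | h
    · rw [h]
    · rw [h, H.sgE]
  · exact H.sgr
  · rintro ⟨⟨x, i⟩, hi⟩ hx
    obtain ⟨N, hN⟩ := H.cirs x hx
    exact cirL hN H.vb i hi
  · intro T hT hdeep
    have h1 := GS.unlane (hvτ := H.vτ) (R := fun _ _ a b => (a ↔ b)) (ts_gs hT)
    obtain ⟨c, hc⟩ := H.conn _ (gs_ts H.tt H.vτ h1) (fun x hx j hj => hdeep (last v x) hx j hj)
    refine ⟨c, ?_⟩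
    rintro ⟨⟨x, i⟩, hi⟩ hx j
    have hi' : i ≤ (v x).natAbs := hi
    have hx' : G x := hx
    rcases le_total 0 (v x) with h2 | h2
    · have h3 := GS.lanes_pop (ts_gs hT) h2 i hi' j
      have h4 : G (E.symm x) := by
        have := H.GE (E.symm x)
        rw [Equiv.apply_symm_apply] at this
        exact this.1 hx'
      show T (ln v x i hi') j ↔ c
      rw [h3]
      exact hc _ h4 _
    · have h3 := GS.lanes_push (ts_gs hT) h2 ((v x).natAbs - i) (Nat.sub_le _ _) j
      have h4 : ln v x ((v x).natAbs - ((v x).natAbs - i)) (Nat.sub_le _ _) = ln v x i hi' :=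
        LD.ext rfl (by
          show (v x).natAbs - ((v x).natAbs - i) = i
          omega)
      rw [h4] at h3
      show T (ln v x i hi') j ↔ c
      rw [h3]
      exact hc _ hx' _
  · intro l
    show cls (EL E v l).1.1 ↔ cls l.1.1
    rcases hfst l with h | h
    · rw [h]
    · rw [h, H.clsE]
  · exact fun l s a b h => H.oks _ _ _ _ h
  · intro l hl
    obtain ⟨x, i, hi, rfl⟩ := ne_zero hl
    have hj : (v x).natAbs - 1 - i + 1 ≤ (v (τ x)).natAbs := by rw [H.vτ]; omega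
    rw [H.tau_ln hi hj, det_iff, det_iff]
    exact H.nosink x (fun h => by rw [h] at hi; simp at hi)
  · intro l hl
    obtain ⟨x, i, hi, rfl⟩ := ne_zero hl
    have hj : (v x).natAbs - 1 - i + 1 ≤ (v (τ x)).natAbs := by rw [H.vτ]; omega
    rw [H.tau_ln hi hj, det_iff, det_iff, dec_iff]
    intro h1 h2
    obtain ⟨h3, h4⟩ := H.src x i (by omega) h1 h2
    exact ⟨h3, Or.inr h4⟩
  · intro l hl
    obtain ⟨x, i, hi, rfl⟩ := ne_zero hl
    have hj : (v x).natAbs - 1 - i + 1 ≤ (v (τ x)).natAbs := by rw [H.vτ]; omega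
    rw [H.tau_ln hi hj, det_iff, det_iff, dec_iff]
    intro h1 h2 b hb
    obtain ⟨a, h3, h4⟩ := H.flow x i (by omega) h1 h2 b (by
      rcases hb with hb | hb
      · exact absurd hb (by show ¬ (v x).natAbs - 1 - i + 1 = 0; omega)
      · exact hb)
    exact ⟨a, Or.inr h3, h4⟩
  · intro l l' h hd a ha
    obtain ⟨x, i, hi, rfl⟩ := ne_zero h.ne
    obtain ⟨y, j, hj, rfl⟩ := ne_zero h.symm.ne
    have hndy : ¬ DetM v cls y := by
      have h1 := h.symm.det (cls := fun l : LD v => cls l.1.1) (fun l => by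
        show cls (EL E v l).1.1 ↔ cls l.1.1
        rcases hfst l with h | h
        · rw [h]
        · rw [h, H.clsE])
      intro h2
      exact h1.1 hd (det_iff hj |>.2 h2)
    have ha' : Pos x i a := by
      rcases ha with ha | ha
      · exact absurd ha (by show ¬ i + 1 = 0; omega)
      · exact ha
    right
    show Pos y j a
    rcases H.strand y j (by omega) hndy with h1 | ⟨h1, h2, z, n, h3, h4, h5, h6⟩ |
      ⟨h1, h2, z, n, h3, h4, h5, h6⟩
    · exact h1 a
    · subst h2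
      have h7 := mt_adj h3 h4 h5 h1
      have h8 := h.symm.uniq (Or.inr h7)
      have h9 : z = x := congrArg (fun l : LD v => l.1.1) h8
      have h10 : (v z).natAbs = i + 1 := congrArg (fun l : LD v => l.1.2) h8
      subst h9
      apply h6
      rw [show (v z).natAbs - 1 = i by omega]
      exact ha'
    · subst h2
      have h7 := mt_adj h3 h4 h1 h5
      have e1 : ln v y ((v y).natAbs - 1 + 1) hj = last v y := LD.ext rfl (by
        show (v y).natAbs - 1 + 1 = (v y).natAbs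
        omega)
      rw [e1] at h
      have h8 := h.symm.uniq (Or.inl h7)
      have h9 : z = x := congrArg (fun l : LD v => l.1.1) h8
      have h10 : 1 = i + 1 := congrArg (fun l : LD v => l.1.2) h8
      subst h9
      apply h6
      rw [show (0 : ℕ) = i by omega]
      exact ha'
  · exact H.root
  · intro l hl _ _ _ a
    by_cases h : l.1.2 = 0
    · exact Or.inl h
    · exact Or.inr (H.rootPos _ (same_fst hl) _ a)
  · intro l hl
    obtain ⟨x, i, hi, rfl⟩ := ne_zero hl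
    obtain ⟨a, ha⟩ := H.pos x i (by omega)
    exact ⟨a, Or.inr ha⟩

/-- **stacks of types from local conditions on the lanes** -/
theorem exists_kappa [Finite D] (H : TyM E τ ok K G r s v sg cls Pos a0) (t0 t1 : Bool) :
    ∃ κ : D → ℕ → Bool, TTS E τ v ok κ ∧ (∀ x j, 3 * K + 1 ≤ j → κ x (j + 2) = κ x j) ∧
      (∀ x j, ¬ G x → κ x j = false) ∧
      (∀ x, E.SameCycle r x → ∃ ε : ℕ, ∀ j, 3 * K + 1 ≤ j →
        κ x j = if (j + ε) % 2 = 0 then t0 else t1) ∧
      (∀ x (i : ℕ), (i : ℤ) < v x → Pos x i (κ (E.symm x) i)) ∧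
      ∀ x (i : ℕ), (i : ℤ) < -v x → Pos x i (κ x ((v x).natAbs - 1 - i)) := by
  obtain ⟨κ', h1, h2, h3, h4, h5, h6⟩ := H.toD.exists_kappa t0 t1
  have hG := tts_gs h1
  have hU := GS.unlane (hvτ := H.vτ) (R := ok) hG
  refine ⟨fun x => κ' (last v x), gs_tts hU, fun x j hj => h2 _ j hj, fun x j hx => h3 _ j hx,
    fun x hx => h4 _ (same_last' hx), ?_, ?_⟩
  · intro x i hi
    have hi' : i + 1 ≤ (v x).natAbs := by omega
    have h7 := h5 (ln v x (i + 1) hi') (by
      rw [vL_succ, Int.sign_eq_one_of_pos (by omega)])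
    rw [EL_symm, hG.lanes_pop (by omega)] at h7
    rcases h7 with h7 | h7
    · exact absurd h7 (by show ¬ i + 1 = 0; omega)
    · exact h7
  · intro x i hi
    have hi' : i + 1 ≤ (v x).natAbs := by omega
    have h7 := h6 (ln v x (i + 1) hi') (by
      rw [vL_succ, Int.sign_eq_neg_one_of_neg (by omega)])
    have h8 := hG.lanes_push (x := x) (by omega) ((v x).natAbs - 1 - i) (by omega) 0
    have h9 : ln v x ((v x).natAbs - ((v x).natAbs - 1 - i)) (Nat.sub_le _ _) =
        ln v x (i + 1) hi' := LD.ext rfl (by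
      show (v x).natAbs - ((v x).natAbs - 1 - i) = i + 1
      omega)
    rw [h9] at h8
    rw [h8] at h7
    rcases h7 with h7 | h7
    · exact absurd h7 (by show ¬ i + 1 = 0; omega)
    · exact h7

end TyM

end Pool.Agent.MP42.EO
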