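import Pool.Agent.MP42.TP.TF6
import Pool.Agent.MP42.NE.MFlow4

/-!
# The signed flow on facets of a flow on the spine system with passes (owner helper18)
-/

set_option autoImplicit false

namespace Pool.Agent.MP42.EO

open Pool.Agent.Helper55.UNF Pool.Agent.Helper55.UNF.GridSolid Pool.Agent.MP42.NE

variable {P : GridSolid} {a b : Fin 3} {hab : a ≠ b}

/-- A flow on the spine system with passes through bad tripods: `e x` counts the strands that leave
the facet of the dart `x` to the east, over the side or through the passes `p` (at the `X` corners)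
and `q` (at the `Z` corners). -/
structure TMl (P : GridSolid) (a b : Fin 3) (hab : a ≠ b) where
  e : HD P a → ℕ
  v : HD P a → ℤ
  p : P.FSt → ℕ
  q : P.FSt → ℕ
  bal : ∀ d, (e ((sysH P a b hab).r d) : ℤ) + v ((sysH P a b hab).r d) = e d + v d
  vr : ∀ d, v ((sysH P a b hab).r ((sysH P a b hab).N d)) = v d
  v0 : ∀ x : HD P a, ¬ Rib b x → v x = 0
  m : P.FSt → ℕ
  pq : ∀ s, p s = 0 ∨ q s = 0
  bad : ∀ s, p s + q s ≠ 0 → BadC a b s
  po : ∀ s, p s ≠ 0 → p (opq s).r2 = p s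
  qo : ∀ s, q s ≠ 0 → q (opq s).r2 = q s
  mo : ∀ s, p s + q s ≠ 0 → m s + m (opq s).r2 + 1 = p s + q s
  le : ∀ x : HD P a, p x.1 + q x.1.rR ≤ e x
  er : ∀ x : HD P a, e ((sysH P a b hab).r ((sysH P a b hab).E x)) + (p x.1 + q x.1.rR) =
    e x + (p ((sysH P a b hab).r ((sysH P a b hab).E x)).1 +
      q ((sysH P a b hab).r ((sysH P a b hab).E x)).1.rR)

namespace TMl

variable (S : TMl P a b hab)

/-- strands leaving to the east -/
noncomputable def ee (t : P.FSt) : ℕ := ext0 S.e t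

/-- strands over the north side -/
noncomputable def vv (t : P.FSt) : ℤ := ext1 S.v t

/-- strands in the pass -/
def co (t : P.FSt) : ℕ := S.p t + S.q t.rR

/-- strands over the east side -/
noncomputable def sd (t : P.FSt) : ℕ := S.ee t - S.co t

variable {S}

lemma ee_eq {t : P.FSt} (h : IsD a t) : S.ee t = S.e ⟨t, h⟩ := dif_pos h

lemma vv_eq {t : P.FSt} (h : IsD a t) : S.vv t = S.v ⟨t, h⟩ := dif_pos h

lemma p_not {s : P.FSt} (h : ¬ KY a b s) : S.p s = 0 := by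
  by_contra h2
  exact h (S.bad s (by omega)).ky

lemma q_not {s : P.FSt} (h : ¬ KY a b s) : S.q s = 0 := by
  by_contra h2
  exact h (S.bad s (by omega)).ky

/-- the number of strands in the pass is the same on both sides -/
lemma pq_op {s : P.FSt} (h : S.p s + S.q s ≠ 0) :
    S.p (opq s).r2 = S.p s ∧ S.q (opq s).r2 = S.q s := by
  have h1 := S.pq s
  have h2 := S.pq (opq s).r2
  rcases Nat.eq_zero_or_pos (S.p s) with h3 | h3
  · have h4 := S.qo s (by omega)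
    omega
  · have h4 := S.po s (by omega)
    omega

lemma not_KY_rR' (hab : a ≠ b) {s : P.FSt} (h : KY a b s) : ¬ KY a b s.rR := fun h' =>
  (nom_rR_iff hab s).1 (h'.nom hab) (h.nom hab)

lemma co_Y {t : P.FSt} (h : KY a b t) : S.co t = S.p t := by
  unfold co
  rw [q_not (not_KY_rR' hab h)]; rfl

lemma co_N {t : P.FSt} (h : KY a b t) : S.co t.rL = S.q t := by
  unfold co
  rw [p_not (not_KY_rL hab h), FSt.rL_rR, Nat.zero_add]

lemma co_X {t : P.FSt} (h : ¬ t.1.d.1 = a) : S.co t = 0 := by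
  unfold co
  rw [p_not (fun h' => h h'.1), q_not (s := t.rR) (fun h' => h h'.1)]

lemma sd_X {t : P.FSt} (h : ¬ t.1.d.1 = a) : S.sd t = S.ee t := by
  unfold sd
  rw [co_X h]; rfl

lemma co_le {t : P.FSt} (h : IsD a t) : S.co t ≤ S.ee t := by
  rw [ee_eq h]
  exact S.le ⟨t, h⟩

lemma sd_add {t : P.FSt} (h : IsD a t) : S.sd t + S.co t = S.ee t := by
  have := co_le (S := S) h
  unfold sd; omega

lemma sd_Y {t : P.FSt} (h : KY a b t) : S.sd t + S.p t = S.ee t := by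
  rw [← co_Y h]; exact sd_add h.isD

lemma sd_N {t : P.FSt} (h : KY a b t) : S.sd t.rL + S.q t = S.ee t.rL := by
  rw [← co_N h]; exact sd_add h.isD'

lemma sd_stE {t : P.FSt} (h : IsD a t) : S.sd t.stE.r2 = S.sd t := by
  have h1 := S.er ⟨t, h⟩
  have h2 : ((sysH P a b hab).r ((sysH P a b hab).E ⟨t, h⟩)).1 = t.stE.r2 := by
    show hr a b (hfx a b t.stE) = _
    rw [hr_hfx hab]
  have h3 : S.ee t.stE.r2 = S.e ((sysH P a b hab).r ((sysH P a b hab).E ⟨t, h⟩)) := by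
    rw [← h2]; exact ext0_eq S.e _
  rw [← h3, h2, ← ee_eq h] at h1
  have h4 : S.ee t.stE.r2 + S.co t = S.ee t + S.co t.stE.r2 := h1
  have h5 : S.co t.stE.r2 ≤ S.ee t.stE.r2 := by
    rw [h3, ← h2]; exact S.le _
  have h6 := co_le (S := S) h
  unfold sd; omega

lemma vv_stN {t : P.FSt} (h : t.1.e.1 = a) : S.vv t.stN.r2 = S.vv t := by
  have h0 : ¬ t.1.d.1 = a := fun h' => ax_ne t (h'.trans h.symm)
  have h1 := S.vr ⟨t, Or.inr h⟩
  rw [vv_eq (t := t) (Or.inr h), ← h1, ← ext1_eq S.v]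
  show S.vv _ = S.vv (hr a b (hN a t))
  rw [hN_wall h0, hr_wall (wall_stN h)]

lemma vv_r2 {t : P.FSt} (h : t.1.d.1 = a) (h' : t.1.e.1 ≠ b) : S.vv t.r2 = S.vv t := by
  have h1 := S.vr ⟨t, Or.inl h⟩
  rw [vv_eq (t := t) (Or.inl h), ← h1, ← ext1_eq S.v]
  show S.vv _ = S.vv (hr a b (hN a t))
  rw [hN_cap h, hr_non (t := t.rL) h ((rL_b hab h).2 h'), FSt.rL_rL]

lemma vv_zero {t : P.FSt} (h : t.1.d.1 = a) (h' : t.1.e.1 = b) : S.vv t = 0 := by
  rw [vv_eq (Or.inl h)]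
  exact S.v0 _ (fun hr => hr ⟨h, h'⟩)

lemma bal_wall {t : P.FSt} (h : t.1.e.1 = a) :
    (S.ee t.r2 : ℤ) + S.vv t.r2 = S.ee t + S.vv t := by
  have h0 : ¬ t.1.d.1 = a := fun h' => ax_ne t (h'.trans h.symm)
  have h1 := S.bal ⟨t, Or.inr h⟩
  rw [ee_eq (t := t) (Or.inr h), vv_eq (t := t) (Or.inr h), ← h1, ← ext0_eq S.e, ← ext1_eq S.v]
  show _ = (S.ee (hr a b t) : ℤ) + S.vv (hr a b t)
  rw [hr_wall h0]

lemma bal_nom {t : P.FSt} (h : t.1.d.1 = a) (h' : t.1.e.1 ≠ b) :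
    (S.ee t.rR : ℤ) = S.ee t + S.vv t := by
  have h1 := S.bal ⟨t, Or.inl h⟩
  rw [ee_eq (t := t) (Or.inl h), vv_eq (t := t) (Or.inl h), ← h1, ← ext0_eq S.e, ← ext1_eq S.v]
  show _ = (S.ee (hr a b t) : ℤ) + S.vv (hr a b t)
  rw [hr_nom h h', vv_zero (t := t.rR) h ((rR_b hab h).2 h'), add_zero]

lemma bal_non {t : P.FSt} (h : t.1.d.1 = a) (h' : t.1.e.1 ≠ b) :
    (S.ee t.r2 : ℤ) + S.vv t = S.ee t.rL := by
  have h1 := S.bal ⟨t.rL, Or.inl h⟩
  have hb : t.rL.1.e.1 = b := (rL_b hab h).2 h'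
  rw [← ext0_eq S.e, ← ext1_eq S.v, ← ext0_eq S.e, ← ext1_eq S.v] at h1
  have h2 : (S.ee (hr a b t.rL) : ℤ) + S.vv (hr a b t.rL) = S.ee t.rL + S.vv t.rL := h1
  rw [hr_non (t := t.rL) h hb, FSt.rL_rL, vv_r2 h h', vv_zero (t := t.rL) h hb] at h2
  omega

variable (S)

open Classical in
/-- crossings of the west side -/
noncomputable def fA (t : P.FSt) : ℤ := if t.1.d.1 = b then - S.vv t.rL else S.sd t.r2

open Classical in
/-- crossings of the south side -/
noncomputable def fB (t : P.FSt) : ℤ := if t.1.e.1 = a then S.vv t.r2 else S.sd t.rR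

variable {S}

lemma fA_b {t : P.FSt} (h : t.1.d.1 = b) : S.fA t = - S.vv t.rL := if_pos h
lemma fA_n {t : P.FSt} (h : t.1.d.1 ≠ b) : S.fA t = S.sd t.r2 := if_neg h
lemma fB_a {t : P.FSt} (h : t.1.e.1 = a) : S.fB t = S.vv t.r2 := if_pos h
lemma fB_n {t : P.FSt} (h : t.1.e.1 ≠ a) : S.fB t = S.sd t.rR := if_neg h

lemma fA_b' {t : P.FSt} (h : t.1.d.1 = b) : S.fA t.r2 = - S.vv t.rR := by
  rw [fA_b (t := t.r2) h, FSt.r2_rL]
lemma fA_n' {t : P.FSt} (h : t.1.d.1 ≠ b) : S.fA t.r2 = S.sd t := by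
  rw [fA_n (t := t.r2) h, FSt.r2_r2]
lemma fB_a' {t : P.FSt} (h : t.1.e.1 = a) : S.fB t.r2 = S.vv t := by
  rw [fB_a (t := t.r2) h, FSt.r2_r2]
lemma fB_n' {t : P.FSt} (h : t.1.e.1 ≠ a) : S.fB t.r2 = S.sd t.rL := by
  rw [fB_n (t := t.r2) h, FSt.r2_rR]

/-- the neighbours of a bad corner -/
lemma bad_rho (hab : a ≠ b) {s : P.FSt} (h : BadC a b s) : ¬ Nom a b (rho s) ∧
    ¬ KY a b (rho (rho s)).r2 := by
  have h1 : KZ a b s.stN := h.north hab
  refine ⟨?_, ?_⟩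
  · rw [rho1, nom_rR_iff hab]
    exact not_not.2 (h1.nom hab)
  · rw [rho2, FSt.r2_r2]
    intro h2
    rcases stE_ax s.stN with ⟨h3, -⟩ | ⟨h3, -⟩
    · exact hab (h2.1.symm.trans (h3.trans h1.1))
    · exact h1.2 (h3.symm.trans h2.1)

/-- the facet flow -/
noncomputable def gf (S : TMl P a b hab) : MFlow P where
  nom := Nom a b
  nom_r2 := fun _ h => h
  nom_ex := fun F => by
    obtain ⟨t, ht⟩ : ∃ t : P.FSt, t.facet = F := ⟨can F, can_facet F⟩
    by_cases h : Nom a b t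
    · exact ⟨t, h, ht⟩
    · exact ⟨t.rL, (nom_rL_iff hab t).2 h, ht⟩
  nom_two := fun s t hs ht h => by
    rcases frames h with h1 | h1 | h1 | h1
    · exact Or.inl h1
    · rw [h1, nom_rL_iff hab] at hs
      exact absurd ht hs
    · exact Or.inr h1
    · rw [h1, nom_rR_iff hab] at hs
      exact absurd ht hs
  A := S.fA
  B := S.fB
  c := fun t => S.p t.r2 + S.q t.r2
  m := S.m
  bal := fun t h => by
    rw [FSt.r2_r2]
    rcases (nom_cases hab).1 h with ⟨h1, h2⟩ | ⟨h1, h2⟩ | ⟨h1, h2, h3⟩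
    · have hk : KY a b t := ⟨h1, h2⟩
      have h4 : t.1.e.1 ≠ a := fun h' => ax_ne t (h1.trans h'.symm)
      have h5 : t.1.d.1 ≠ b := fun h' => hab (h1.symm.trans h')
      have h6 := bal_nom (S := S) h1 h2
      have h7 := bal_non (S := S) h1 h2
      have h8 := sd_Y (S := S) hk
      have h9 := sd_N (S := S) hk
      have h10 := sd_Y (S := S) hk.r2
      have h11 := sd_N (S := S) hk.r2
      rw [FSt.r2_rL] at h11
      rw [fA_n h5, fB_n h4, fA_n' h5, fB_n' h4]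
      push_cast
      omega
    · have h3 := HFl.rL_dart hab h1 h2
      have h4 := bal_wall (S := S) h3
      rw [FSt.rL_r2] at h4
      have h5 : ¬ t.1.d.1 = a := fun h' => hab (h'.symm.trans h1)
      have h6 : ¬ KY a b t := fun h' => h5 h'.1
      have h7 : ¬ KY a b t.r2 := fun h' => h5 h'.1
      rw [fA_b h1, fB_n h2, fA_b' h1, fB_n' h2, sd_X (t := t.rR) h5, sd_X (t := t.rL) h5,
        p_not h6, q_not h6, p_not h7, q_not h7]
      push_cast
      omega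
    · have h4 := bal_wall (S := S) h3
      have h6 : ¬ KY a b t := fun h' => h1 h'.1
      have h7 : ¬ KY a b t.r2 := fun h' => h1 h'.1
      rw [fA_n h2, fB_a h3, fA_n' h2, fB_a' h3, sd_X (t := t.r2) h1, sd_X h1,
        p_not h6, q_not h6, p_not h7, q_not h7]
      push_cast
      omega
  blk := fun t h => by
    rcases (nom_cases hab).1 h with ⟨h1, h2⟩ | ⟨h1, h2⟩ | ⟨h1, h2, h3⟩
    · have h5 : t.1.d.1 ≠ b := fun h' => hab (h1.symm.trans h')
      left
      rw [fA_n h5, fA_n' h5]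
      omega
    · right
      rw [fB_n h2, fB_n' h2]
      omega
    · left
      rw [fA_n h2, fA_n' h2]
      omega
  east := fun t h _ => by
    have key : t.1.d.1 ≠ b → IsD a t → Nom a b t.stE → t.stE.1.d.1 ≠ b →
        (Nom a b t.stE ∧ S.fA t.stE = S.fA t.r2) := by
      intro h2 h3 h4 h5
      refine ⟨h4, ?_⟩
      rw [fA_n h5, fA_n' h2, sd_stE h3]
    rcases (nom_cases hab).1 h with ⟨h1, h2⟩ | ⟨h1, h2⟩ | ⟨h1, h2, h3⟩
    · have h5 : t.1.d.1 ≠ b := fun h' => hab (h1.symm.trans h')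
      obtain ⟨h6, h7⟩ := HFl.fin_k1 a b _ _ _ _ hab h5 (Or.inl ⟨h1, h2⟩) (stE_ax t) (ax_ne t)
      exact Or.inl (key h5 (Or.inl h1) h6 h7)
    · -- facets orthogonal to `b`
      have h3 := HFl.rL_dart hab h1 h2
      have h4 : t.rR.1.e.1 = a := h3
      have h5 := vv_stN (S := S) h4
      have h6 : t.rR.stN.r2 = t.stE.rL := by
        show t.rR.rL.stE.rR.r2 = t.stE.rL
        rw [FSt.rR_rL, FSt.rR_r2]
      rw [h6] at h5
      rcases stE_ax t with ⟨h7, h8⟩ | ⟨h7, h8⟩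
      · left
        refine ⟨(nom_cases hab).2 (Or.inr (Or.inl ⟨h7.trans h1, by rw [h8]; exact h2⟩)), ?_⟩
        rw [fA_b (h7.trans h1), fA_b' h1, h5]
      · right
        have h9 : t.stE.1.d.1 ≠ b := by
          rw [h7]
          intro h'
          exact ax_ne t (h1.trans h'.symm)
        have h10 : t.stE.rL.1.e.1 = a := by
          have e1 : t.stE.1.e.1 = b := h8.trans h1
          have e2 : t.stE.1.d.1 ≠ a := by rw [h7]; exact h2
          have key2 : ∀ a b d e x : Fin 3, a ≠ b → e = b → d ≠ a → d ≠ e → x ≠ e → d ≠ x →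
            x = a := by decide
          exact key2 a b _ _ _ hab e1 e2 (ax_ne _) (rL_ax t.stE) (ax_ne t.stE.rL)
        refine ⟨(nom_cases hab).2 (Or.inr (Or.inr ⟨?_, h9, h10⟩)), ?_⟩
        · show t.stE.1.d.1 ≠ a
          rw [h7]; exact h2
        · rw [fB_a' h10, fA_b' h1, h5, neg_neg]
    · obtain ⟨h6, h7⟩ := HFl.fin_k1 a b _ _ _ _ hab h2 (Or.inr ⟨h1, h3⟩) (stE_ax t) (ax_ne t)
      exact Or.inl (key h2 (Or.inr h3) h6 h7)
  north := fun t h _ => by
    have key : (t.1.d.1 = a ∨ t.1.d.1 = b) → t.1.e.1 ≠ a → t.1.e.1 ≠ b → IsD a t.rL →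
        (Nom a b t.stN ∧ S.fB t.stN = S.fB t.r2) := by
      intro h1 h2 h3 h4
      have h5 : t.stN.1.e.1 = t.1.e.1 := stN_ax t
      refine ⟨?_, ?_⟩
      · have := HFl.fin_k2 a b _ _ t.stN.1.d.1 hab h2 h1 h3 (by rw [← h5]; exact ax_ne t.stN)
        rw [← h5] at this
        exact this
      · rw [fB_n (by rw [h5]; exact h2), fB_n' h2, ← sd_stE h4]
        have e1 : t.stN.rR = t.rL.stE.r2 := by
          show t.rL.stE.rR.rR = t.rL.stE.r2
          rw [FSt.rR_rR]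
        rw [e1]
    rcases (nom_cases hab).1 h with ⟨h1, h2⟩ | ⟨h1, h2⟩ | ⟨h1, h2, h3⟩
    · exact Or.inl (key (Or.inl h1) (fun h' => ax_ne t (h1.trans h'.symm)) h2 (Or.inl h1))
    · exact Or.inl (key (Or.inr h1) h2 (fun h' => ax_ne t (h1.trans h'.symm))
        (Or.inr (HFl.rL_dart hab h1 h2)))
    · have h4 : t.stN.1.e.1 = a := (stN_ax t).trans h3
      have h5 := vv_stN (S := S) h3
      by_cases h6 : t.stN.1.d.1 = b
      · right
        refine ⟨?_, ?_⟩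
        · rw [nom_rR_iff hab]
          intro h'
          exact h'.2 ⟨h4, h6⟩
        · have h7 : t.stN.rR.r2 = t.stN.rL := FSt.rR_r2 _
          rw [h7, fA_b (t := t.stN.rL) h6, FSt.rL_rL, fB_a' h3, h5]
      · left
        refine ⟨⟨by rw [h4]; exact hab, fun h' => h6 h'.2⟩, ?_⟩
        rw [fB_a h4, fB_a' h3, h5]
  cpos := fun t h hc => by
    rw [FSt.r2_r2] at hc
    have h1 := (S.bad t hc).ky
    rw [fA_n' (h1.db hab), fB_n' h1.ea]
    omega
  pass := fun t h hc => by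
    rw [FSt.r2_r2] at hc
    have h1 := S.bad t hc
    refine ⟨h1.ok, h1.ky'.nom hab, ?_⟩
    obtain ⟨h2, h3⟩ := pq_op (S := S) hc
    show S.p (opq t).r2 + S.q (opq t).r2 = S.p t.r2.r2 + S.q t.r2.r2
    rw [FSt.r2_r2, h2, h3]
  mp := fun t h hc => by
    rw [FSt.r2_r2] at hc ⊢
    exact S.mo t hc
  uniq1 := fun t h hc hn => by
    rw [FSt.r2_r2] at hc
    exact absurd hn (bad_rho hab (S.bad t hc)).1
  uniq2 := fun t h hc hn => by
    rw [FSt.r2_r2] at hc
    by_contra h'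
    exact (bad_rho hab (S.bad t hc)).2 (S.bad _ h').ky
  uniq3 := fun t h hc => by
    rw [FSt.r2_r2] at hc
    exact (S.bad t hc).ne

end TMl

end Pool.Agent.MP42.EO
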