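import Pool.Agent.MP42.TQ.TM3

/-!
# Types and representations (owner helper18)
-/

set_option autoImplicit false

namespace Pool.Agent.MP42.EO

open Pool.Agent.Helper55.UNF Pool.Agent.Helper55.UNF.GridSolid Pool.Agent.MP42.NE

variable {P : GridSolid} {a b : Fin 3} {hab : a ≠ b}

namespace TMl

variable (S : TMl P a b hab)

/-- the conditions on the types of the strands -/
structure Typ (g : P.FSt → ℕ → Bool) : Prop where
  gE : ∀ x, IsD a x → ∀ j < S.sd x, g x ((S.vv x).toNat + S.p x + j) =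
    g (hE a b x) ((-S.vv (hE a b x)).toNat + S.q (hE a b x).r2 + j)
  gr : ∀ x, IsD a x → ∀ j < S.cn x, g (hr a b x) j = g x (S.cn x - 1 - j)
  gp : ∀ x, IsD a x → ∀ j : ℕ, (j : ℤ) < S.vv x → okF a b x true (g x j)
    (g (hN a x) ((-S.vv (hN a x)).toNat + S.ee (hr a b (hN a x)) + j))
  gm : ∀ x, IsD a x → ∀ j : ℕ, (j : ℤ) < -S.vv x → okF a b x false (g x j)
    (g (hN a x) ((S.vv (hN a x)).toNat + S.ee (hN a x) + j))
  gX : ∀ s, ∀ i < S.p s, g (opq s).rL (S.ee (opq s).r2 - S.p s + i) = !g s ((S.vv s).toNat + i)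
  gZ : ∀ s, ∀ i < S.q s, g (opq s) ((-S.vv (opq s)).toNat + i) = !g s.rL (S.ee s.rL - S.q s + i)
  xR : ∀ s, ∀ i < S.p s, S.p s < S.m s + 1 + i → g s ((S.vv s).toNat + i) = true
  xL : ∀ s, ∀ i < S.p s, S.m s + 1 + i < S.p s → g s ((S.vv s).toNat + i) = false
  zR : ∀ s, ∀ i < S.q s, S.q s < S.m s + 1 + i → g s.rL (S.ee s.rL - S.q s + i) = true
  zL : ∀ s, ∀ i < S.q s, S.m s + 1 + i < S.q s → g s.rL (S.ee s.rL - S.q s + i) = false

variable {S}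

/-- a ribbon dart with strands over its north side is a wall or a nominal frame -/
lemma rib_cases {x : P.FSt} (h : IsD a x) (hv : S.vv x ≠ 0) : x.1.e.1 = a ∨ KY a b x := by
  by_cases h1 : x.1.d.1 = a
  · right
    exact ⟨h1, fun h2 => hv (vv_zero h1 h2)⟩
  · exact Or.inl (h.resolve_left h1)

/-! ## Representations of the facet strands -/

lemma F_surj {s : P.FSt × ℕ} (h : S.gf.Va s) : ∃ x, IsD a x ∧ ∃ j < S.cn x, S.F x j = s := by
  obtain ⟨hn, hj⟩ := h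
  rcases (nom3 hab).1 hn with h1 | h1 | h1
  · have hM := M_Y (S := S) h1
    obtain ⟨h3, h4⟩ := sh_v (S := S) h1
    by_cases h2 : s.2 < S.ee s.1.rL
    · refine ⟨s.1.rL, h1.isD', s.2, ?_, F_N hab h1 s.2⟩
      unfold cn
      omega
    · refine ⟨s.1, h1.isD, s.2 - S.sh s.1, ?_, ?_⟩
      · unfold cn
        omega
      · rw [F_Y h1]
        exact Prod.ext rfl (by dsimp only; omega)
  · have hM := M_Z (S := S) h1
    refine ⟨s.1.rL, h1.isD hab, s.2, ?_, F_Z hab h1 s.2⟩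
    unfold cn
    have h2 : ¬ s.1.rL.1.d.1 = a := fun h' => hab (h'.symm.trans h1.1)
    rw [hr_wall h2, FSt.rL_r2]
    omega
  · have hM := M_X (S := S) h1
    refine ⟨s.1, h1.isD, s.2, ?_, F_X h1 s.2⟩
    unfold cn
    rw [hr_wall h1.1]
    omega

lemma rep_E {s : P.FSt × ℕ} (hx : S.gf.XE s) (hk : KX a b s.1 ∨ KY a b s.1) :
    ∃ i < S.sd s.1, S.F s.1 ((S.vv s.1).toNat + S.p s.1 + i) = s := by
  obtain ⟨x1, x2⟩ := hx
  rcases hk with h1 | h1
  · obtain ⟨n1, n2, n3, n4, n5, n6, n7, n8⟩ := numX (S := S) h1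
    have hp : S.p s.1 = 0 := p_not (fun h' => h1.1 h'.1)
    have c2 := (cX (S := S) h1).2
    rw [n5, n6, c2] at x1
    rw [n5, n6, n7, c2] at x2
    rw [sd_X h1.1]
    refine ⟨s.2 - (S.vv s.1).toNat, by omega, ?_⟩
    rw [F_X h1]
    exact Prod.ext rfl (by dsimp only; omega)
  · obtain ⟨n1, n2, n3, n4, n5, n6, n7, n8⟩ := numY (S := S) h1
    obtain ⟨h3, h4⟩ := sh_v (S := S) h1
    obtain ⟨s1, s2, -⟩ := sums (S := S) h1
    rw [n5, n6, c_r2] at x1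
    rw [n5, n6, n7, c_r2] at x2
    refine ⟨s.2 - (S.ee s.1.rL + S.p s.1), by omega, ?_⟩
    rw [F_Y h1]
    exact Prod.ext rfl (by dsimp only; omega)

lemma rep_N {s : P.FSt × ℕ} (hx : S.gf.XN s) (hk : KZ a b s.1 ∨ KY a b s.1) :
    ∃ i < S.sd s.1.rL, S.F s.1.rL ((S.vv s.1.rL).toNat + S.p s.1.rL + i) = s := by
  obtain ⟨x1, x2⟩ := hx
  rcases hk with h1 | h1
  · obtain ⟨n1, n2, n3, n4, n5, n6, n7, n8⟩ := numZ (S := S) h1
    have hp : S.p s.1.rL = 0 := p_not (fun h' => KZ_d hab h1 h'.1)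
    have hs : S.sd s.1.rL = S.ee s.1.rL := sd_X (t := s.1.rL) (fun h' => KZ_d hab h1 h')
    rw [n5] at x1
    rw [n5, n6] at x2
    refine ⟨s.2 - (S.vv s.1.rL).toNat, by omega, ?_⟩
    rw [F_Z hab h1]
    exact Prod.ext rfl (by dsimp only; omega)
  · obtain ⟨n1, n2, n3, n4, n5, n6, n7, n8⟩ := numY (S := S) h1
    have h5 := vv_zero (S := S) (t := s.1.rL) h1.1 ((rL_b hab h1.1).2 h1.2)
    have hp : S.p s.1.rL = 0 := p_not (not_KY_rL hab h1)
    rw [n5] at x1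
    rw [n5, n6] at x2
    refine ⟨s.2, by omega, ?_⟩
    rw [F_N hab h1, h5, hp]
    exact Prod.ext rfl (by dsimp only; simp)

lemma rep_XN {s : P.FSt × ℕ} (hx : S.gf.XN s) (hk : KX a b s.1) :
    (s.2 : ℤ) < S.vv s.1 ∧ S.F s.1 s.2 = s := by
  obtain ⟨x1, x2⟩ := hx
  obtain ⟨n1, n2, n3, n4, n5, n6, n7, n8⟩ := numX (S := S) hk
  rw [n5, n6] at x2
  exact ⟨by omega, F_X hk s.2⟩

lemma rep_XW {s : P.FSt × ℕ} (hn : S.gf.nom s.1) (hx : S.gf.XW s) :
    KZ a b s.1 ∧ (s.2 : ℤ) < S.vv s.1.rL ∧ S.F s.1.rL s.2 = s := by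
  have x1 : s.2 < S.gf.wo s.1 := hx
  rcases (nom3 hab).1 hn with h1 | h1 | h1
  · have := (numY (S := S) h1).2.2.2.2.1
    omega
  · have := (numZ (S := S) h1).2.2.2.2.1
    exact ⟨h1, by omega, F_Z hab h1 s.2⟩
  · have := (numX (S := S) h1).2.2.2.2.1
    omega

lemma rep_XS {s : P.FSt × ℕ} (hn : S.gf.nom s.1) (hx : S.gf.XS s) :
    KX a b s.1 ∧ ∃ (x : P.FSt) (j : ℕ), x.1.e.1 = a ∧ x.stN = s.1 ∧ (j : ℤ) < -S.vv x ∧
      S.F s.1 ((S.vv s.1).toNat + S.ee s.1 + j) = s := by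
  obtain ⟨x1, x2⟩ := hx
  rcases (nom3 hab).1 hn with h1 | h1 | h1
  · obtain ⟨n1, n2, n3, n4, n5, n6, n7, n8⟩ := numY (S := S) h1
    have hM := M_Y (S := S) h1
    obtain ⟨s1, s2, -⟩ := sums (S := S) h1
    rw [n5, n6, n7, c_r2] at x1
    omega
  · obtain ⟨n1, n2, n3, n4, n5, n6, n7, n8⟩ := numZ (S := S) h1
    have hM := M_Z (S := S) h1
    rw [n5, n6, n7, (cZ (S := S) hab h1).2] at x1
    omega
  · obtain ⟨n1, n2, n3, n4, n5, n6, n7, n8⟩ := numX (S := S) h1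
    have hM := M_X (S := S) h1
    rw [n5, n6, n7, (cX (S := S) h1).2] at x1
    have e1 : s.1.r2.stN.r2.stN = s.1 := by rw [FSt.stN_inv, FSt.r2_r2]
    have e2 : s.1.r2.stN.r2.1.e.1 = a := by
      show s.1.r2.stN.1.e.1 = a
      rw [stN_ax]; exact h1.2.2
    have e3 := vv_stN (S := S) e2
    rw [e1] at e3
    refine ⟨h1, s.1.r2.stN.r2, s.2 - ((S.vv s.1).toNat + S.ee s.1), e2, e1, by omega, ?_⟩
    rw [F_X h1]
    exact Prod.ext rfl (by dsimp only; omega)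

lemma rep_XE {s : P.FSt × ℕ} (hx : S.gf.XE s) (h1 : KZ a b s.1) :
    ∃ (x : P.FSt) (j : ℕ), x.1.e.1 = a ∧ x.stN = s.1.rL ∧ (j : ℤ) < -S.vv x ∧
      S.F s.1.rL ((S.vv s.1.rL).toNat + S.ee s.1.rL + j) = s := by
  obtain ⟨x1, x2⟩ := hx
  obtain ⟨n1, n2, n3, n4, n5, n6, n7, n8⟩ := numZ (S := S) h1
  have c2 := (cZ (S := S) hab h1).2
  rw [n5, n6, c2] at x1
  rw [n5, n6, n7, c2] at x2
  have e1 : s.1.rL.r2.stN.r2.stN = s.1.rL := by rw [FSt.stN_inv, FSt.r2_r2]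
  have e2 : s.1.rL.r2.stN.r2.1.e.1 = a := by
    show s.1.rL.r2.stN.1.e.1 = a
    rw [stN_ax]; exact HFl.rL_dart hab h1.1 h1.2
  have e3 := vv_stN (S := S) e2
  rw [e1] at e3
  have e4 : S.vv s.1.rL.r2 = S.vv s.1.rR := by rw [FSt.rL_r2]
  refine ⟨s.1.rL.r2.stN.r2, s.2 - ((S.vv s.1.rL).toNat + S.ee s.1.rL), e2, e1, ?_, ?_⟩
  · omega
  · rw [F_Z hab h1]
    exact Prod.ext rfl (by dsimp only; omega)

/-- the strands in a pass -/
lemma rep_XP {s : P.FSt × ℕ} (hx : S.gf.XP s) :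
    ∃ i, s.2 = S.gf.wo s.1 + S.gf.no s.1 + i ∧
      ((i < S.p s.1 ∧ S.q s.1 = 0 ∧ S.F s.1 ((S.vv s.1).toNat + i) = s) ∨
      (i < S.q s.1 ∧ S.p s.1 = 0 ∧ S.F s.1.rL (S.ee s.1.rL - S.q s.1 + i) = s)) := by
  obtain ⟨x1, x2⟩ := hx
  rw [c_r2] at x2
  have hpq := S.pq s.1
  have hb := S.bad s.1 (by omega)
  have h1 := hb.ky
  obtain ⟨n1, n2, n3, n4, n5, n6, n7, n8⟩ := numY (S := S) h1
  obtain ⟨h3, h4⟩ := sh_v (S := S) h1
  obtain ⟨s1, s2, -⟩ := sums (S := S) h1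
  refine ⟨s.2 - (S.gf.wo s.1 + S.gf.no s.1), by omega, ?_⟩
  rw [n5, n6] at x1 x2 ⊢
  rcases Nat.eq_zero_or_pos (S.p s.1) with h2 | h2
  · right
    refine ⟨by omega, h2, ?_⟩
    rw [F_N hab h1]
    exact Prod.ext rfl (by dsimp only; omega)
  · left
    refine ⟨by omega, by omega, ?_⟩
    rw [F_Y h1]
    exact Prod.ext rfl (by dsimp only; omega)

/-! ## Types of the facet strands -/

open Classical in
/-- type of a facet strand -/
noncomputable def tau (S : TMl P a b hab) (g : P.FSt → ℕ → Bool) (s : P.FSt × ℕ) : Bool :=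
  if h : ∃ b, ∃ x, IsD a x ∧ ∃ j < S.cn x, S.F x j = s ∧ g x j = b then Classical.choose h
  else false

section

variable {g : P.FSt → ℕ → Bool}

/-- the type does not depend on the representation -/
lemma Typ.uniq (T : S.Typ g) {x y : P.FSt} (hx : IsD a x) (hy : IsD a y) {i j : ℕ}
    (hj : j < S.cn x) (hi : i < S.cn y) (h : S.F x j = S.F y i) : g x j = g y i := by
  have hdiag : ∀ t : P.FSt, KY a b t → ∀ i j : ℕ, j < S.cn t → i < S.cn t.rL →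
      S.F t j = S.F t.rL i → g t j = g t.rL i := by
    intro t ht i j hj hi h
    obtain ⟨h3, h4⟩ := sh_v (S := S) ht
    have h5 := vv_zero (S := S) (t := t.rL) ht.1 ((rL_b hab ht.1).2 ht.2)
    have h6 := vv_zero (S := S) (t := t.rR) ht.1 ((rR_b hab ht.1).2 ht.2)
    have h7 := vv_r2 (S := S) ht.1 ht.2
    obtain ⟨h8, h9⟩ := HFl.hN_diag hab ht
    rw [F_Y ht, F_N hab ht] at h
    have h10 : j + S.sh t = i := congrArg Prod.snd h
    unfold cn at hj hi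
    rw [hr_nom ht.1 ht.2] at hj
    rw [h9] at hi
    rcases lt_trichotomy (S.vv t) 0 with hv | hv | hv
    · have := T.gm t ht.isD j (by omega)
      rw [okF_real ht.1, h8, h5] at this
      rw [this]
      congr 1
      simp only [Int.toNat_zero]
      omega
    · omega
    · have := T.gp t ht.isD j (by omega)
      rw [okF_real ht.1, h8, h9, h5] at this
      rw [this]
      congr 1
      simp only [neg_zero, Int.toNat_zero]
      omega
  rcases HFl.dart_cases hab hx with h1 | ⟨t, h1, rfl⟩ | h1 | ⟨t, h1, rfl⟩ <;>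
    rcases HFl.dart_cases hab hy with h2 | ⟨u, h2, rfl⟩ | h2 | ⟨u, h2, rfl⟩
  · rw [F_X h1, F_X h2] at h
    obtain ⟨rfl, rfl⟩ := Prod.mk.inj h
    rfl
  · rw [F_X h1, F_Z hab h2] at h
    obtain ⟨rfl, rfl⟩ := Prod.mk.inj h
    exact absurd h2.1 h1.2.1
  · rw [F_X h1, F_Y h2] at h
    obtain ⟨rfl, -⟩ := Prod.mk.inj h
    exact absurd h2.1 h1.1
  · rw [F_X h1, F_N hab h2] at h
    obtain ⟨rfl, -⟩ := Prod.mk.inj h
    exact absurd h2.1 h1.1
  · rw [F_Z hab h1, F_X h2] at h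
    obtain ⟨rfl, -⟩ := Prod.mk.inj h
    exact absurd h1.1 h2.2.1
  · rw [F_Z hab h1, F_Z hab h2] at h
    obtain ⟨rfl, rfl⟩ := Prod.mk.inj h
    rfl
  · rw [F_Z hab h1, F_Y h2] at h
    obtain ⟨rfl, -⟩ := Prod.mk.inj h
    exact absurd h1.1 (h2.db hab)
  · rw [F_Z hab h1, F_N hab h2] at h
    obtain ⟨rfl, -⟩ := Prod.mk.inj h
    exact absurd h1.1 (h2.db hab)
  · rw [F_Y h1, F_X h2] at h
    obtain ⟨rfl, -⟩ := Prod.mk.inj h
    exact absurd h1.1 h2.1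
  · rw [F_Y h1, F_Z hab h2] at h
    obtain ⟨rfl, -⟩ := Prod.mk.inj h
    exact absurd h2.1 (h1.db hab)
  · rw [F_Y h1, F_Y h2] at h
    obtain ⟨rfl, h3⟩ := Prod.mk.inj h
    obtain rfl : j = i := by omega
    rfl
  · have h' := h
    rw [F_Y h1, F_N hab h2] at h'
    obtain ⟨rfl, -⟩ := Prod.mk.inj h'
    exact hdiag _ h1 _ _ hj hi h
  · rw [F_N hab h1, F_X h2] at h
    obtain ⟨rfl, -⟩ := Prod.mk.inj h
    exact absurd h1.1 h2.1
  · rw [F_N hab h1, F_Z hab h2] at h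
    obtain ⟨rfl, -⟩ := Prod.mk.inj h
    exact absurd h2.1 (h1.db hab)
  · have h' := h
    rw [F_N hab h1, F_Y h2] at h'
    obtain ⟨rfl, -⟩ := Prod.mk.inj h'
    exact (hdiag _ h1 _ _ hi hj h.symm).symm
  · rw [F_N hab h1, F_N hab h2] at h
    obtain ⟨rfl, rfl⟩ := Prod.mk.inj h
    rfl

lemma Typ.tau_F (T : S.Typ g) {x : P.FSt} (hx : IsD a x) {j : ℕ} (hj : j < S.cn x) :
    S.tau g (S.F x j) = g x j := by
  have hex : ∃ b, ∃ y, IsD a y ∧ ∃ i < S.cn y, S.F y i = S.F x j ∧ g y i = b :=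
    ⟨g x j, x, hx, j, hj, rfl, rfl⟩
  unfold tau
  rw [dif_pos hex]
  obtain ⟨y, hy, i, hi, h1, h2⟩ := Classical.choose_spec hex
  rw [← h2]
  exact T.uniq hy hx hi hj h1

lemma bal_any {x : P.FSt} (hx : IsD a x) :
    (S.ee (hr a b x) : ℤ) + S.vv (hr a b x) = S.ee x + S.vv x := by
  have h1 := S.bal ⟨x, hx⟩
  rw [ee_eq (t := x) hx, vv_eq (t := x) hx, ← h1, ← ext0_eq S.e, ← ext1_eq S.v]
  rfl

/-- the number of strands that enter over a side -/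
lemma in_side {x : P.FSt} (hx : IsD a x) :
    S.ee (hr a b (hE a b x)) = S.sd x + S.co (hr a b (hE a b x)) := by
  have h0 : hr a b (hE a b x) = x.stE.r2 := hr_hfx hab x.stE
  have h1 : IsD a (hr a b (hE a b x)) := isD_hr (isD_hE hx)
  have h2 := sd_add (S := S) h1
  have h3 := sd_stE (S := S) hx
  rw [h0] at h2 ⊢
  omega

/-- the pass at the entrance -/
lemma q_le_co {x : P.FSt} (hx : IsD a x) : S.q x.r2 ≤ S.co (hr a b x) := by
  by_cases h : KY a b x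
  · rw [hr_nom h.1 h.2]
    unfold co
    rw [FSt.rR_rR]
    omega
  · rw [q_not (s := x.r2) h]
    omega

/-- types over the ring steps -/
lemma Typ.tau_ring (T : S.Typ g) {x : P.FSt} (hx : IsD a x) {i : ℕ} (hi : i < S.sd x) :
    S.tau g (S.gf.sc (S.F x ((S.vv x).toNat + S.p x + i))) =
      S.tau g (S.F x ((S.vv x).toNat + S.p x + i)) := by
  obtain ⟨h1, -⟩ := F_E (S := S) hx hi
  have hE' : IsD a (hE a b x) := isD_hE hx
  have h2 := in_side (S := S) hx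
  have h3 := bal_any (S := S) hE'
  have h4 := q_le_co (S := S) hE'
  have h5 := sd_add (S := S) hx
  unfold co at h5
  rw [h1, T.tau_F hE' (by unfold cn; omega), T.tau_F hx (by unfold cn; omega), T.gE x hx i hi]

end

end TMl

end Pool.Agent.MP42.EO
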