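import Pool.Agent.MP42.TQ.TM5

/-!
# The reduced flow of a flow with thin ribbons, any number of strands (owner helper18)
-/

set_option autoImplicit false

namespace Pool.Agent.MP42.EO

open Pool.Agent.Helper55.UNF Pool.Agent.Helper55.UNF.GridSolid Pool.Agent.MP42.NE

variable {P : GridSolid} {a b : Fin 3} {T : Thin P a b} {hab : a ≠ b}

namespace Thin.M

open Thin

variable {e : T.TD hab → ℕ} {v : T.TD hab → ℤ}

/-- the two kinds of thin ribbons at one corner: `p` = the `X` ribbon, `q` = the `Z` ribbon -/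
def XZr (p q : T.TD hab) : Prop :=
  p.1.2 ≠ 0 ∧ q.1.2 ≠ 0 ∧ T.X p.1.1.1 ∧ T.Z (hE a b q.1.1.1).r2 ∧
    (hE a b q.1.1.1).r2 = p.1.1.1

/-- the admissible flows -/
structure Adm (e : T.TD hab → ℕ) (v : T.TD hab → ℤ) : Prop where
  fl : (T.tsys hab).Fl e v
  h0 : ∀ p : T.TD hab, ¬ RibT p → v p = 0
  sp : ∀ p : T.TD hab, p.1.2 ≠ 0 → 0 < v p → T.X p.1.1.1
  sm : ∀ p : T.TD hab, p.1.2 ≠ 0 → v p < 0 → ¬ T.X p.1.1.1
  xz : ∀ p q : T.TD hab, XZr p q → v p = 0 ∨ v q = 0

variable (H : Adm e v)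

include H

lemma tv_X {x : HD P a} (h : 0 < tv v x) : T.X x.1 := by
  unfold tv at h
  split_ifs at h with h1
  · exact H.sp _ one_ne_zero h
  · omega

lemma tv_la {x : HD P a} (h : tv v x ≠ 0) : 0 < T.la x := by
  by_cases h1 : 1 ≤ (T.cuts hab).n x
  · by_contra h2
    rw [tv_pos h1] at h
    exact h (H.h0 _ (fun h' => h2 (ribT_d1.1 h')))
  · exact absurd (dif_neg h1) h

lemma tv_Z {x : HD P a} (h : tv v x < 0) : T.Z (hE a b x.1).r2 := by
  rcases la_pos.1 (tv_la H h.ne) with h1 | h1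
  · exfalso
    have h2 : 1 ≤ (T.cuts hab).n x := n_la (tv_la H h.ne)
    rw [tv_pos h2] at h
    exact H.sm _ one_ne_zero h h1
  · exact h1

lemma own_sign {x : HD P a} (h : T.own x.1) : 0 ≤ tv v x ∧
    tv v ((sysH P a b hab).om x) ≤ 0 := by
  constructor
  · by_contra h1
    have h2 := tv_Z H (not_le.1 h1)
    rw [← hr_om hab] at h2
    exact own_om hab h (Or.inr h2)
  · by_contra h1
    exact own_om hab h (Or.inl (tv_X H (not_le.1 h1)))

lemma own_sign' {x : HD P a} (h : T.own ((sysH P a b hab).om x).1) : tv v x ≤ 0 ∧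
    0 ≤ tv v ((sysH P a b hab).om x) := by
  have := own_sign H h
  rw [Sys.om_om] at this
  exact this.symm

lemma tv_or (x : HD P a) : tv v x = 0 ∨ tv v ((sysH P a b hab).om x) = 0 := by
  by_contra h
  push Not at h
  have h1 := tv_la H h.1
  have h2 := tv_la H h.2
  have h3 := n_le (T := T) hab x
  rw [n_def] at h3
  omega

omit H in
lemma tv_not {x : HD P a} (h : ¬ 1 ≤ (T.cuts hab).n x) : tv v x = 0 ∧
    tv v ((sysH P a b hab).om x) = 0 := by
  refine ⟨dif_neg h, dif_neg ?_⟩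
  rw [Sys.Cuts.n_om]; exact h

lemma e_d1 {x : HD P a} (h : 1 ≤ (T.cuts hab).n x) :
    e (d1 T hab x h) = e (d0 T hab ((sysH P a b hab).om x)) := by
  have h1 := H.fl.e_om (d1 T hab x h)
  rw [om_d1] at h1
  exact h1.symm

lemma e_om0 {x : HD P a} (h : ¬ 1 ≤ (T.cuts hab).n x) :
    e (d0 T hab ((sysH P a b hab).om x)) = e (d0 T hab x) := by
  have h1 := H.fl.e_om (d0 T hab x)
  rw [om_d0 h] at h1
  exact h1

/-- the strands over the two sides of a gap -/
lemma e_gap (x : HD P a) : (e (d0 T hab x) : ℤ) - tv v x =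
    e (d0 T hab ((sysH P a b hab).om x)) - tv v ((sysH P a b hab).om x) := by
  by_cases h : 1 ≤ (T.cuts hab).n x
  · have h1 := H.fl.bE (d0 T hab x)
    rw [om_d0' h, E_d0' h, e_d1 H h] at h1
    rw [tv_pos h, tv_pos (n_om' h)]
    omega
  · obtain ⟨h1, h2⟩ := tv_not h
    rw [h1, h2, e_om0 H h]

open Classical in
/-- the pass at an `X` corner -/
noncomputable def pp (v : T.TD hab → ℤ) (s : P.FSt) : ℕ :=
  if h : T.X s then (tv v ⟨s, (T.bX s h).ky.isD⟩).toNat else 0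

open Classical in
/-- the pass at a `Z` corner -/
noncomputable def qq (v : T.TD hab → ℤ) (s : P.FSt) : ℕ :=
  if h : T.Z s then (-tv v ((sysH P a b hab).om ⟨s.rL, (T.bZ s h).ky.isD'⟩)).toNat else 0

lemma pp_eq (x : HD P a) : pp v x.1 = (tv v x).toNat := by
  unfold pp
  split_ifs with h
  · rfl
  · have : ¬ 0 < tv v x := fun h' => h (tv_X H h')
    omega

lemma qq_eq (x : HD P a) : qq v x.1.rR = (-tv v ((sysH P a b hab).om x)).toNat := by
  unfold qq
  split_ifs with h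
  · congr 3
    congr 1
    exact Subtype.ext (FSt.rR_rL x.1)
  · have : ¬ tv v ((sysH P a b hab).om x) < 0 := fun h' => by
      have h1 := tv_Z H h'
      rw [hE_om] at h1
      rcases own_cases hab (T := T) (x := x.1) (Or.inr h1) with h2 | ⟨s, h2, h3⟩
      · exact X_not hab h2 h1
      · apply h
        rw [h3, FSt.rL_rR]; exact h2
    omega

lemma qq_E (x : HD P a) : qq v (hE a b x.1).r2 = (-tv v x).toNat := by
  unfold qq
  split_ifs with h
  · have h1 : KY a b (hE a b x.1) := (T.bZ _ h).ky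
    have h2 : (⟨(hE a b x.1).r2.rL, (T.bZ _ h).ky.isD'⟩ : HD P a) =
        (sysH P a b hab).om x := by
      apply Subtype.ext
      show (hE a b x.1).r2.rL = hr a b (hE a b x.1)
      rw [hr_nom h1.1 h1.2, FSt.r2_rL]
    rw [h2, Sys.om_om]
  · have : ¬ tv v x < 0 := fun h' => h (tv_Z H h')
    omega

lemma tv_cpd {x : HD P a} (h : 0 < T.la x) : tv v (T.cpd hab x) = tv v x := by
  have h1 := H.fl.v_ta (d1 T hab x (n_la h))
  rw [ta_d1 h] at h1
  rw [tv_pos (n_la (la_cpd h)), tv_pos (n_la h), h1]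

omit H in
lemma E_om_rL {s : P.FSt} (h : KY a b s) :
    hE a b ((sysH P a b hab).om ⟨s.rL, h.isD'⟩).1 = s.r2 := by
  rw [hE_om]
  have h1 : s.rL.1.d.1 = a := h.1
  show hr a b s.rL = _
  rw [hr_non h1 ((rL_b hab h.1).2 h.2), FSt.rL_rL]

lemma qq_pos {s : P.FSt} (h : qq v s ≠ 0) : ∃ hz : T.Z s,
    tv v ((sysH P a b hab).om ⟨s.rL, (T.bZ s hz).ky.isD'⟩) = -(qq v s : ℤ) := by
  unfold qq at h
  split_ifs at h with h1
  · refine ⟨h1, ?_⟩
    unfold qq
    rw [dif_pos h1]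
    omega
  · exact absurd rfl h

lemma pp_pos {s : P.FSt} (h : pp v s ≠ 0) : ∃ hx : T.X s,
    tv v ⟨s, (T.bX s hx).ky.isD⟩ = pp v s := by
  unfold pp at h
  split_ifs at h with h1
  · refine ⟨h1, ?_⟩
    unfold pp
    rw [dif_pos h1]
    omega
  · exact absurd rfl h

/-- only one kind of thin ribbon is used -/
lemma pq_zero (s : P.FSt) : pp v s = 0 ∨ qq v s = 0 := by
  by_contra hc
  push Not at hc
  obtain ⟨hx, h1⟩ := pp_pos H hc.1
  obtain ⟨hz, h2⟩ := qq_pos H hc.2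
  have h3 : (tv v ⟨s, (T.bX s hx).ky.isD⟩) ≠ 0 := by omega
  have h4 : tv v ((sysH P a b hab).om ⟨s.rL, (T.bZ s hz).ky.isD'⟩) ≠ 0 := by omega
  have n1 := n_la (hab := hab) (tv_la H h3)
  have n2 := n_la (hab := hab) (tv_la H h4)
  rw [tv_pos n1] at h3
  rw [tv_pos n2] at h4
  have e1 := E_om_rL (hab := hab) (T.bZ s hz).ky
  rcases H.xz (d1 T hab _ n1) (d1 T hab _ n2) ⟨one_ne_zero, one_ne_zero, hx, by
    show T.Z (hE a b ((sysH P a b hab).om ⟨s.rL, (T.bZ s hz).ky.isD'⟩).1).r2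
    rw [e1, FSt.r2_r2]; exact hz, by
    show (hE a b ((sysH P a b hab).om ⟨s.rL, (T.bZ s hz).ky.isD'⟩).1).r2 = s
    rw [e1, FSt.r2_r2]⟩ with h | h
  · exact h3 h
  · exact h4 h

/-- **the reduced flow** -/
noncomputable def toT (H : Adm e v) (m : P.FSt → ℕ)
    (hm : ∀ s, pp v s + qq v s ≠ 0 → m s + m (opq s).r2 + 1 = pp v s + qq v s) :
    TMl P a b hab where
  e := fun x => e (d0 T hab x)
  v := fun x => v (d0 T hab x)
  p := pp v
  q := qq v
  m := m
  mo := hm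
  bal := fun x => by
    have h1 := H.fl.bal (d0 T hab x)
    rw [r_d0] at h1
    exact h1
  vr := fun x => by
    have h1 := H.fl.vr (d0 T hab x)
    rw [N_d0, r_d0] at h1
    exact h1
  v0 := fun x hx => H.h0 _ (fun h' => hx (by
    unfold RibT at h'
    exact (if_pos rfl).mp h'))
  pq := fun s => pq_zero H s
  bad := fun s hs => by
    unfold pp qq at hs
    split_ifs at hs with h1 h2 h2
    · exact T.bX s h1
    · exact T.bX s h1
    · exact T.bZ s h2
    · omega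
  po := fun s hs => by
    obtain ⟨h1, h2⟩ := pp_pos H hs
    have h3 : 0 < T.la (⟨s, (T.bX s h1).ky.isD⟩ : HD P a) := la_pos.2 (Or.inl h1)
    have h4 := tv_cpd H h3
    rw [cpd_X hab (d := (⟨s, (T.bX s h1).ky.isD⟩ : HD P a)) h1, h2] at h4
    have h5 := pp_eq H ⟨(opq s).r2, (T.bX s h1).ky'.isD⟩
    rw [h4] at h5
    have h6 : pp v (opq s).r2 = _ := h5
    rw [h6]
    exact Int.toNat_natCast _
  qo := fun s hs => by
    obtain ⟨h1, h2⟩ := qq_pos H hs
    have hb := T.bZ s h1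
    set d : HD P a := (sysH P a b hab).om ⟨s.rL, hb.ky.isD'⟩ with hd
    have h0 : hE a b d.1 = s.r2 := E_om_rL hb.ky
    have h3 : T.Z (hE a b d.1).r2 := by rw [h0, FSt.r2_r2]; exact h1
    have h4 := tv_cpd H (x := d) (la_pos.2 (Or.inr h3))
    have h5 := cpd_Z_E hab h3
    rw [h0, FSt.r2_r2] at h5
    have h6 := qq_E H (T.cpd hab d)
    rw [h5, h4, h2] at h6
    rw [h6]
    omega
  le := fun x => by
    have h1 := pp_eq H x
    have h2 := qq_eq H x
    have h3 := e_gap H x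
    have h4 := tv_or H x
    rw [h1, h2]
    omega
  er := fun x => by
    have h1 := pp_eq H x
    have h2 := qq_eq H x
    have h3 := e_gap H x
    have h5 := pp_eq H ((sysH P a b hab).om x)
    have h6 := qq_eq H ((sysH P a b hab).om x)
    rw [Sys.om_om] at h6
    show e (d0 T hab ((sysH P a b hab).om x)) + (pp v x.1 + qq v x.1.rR) =
      e (d0 T hab x) + (pp v ((sysH P a b hab).om x).1 + qq v ((sysH P a b hab).om x).1.rR)
    omega

variable (m : P.FSt → ℕ)
  (hm : ∀ s, pp v s + qq v s ≠ 0 → m s + m (opq s).r2 + 1 = pp v s + qq v s)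

lemma ee_toT (x : HD P a) : (toT H m hm).ee x.1 = e (d0 T hab x) := ext0_eq _ x

lemma vv_toT (x : HD P a) : (toT H m hm).vv x.1 = v (d0 T hab x) := ext1_eq _ x

lemma p_toT (x : HD P a) : (toT H m hm).p x.1 = (tv v x).toNat := pp_eq H x

lemma q_toT (x : HD P a) : (toT H m hm).q (hE a b x.1).r2 = (-tv v x).toNat := qq_E H x

lemma sd_toT (x : HD P a) : (toT H m hm).sd x.1 = e (d0 T hab x) -
    ((tv v x).toNat + (-tv v ((sysH P a b hab).om x)).toNat) := by
  have h1 := pp_eq H x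
  have h2 := qq_eq H x
  unfold TMl.sd TMl.co
  rw [ee_toT]
  show _ - (pp v x.1 + qq v x.1.rR) = _
  rw [h1, h2]

lemma sd_add_toT (x : HD P a) : (toT H m hm).sd x.1 +
    ((tv v x).toNat + (-tv v ((sysH P a b hab).om x)).toNat) = e (d0 T hab x) := by
  have h3 := e_gap H x
  have h4 := tv_or H x
  rw [sd_toT]
  omega

lemma cn_toT (x : HD P a) : (toT H m hm).cn x.1 = (T.tsys hab).cnt e v (d0 T hab x) := by
  unfold TMl.cn Sys.cnt
  rw [ee_toT, vv_toT, r_d0]
  have h1 := vv_toT H m hm ((sysH P a b hab).r x)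
  change (toT H m hm).vv (hr a b x.1) = _ at h1
  rw [h1]


end Thin.M

end Pool.Agent.MP42.EO
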