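import Pool.Agent.MP42.TQ.TM7
import Pool.Agent.MP42.TP.Main

/-!
# The order of the strands over a thin ribbon (owner helper18)
-/

set_option autoImplicit false

namespace Pool.Agent.MP42.EO

open Pool.Agent.Helper55.UNF Pool.Agent.Helper55.UNF.GridSolid Pool.Agent.MP42.NE

/-- a symmetric choice of positions -/
lemma choose_m {α : Type*} (σ : α → α) (c : α → ℕ) (U : α → Prop)
    (hσ : ∀ s, U s → σ (σ s) = s ∧ σ s ≠ s ∧ U (σ s) ∧ c (σ s) = c s) (Q : α → ℕ → Prop)
    (hQ : ∀ s, U s → ∃ k, k < c s ∧ Q s k)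
    (hs : ∀ s k, U s → k < c s → Q s k → Q (σ s) (c s - 1 - k)) :
    ∃ m : α → ℕ, ∀ s, U s → Q s (m s) ∧ m s + m (σ s) + 1 = c s := by
  classical
  choose k hk1 hk2 using hQ
  refine ⟨fun s => if h : U s then (if WellOrderingRel s (σ s) then k s h else
    c s - 1 - k (σ s) (hσ s h).2.2.1) else 0, fun s h => ?_⟩
  obtain ⟨h1, h2, h3, h4⟩ := hσ s h
  have a1 := hk1 s h
  have a2 := hk1 (σ s) h3
  have a3 := hs (σ s) _ h3 a2 (hk2 (σ s) h3)
  rw [h4] at a2
  rw [h1, h4] at a3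
  have key : ∀ (u : α) (hu : U u), u = s → k u hu = k s h := by
    rintro u hu rfl; rfl
  have hss := key (σ (σ s)) (by rw [h1]; exact h) h1
  rcases trichotomous_of WellOrderingRel s (σ s) with h5 | h5 | h5
  · have h6 : ¬ WellOrderingRel (σ s) (σ (σ s)) := by
      rw [h1]; exact asymm_of WellOrderingRel h5
    simp only [dif_pos h, if_pos h5, dif_pos h3, if_neg h6]
    refine ⟨hk2 s h, ?_⟩
    rw [hss, h4]
    omega
  · exact absurd h5.symm h2
  · have h6 : WellOrderingRel (σ s) (σ (σ s)) := by rw [h1]; exact h5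
    have h7 : ¬ WellOrderingRel s (σ s) := asymm_of WellOrderingRel h5
    simp only [dif_pos h, if_neg h7, dif_pos h3, if_pos h6]
    refine ⟨a3, ?_⟩
    omega

/-- the types left of the place `k` are `true`, the others `false` (positions counted from the
end) -/
def Mono (c : ℕ) (f : ℕ → Bool) (k : ℕ) : Prop :=
  (∀ i < c, c < k + 1 + i → f i = true) ∧ ∀ i < c, k + 1 + i < c → f i = false

lemma exists_mono {c : ℕ} (hc : c ≠ 0) {f : ℕ → Bool}
    (h : ∀ i j : ℕ, i < j → j < c → f i = true → f j = true) : ∃ k, k < c ∧ Mono c f k := by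
  classical
  by_cases h1 : ∃ i, i < c ∧ f i = true
  · have h2 := Nat.find_spec h1
    have h3 : ∀ i, i < Nat.find h1 → ¬ (i < c ∧ f i = true) := fun i hi => Nat.find_min h1 hi
    generalize Nat.find h1 = n at h2 h3
    refine ⟨c - 1 - n, by omega, fun i hi hl => ?_, fun i hi hl => ?_⟩
    · exact h n i (by omega) hi h2.2
    · have := h3 i (by omega)
      rw [Bool.eq_false_iff]
      exact fun h' => this ⟨hi, h'⟩
  · refine ⟨0, by omega, fun i hi hl => by omega, fun i hi hl => ?_⟩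
    rw [Bool.eq_false_iff]
    exact fun h' => h1 ⟨i, hi, h'⟩

lemma Mono.op {c k : ℕ} {f g : ℕ → Bool} (h : Mono c f k) (hk : k < c)
    (hg : ∀ i < c, g i = !f (c - 1 - i)) : Mono c g (c - 1 - k) := by
  constructor
  · intro i hi hl
    rw [hg i hi, h.2 _ (by omega) (by omega)]; rfl
  · intro i hi hl
    rw [hg i hi, h.1 _ (by omega) (by omega)]; rfl

variable {P : GridSolid} {a b : Fin 3} {T : Thin P a b} {hab : a ≠ b}

namespace Thin.M

open Thin

variable {e : T.TD hab → ℕ} {v : T.TD hab → ℤ}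

lemma okT_d1 {x : HD P a} {h : 1 ≤ (T.cuts hab).n x} {s t t' : Bool} :
    okT (d1 T hab x h) s t t' ↔ (t' = !t ∧ (s = true ↔ T.X x.1)) := by
  unfold okT
  rw [if_neg (show ¬ (d1 T hab x h).1.2 = 0 from one_ne_zero)]
  exact Iff.rfl

/-- the local conditions on the types -/
structure TyC (e : T.TD hab → ℕ) (v : T.TD hab → ℤ) (g : T.TD hab → ℕ → Bool) : Prop where
  gE : ∀ (d : T.TD hab) (j : ℕ), j < e d →
    g d ((v d).toNat + j) = g ((T.tsys hab).E d) ((-v ((T.tsys hab).E d)).toNat + j)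
  gr : ∀ (d : T.TD hab) (t : ℕ), t < (T.tsys hab).cnt e v d →
    g ((T.tsys hab).r d) t = g d ((T.tsys hab).cnt e v d - 1 - t)
  gp : ∀ (d : T.TD hab) (j : ℕ), (j : ℤ) < v d → okT d true (g d j)
    (g ((T.tsys hab).N d) ((-v ((T.tsys hab).N d)).toNat +
      e ((T.tsys hab).r ((T.tsys hab).N d)) + j))
  gm : ∀ (d : T.TD hab) (j : ℕ), (j : ℤ) < -v d → okT d false (g d j)
    (g ((T.tsys hab).N d) ((v ((T.tsys hab).N d)).toNat + e ((T.tsys hab).N d) + j))
  gi : ∀ d : T.TD hab, d.1.2 ≠ 0 → ∀ i j : ℕ, i < j → (j : ℤ) < v d →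
    g d i = true → g d j = true
  gd : ∀ d : T.TD hab, d.1.2 ≠ 0 → ∀ i j : ℕ, i < j → (j : ℤ) < -v d →
    g d j = true → g d i = true

variable (H : Adm e v) {g : T.TD hab → ℕ → Bool} (G : TyC e v g)

include H

lemma cnt_d1 (x : HD P a) (h : 1 ≤ (T.cuts hab).n x) :
    (T.tsys hab).cnt e v (d1 T hab x h) = e (d0 T hab ((sysH P a b hab).om x)) +
      (tv v x).toNat + (-tv v ((sysH P a b hab).om x)).toNat := by
  unfold Sys.cnt
  rw [r_d1, e_d1 H h, ← tv_pos (v := v) h, ← tv_pos (v := v) (n_om' h)]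

/-- the gap behind a used thin ribbon is not used -/
lemma tv_om {x : HD P a} (h : tv v x ≠ 0) : tv v ((sysH P a b hab).om x) = 0 :=
  (tv_or H x).resolve_left h

include G

/-- the types of the two sides of a thin ribbon -/
lemma g_cpd {x : HD P a} (hl : 0 < T.la x) {j : ℕ} (hj : j < (tv v x).natAbs) :
    g (d1 T hab (T.cpd hab x) (n_la (la_cpd hl))) ((tv v x).natAbs - 1 - j) =
      !g (d1 T hab x (n_la hl)) j := by
  have h : 1 ≤ (T.cuts hab).n x := n_la hl
  obtain ⟨y, hy⟩ : ∃ y, y = T.cpd hab x := ⟨_, rfl⟩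
  have hly : 0 < T.la y := by rw [hy]; exact la_cpd hl
  have hty : tv v y = tv v x := by rw [hy]; exact tv_cpd H hl
  have hto : tv v ((sysH P a b hab).om y) = 0 := tv_om H (by omega)
  have hgy := e_gap H y
  have hN1 : (T.tsys hab).N (d1 T hab x h) =
      d1 T hab ((sysH P a b hab).om y) (n_om' (n_la hly)) := by
    subst hy; exact N_d1 hl
  have hr1 : (T.tsys hab).r ((T.tsys hab).N (d1 T hab x h)) = d1 T hab y (n_la hly) := by
    subst hy; exact ta_d1 hl
  have hc := cnt_d1 H y (n_la hly)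
  have hrr : (T.tsys hab).r (d1 T hab y (n_la hly)) =
      d1 T hab ((sysH P a b hab).om y) (n_om' (n_la hly)) := r_d1 _
  have key : g (d1 T hab y (n_la hly)) ((tv v x).natAbs - 1 - j) = !g (d1 T hab x h) j := by
    rcases lt_or_gt_of_ne (show tv v x ≠ 0 by omega) with hs | hs
    · have a2 := G.gm (d1 T hab x h) j (by rw [← tv_pos (v := v) h]; omega)
      rw [okT_d1, hN1, e_d1 H, ← tv_pos (v := v) (n_om' (n_la hly)), hto, Sys.om_om] at a2
      have a3 := G.gr (d1 T hab y (n_la hly)) ((0 : ℤ).toNat + e (d0 T hab y) + j)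
        (by rw [hc, hto, hty]; omega)
      rw [hrr, hc, a2.1] at a3
      rw [a3]
      congr 1
      rw [hto, hty]
      omega
    · have a2 := G.gp (d1 T hab x h) j (by rw [← tv_pos (v := v) h]; omega)
      rw [okT_d1, hr1, hN1, e_d1 H, ← tv_pos (v := v) (n_om' (n_la hly)), hto] at a2
      have a3 := G.gr (d1 T hab y (n_la hly)) ((-(0 : ℤ)).toNat +
        e (d0 T hab ((sysH P a b hab).om y)) + j) (by rw [hc, hto, hty]; omega)
      rw [hrr, hc, a2.1] at a3
      rw [a3]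
      congr 1
      rw [hto, hty]
      omega
  subst hy
  exact key

omit H G in
open Classical in
/-- the types of the strands in a pass -/
noncomputable def ts (v : T.TD hab → ℤ) (g : T.TD hab → ℕ → Bool) (s : P.FSt) (i : ℕ) : Bool :=
  if h : T.X s ∧ pp v s ≠ 0 then
    g (d1 T hab ⟨s, (T.bX s h.1).ky.isD⟩ (n_la (la_pos.2 (Or.inl h.1)))) i
  else if h : T.Z s then g (d1 T hab ((sysH P a b hab).om ⟨s.rL, (T.bZ s h).ky.isD'⟩)
    (n_la (la_pos.2 (Or.inr (by
      show T.Z (hE a b ((sysH P a b hab).om ⟨s.rL, (T.bZ s h).ky.isD'⟩).1).r2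
      rw [E_om_rL (T.bZ s h).ky, FSt.r2_r2]; exact h))))) (qq v s - 1 - i)
  else false

omit H G in
lemma ts_X {x : HD P a} (h : T.X x.1) (hp : pp v x.1 ≠ 0) (i : ℕ) :
    ts v g x.1 i = g (d1 T hab x (n_la (la_pos.2 (Or.inl h)))) i := dif_pos ⟨h, hp⟩

omit H G in
lemma ts_Z {x : HD P a} (h : T.Z (hE a b x.1).r2) (hp : pp v (hE a b x.1).r2 = 0) (i : ℕ) :
    ts v g (hE a b x.1).r2 i = g (d1 T hab x (n_la (la_pos.2 (Or.inr h))))
      (qq v (hE a b x.1).r2 - 1 - i) := by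
  unfold ts
  rw [dif_neg (fun h' => h'.2 hp), dif_pos h]
  congr 1
  have h1 : KY a b (hE a b x.1) := (T.bZ _ h).ky
  have h2 : (⟨(hE a b x.1).r2.rL, (T.bZ _ h).ky.isD'⟩ : HD P a) = (sysH P a b hab).om x := by
    apply Subtype.ext
    show (hE a b x.1).r2.rL = hr a b (hE a b x.1)
    rw [hr_nom h1.1 h1.2, FSt.r2_rL]
  have h3 : ∀ {u w : HD P a} (hu : 1 ≤ (T.cuts hab).n u) (hw : 1 ≤ (T.cuts hab).n w), u = w →
      d1 T hab u hu = d1 T hab w hw := by
    rintro u w hu hw rfl; rfl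
  exact h3 _ _ (by rw [h2, Sys.om_om])

omit G in
/-- a corner with a used pass -/
lemma pq_cases {s : P.FSt} (h : pp v s + qq v s ≠ 0) :
    (∃ x : HD P a, x.1 = s ∧ T.X x.1 ∧ tv v x = pp v s ∧ pp v s ≠ 0 ∧ qq v s = 0) ∨
    (∃ x : HD P a, (hE a b x.1).r2 = s ∧ T.Z (hE a b x.1).r2 ∧ tv v x = -(qq v s : ℤ) ∧
      qq v s ≠ 0 ∧ pp v s = 0) := by
  by_cases h1 : pp v s = 0
  · right
    have h2 : qq v s ≠ 0 := by omega
    obtain ⟨h3, h4⟩ := qq_pos H h2
    have h5 := E_om_rL (hab := hab) (T.bZ s h3).ky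
    refine ⟨_, ?_, ?_, h4, h2, h1⟩
    · rw [h5, FSt.r2_r2]
    · rw [h5, FSt.r2_r2]; exact h3
  · left
    obtain ⟨h3, h4⟩ := pp_pos H h1
    exact ⟨_, rfl, h3, h4, h1, (pq_zero H s).resolve_left h1⟩

lemma ts_mono {s : P.FSt} (h : pp v s + qq v s ≠ 0) (i j : ℕ) (hij : i < j)
    (hj : j < pp v s + qq v s) (ht : ts v g s i = true) : ts v g s j = true := by
  rcases pq_cases H h with ⟨x, rfl, h1, h2, h3, h4⟩ | ⟨x, rfl, h1, h2, h3, h4⟩
  · rw [ts_X h1 h3] at ht ⊢
    refine G.gi _ one_ne_zero i j hij ?_ ht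
    rw [← tv_pos (v := v) (n_la (la_pos.2 (Or.inl h1))), h2]
    omega
  · rw [ts_Z h1 h4] at ht ⊢
    refine G.gd _ one_ne_zero _ _ (by omega) ?_ ht
    rw [← tv_pos (v := v) (n_la (la_pos.2 (Or.inr h1))), h2]
    omega

lemma ts_op {s : P.FSt} (h : pp v s + qq v s ≠ 0) :
    pp v (opq s).r2 + qq v (opq s).r2 = pp v s + qq v s ∧
    ∀ i < pp v s + qq v s, ts v g (opq s).r2 i = !ts v g s (pp v s + qq v s - 1 - i) := by
  rcases pq_cases H h with ⟨x, rfl, h1, h2, h3, h4⟩ | ⟨x, rfl, h1, h2, h3, h4⟩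
  · have hl : 0 < T.la x := la_pos.2 (Or.inl h1)
    have hy : (T.cpd hab x).1 = (opq x.1).r2 := by rw [cpd_X hab h1]
    have hX : T.X (T.cpd hab x).1 := by rw [hy]; exact T.oX _ h1
    have hty := tv_cpd H hl
    have hp := pp_eq H (T.cpd hab x)
    rw [hty, h2] at hp
    have hp0 : pp v (T.cpd hab x).1 ≠ 0 := by omega
    have hq : qq v (T.cpd hab x).1 = 0 := (pq_zero H _).resolve_left hp0
    rw [← hy]
    refine ⟨by omega, fun i hi => ?_⟩
    have h5 := g_cpd H G hl (j := pp v x.1 + qq v x.1 - 1 - i) (by omega)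
    rw [ts_X hX hp0, ts_X h1 h3, ← h5]
    congr 1
    omega
  · have hl : 0 < T.la x := la_pos.2 (Or.inr h1)
    have hy : (hE a b (T.cpd hab x).1).r2 = (opq (hE a b x.1).r2).r2 := by
      rw [cpd_Z_E hab h1]
    have hZ : T.Z (hE a b (T.cpd hab x).1).r2 := by rw [hy]; exact T.oZ _ h1
    have hty := tv_cpd H hl
    have hq := qq_E H (T.cpd hab x)
    rw [hty, h2] at hq
    have hp : pp v (hE a b (T.cpd hab x).1).r2 = 0 := (pq_zero H _).resolve_right (by omega)
    rw [← hy]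
    refine ⟨by omega, fun i hi => ?_⟩
    have h5 := g_cpd H G hl (j := i) (by omega)
    rw [ts_Z hZ hp, ts_Z h1 h4]
    have e1 : qq v (hE a b (T.cpd hab x).1).r2 - 1 - i = (tv v x).natAbs - 1 - i := by omega
    have e2 : qq v (hE a b x.1).r2 - 1 - (pp v (hE a b x.1).r2 + qq v (hE a b x.1).r2 - 1 - i) =
      i := by omega
    rw [e1, e2]
    exact h5

/-- **the places where the types change** -/
lemma exists_m : ∃ m : P.FSt → ℕ, ∀ s, pp v s + qq v s ≠ 0 →
    Mono (pp v s + qq v s) (ts v g s) (m s) ∧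
      m s + m (opq s).r2 + 1 = pp v s + qq v s := by
  refine choose_m (fun s => (opq s).r2) (fun s => pp v s + qq v s)
    (fun s => pp v s + qq v s ≠ 0) (fun s hs => ?_)
    (fun s k => Mono (pp v s + qq v s) (ts v g s) k) (fun s hs => ?_) (fun s k hs hk hm => ?_)
  · have h1 := (ts_op H G hs).1
    have hb : BadC a b s := by
      rcases pq_cases H hs with ⟨x, rfl, h1, -⟩ | ⟨x, rfl, h1, -⟩
      · exact T.bX _ h1
      · exact T.bZ _ h1
    refine ⟨?_, ?_, ?_, h1⟩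
    · show (opq (opq s).r2).r2 = s
      rw [opq_opq hb.ok, FSt.r2_r2]
    · show (opq s).r2 ≠ s
      intro h
      apply hb.ne
      rw [← FSt.facet_r2 (opq s), h]
    · show pp v (opq s).r2 + qq v (opq s).r2 ≠ 0
      rw [h1]; exact hs
  · exact exists_mono hs (ts_mono H G hs)
  · have h1 := ts_op H G hs
    have h2 := Mono.op hm hk h1.2
    show Mono (pp v (opq s).r2 + qq v (opq s).r2) (ts v g (opq s).r2) _
    rw [h1.1]
    exact h2

end Thin.M

end Pool.Agent.MP42.EO
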