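import Pool.Agent.MP42.TQ.Ends
import Pool.Agent.MP42.EO.RTree
import Pool.Agent.MP42.EO.Sol

/-!
# Types of all strands from local conditions (owner helper18)
-/

set_option autoImplicit false
set_option linter.unusedSectionVars false

namespace Pool.Agent.MP42.EO

open Pool.Agent.MP42.NE

variable {D : Type*} {E : Equiv.Perm D} {v : D → ℤ} {x y p q p' q' : D} {i j k : ℕ}

/-! ## One ring -/

lemma hs_add (x : D) (m n : ℕ) : hs E v x (m + n) = hs E v x m + hs E v ((E ^ m) x) n := by
  unfold hs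
  rw [Finset.sum_range_add]
  congr 1
  refine Finset.sum_congr rfl (fun i _ => ?_)
  rw [← Equiv.Perm.mul_apply, ← pow_add, show i + 1 + m = m + i + 1 by omega]

/-- the data of a ring: the period, the sum and the bound -/
structure Cir (E : Equiv.Perm D) (v : D → ℤ) (x : D) (N : ℕ) (s : ℤ) (K : ℕ) : Prop where
  ret : (E ^ N) x = x
  pos : 0 < N
  fst : ∀ i, 0 < i → i < N → (E ^ i) x ≠ x
  sum : hs E v x N = 2 * s
  bd : ∀ m ≤ N, |hs E v x m| ≤ K

variable {N K : ℕ} {s : ℤ}

lemma Cir.mul (h : Cir E v x N s K) (t : ℕ) : (E ^ (N * t)) x = x ∧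
    hs E v x (N * t) = t * (2 * s) := by
  induction t with
  | zero => exact ⟨rfl, by rw [Nat.mul_zero, hs_zero]; push_cast; ring⟩
  | succ t ih =>
    refine ⟨?_, ?_⟩
    · rw [Nat.mul_succ, pow_add, Equiv.Perm.mul_apply, h.ret, ih.1]
    · rw [Nat.mul_succ, hs_add, ih.1, ih.2, h.sum]
      push_cast; ring

lemma Cir.even (h : Cir E v x N s K) {d : ℕ} (hd : (E ^ d) x = x) : Even (hs E v x d) := by
  have h1 : (E ^ (d % N)) x = x := by
    have h2 := (h.mul (d / N)).1
    have h3 : d = d % N + N * (d / N) := (Nat.mod_add_div d N).symm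
    rw [h3, pow_add, Equiv.Perm.mul_apply, h2] at hd
    exact hd
  have h4 : d % N = 0 := by
    by_contra hc
    exact h.fst _ (Nat.pos_of_ne_zero hc) (Nat.mod_lt _ h.pos) h1
  have h5 : d = N * (d / N) := by
    have := Nat.mod_add_div d N
    omega
  rw [h5, (h.mul _).2]
  exact ⟨(d / N : ℕ) * s, by ring⟩

/-- the period is the same at all positions -/
lemma Cir.period {M : ℕ} {s' : ℤ} (h : Cir E v x N s K) (h' : Cir E v ((E ^ k) x) M s' K) :
    M = N := by
  have h1 : (E ^ M) x = x := by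
    have h2 : (E ^ k) ((E ^ M) x) = (E ^ k) x := by
      rw [← Equiv.Perm.mul_apply, ← pow_add, Nat.add_comm, pow_add, Equiv.Perm.mul_apply, h'.ret]
    exact (E ^ k).injective h2
  have h3 : (E ^ N) ((E ^ k) x) = (E ^ k) x := by
    rw [← Equiv.Perm.mul_apply, ← pow_add, Nat.add_comm, pow_add, Equiv.Perm.mul_apply, h.ret]
  have h4 := h.fst M h'.pos
  have h5 := h'.fst N h.pos
  by_contra hc
  rcases Nat.lt_or_gt_of_ne hc with h6 | h6
  · exact h4 h6 h1
  · exact h5 h6 h3

/-- every strand has a right end -/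
lemma Cir.re (h : Cir E v x N 1 K) (hv : ∀ x, v x = -1 ∨ v x = 0 ∨ v x = 1) (j : ℕ) :
    ∃ q, RE E v x j q := by
  refine exists_re hv (N * (j + 1)) x j ?_
  rw [(h.mul (j + 1)).2]
  push_cast; omega

lemma back_sum (x : D) {N : ℕ} (h : (E ^ N) x = x) :
    ∑ i ∈ Finset.range N, v ((E.symm ^ i) x) = hs E v x N := by
  unfold hs
  rw [← Finset.sum_range_reflect]
  refine Finset.sum_congr rfl (fun i hi => ?_)
  have hi' := Finset.mem_range.1 hi
  congr 1
  have h1 : (E ^ (N - 1 - i)) ((E ^ (i + 1)) x) = x := by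
    rw [← Equiv.Perm.mul_apply, ← pow_add, show N - 1 - i + (i + 1) = N by omega, h]
  have h3 : E.symm ^ (N - 1 - i) = (E ^ (N - 1 - i)).symm := by
    have h4 : E.symm ^ (N - 1 - i) = (E ^ (N - 1 - i))⁻¹ := by
      rw [← inv_pow]; rfl
    rw [h4]; rfl
  rw [h3, Equiv.symm_apply_eq]
  exact h1.symm

/-- every strand has a left end -/
lemma Cir.le (h : Cir E v x N (-1) K) (hv : ∀ x, v x = -1 ∨ v x = 0 ∨ v x = 1) (j : ℕ) :
    ∃ p, LE E v x j p := by
  refine exists_le hv (N * (j + 1)) x j ?_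
  obtain ⟨h1, h2⟩ := h.mul (j + 1)
  rw [back_sum x h1, h2]
  push_cast; omega

lemma Cir.re_two (h : Cir E v x N 1 K) (hj : K ≤ j) : RE E v x (j + 2) q ↔ RE E v x j q := by
  have h1 := re_walk (E := E) (v := v) (q := q) N x (j + 2) j (fun m hm => by
    have := (abs_le.1 (h.bd m hm)).2
    push_cast; omega) (by rw [h.sum]; push_cast; omega)
  rw [h1, h.ret]

lemma Cir.le_two (h : Cir E v x N (-1) K) (hj : K ≤ j) :
    LE E v x (j + 2) q ↔ LE E v x j q := by
  have h1 := le_walk (E := E) (v := v) (q := q) N x j (j + 2) (fun m hm => by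
    have := (abs_le.1 (h.bd m hm)).2
    omega) (by rw [h.sum]; push_cast; omega)
  rw [h1, h.ret]

lemma Cir.le_bd (hx : Cir E v p N 1 K) (h : LE E v x j p) : j ≤ K := by
  obtain ⟨n, h1, h2, h3⟩ := h.place
  have h4 : n < N := by
    by_contra hc
    have h5 := h3 N (by omega)
    rw [hx.sum] at h5
    omega
  have h5 := (abs_le.1 (hx.bd n h4.le)).1
  omega

lemma Cir.re_bd (hx : Cir E v x N (-1) K) (h : RE E v x j q) : j ≤ K := by
  obtain ⟨n, h1, h2, h3⟩ := h.place
  have h4 : n < N := by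
    by_contra hc
    have h5 := hs_add (E := E) (v := v) x N (n - N)
    rw [show N + (n - N) = n by omega, hx.sum, hx.ret, h2] at h5
    have h6 := h3 (n - N) (by omega)
    omega
  have h5 := (abs_le.1 (hx.bd n h4.le)).2
  omega

/-- two strands at one position with the same right end -/
lemma Cir.re_par (hx : Cir E v x N s K) (h : RE E v x i q) (h' : RE E v x j q) :
    i % 2 = j % 2 := by
  obtain ⟨n, h1, h2, -⟩ := h.place
  obtain ⟨n', h1', h2', -⟩ := h'.place
  have key : ∀ (n n' i j : ℕ), n ≤ n' → (E ^ (n + 1)) x = (E ^ (n' + 1)) x → hs E v x n = i →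
      hs E v x n' = j → i % 2 = j % 2 := by
    intro n n' i j hn he hi hj
    have h3 : (E ^ (n' - n)) x = x := by
      have h4 : (E ^ (n + 1)) ((E ^ (n' - n)) x) = (E ^ (n + 1)) x := by
        rw [← Equiv.Perm.mul_apply, ← pow_add, he]
        congr 2
        omega
      exact (E ^ (n + 1)).injective h4
    have h5 := hs_add (E := E) (v := v) x (n' - n) n
    rw [show n' - n + n = n' by omega, h3, hi, hj] at h5
    obtain ⟨t, ht⟩ := hx.even h3
    rw [ht] at h5
    omega
  rcases Nat.le_total n n' with hn | hn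
  · exact key n n' i j hn (h1.symm.trans h1') h2 h2'
  · exact (key n' n j i hn (h1'.symm.trans h1) h2' h2).symm

/-- two strands at one position with the same left end -/
lemma Cir.le_par (hx : Cir E v p N s K) (h : LE E v x i p) (h' : LE E v x j p) :
    i % 2 = j % 2 := by
  obtain ⟨n, h1, h2, -⟩ := h.place
  obtain ⟨n', h1', h2', -⟩ := h'.place
  have key : ∀ (n n' i j : ℕ), n ≤ n' → (E ^ n) p = (E ^ n') p → hs E v p n = -(i : ℤ) →
      hs E v p n' = -(j : ℤ) → i % 2 = j % 2 := by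
    intro n n' i j hn he hi hj
    have h3 : (E ^ (n' - n)) p = p := by
      have h4 : (E ^ n) ((E ^ (n' - n)) p) = (E ^ n) p := by
        rw [← Equiv.Perm.mul_apply, ← pow_add, he]
        congr 2
        omega
      exact (E ^ n).injective h4
    have h5 := hs_add (E := E) (v := v) p (n' - n) n
    rw [show n' - n + n = n' by omega, h3, hi, hj] at h5
    obtain ⟨t, ht⟩ := hx.even h3
    rw [ht] at h5
    omega
  rcases Nat.le_total n n' with hn | hn
  · exact key n n' i j hn (h1.symm.trans h1') h2 h2'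
  · exact (key n' n j i hn (h1'.symm.trans h1) h2' h2).symm

open Classical in
/-- the ring data from the sums -/
lemma cir_of_sum [Fintype D] (x : D) (hs1 : s = 1 ∨ s = -1)
    (hsum : ∑ y ∈ Finset.univ.filter (fun y => E.SameCycle x y), v y = 2 * s) (hpb : PB E v K) :
    ∃ N, Cir E v x N s K := by
  obtain ⟨n, h1, h2, h3⟩ := cyc_sum' E x
  have hb : ∀ m ≤ n, |hs E v x m| ≤ K := by
    intro m hm
    have e1 : hs E v x m = ∑ i ∈ Finset.range m, v ((E ^ i) (E x)) := by
      unfold hs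
      refine Finset.sum_congr rfl (fun i _ => ?_)
      rw [pow_succ, Equiv.Perm.mul_apply]
    rw [e1]
    apply hpb
    intro i hi hi' hc
    refine h2 i hi (by omega) ?_
    have h4 : E ((E ^ i) x) = E x := by
      rw [← Equiv.Perm.mul_apply, ← pow_succ', pow_succ, Equiv.Perm.mul_apply]
      exact hc
    exact E.injective h4
  have hsum' : hs E v x n = 2 * s := by
    have h4 := h3 v
    unfold hs
    rw [h4, ← hsum]
  have hn : 0 < n := by
    rcases Nat.eq_zero_or_pos n with h0 | h0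
    · subst h0
      rw [hs_zero] at hsum'
      rcases hs1 with h | h <;> omega
    · exact h0
  exact ⟨n, h1, hn, h2, hsum', hb⟩

/-! ## Partners -/

/-- the two ends of a strand -/
def Par (E : Equiv.Perm D) (v : D → ℤ) (x y : D) : Prop := Mt2 E v x y ∨ Mt2 E v y x

lemma Par.symm (h : Par E v x y) : Par E v y x := Or.symm h

lemma Par.uniq (h : Par E v x y) (h' : Par E v x q) : q = y := by
  rcases h with h | h <;> rcases h' with h' | h'
  · exact h.right h'
  · have h1 := h.1
    have h2 := (mt2_iff.1 h').1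
    omega
  · have h1 := h'.1
    have h2 := (mt2_iff.1 h).1
    omega
  · exact h.left h'

lemma Mt2.same (h : Mt2 E v p q) : E.SameCycle p q := by
  obtain ⟨n, h1, -, -⟩ := h.2.place
  exact ⟨((n + 1 : ℕ) : ℤ), by rw [zpow_natCast, h1]⟩

lemma Par.same (h : Par E v x y) : E.SameCycle x y := by
  rcases h with h | h
  · exact h.same
  · exact h.same.symm

lemma Par.ne (h : Par E v x y) : v x ≠ 0 := by
  rcases h with h | h
  · have := h.1; omega
  · have := (mt2_iff.1 h).1; omega

/-- the end `x` of a strand determines its type: pops on the rings of the class `cls`, pushes on the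
other rings -/
def Det (v : D → ℤ) (cls : D → Prop) (x : D) : Prop := v x = 1 ↔ cls x

lemma Par.det {cls : D → Prop} (hc : ∀ x, cls (E x) ↔ cls x) (h : Par E v x y) :
    Det v cls y ↔ ¬ Det v cls x := by
  have key : ∀ n : ℕ, ∀ x, cls ((E ^ n) x) ↔ cls x := by
    intro n
    induction n with
    | zero => intro x; exact Iff.rfl
    | succ n ih => intro x; rw [pow_succ', Equiv.Perm.mul_apply, hc, ih]
  have key2 : ∀ p q : D, Mt2 E v p q → (cls q ↔ cls p) := by
    intro p q h
    obtain ⟨n, h1, -, -⟩ := h.2.place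
    rw [h1, key]
  unfold Det
  rcases h with h | h
  · have h1 := h.1
    have h2 := (mt2_iff.1 h).1
    rw [h1, h2, key2 _ _ h]
    norm_num
  · have h1 := h.1
    have h2 := (mt2_iff.1 h).1
    rw [h1, h2, key2 _ _ h]
    norm_num

/-! ## The hypotheses -/

/-- Lanes with classes of the rings and local conditions on the types. -/
structure TyD (E : Equiv.Perm D) (τ : D → D) (ok : D → Bool → Bool → Bool → Prop)
    (K : ℕ) (G : D → Prop) (r : D) (s : ℤ) (v sg : D → ℤ) (cls : D → Prop)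
    (Pos : D → Bool → Prop) (a0 : D → Bool) : Prop where
  tt : ∀ x, τ (τ x) = x
  vτ : ∀ x, v (τ x) = v x
  v1 : ∀ x, v x = -1 ∨ v x = 0 ∨ v x = 1
  vG : ∀ x, ¬ G x → v x = 0
  GE : ∀ x, G (E x) ↔ G x
  rG : G r
  sg1 : ∀ x, sg x = 1 ∨ sg x = -1
  sgE : ∀ x, sg (E x) = sg x
  sgr : sg r = s
  cirs : ∀ x, G x → ∃ N, Cir E v x N (sg x) K
  conn : ∀ T : D → ℕ → Prop, TS E τ v T → (∀ x, G x → ∀ j, K + 1 ≤ j → ¬ T x j) →
    ∃ c : Prop, ∀ x, G x → ∀ j, T x j ↔ c
  clsE : ∀ x, cls (E x) ↔ cls x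
  oks : ∀ x s a b, ok x s a b → ok (τ x) s b a
  nosink : ∀ x, v x ≠ 0 → Det v cls x ∨ Det v cls (τ x)
  src : ∀ x, v x ≠ 0 → Det v cls x → Det v cls (τ x) →
    ok x (decide (v x = 1)) (a0 x) (a0 (τ x)) ∧ Pos x (a0 x)
  flow : ∀ x, v x ≠ 0 → Det v cls x → ¬ Det v cls (τ x) → ∀ b, Pos (τ x) b →
    ∃ a, Pos x a ∧ ok x (decide (v x = 1)) a b
  strand : ∀ x y, Par E v x y → Det v cls x → ∀ a, Pos x a → Pos y a
  root : s = 1 ↔ ¬ cls r
  rootPos : ∀ x, E.SameCycle r x → v x ≠ 0 → ¬ Det v cls x → (∀ y, ¬ Par E v x y) →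
    ∀ a, Pos x a
  pos : ∀ x, v x ≠ 0 → ∃ a, Pos x a

namespace TyD

variable [Finite D] {τ : D → D} {ok : D → Bool → Bool → Bool → Prop} {G : D → Prop} {r : D}
  {sg : D → ℤ} {cls : D → Prop} {Pos : D → Bool → Prop} {a0 : D → Bool}

lemma G_cyc (H : TyD E τ ok K G r s v sg cls Pos a0) {x y : D} (h : E.SameCycle x y) :
    G x ↔ G y := by
  obtain ⟨n, rfl⟩ := h.exists_nat_pow_eq
  clear h
  induction n with
  | zero => exact Iff.rfl
  | succ n ih => rw [pow_succ', Equiv.Perm.mul_apply, H.GE]; exact ih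

lemma sg_cyc (H : TyD E τ ok K G r s v sg cls Pos a0) {x y : D} (h : E.SameCycle x y) :
    sg y = sg x := by
  obtain ⟨n, rfl⟩ := h.exists_nat_pow_eq
  clear h
  induction n with
  | zero => rfl
  | succ n ih => rw [pow_succ', Equiv.Perm.mul_apply, H.sgE]; exact ih

omit [Finite D] in
lemma re_same {x q : D} {j : ℕ} (h : RE E v x j q) : E.SameCycle x q := by
  obtain ⟨n, h1, -, -⟩ := h.place
  exact ⟨((n + 1 : ℕ) : ℤ), by rw [zpow_natCast, h1]⟩

omit [Finite D] in
lemma le_same {x q : D} {j : ℕ} (h : LE E v x j q) : E.SameCycle q x := by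
  obtain ⟨n, h1, -, -⟩ := h.place
  exact ⟨((n : ℕ) : ℤ), by rw [zpow_natCast, h1]⟩

lemma ne_G (H : TyD E τ ok K G r s v sg cls Pos a0) {x : D} (h : v x ≠ 0) : G x := by
  by_contra hc
  exact h (H.vG x hc)

lemma re_G (H : TyD E τ ok K G r s v sg cls Pos a0) {x q : D} {j : ℕ} (h : RE E v x j q) :
    G x := by
  have h1 := h.vq
  exact (H.G_cyc (re_same h)).2 (H.ne_G (by omega))

lemma le_G (H : TyD E τ ok K G r s v sg cls Pos a0) {x q : D} {j : ℕ} (h : LE E v x j q) :
    G x := by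
  have h1 := h.vp
  exact (H.G_cyc (le_same h)).1 (H.ne_G (by omega))

/-- a strand with two ends is not deep -/
lemma both (H : TyD E τ ok K G r s v sg cls Pos a0) {x q p : D} {j : ℕ} (h : RE E v x j q)
    (h' : LE E v x j p) : j ≤ K := by
  have hx := H.re_G h
  rcases H.sg1 x with h1 | h1
  · have h2 := le_same h'
    obtain ⟨N, hN⟩ := H.cirs p ((H.G_cyc h2).2 hx)
    rw [← H.sg_cyc h2, h1] at hN
    exact hN.le_bd h'
  · obtain ⟨N, hN⟩ := H.cirs x hx
    rw [h1] at hN
    exact hN.re_bd h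

/-! ## Dependences -/

/-- the type at `x` depends on the type at `y` -/
def dep (E : Equiv.Perm D) (τ : D → D) (v : D → ℤ) (cls : D → Prop) (x y : D) : Prop :=
  v x ≠ 0 ∧ Det v cls x ∧ ¬ Det v cls (τ x) ∧ Par E v (τ x) y

omit [Finite D] in
lemma dep_right {x y y' : D} (h : dep E τ v cls x y) (h' : dep E τ v cls x y') : y' = y :=
  h.2.2.2.uniq h'.2.2.2

lemma dep_left (H : TyD E τ ok K G r s v sg cls Pos a0) {x x' y : D} (h : dep E τ v cls x y)
    (h' : dep E τ v cls x' y) : x' = x := by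
  have h1 := h.2.2.2.symm.uniq h'.2.2.2.symm
  have h2 := congrArg τ h1
  rwa [H.tt, H.tt] at h2

/-- **there are no closed strands** -/
lemma acyclic (H : TyD E τ ok K G r s v sg cls Pos a0) (x : D) :
    ¬ Relation.TransGen (dep E τ v cls) x x := by
  intro hx
  set C : D → Prop := fun y => Relation.TransGen (dep E τ v cls) x y ∧
    Relation.TransGen (dep E τ v cls) y x with hC
  have hsucc : ∀ y, C y → ∃ z, dep E τ v cls y z ∧ C z := by
    rintro y ⟨h1, h2⟩
    obtain ⟨z, h3, h4⟩ := Relation.TransGen.head'_iff.1 h2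
    refine ⟨z, h3, h1.tail h3, ?_⟩
    rcases Relation.reflTransGen_iff_eq_or_transGen.1 h4 with h5 | h5
    · rw [← h5]; exact hx
    · exact h5
  have hpred : ∀ y, C y → ∃ z, dep E τ v cls z y ∧ C z := by
    rintro y ⟨h1, h2⟩
    obtain ⟨z, h3, h4⟩ := Relation.TransGen.tail'_iff.1 h1
    refine ⟨z, h4, ?_, Relation.TransGen.head h4 h2⟩
    rcases Relation.reflTransGen_iff_eq_or_transGen.1 h3 with h5 | h5
    · rw [h5]; exact hx
    · exact h5
  set C' : D → Prop := fun z => C z ∨ C (τ z) with hC'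
  have hτ : ∀ z, C' (τ z) ↔ C' z := by
    intro z
    simp only [hC', H.tt]
    exact Or.comm
  have hpar : ∀ z, C' z → ∃ w, Par E v z w ∧ C' w := by
    rintro z (h | h)
    · obtain ⟨w, h1, h2⟩ := hpred z h
      exact ⟨τ w, h1.2.2.2.symm, Or.inr (by rw [H.tt]; exact h2)⟩
    · obtain ⟨w, h1, h2⟩ := hsucc _ h
      have h3 := h1.2.2.2
      rw [H.tt] at h3
      exact ⟨w, h3, Or.inl h2⟩
  have hpar' : ∀ p q, Mt2 E v p q → (C' p ↔ C' q) := by
    intro p q h
    constructor
    · intro hp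
      obtain ⟨w, h1, h2⟩ := hpar p hp
      rw [← (Par.uniq (Or.inl h) h1)]; exact h2
    · intro hq
      obtain ⟨w, h1, h2⟩ := hpar q hq
      rw [← (Par.uniq (Or.inr h) h1)]; exact h2
  set T : D → ℕ → Prop := fun y j => ∃ z, C' z ∧ (RE E v y j z ∨ LE E v y j z) with hT
  have hTpop : ∀ z, v z = 1 → (T (E.symm z) 0 ↔ C' z) := by
    intro z hz
    constructor
    · rintro ⟨w, hw, h | h⟩
      · rw [(re_pop' hz).1 h] at hw; exact hw
      · exact (hpar' w z (mt2_iff.2 ⟨hz, h⟩)).1 hw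
    · intro h
      exact ⟨z, h, Or.inl ((re_pop' hz).2 rfl)⟩
  have hTpush : ∀ z, v z = -1 → (T z 0 ↔ C' z) := by
    intro z hz
    constructor
    · rintro ⟨w, hw, h | h⟩
      · exact (hpar' z w ⟨hz, h⟩).2 hw
      · rw [(le_push hz).1 h] at hw; exact hw
    · intro h
      exact ⟨z, h, Or.inr (LE.push z hz)⟩
  have hTS : TS E τ v T := by
    refine ⟨H.tt, H.vτ, ?_, ?_, ?_⟩
    · intro y j k hk
      simp only [hT]
      constructor
      · rintro ⟨z, hz, h | h⟩
        · exact ⟨z, hz, Or.inl ((re_step (by omega)).2 h)⟩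
        · exact ⟨z, hz, Or.inr ((le_step' (by omega)).2 h)⟩
      · rintro ⟨z, hz, h | h⟩
        · exact ⟨z, hz, Or.inl ((re_step (by omega)).1 h)⟩
        · exact ⟨z, hz, Or.inr ((le_step' (by omega)).1 h)⟩
    · intro z i j hij
      have h1 := H.v1 z
      have hz : v z = 1 := by omega
      obtain rfl : i = 0 := by omega
      obtain rfl : j = 0 := by omega
      rw [hTpop z hz, hTpop (τ z) (by rw [H.vτ]; exact hz), hτ]
    · intro z i j hij
      have h1 := H.v1 z
      have hz : v z = -1 := by omega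
      obtain rfl : i = 0 := by omega
      obtain rfl : j = 0 := by omega
      rw [hTpush z hz, hTpush (τ z) (by rw [H.vτ]; exact hz), hτ]
  have hdeep : ∀ y, G y → ∀ j, K + 1 ≤ j → ¬ T y j := by
    rintro y hy j hj ⟨z, hz, h | h⟩
    · obtain ⟨w, h1, -⟩ := hpar z hz
      rcases h1 with h1 | h1
      · have := h1.1
        have := h.vq
        omega
      · have := H.both h (h1.le h)
        omega
    · obtain ⟨w, h1, -⟩ := hpar z hz
      rcases h1 with h1 | h1
      · have := H.both (h1.re h) h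
        omega
      · have := (mt2_iff.1 h1).1
        have := h.vp
        omega
  obtain ⟨c, hc⟩ := H.conn T hTS hdeep
  have hCx : C' x := Or.inl ⟨hx, hx⟩
  obtain ⟨w, hw, -⟩ := hpar x hCx
  have hGx := H.ne_G hw.ne
  have hc' : ¬ c := fun h => hdeep x hGx (K + 1) le_rfl ((hc x hGx _).2 h)
  rcases H.v1 x with h1 | h1 | h1
  · exact hc' ((hc x hGx 0).1 ((hTpush x h1).2 hCx))
  · exact hw.ne h1
  · have h2 : G (E.symm x) := by
      have := H.GE (E.symm x)
      rw [Equiv.apply_symm_apply] at this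
      exact this.1 hGx
    exact hc' ((hc _ h2 0).1 ((hTpop x h1).2 hCx))

/-- the dependences are well-founded -/
lemma wf (H : TyD E τ ok K G r s v sg cls Pos a0) :
    WellFounded (fun y x => dep E τ v cls x y) := by
  have h1 : WellFounded (Relation.TransGen (fun y x => dep E τ v cls x y)) := by
    have : IsTrans D (Relation.TransGen (fun y x => dep E τ v cls x y)) :=
      ⟨fun _ _ _ h1 h2 => h1.trans h2⟩
    have : Std.Irrefl (Relation.TransGen (fun y x => dep E τ v cls x y)) := by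
      refine ⟨fun x hx => H.acyclic x ?_⟩
      have h2 := Relation.transGen_swap.1 hx
      exact h2
    exact Finite.wellFounded_of_trans_of_irrefl _
  have h2 : Subrelation (fun y x => dep E τ v cls x y)
      (Relation.TransGen (fun y x => dep E τ v cls x y)) := fun {_ _} h =>
    Relation.TransGen.single h
  exact h2.wf h1

/-- **types of the ends** -/
theorem exists_ty (H : TyD E τ ok K G r s v sg cls Pos a0) (δ : D → Bool)
    (hδ : ∀ x, v x ≠ 0 → ¬ Det v cls x → (∀ y, ¬ Par E v x y) → Pos x (δ x)) :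
    ∃ ty : D → Bool,
    (∀ x, v x ≠ 0 → Pos x (ty x)) ∧
    (∀ x, v x ≠ 0 → ok x (decide (v x = 1)) (ty x) (ty (τ x))) ∧
    (∀ x y, Par E v x y → ty x = ty y) ∧
    ∀ x, v x ≠ 0 → ¬ Det v cls x → (∀ y, ¬ Par E v x y) → ty x = δ x := by
  classical
  -- the value at the determining ends
  have hg : ∀ (x : D) (b : Bool), ∃ a, v x ≠ 0 → Det v cls x → ¬ Det v cls (τ x) →
      Pos (τ x) b → Pos x a ∧ ok x (decide (v x = 1)) a b := by
    intro x b
    by_cases h : v x ≠ 0 ∧ Det v cls x ∧ ¬ Det v cls (τ x) ∧ Pos (τ x) b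
    · obtain ⟨a, ha⟩ := H.flow x h.1 h.2.1 h.2.2.1 b h.2.2.2
      exact ⟨a, fun _ _ _ _ => ha⟩
    · exact ⟨false, fun h1 h2 h3 h4 => absurd ⟨h1, h2, h3, h4⟩ h⟩
  choose g hg using hg
  -- recursion
  obtain ⟨f, hf⟩ : ∃ f : D → Bool, ∀ x, f x = if Det v cls (τ x) then a0 x else
      g x (if h : ∃ y, Par E v (τ x) y then f h.choose else δ (τ x)) := by
    let F : (x : D) → ((y : D) → dep E τ v cls x y → Bool) → Bool := fun x ih =>
      if h1 : Det v cls (τ x) then a0 x else
        if h2 : v x ≠ 0 ∧ Det v cls x then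
          g x (if h : ∃ y, Par E v (τ x) y then ih h.choose ⟨h2.1, h2.2, h1, h.choose_spec⟩
            else δ (τ x))
        else false
    let f' : D → Bool := H.wf.fix F
    have hf' : ∀ x, f' x = F x (fun y _ => f' y) := fun x => WellFounded.fix_eq _ _ _
    refine ⟨fun x => if v x ≠ 0 ∧ Det v cls x then f' x else if Det v cls (τ x) then a0 x else
      g x (if h : ∃ y, Par E v (τ x) y then f' h.choose else δ (τ x)), fun x => ?_⟩
    have h3 : ∀ h : ∃ y, Par E v (τ x) y, ¬ Det v cls (τ x) →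
        (v h.choose ≠ 0 ∧ Det v cls h.choose) := fun h h' =>
      ⟨h.choose_spec.symm.ne, (h.choose_spec.det H.clsE).2 h'⟩
    by_cases h1 : v x ≠ 0 ∧ Det v cls x
    · simp only [if_pos h1]
      rw [hf' x]
      by_cases h2 : Det v cls (τ x)
      · rw [if_pos h2]
        exact dif_pos h2
      · rw [if_neg h2]
        simp only [F, dif_neg h2, dif_pos h1]
        by_cases h4 : ∃ y, Par E v (τ x) y
        · rw [dif_pos h4, dif_pos h4, if_pos (h3 h4 h2)]
        · rw [dif_neg h4, dif_neg h4]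
    · simp only [if_neg h1]
      by_cases h2 : Det v cls (τ x)
      · rw [if_pos h2, if_pos h2]
      · rw [if_neg h2, if_neg h2]
        by_cases h4 : ∃ y, Par E v (τ x) y
        · rw [dif_pos h4, dif_pos h4, if_pos (h3 h4 h2)]
        · rw [dif_neg h4, dif_neg h4]
  -- the types
  set ty : D → Bool := fun x => if Det v cls x then f x else
    if h : ∃ y, Par E v x y then f h.choose else δ x with hty
  have ty1 : ∀ x, Det v cls x → ty x = f x := fun x h => if_pos h
  have ty2 : ∀ x, ¬ Det v cls x → ty x = if h : ∃ y, Par E v x y then f h.choose else δ x :=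
    fun x h => if_neg h
  have ty3 : ∀ x y, ¬ Det v cls x → Par E v x y → ty x = f y := by
    intro x y h h'
    have hex : ∃ y, Par E v x y := ⟨y, h'⟩
    rw [ty2 x h, dif_pos hex, Par.uniq h' hex.choose_spec]
  have hpos : ∀ x, v x ≠ 0 → Det v cls x → Pos x (f x) := by
    intro x
    induction x using H.wf.induction with
    | _ x ih =>
      intro hx hd
      rw [hf]
      split_ifs with h1 h2
      · exact (H.src x hx hd h1).2
      · refine (hg x _ hx hd h1 ?_).1
        have h3 := h2.choose_spec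
        have h4 := (h3.det H.clsE).2 h1
        exact H.strand _ _ h3.symm h4 _ (ih _ ⟨hx, hd, h1, h3⟩ h3.symm.ne h4)
      · exact (hg x _ hx hd h1 (hδ _ (by rw [H.vτ]; exact hx) h1
          (fun y hy => h2 ⟨y, hy⟩))).1
  have hpos' : ∀ x, v x ≠ 0 → Pos x (ty x) := by
    intro x hx
    by_cases h1 : Det v cls x
    · rw [ty1 x h1]; exact hpos x hx h1
    · by_cases h2 : ∃ y, Par E v x y
      · obtain ⟨y, hy⟩ := h2
        have h4 := (hy.det H.clsE).2 h1
        rw [ty3 x y h1 hy]
        exact H.strand _ _ hy.symm h4 _ (hpos y hy.symm.ne h4)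
      · rw [ty2 x h1, dif_neg h2]
        exact hδ x hx h1 (fun y hy => h2 ⟨y, hy⟩)
  have hok : ∀ x, v x ≠ 0 → Det v cls x → ok x (decide (v x = 1)) (ty x) (ty (τ x)) := by
    intro x hx hd
    rw [ty1 x hd, hf]
    by_cases h1 : Det v cls (τ x)
    · rw [if_pos h1, ty1 _ h1, hf, H.tt, if_pos hd]
      exact (H.src x hx hd h1).1
    · rw [if_neg h1, ty2 _ h1]
      refine (hg x _ hx hd h1 ?_).2
      rw [← ty2 _ h1]
      exact hpos' _ (by rw [H.vτ]; exact hx)
  refine ⟨ty, hpos', ?_, ?_, ?_⟩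
  · intro x hx
    rcases H.nosink x hx with h | h
    · exact hok x hx h
    · have h1 := hok (τ x) (by rw [H.vτ]; exact hx) h
      rw [H.vτ, H.tt] at h1
      have h2 := H.oks _ _ _ _ h1
      rwa [H.tt] at h2
  · intro x y h
    by_cases h1 : Det v cls x
    · have h2 : ¬ Det v cls y := fun h' => (h.det H.clsE).1 h' h1
      rw [ty1 x h1, ty3 y x h2 h.symm]
    · have h2 := (h.det H.clsE).2 h1
      rw [ty1 y h2, ty3 x y h1 h]
  · intro x hx h1 h2
    rw [ty2 x h1, dif_neg (by rintro ⟨y, hy⟩; exact h2 y hy)]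

end TyD

end Pool.Agent.MP42.EO
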