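import Pool.Agent.MP42.TQ.Types

/-!
# Infinite stacks of types from local conditions (owner helper18)
-/

set_option autoImplicit false
set_option linter.unusedSectionVars false

namespace Pool.Agent.MP42.EO

open Pool.Agent.MP42.NE

namespace TyD

variable {D : Type*} [Finite D] {E : Equiv.Perm D} {τ : D → D}
  {ok : D → Bool → Bool → Bool → Prop} {K : ℕ} {G : D → Prop} {r : D} {s : ℤ} {v sg : D → ℤ}
  {cls : D → Prop} {Pos : D → Bool → Prop} {a0 : D → Bool}

open Classical in
/-- the stacks of types from the types of the ends -/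
noncomputable def kap (E : Equiv.Perm D) (v : D → ℤ) (ty : D → Bool) (x : D) (j : ℕ) : Bool :=
  if h : ∃ q, RE E v x j q then ty h.choose
  else if h : ∃ p, LE E v x j p then ty h.choose else false

lemma kap_re {ty : D → Bool} {x q : D} {j : ℕ} (h : RE E v x j q) : kap E v ty x j = ty q := by
  have hex : ∃ q, RE E v x j q := ⟨q, h⟩
  unfold kap
  rw [dif_pos hex, h.det hex.choose_spec]

lemma kap_le {ty : D → Bool} (hty : ∀ x y, Par E v x y → ty x = ty y) {x p : D} {j : ℕ}
    (h : LE E v x j p) : kap E v ty x j = ty p := by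
  by_cases hex : ∃ q, RE E v x j q
  · obtain ⟨q, hq⟩ := hex
    rw [kap_re hq]
    exact (hty p q (Or.inl (Mt2.of hq h))).symm
  · have hex' : ∃ p, LE E v x j p := ⟨p, h⟩
    unfold kap
    rw [dif_neg hex, dif_pos hex', h.det hex'.choose_spec]

lemma kap_none {ty : D → Bool} {x : D} {j : ℕ} (h : ∀ q, ¬ RE E v x j q)
    (h' : ∀ q, ¬ LE E v x j q) : kap E v ty x j = false := by
  unfold kap
  rw [dif_neg (by rintro ⟨q, hq⟩; exact h q hq), dif_neg (by rintro ⟨q, hq⟩; exact h' q hq)]

/-- **stacks of types from local conditions** -/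
theorem exists_kappa (H : TyD E τ ok K G r s v sg cls Pos a0) (t0 t1 : Bool) :
    ∃ κ : D → ℕ → Bool, TTS E τ v ok κ ∧ (∀ x j, K + 1 ≤ j → κ x (j + 2) = κ x j) ∧
      (∀ x j, ¬ G x → κ x j = false) ∧
      (∀ x, E.SameCycle r x → ∃ ε : ℕ, ∀ j, K + 1 ≤ j →
        κ x j = if (j + ε) % 2 = 0 then t0 else t1) ∧
      (∀ x, v x = 1 → Pos x (κ (E.symm x) 0)) ∧ ∀ x, v x = -1 → Pos x (κ x 0) := by
  classical
  choose! p0 hp0 using H.pos
  set δ : D → Bool := fun x => if E.SameCycle r x then
    (if ∃ j, K + 1 ≤ j ∧ j % 2 = 0 ∧ (RE E v r j x ∨ LE E v r j x) then t0 else t1)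
    else p0 x with hδ
  obtain ⟨ty, h1, h2, h3, h4⟩ := H.exists_ty δ (by
    intro x hx hd hn
    simp only [hδ]
    by_cases hr : E.SameCycle r x
    · exact H.rootPos x hr hx hd hn _
    · rw [if_neg hr]
      exact hp0 x hx)
  have hv1 := H.v1
  have hpop : ∀ x, v x = 1 → kap E v ty (E.symm x) 0 = ty x := fun x hx =>
    kap_re ((re_pop' hx).2 rfl)
  have hpush : ∀ x, v x = -1 → kap E v ty x 0 = ty x := fun x hx =>
    kap_le h3 (LE.push x hx)
  have htts : TTS E τ v ok (kap E v ty) := by
    constructor
    · intro y j k hk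
      by_cases hq : ∃ q, RE E v (E y) j q
      · obtain ⟨q, hq⟩ := hq
        rw [kap_re hq, kap_re ((re_step (by omega)).2 hq)]
      by_cases hq' : ∃ q, LE E v (E y) j q
      · obtain ⟨q, hq'⟩ := hq'
        rw [kap_le h3 hq', kap_le h3 ((le_step' (by omega)).2 hq')]
      · rw [kap_none (fun q h => hq ⟨q, h⟩) (fun q h => hq' ⟨q, h⟩),
          kap_none (fun q h => hq ⟨q, (re_step (by omega)).1 h⟩)
            (fun q h => hq' ⟨q, (le_step' (by omega)).1 h⟩)]
    · intro y i j hij
      have := hv1 y
      have hy : v y = 1 := by omega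
      obtain rfl : i = 0 := by omega
      obtain rfl : j = 0 := by omega
      have h5 := h2 y (by omega)
      rw [hy, show (decide ((1 : ℤ) = 1)) = true from rfl] at h5
      rw [hpop y hy, hpop (τ y) (by rw [H.vτ]; exact hy)]
      exact h5
    · intro y i j hij
      have := hv1 y
      have hy : v y = -1 := by omega
      obtain rfl : i = 0 := by omega
      obtain rfl : j = 0 := by omega
      have h5 := h2 y (by omega)
      rw [hy, show (decide ((-1 : ℤ) = 1)) = false from rfl] at h5
      rw [hpush y hy, hpush (τ y) (by rw [H.vτ]; exact hy)]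
      exact h5
  have hper : ∀ x j, K + 1 ≤ j → kap E v ty x (j + 2) = kap E v ty x j := by
    intro x j hj
    by_cases hx : G x
    · obtain ⟨N, hN⟩ := H.cirs x hx
      rcases H.sg1 x with h5 | h5
      · rw [h5] at hN
        obtain ⟨q, hq⟩ := hN.re hv1 j
        rw [kap_re hq, kap_re ((hN.re_two (by omega)).2 hq)]
      · rw [h5] at hN
        obtain ⟨q, hq⟩ := hN.le hv1 j
        rw [kap_le h3 hq, kap_le h3 ((hN.le_two (by omega)).2 hq)]
    · rw [kap_none (fun q h => hx (H.re_G h)) (fun q h => hx (H.le_G h)),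
        kap_none (fun q h => hx (H.re_G h)) (fun q h => hx (H.le_G h))]
  have hcls : ∀ {x y : D}, E.SameCycle x y → (cls y ↔ cls x) := by
    intro x y h
    obtain ⟨n, rfl⟩ := h.exists_nat_pow_eq
    clear h
    induction n with
    | zero => exact Iff.rfl
    | succ n ih => rw [pow_succ', Equiv.Perm.mul_apply, H.clsE]; exact ih
  have hroot : ∀ j, K + 1 ≤ j → kap E v ty r j = if j % 2 = 0 then t0 else t1 := by
    intro j hj
    obtain ⟨N, hN⟩ := H.cirs r H.rG
    have h5 := H.sgr
    have h6 := H.sg1 r
    have hR := H.root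
    rcases h6 with h6 | h6
    · rw [h6] at hN h5
      have hc : ¬ cls r := hR.1 h5.symm
      obtain ⟨q, hq⟩ := hN.re hv1 j
      have hs := re_same hq
      have hnd : ¬ Det v cls q := fun h => hc ((hcls hs).1 (h.1 hq.vq))
      have hnp : ∀ y, ¬ Par E v q y := by
        rintro y (hy | hy)
        · have := hy.1
          have := hq.vq
          omega
        · have := H.both hq (hy.le hq)
          omega
      have hq0 := hq.vq
      rw [kap_re hq, h4 q (by omega) hnd hnp]
      simp only [hδ]
      rw [if_pos hs]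
      by_cases hj2 : j % 2 = 0
      · rw [if_pos hj2, if_pos ⟨j, hj, hj2, Or.inl hq⟩]
      · rw [if_neg hj2, if_neg]
        rintro ⟨j', h7, h8, h9 | h9⟩
        · have := hN.re_par hq h9
          omega
        · have := h9.vp
          omega
    · rw [h6] at hN h5
      have hc : cls r := by
        by_contra hc
        have := hR.2 hc
        omega
      obtain ⟨q, hq⟩ := hN.le hv1 j
      have hs := (le_same hq).symm
      have hq0 := hq.vp
      have hnd : ¬ Det v cls q := fun h => by
        have := h.2 ((hcls hs).2 hc)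
        omega
      have hnp : ∀ y, ¬ Par E v q y := by
        rintro y (hy | hy)
        · have := H.both (hy.re hq) hq
          omega
        · have := (mt2_iff.1 hy).1
          omega
      rw [kap_le h3 hq, h4 q (by omega) hnd hnp]
      simp only [hδ]
      rw [if_pos hs]
      by_cases hj2 : j % 2 = 0
      · rw [if_pos hj2, if_pos ⟨j, hj, hj2, Or.inr hq⟩]
      · rw [if_neg hj2, if_neg]
        rintro ⟨j', h7, h8, h9 | h9⟩
        · have := h9.vq
          omega
        · obtain ⟨N', hN'⟩ := H.cirs _ ((H.G_cyc hs).1 H.rG)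
          have := hN'.le_par hq h9
          omega
  refine ⟨kap E v ty, htts, hper, ?_, ?_, ?_, ?_⟩
  · intro x j hx
    exact kap_none (fun q h => hx (H.re_G h)) (fun q h => hx (H.le_G h))
  · intro x hx
    obtain ⟨c, hc, hc'⟩ : ∃ c : ℤ, |c| ≤ K ∧ ∀ j k : ℕ, K ≤ j → (k : ℤ) = j + c →
        kap E v ty x j = kap E v ty r k := by
      obtain ⟨N, hN⟩ := H.cirs r H.rG
      obtain ⟨n0, hn0⟩ := hx.exists_nat_pow_eq
      have hlt : n0 % N < N := Nat.mod_lt _ hN.pos
      have h5 : (E ^ (n0 % N)) r = x := by
        have h6 : n0 = n0 % N + N * (n0 / N) := (Nat.mod_add_div n0 N).symm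
        rw [h6, pow_add, Equiv.Perm.mul_apply, (hN.mul _).1] at hn0
        exact hn0
      generalize n0 % N = n at hlt h5
      refine ⟨hs E v r n, hN.bd n hlt.le, ?_⟩
      intro j k hj hk
      have h6 : ∀ m ≤ n, ∀ k : ℕ, (k : ℤ) = j + hs E v r n - hs E v r (n - m) →
          kap E v ty x j = kap E v ty ((E ^ (n - m)) r) k := by
        intro m
        induction m with
        | zero =>
          intro _ k hk
          rw [Nat.sub_zero] at hk ⊢
          rw [h5]
          congr 1
          omega
        | succ m ih =>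
          intro hm k hk
          have h7 := hs_succ' (E := E) (v := v) r (n - (m + 1))
          rw [show n - (m + 1) + 1 = n - m by omega] at h7
          have b1 := abs_le.1 (hN.bd n hlt.le)
          obtain ⟨k', hk'⟩ : ∃ k' : ℕ, (k' : ℤ) = j + hs E v r n - hs E v r (n - m) := by
            refine ⟨(j + hs E v r n - hs E v r (n - m)).toNat, Int.toNat_of_nonneg ?_⟩
            have h8 : hs E v r n = hs E v r (n - m) + hs E v ((E ^ (n - m)) r) m := by
              rw [← hs_add]; congr 1; omega
            obtain ⟨M, hM⟩ := H.cirs ((E ^ (n - m)) r)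
              ((H.G_cyc ⟨((n - m : ℕ) : ℤ), by rw [zpow_natCast]⟩).1 H.rG)
            have h9 := hN.period hM
            have b3 := abs_le.1 (hM.bd m (by omega))
            omega
          rw [ih (by omega) k' hk']
          have e1 : (E ^ (n - m)) r = E ((E ^ (n - (m + 1))) r) := by
            rw [← Equiv.Perm.mul_apply, ← pow_succ']
            congr 2
            omega
          rw [e1] at h7 ⊢
          apply htts.st
          omega
      have h7 := h6 n le_rfl k (by rw [Nat.sub_self, hs_zero]; omega)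
      rwa [Nat.sub_self, pow_zero, Equiv.Perm.one_apply] at h7
    refine ⟨(c % 2).toNat, fun j hj => ?_⟩
    have hc1 := abs_le.1 hc
    obtain ⟨l, hl⟩ : ∃ l : ℕ, (l : ℤ) = ((j + 2 * (K + 1) : ℕ) : ℤ) + c :=
      ⟨(((j + 2 * (K + 1) : ℕ) : ℤ) + c).toNat, Int.toNat_of_nonneg (by push_cast; omega)⟩
    have h5 := hc' (j + 2 * (K + 1)) l (by omega) hl
    have h6 := per_mod (hper x) hj (j := j + 2 * (K + 1)) (by omega) (by omega)
    rw [h6, h5, hroot l (by push_cast at hl; omega)]
    have h7 : l % 2 = 0 ↔ (j + (c % 2).toNat) % 2 = 0 := by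
      push_cast at hl
      omega
    by_cases h8 : l % 2 = 0
    · rw [if_pos h8, if_pos (h7.1 h8)]
    · rw [if_neg h8, if_neg (fun h => h8 (h7.2 h))]
  · intro x hx
    rw [hpop x hx]
    exact h1 x (by omega)
  · intro x hx
    rw [hpush x hx]
    exact h1 x (by omega)

end TyD

end Pool.Agent.MP42.EO
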